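import Pool.Agent.TH830.UBase

/-!
# Kirchhoff / Thomson principle for uniform spanning trees (job 73)
-/

namespace Pool.Agent.TH830.J73
open Finset Pool.Agent.TH968.UST Pool.Agent.TH830.UST
variable {V : Type*} [DecidableEq V]

set_option linter.unusedSectionVars false

/-- A spanning tree exists. -/
theorem trees_nonempty (r : Setoid V) (E : Finset (Sym2 V)) : (trees r E).Nonempty :=
  Pool.Agent.TH830.UST.trees_nonempty r E

open Classical in
/-- indicator of connectivity -/
noncomputable def ic (r : Setoid V) (T : Finset (Sym2 V)) (a b : V) : ℝ :=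
  if Conn r (T : Set (Sym2 V)) a b then 1 else 0

/-- the symmetrised signed indicator, as a function on edges -/
noncomputable def sg (r : Setoid V) (T : Finset (Sym2 V)) (ψ : V → ℝ) (v : V) : Sym2 V → ℝ :=
  Sym2.lift ⟨fun a b => (ic r (T.erase s(a, b)) v a - ic r (T.erase s(a, b)) v b) / 2 * (ψ a - ψ b),
    fun a b => by
      beta_reduce
      rw [show s(b, a) = s(a, b) from Sym2.eq_swap]
      ring⟩

theorem sg_mk (r : Setoid V) (T : Finset (Sym2 V)) (ψ : V → ℝ) (v a b : V) :
    sg r T ψ v s(a, b) =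
      (ic r (T.erase s(a, b)) v a - ic r (T.erase s(a, b)) v b) / 2 * (ψ a - ψ b) := rfl

theorem ic_congr {r : Setoid V} {T : Finset (Sym2 V)} {a b : V}
    (h : Conn r (T : Set (Sym2 V)) a b) (c : V) : ic r T a c = ic r T b c := by
  classical
  unfold ic
  have : Conn r (T : Set (Sym2 V)) a c ↔ Conn r (T : Set (Sym2 V)) b c :=
    ⟨fun k => ctrans (csymm h) k, fun k => ctrans h k⟩
  exact if_congr this rfl rfl

theorem ic_one {r : Setoid V} {T : Finset (Sym2 V)} {a b : V}
    (h : Conn r (T : Set (Sym2 V)) a b) : ic r T a b = 1 := by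
  unfold ic; rw [if_pos h]

theorem ic_zero {r : Setoid V} {T : Finset (Sym2 V)} {a b : V}
    (h : ¬ Conn r (T : Set (Sym2 V)) a b) : ic r T a b = 0 := by
  unfold ic; rw [if_neg h]

/-- summing the signs along a tree gives the potential difference -/
theorem sum_sg {r : Setoid V} {E T : Finset (Sym2 V)} (hT : T ∈ trees r E) (ψ : V → ℝ)
    (hψ : ∀ a b, r a b → ψ a = ψ b) {x y : V} (h : Conn r (T : Set (Sym2 V)) x y) :
    ∑ f ∈ T, sg r T ψ x f - ∑ f ∈ T, sg r T ψ y f = ψ x - ψ y := by
  induction h with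
  | rel x y h =>
    rcases h with h | h
    · rw [hψ x y h, sub_self, sub_eq_zero]
      refine Finset.sum_congr rfl fun f _ => ?_
      induction f using Sym2.ind with
      | _ a b =>
        rw [sg_mk, sg_mk, ic_congr (crel h), ic_congr (crel h)]
    · have h' : s(x, y) ∈ T := by simpa using h
      rw [← Finset.sum_sub_distrib, Finset.sum_eq_single_of_mem s(x, y) h']
      · rw [sg_mk, sg_mk, ic_one (crefl _ _ _), ic_one (crefl _ _ _), ic_zero (bridge hT h'),
          ic_zero (fun k => bridge hT h' (csymm k))]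
        ring
      · intro f hf hne
        induction f using Sym2.ind with
        | _ a b =>
          have hc : Conn r ((T.erase s(a, b) : Finset (Sym2 V)) : Set (Sym2 V)) x y := by
            refine cedge ?_
            rw [Finset.mem_coe, Finset.mem_erase]
            exact ⟨fun k => hne k.symm, h'⟩
          rw [sg_mk, sg_mk, ic_congr hc, ic_congr hc]
          ring
  | refl x => simp
  | symm x y _ ih => linarith
  | trans x y z _ _ ih1 ih2 => linarith

/-- in a tree, an edge `s(a, b)` and a vertex connected to it -/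
theorem ic_add {r : Setoid V} {E T : Finset (Sym2 V)} (hT : T ∈ trees r E) {a b v : V}
    (hf : s(a, b) ∈ T) :
    ic r (T.erase s(a, b)) v a + ic r (T.erase s(a, b)) v b = ic r T v a := by
  have hm : ∀ {u v}, Conn r ((T.erase s(a, b) : Finset (Sym2 V)) : Set (Sym2 V)) u v →
      Conn r (T : Set (Sym2 V)) u v :=
    fun h => cmono (Finset.coe_subset.2 (Finset.erase_subset _ _)) h
  have hb := bridge hT hf
  by_cases h : Conn r (T : Set (Sym2 V)) v a
  · rw [ic_one h]
    have h1 := cdiff (x := a) (y := b) h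
    rw [← Finset.coe_erase] at h1
    by_cases h2 : Conn r ((T.erase s(a, b) : Finset (Sym2 V)) : Set (Sym2 V)) v a
    · rw [ic_one h2, ic_zero]
      · ring
      · exact fun k => hb (ctrans (csymm h2) k)
    · rw [ic_zero h2, ic_one]
      · ring
      · rcases h1 with h1 | ⟨h1, -⟩ | ⟨h1, -⟩
        · exact absurd h1 h2
        · exact absurd h1 h2
        · exact h1
  · rw [ic_zero h, ic_zero (fun k => h (hm k)), ic_zero]
    · ring
    · intro k
      exact h (ctrans (hm k) (csymm (cedge (by simpa using hf))))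

theorem ic_tree {r : Setoid V} {E T : Finset (Sym2 V)} (hT : T ∈ trees r E) {x y : V}
    (he : s(x, y) ∈ E) (a : V) : ic r T x a = ic r T y a :=
  ic_congr ((mem_trees.1 hT).2.1 x y he) a

/-- the number of trees containing `e` such that `x` is connected to `v` without `e` -/
noncomputable def cnt (r : Setoid V) (E : Finset (Sym2 V)) (e : Sym2 V) (x v : V) : ℝ :=
  ∑ T ∈ (trees r E).filter (fun T => e ∈ T), ic r (T.erase e) x v

/-- the exchange bijection -/
theorem exch (r : Setoid V) (E : Finset (Sym2 V)) {x y a b : V} (he : s(x, y) ∈ E)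
    (hf : s(a, b) ∈ E) :
    ∑ T ∈ (trees r E).filter (fun T => s(x, y) ∈ T),
      ic r (T.erase s(x, y)) x a * (1 - ic r (T.erase s(x, y)) x b) =
    ∑ T ∈ (trees r E).filter (fun T => s(a, b) ∈ T),
      ic r (T.erase s(a, b)) x a * (1 - ic r (T.erase s(a, b)) y a) := by
  classical
  have key : ∀ (P : Finset (Sym2 V) → Prop) [DecidablePred P] (F : Finset (Finset (Sym2 V)))
      (h : Finset (Sym2 V) → ℝ), (∀ T ∈ F, P T → h T = 1) → (∀ T ∈ F, ¬ P T → h T = 0) →
      ∑ T ∈ F, h T = ((F.filter P).card : ℝ) := by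
    intro P _ F h h1 h2
    rw [← Finset.sum_boole]
    refine Finset.sum_congr rfl fun T hT => ?_
    by_cases hP : P T
    · rw [h1 T hT hP, if_pos hP]
    · rw [h2 T hT hP, if_neg hP]
  rw [key (fun T => Conn r ((T.erase s(x, y) : Finset (Sym2 V)) : Set (Sym2 V)) x a ∧
      ¬ Conn r ((T.erase s(x, y) : Finset (Sym2 V)) : Set (Sym2 V)) x b) _ _ ?_ ?_,
    key (fun T => Conn r ((T.erase s(a, b) : Finset (Sym2 V)) : Set (Sym2 V)) x a ∧
      ¬ Conn r ((T.erase s(a, b) : Finset (Sym2 V)) : Set (Sym2 V)) y a) _ _ ?_ ?_]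
  · congr 1
    refine Finset.card_bij' (fun T _ => Insert.insert s(a, b) (T.erase s(x, y)))
      (fun T _ => Insert.insert s(x, y) (T.erase s(a, b))) ?_ ?_ ?_ ?_
    · intro T hT
      simp only [Finset.mem_filter] at hT ⊢
      obtain ⟨⟨hT, hxy⟩, h1, h2⟩ := hT
      have hn : ¬ Conn r ((T.erase s(x, y) : Finset (Sym2 V)) : Set (Sym2 V)) a b :=
        fun k => h2 (ctrans h1 k)
      have hn' : s(a, b) ∉ T.erase s(x, y) := fun k => hn (cedge (Finset.mem_coe.2 k))
      refine ⟨⟨exchange hT hf hn, Finset.mem_insert_self _ _⟩, ?_⟩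
      rw [Finset.erase_insert hn']
      exact ⟨h1, fun k => bridge hT hxy (ctrans h1 (csymm k))⟩
    · intro T hT
      simp only [Finset.mem_filter] at hT ⊢
      obtain ⟨⟨hT, hab⟩, h1, h2⟩ := hT
      have hn : ¬ Conn r ((T.erase s(a, b) : Finset (Sym2 V)) : Set (Sym2 V)) x y :=
        fun k => h2 (ctrans (csymm k) h1)
      have hn' : s(x, y) ∉ T.erase s(a, b) := fun k => hn (cedge (Finset.mem_coe.2 k))
      refine ⟨⟨exchange hT he hn, Finset.mem_insert_self _ _⟩, ?_⟩
      rw [Finset.erase_insert hn']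
      exact ⟨h1, fun k => bridge hT hab (ctrans (csymm h1) k)⟩
    · intro T hT
      simp only [Finset.mem_filter] at hT
      obtain ⟨⟨hT, hxy⟩, h1, h2⟩ := hT
      have hn : ¬ Conn r ((T.erase s(x, y) : Finset (Sym2 V)) : Set (Sym2 V)) a b :=
        fun k => h2 (ctrans h1 k)
      have hn' : s(a, b) ∉ T.erase s(x, y) := fun k => hn (cedge (Finset.mem_coe.2 k))
      rw [Finset.erase_insert hn', Finset.insert_erase hxy]
    · intro T hT
      simp only [Finset.mem_filter] at hT
      obtain ⟨⟨hT, hab⟩, h1, h2⟩ := hT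
      have hn : ¬ Conn r ((T.erase s(a, b) : Finset (Sym2 V)) : Set (Sym2 V)) x y :=
        fun k => h2 (ctrans (csymm k) h1)
      have hn' : s(x, y) ∉ T.erase s(a, b) := fun k => hn (cedge (Finset.mem_coe.2 k))
      rw [Finset.erase_insert hn', Finset.insert_erase hab]
  · rintro T - ⟨h1, h2⟩
    rw [ic_one h1, ic_zero h2]; ring
  · intro T _ h
    by_cases h1 : Conn r ((T.erase s(a, b) : Finset (Sym2 V)) : Set (Sym2 V)) x a
    · have h2 : Conn r ((T.erase s(a, b) : Finset (Sym2 V)) : Set (Sym2 V)) y a := by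
        by_contra h2; exact h ⟨h1, h2⟩
      rw [ic_one h1, ic_one h2]; ring
    · rw [ic_zero h1]; ring
  · rintro T - ⟨h1, h2⟩
    rw [ic_one h1, ic_zero h2]; ring
  · intro T _ h
    by_cases h1 : Conn r ((T.erase s(x, y) : Finset (Sym2 V)) : Set (Sym2 V)) x a
    · have h2 : Conn r ((T.erase s(x, y) : Finset (Sym2 V)) : Set (Sym2 V)) x b := by
        by_contra h2; exact h ⟨h1, h2⟩
      rw [ic_one h1, ic_one h2]; ring
    · rw [ic_zero h1]; ring

/-- the current through the edge `s(a, b)` -/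
theorem cnt_sub (r : Setoid V) (E : Finset (Sym2 V)) {x y a b : V} (he : s(x, y) ∈ E)
    (hf : s(a, b) ∈ E) :
    cnt r E s(x, y) x a - cnt r E s(x, y) x b =
      ∑ T ∈ (trees r E).filter (fun T => s(a, b) ∈ T),
        (ic r (T.erase s(a, b)) x a - ic r (T.erase s(a, b)) y a) := by
  have h1 := exch r E he hf
  have h2 := exch r E (a := b) (b := a) he (by rwa [Sym2.eq_swap])
  rw [show s(b, a) = s(a, b) from Sym2.eq_swap] at h2
  have h3 : cnt r E s(x, y) x a - cnt r E s(x, y) x b =
      ∑ T ∈ (trees r E).filter (fun T => s(x, y) ∈ T),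
        ic r (T.erase s(x, y)) x a * (1 - ic r (T.erase s(x, y)) x b) -
      ∑ T ∈ (trees r E).filter (fun T => s(x, y) ∈ T),
        ic r (T.erase s(x, y)) x b * (1 - ic r (T.erase s(x, y)) x a) := by
    unfold cnt
    rw [← Finset.sum_sub_distrib, ← Finset.sum_sub_distrib]
    refine Finset.sum_congr rfl fun T _ => ?_
    ring
  rw [h3, h1, h2, ← Finset.sum_sub_distrib]
  refine Finset.sum_congr rfl fun T hT => ?_
  obtain ⟨hT, hab⟩ := Finset.mem_filter.1 hT
  have e1 := ic_add hT (v := x) hab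
  have e2 := ic_add hT (v := y) hab
  have e3 := ic_tree hT he a
  set p := ic r (T.erase s(a, b)) x a
  set q := ic r (T.erase s(a, b)) x b
  set u := ic r (T.erase s(a, b)) y a
  set w := ic r (T.erase s(a, b)) y b
  have e4 : p + q = u + w := by rw [e1, e2, e3]
  have b01 : ∀ c d : V, ic r (T.erase s(a, b)) c d = 0 ∨ ic r (T.erase s(a, b)) c d = 1 := by
    intro c d; unfold ic; split_ifs <;> simp
  have hp : p = 0 ∨ p = 1 := b01 _ _
  have hq : q = 0 ∨ q = 1 := b01 _ _
  have hu : u = 0 ∨ u = 1 := b01 _ _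
  have hw : w = 0 ∨ w = 1 := b01 _ _
  have hs : p + q = 0 ∨ p + q = 1 := by
    rw [e1]; unfold ic; split_ifs <;> simp
  rcases hp with hp | hp <;> rcases hq with hq | hq <;> rcases hu with hu | hu <;>
    rcases hw with hw | hw <;> rw [hp, hq] at hs e4 <;> rw [hu, hw] at e4 <;>
    rw [hp, hq, hu, hw] <;>
    first
      | (exfalso; linarith)
      | (exfalso; rcases hs with hs | hs <;> linarith)
      | norm_num

/-- product of increments along an edge -/
def dpr (φ ψ : V → ℝ) : Sym2 V → ℝ :=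
  Sym2.lift ⟨fun a b => (φ a - φ b) * (ψ a - ψ b), fun a b => by ring⟩

theorem dpr_mk (φ ψ : V → ℝ) (a b : V) : dpr φ ψ s(a, b) = (φ a - φ b) * (ψ a - ψ b) := rfl

theorem dsq_mk (φ : V → ℝ) (a b : V) : dsq φ s(a, b) = (φ a - φ b) ^ 2 := rfl

/-- the reproducing identity -/
theorem bilin (r : Setoid V) (E : Finset (Sym2 V)) {x y : V} (he : s(x, y) ∈ E)
    (ψ : V → ℝ) (hψ : ∀ a b, r a b → ψ a = ψ b) :
    ∑ f ∈ E, dpr (fun v => cnt r E s(x, y) x v) ψ f = ((trees r E).card : ℝ) * (ψ x - ψ y) := by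
  classical
  have h1 : ∀ f ∈ E, dpr (fun v => cnt r E s(x, y) x v) ψ f =
      ∑ T ∈ (trees r E).filter (fun T => f ∈ T), (sg r T ψ x f - sg r T ψ y f) := by
    intro f hf
    induction f using Sym2.ind with
    | _ a b =>
      rw [dpr_mk, cnt_sub r E he hf, Finset.sum_mul]
      refine Finset.sum_congr rfl fun T hT => ?_
      obtain ⟨hT, hab⟩ := Finset.mem_filter.1 hT
      have e1 := ic_add hT (v := x) hab
      have e2 := ic_add hT (v := y) hab
      have e3 := ic_tree hT he a
      rw [sg_mk, sg_mk]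
      have e4 : ic r (T.erase s(a, b)) x b = ic r (T.erase s(a, b)) y a +
          ic r (T.erase s(a, b)) y b - ic r (T.erase s(a, b)) x a := by
        rw [e2, ← e3, ← e1]; ring
      rw [e4]; ring
  rw [Finset.sum_congr rfl h1]
  simp_rw [Finset.sum_filter]
  rw [Finset.sum_comm]
  have h2 : ∀ T ∈ trees r E, ∑ f ∈ E, (if f ∈ T then (sg r T ψ x f - sg r T ψ y f) else 0) =
      ψ x - ψ y := by
    intro T hT
    have hTE := (mem_trees.1 hT).1
    rw [← Finset.sum_filter, Finset.filter_mem_eq_inter, Finset.inter_eq_right.2 hTE,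
      Finset.sum_sub_distrib]
    exact sum_sg hT ψ hψ ((mem_trees.1 hT).2.1 x y he)
  rw [Finset.sum_congr rfl h2, Finset.sum_const, nsmul_eq_mul]

/-- number of trees containing `e`, as a real -/
theorem cnt_self (r : Setoid V) (E : Finset (Sym2 V)) (e : Sym2 V) (x : V) :
    cnt r E e x x = (((trees r E).filter (fun T => e ∈ T)).card : ℝ) := by
  unfold cnt
  rw [Finset.sum_congr rfl (fun T _ => ic_one (crefl _ _ _))]
  simp

theorem cnt_other (r : Setoid V) (E : Finset (Sym2 V)) (x y : V) :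
    cnt r E s(x, y) x y = 0 := by
  unfold cnt
  refine Finset.sum_eq_zero fun T hT => ?_
  obtain ⟨hT, hxy⟩ := Finset.mem_filter.1 hT
  exact ic_zero (bridge hT hxy)

theorem ic_nonneg (r : Setoid V) (T : Finset (Sym2 V)) (a b : V) : 0 ≤ ic r T a b := by
  unfold ic; split_ifs <;> norm_num

theorem ic_le_one (r : Setoid V) (T : Finset (Sym2 V)) (a b : V) : ic r T a b ≤ 1 := by
  unfold ic; split_ifs <;> norm_num

theorem cnt_rel (r : Setoid V) (E : Finset (Sym2 V)) (e : Sym2 V) (x a b : V) (h : r a b) :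
    cnt r E e x a = cnt r E e x b := by
  unfold cnt
  refine Finset.sum_congr rfl fun T _ => ?_
  have : Conn r ((T.erase e : Finset (Sym2 V)) : Set (Sym2 V)) x a ↔
      Conn r ((T.erase e : Finset (Sym2 V)) : Set (Sym2 V)) x b :=
    ⟨fun k => ctrans k (crel h), fun k => ctrans k (csymm (crel h))⟩
  classical
  unfold ic
  exact if_congr this rfl rfl

theorem pos_of_not_rel (r : Setoid V) (E : Finset (Sym2 V)) {x y : V} (hxy : s(x, y) ∈ E)
    (hr : ¬ r x y) : 0 < ((trees r E).filter (fun T => s(x, y) ∈ T)).card := by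
  obtain ⟨T, hT, hST⟩ := exists_tree_ge r E {s(x, y)} (by simpa using hxy) (by
    have h := Indep.insert (indep_empty r) (a := x) (b := y) (fun k => hr (cempty k))
    simpa using h)
  refine Finset.card_pos.2 ⟨T, Finset.mem_filter.2 ⟨hT, hST (by simp)⟩⟩

/-- The potential attaining equality. -/
theorem K2 (r : Setoid V) (E : Finset (Sym2 V)) (x y : V) (hxy : s(x, y) ∈ E) (hr : ¬ r x y) :
    ∃ φ : V → ℝ, (∀ a b, r a b → φ a = φ b) ∧ (∀ a, 0 ≤ φ a ∧ φ a ≤ 1) ∧ φ x = 1 ∧ φ y = 0 ∧
      (((trees r E).filter (fun T => s(x, y) ∈ T)).card : ℝ) * energy E φ =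
        ((trees r E).card : ℝ) := by
  set M : ℝ := (((trees r E).filter (fun T => s(x, y) ∈ T)).card : ℝ) with hM
  have hM0 : 0 < M := by
    rw [hM]; exact_mod_cast pos_of_not_rel r E hxy hr
  refine ⟨fun v => cnt r E s(x, y) x v / M, ?_, ?_, ?_, ?_, ?_⟩
  · intro a b h
    simp only
    rw [cnt_rel r E _ x a b h]
  · intro a
    constructor
    · exact div_nonneg (Finset.sum_nonneg fun T _ => ic_nonneg _ _ _ _) hM0.le
    · rw [div_le_one hM0, hM, ← cnt_self r E s(x, y) x]
      refine Finset.sum_le_sum fun T _ => ?_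
      rw [ic_one (crefl _ _ _)]
      exact ic_le_one _ _ _ _
  · simp only
    rw [cnt_self]; exact div_self hM0.ne'
  · simp only
    rw [cnt_other, zero_div]
  · have h := bilin r E hxy (fun v => cnt r E s(x, y) x v) (fun a b h => cnt_rel r E _ x a b h)
    simp only [cnt_self, cnt_other, sub_zero] at h
    rw [← hM] at h
    have h2 : energy E (fun v => cnt r E s(x, y) x v / M) =
        (∑ f ∈ E, dpr (fun v => cnt r E s(x, y) x v) (fun v => cnt r E s(x, y) x v) f) / M ^ 2 := by
      unfold energy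
      rw [Finset.sum_div]
      refine Finset.sum_congr rfl fun f _ => ?_
      induction f using Sym2.ind with
      | _ a b =>
        rw [dsq_mk, dpr_mk]
        field_simp
    rw [h2, h]
    field_simp

theorem dsq_nonneg (φ : V → ℝ) (f : Sym2 V) : 0 ≤ dsq φ f := by
  induction f using Sym2.ind with
  | _ a b => rw [dsq_mk]; positivity

theorem energy_nonneg (E : Finset (Sym2 V)) (φ : V → ℝ) : 0 ≤ energy E φ :=
  Finset.sum_nonneg fun f _ => dsq_nonneg φ f

theorem dpr_le (E : Finset (Sym2 V)) (φ ψ : V → ℝ) :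
    (∑ f ∈ E, dpr φ ψ f) ^ 2 ≤ energy E φ * energy E ψ := by
  classical
  unfold energy
  have h := Finset.sum_mul_sq_le_sq_mul_sq E
    (fun f => φ f.out.1 - φ f.out.2) (fun f => ψ f.out.1 - ψ f.out.2)
  have e1 : ∀ f : Sym2 V, dpr φ ψ f = (φ f.out.1 - φ f.out.2) * (ψ f.out.1 - ψ f.out.2) := by
    intro f
    conv_lhs => rw [← Quot.out_eq f]
    rfl
  have e2 : ∀ (φ : V → ℝ) (f : Sym2 V), dsq φ f = (φ f.out.1 - φ f.out.2) ^ 2 := by
    intro φ f
    conv_lhs => rw [← Quot.out_eq f]
    rfl
  simp only [e1, e2]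
  exact h

/-- Kirchhoff / Thomson: for `φ` constant on `r`-classes,
`(φ x - φ y)^2 ≤ P(s(x,y) ∈ T) * energy φ`. -/
theorem K1 (r : Setoid V) (E : Finset (Sym2 V)) (x y : V) (hxy : s(x, y) ∈ E) (φ : V → ℝ)
    (hφ : ∀ a b, r a b → φ a = φ b) :
    (φ x - φ y) ^ 2 * ((trees r E).card : ℝ) ≤
      (((trees r E).filter (fun T => s(x, y) ∈ T)).card : ℝ) * energy E φ := by
  by_cases hr : r x y
  · rw [hφ x y hr, sub_self]
    have := energy_nonneg E φ
    have h2 : (0 : ℝ) ≤ (((trees r E).filter (fun T => s(x, y) ∈ T)).card : ℝ) := Nat.cast_nonneg _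
    have := mul_nonneg h2 this
    simpa using this
  · set N : ℝ := ((trees r E).card : ℝ) with hN
    set M : ℝ := (((trees r E).filter (fun T => s(x, y) ∈ T)).card : ℝ) with hM
    have hN0 : 0 < N := by
      rw [hN]; exact_mod_cast Finset.card_pos.2 (trees_nonempty r E)
    have h1 := bilin r E hxy φ hφ
    have h2 := bilin r E hxy (fun v => cnt r E s(x, y) x v) (fun a b h => cnt_rel r E _ x a b h)
    simp only [cnt_self, cnt_other, sub_zero] at h2
    rw [← hM, ← hN] at h2
    rw [← hN] at h1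
    have h3 : energy E (fun v => cnt r E s(x, y) x v) = N * M := by
      rw [← h2]
      unfold energy
      refine Finset.sum_congr rfl fun f _ => ?_
      induction f using Sym2.ind with
      | _ a b => rw [dsq_mk, dpr_mk]; ring
    have h4 := dpr_le E (fun v => cnt r E s(x, y) x v) φ
    rw [h1, h3] at h4
    have h5 : N * ((φ x - φ y) ^ 2 * N) ≤ N * (M * energy E φ) := by nlinarith
    exact le_of_mul_le_mul_left h5 hN0

/-- Rayleigh monotonicity (follows from `K1`, `K2`). -/
theorem RM (r r' : Setoid V) (hr : r' ≤ r) (E E' : Finset (Sym2 V)) (hE : E' ⊆ E)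
    (e : Sym2 V) (he : e ∈ E') :
    ((trees r E).filter (fun T => e ∈ T)).card * (trees r' E').card ≤
      ((trees r' E').filter (fun T => e ∈ T)).card * (trees r E).card := by
  induction e using Sym2.ind with
  | _ x y =>
    by_cases hxy : r x y
    · have : (trees r E).filter (fun T => s(x, y) ∈ T) = ∅ := by
        rw [Finset.filter_eq_empty_iff]
        intro T hT hmem
        exact bridge hT hmem (crel hxy)
      rw [this]; simp
    · obtain ⟨φ, h1, -, h2, h3, h4⟩ := K2 r E x y (hE he) hxy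
      have h5 := K1 r' E' x y he φ (fun a b h => h1 a b (hr h))
      rw [h2, h3] at h5
      have h6 : energy E' φ ≤ energy E φ :=
        Finset.sum_le_sum_of_subset_of_nonneg hE fun f _ _ => dsq_nonneg φ f
      have hM' : (0 : ℝ) ≤ (((trees r' E').filter (fun T => s(x, y) ∈ T)).card : ℝ) :=
        Nat.cast_nonneg _
      have hM : (0 : ℝ) ≤ (((trees r E).filter (fun T => s(x, y) ∈ T)).card : ℝ) :=
        Nat.cast_nonneg _
      have h7 : ((trees r' E').card : ℝ) ≤
          (((trees r' E').filter (fun T => s(x, y) ∈ T)).card : ℝ) * energy E φ := by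
        have := mul_le_mul_of_nonneg_left h6 hM'
        linarith
      have h8 : (((trees r E).filter (fun T => s(x, y) ∈ T)).card : ℝ) *
          ((trees r' E').card : ℝ) ≤
          (((trees r' E').filter (fun T => s(x, y) ∈ T)).card : ℝ) * ((trees r E).card : ℝ) := by
        calc _ ≤ (((trees r E).filter (fun T => s(x, y) ∈ T)).card : ℝ) *
              ((((trees r' E').filter (fun T => s(x, y) ∈ T)).card : ℝ) * energy E φ) :=
              mul_le_mul_of_nonneg_left h7 hM
          _ = (((trees r' E').filter (fun T => s(x, y) ∈ T)).card : ℝ) *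
              ((((trees r E).filter (fun T => s(x, y) ∈ T)).card : ℝ) * energy E φ) := by ring
          _ = _ := by rw [h4]
      exact_mod_cast h8

end Pool.Agent.TH830.J73
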