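import Pool.Agent.TH830.UBase

/-!
# Feder–Mihail stochastic domination for uniform spanning trees (job 74)
-/

namespace Pool.Agent.TH830.J74
open Finset Pool.Agent.TH968.UST Pool.Agent.TH830.UST
variable {V : Type*} [DecidableEq V]

set_option linter.unusedSectionVars false

/-- All spanning trees have the same number of edges. -/
theorem trees_card_eq (r : Setoid V) (E : Finset (Sym2 V)) {T T' : Finset (Sym2 V)}
    (hT : T ∈ trees r E) (hT' : T' ∈ trees r E) : T.card = T'.card := by
  suffices H : ∀ n : ℕ, ∀ T ∈ trees r E, (T \ T').card = n → T.card = T'.card from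
    H _ T hT rfl
  intro n
  induction n with
  | zero =>
    intro T hT h0
    have hsub : T ⊆ T' := by
      rw [Finset.card_eq_zero, Finset.sdiff_eq_empty_iff_subset] at h0
      exact h0
    rcases eq_or_ne T T' with h | h
    · rw [h]
    · exfalso
      obtain ⟨e, he, heT⟩ := Finset.exists_of_ssubset (Finset.ssubset_iff_subset_ne.2 ⟨hsub, h⟩)
      induction e using Sym2.ind with
      | _ a b =>
        have h1 := bridge hT' he
        refine h1 (cmono ?_ ((mem_trees.1 hT).2.1 a b ((mem_trees.1 hT').1 he)))
        refine Finset.coe_subset.2 fun f hf => Finset.mem_erase.2 ⟨?_, hsub hf⟩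
        rintro rfl
        exact heT hf
  | succ n ih =>
    intro T hT hn
    have hne : (T \ T').Nonempty := by
      rw [← Finset.card_pos, hn]; omega
    obtain ⟨f, hf⟩ := hne
    rw [Finset.mem_sdiff] at hf
    induction f using Sym2.ind with
    | _ a b =>
      have hb := bridge hT hf.1
      -- some edge of `T'` joins different classes
      have : ∃ c d, s(c, d) ∈ T' ∧
          ¬ Conn r ((T.erase s(a, b) : Finset (Sym2 V)) : Set (Sym2 V)) c d := by
        by_contra hcon
        push Not at hcon
        refine hb (clift (fun _ _ h => crel h) (fun c d h => hcon c d (by simpa using h))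
          ((mem_trees.1 hT').2.1 a b ((mem_trees.1 hT).1 hf.1)))
      obtain ⟨c, d, hcd, hncd⟩ := this
      have hT2 := exchange hT ((mem_trees.1 hT').1 hcd) hncd
      have hcn : s(c, d) ∉ T.erase s(a, b) := fun k => hncd (cedge (Finset.mem_coe.2 k))
      have h1 : (Insert.insert s(c, d) (T.erase s(a, b)) \ T').card = n := by
        rw [Finset.insert_sdiff_of_mem _ hcd, Finset.erase_sdiff_comm, Finset.card_erase_of_mem
          (Finset.mem_sdiff.2 hf), hn]
        rfl
      have h2 := ih _ hT2 h1
      rw [Finset.card_insert_of_notMem hcn, Finset.card_erase_of_mem hf.1] at h2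
      have := Finset.card_pos.2 ⟨_, hf.1⟩
      omega

/-- contraction of an edge -/
def contr (r : Setoid V) (f : Sym2 V) : Setoid V where
  r a b := Conn r {f} a b
  iseqv := ⟨fun a => crefl _ _ a, fun h => csymm h, fun h k => ctrans h k⟩

theorem contr_le {r r' : Setoid V} (h : r' ≤ r) (f : Sym2 V) : contr r' f ≤ contr r f := by
  intro a b hab
  exact clift (fun a b k => crel (h k)) (fun a b k => cedge k) hab

theorem conn_contr (r : Setoid V) (f : Sym2 V) (T : Set (Sym2 V)) (a b : V) :
    Conn (contr r f) T a b ↔ Conn r (Insert.insert f T) a b := by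
  constructor
  · intro h
    refine clift ?_ (fun a b k => cedge (Or.inr k)) h
    intro a b k
    exact cmono (fun e he => Or.inl he) k
  · intro h
    have hc : ∀ a b, Conn r {f} a b → Conn (contr r f) T a b :=
      fun a b k => crel (r := contr r f) k
    refine clift (fun a b k => hc a b (crel k)) ?_ h
    intro a b k
    rcases k with k | k
    · exact hc a b (cedge k)
    · exact cedge k

/-- (D3) -/
theorem notMem_of_rel {r : Setoid V} {E T : Finset (Sym2 V)} (hT : T ∈ trees r E) {a b : V}
    (hab : r a b) : s(a, b) ∉ T := fun h => bridge hT h (crel hab)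

/-- deleting the edge, forward part of (D1) -/
theorem erase_mem {r : Setoid V} {E T : Finset (Sym2 V)} (hT : T ∈ trees r E) {f : Sym2 V}
    (hf : f ∈ T) : T.erase f ∈ trees (contr r f) (E.erase f) := by
  obtain ⟨h1, h2, h3⟩ := mem_trees.1 hT
  have hins : (Insert.insert f ((T.erase f : Finset (Sym2 V)) : Set (Sym2 V)) : Set (Sym2 V)) =
      (T : Set (Sym2 V)) := by
    rw [← Finset.coe_insert, Finset.insert_erase hf]
  refine mem_trees.2 ⟨Finset.erase_subset_erase _ h1, ?_, ?_⟩
  · intro a b hab
    rw [conn_contr, hins]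
    exact h2 a b (Finset.mem_of_mem_erase hab)
  · intro a b hab hc
    rw [conn_contr] at hc
    rw [Finset.mem_coe, Finset.mem_erase] at hab
    refine h3 a b (by simpa using hab.2) (cmono ?_ hc)
    intro e he
    rcases he with rfl | ⟨he, he'⟩
    · exact ⟨Finset.mem_coe.2 hf, fun k => hab.1 k.symm⟩
    · exact ⟨Finset.mem_coe.2 (Finset.mem_of_mem_erase (Finset.mem_coe.1 he)), he'⟩

/-- independence of the re-inserted edge -/
theorem not_conn_contr {r : Setoid V} {a b : V} (hab : ¬ r a b) (T : Finset (Sym2 V))
    (hT : Indep (contr r s(a, b)) (T : Set (Sym2 V))) : ¬ Conn r (T : Set (Sym2 V)) a b := by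
  induction T using Finset.induction_on with
  | empty =>
    intro h
    rw [Finset.coe_empty] at h
    exact hab (cempty h)
  | insert g S hg ih =>
    have hS := ih (hT.mono (Finset.coe_subset.2 (Finset.subset_insert _ _)))
    intro h
    rw [Finset.coe_insert] at h
    induction g using Sym2.ind with
    | _ c d =>
      have h1 : ¬ Conn (contr r s(a, b)) (S : Set (Sym2 V)) c d := by
        have h2 := hT c d (by simp)
        have h3 : (((Insert.insert s(c, d) S : Finset (Sym2 V)) : Set (Sym2 V)) \ {s(c, d)}) =
            (S : Set (Sym2 V)) := by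
          rw [← Finset.coe_erase, Finset.erase_insert hg]
        rwa [h3] at h2
      rw [conn_contr] at h1
      have hm : ∀ {u v}, Conn r (S : Set (Sym2 V)) u v →
          Conn r (Insert.insert s(a, b) (S : Set (Sym2 V))) u v :=
        fun k => cmono (fun e he => Or.inr he) k
      have he : Conn r (Insert.insert s(a, b) (S : Set (Sym2 V))) a b := cedge (Or.inl rfl)
      rcases cinsert h with h | ⟨k1, k2⟩ | ⟨k1, k2⟩
      · exact hS h
      · exact h1 (ctrans (csymm (hm k1)) (ctrans he (csymm (hm k2))))
      · exact h1 (ctrans (hm k2) (ctrans (csymm he) (hm k1)))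

/-- inserting the edge, backward part of (D1) -/
theorem insert_mem {r : Setoid V} {E T : Finset (Sym2 V)} {a b : V} (hf : s(a, b) ∈ E)
    (hab : ¬ r a b) (hT : T ∈ trees (contr r s(a, b)) (E.erase s(a, b))) :
    Insert.insert s(a, b) T ∈ trees r E ∧ s(a, b) ∉ T := by
  obtain ⟨h1, h2, h3⟩ := mem_trees.1 hT
  have hn : s(a, b) ∉ T := fun k => (Finset.mem_erase.1 (h1 k)).1 rfl
  have hnc := not_conn_contr hab T h3
  refine ⟨mem_trees.2 ⟨?_, ?_, ?_⟩, hn⟩
  · exact Finset.insert_subset hf (h1.trans (Finset.erase_subset _ _))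
  · intro c d hcd
    rw [Finset.coe_insert]
    by_cases hh : s(c, d) = s(a, b)
    · exact cedge (Or.inl hh)
    · rw [← conn_contr]
      exact h2 c d (Finset.mem_erase.2 ⟨hh, hcd⟩)
  · rw [Finset.coe_insert]
    refine Indep.insert ?_ hnc
    intro c d hcd hc
    refine h3 c d hcd ?_
    rw [conn_contr]
    exact cmono (fun e he => Or.inr he) hc

/-- (D2) -/
theorem mem_erase_iff {r : Setoid V} {E : Finset (Sym2 V)} {a b : V}
    (hc : Conn r ((E.erase s(a, b) : Finset (Sym2 V)) : Set (Sym2 V)) a b)
    (T : Finset (Sym2 V)) :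
    T ∈ trees r (E.erase s(a, b)) ↔ T ∈ trees r E ∧ s(a, b) ∉ T := by
  constructor
  · intro hT
    obtain ⟨h1, h2, h3⟩ := mem_trees.1 hT
    refine ⟨mem_trees.2 ⟨h1.trans (Finset.erase_subset _ _), ?_, h3⟩,
      fun k => (Finset.mem_erase.1 (h1 k)).1 rfl⟩
    intro c d hcd
    by_cases hh : s(c, d) = s(a, b)
    · have hab : Conn r (T : Set (Sym2 V)) a b :=
        clift (fun _ _ h => crel h) (fun u v h => h2 u v (Finset.mem_coe.1 h)) hc
      rcases Sym2.eq_iff.1 hh with ⟨rfl, rfl⟩ | ⟨rfl, rfl⟩
      · exact hab
      · exact csymm hab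
    · exact h2 c d (Finset.mem_erase.2 ⟨hh, hcd⟩)
  · rintro ⟨hT, hn⟩
    obtain ⟨h1, h2, h3⟩ := mem_trees.1 hT
    refine mem_trees.2 ⟨fun e he => Finset.mem_erase.2 ⟨fun k => hn (k ▸ he), h1 he⟩, ?_, h3⟩
    intro c d hcd
    exact h2 c d (Finset.mem_of_mem_erase hcd)

/-- (D4) every tree contains a bridge -/
theorem mem_of_bridge {r : Setoid V} {E T : Finset (Sym2 V)} {a b : V} (hf : s(a, b) ∈ E)
    (hc : ¬ Conn r ((E.erase s(a, b) : Finset (Sym2 V)) : Set (Sym2 V)) a b)
    (hT : T ∈ trees r E) : s(a, b) ∈ T := by
  by_contra hn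
  obtain ⟨h1, h2, h3⟩ := mem_trees.1 hT
  refine hc (cmono (Finset.coe_subset.2 ?_) (h2 a b hf))
  exact fun e he => Finset.mem_erase.2 ⟨fun k => hn (k ▸ he), h1 he⟩

/-- (D4) contraction and deletion of a bridge have the same trees -/
theorem trees_contr_bridge {r : Setoid V} {E : Finset (Sym2 V)} {a b : V}
    (hc : ¬ Conn r ((E.erase s(a, b) : Finset (Sym2 V)) : Set (Sym2 V)) a b) :
    trees (contr r s(a, b)) (E.erase s(a, b)) = trees r (E.erase s(a, b)) := by
  ext T
  constructor
  · intro hT
    obtain ⟨h1, h2, h3⟩ := mem_trees.1 hT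
    have hm : ∀ {u v}, Conn r (T : Set (Sym2 V)) u v →
        Conn r ((E.erase s(a, b) : Finset (Sym2 V)) : Set (Sym2 V)) u v :=
      fun k => cmono (Finset.coe_subset.2 h1) k
    refine mem_trees.2 ⟨h1, ?_, ?_⟩
    · intro c d hcd
      have h := h2 c d hcd
      rw [conn_contr] at h
      have he : Conn r ((E.erase s(a, b) : Finset (Sym2 V)) : Set (Sym2 V)) c d :=
        cedge (Finset.mem_coe.2 hcd)
      rcases cinsert h with h | ⟨k1, k2⟩ | ⟨k1, k2⟩
      · exact h
      · exact absurd (ctrans (csymm (hm k1)) (ctrans he (csymm (hm k2)))) hc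
      · exact absurd (ctrans (hm k2) (ctrans (csymm he) (hm k1))) hc
    · intro c d hcd hcc
      refine h3 c d hcd ?_
      rw [conn_contr]
      exact cmono (fun e he => Or.inr he) hcc
  · intro hT
    obtain ⟨h1, h2, h3⟩ := mem_trees.1 hT
    have hm : ∀ {u v}, Conn r (T : Set (Sym2 V)) u v →
        Conn r ((E.erase s(a, b) : Finset (Sym2 V)) : Set (Sym2 V)) u v :=
      fun k => cmono (Finset.coe_subset.2 h1) k
    refine mem_trees.2 ⟨h1, ?_, ?_⟩
    · intro c d hcd
      rw [conn_contr]
      exact cmono (fun e he => Or.inr he) (h2 c d hcd)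
    · intro c d hcd hcc
      rw [conn_contr] at hcc
      have hm' : ∀ {u v}, Conn r ((T : Set (Sym2 V)) \ {s(c, d)}) u v →
          Conn r (T : Set (Sym2 V)) u v := fun k => cmono (fun e he => he.1) k
      have he : Conn r (T : Set (Sym2 V)) c d := cedge hcd
      rcases cinsert hcc with h | ⟨k1, k2⟩ | ⟨k1, k2⟩
      · exact h3 c d hcd h
      · exact hc (hm (ctrans (csymm (hm' k1)) (ctrans he (csymm (hm' k2)))))
      · exact hc (hm (ctrans (hm' k2) (ctrans (csymm he) (hm' k1))))

/-- average over the trees -/
noncomputable def av (r : Setoid V) (E : Finset (Sym2 V)) (h : Finset (Sym2 V) → ℝ) : ℝ :=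
  (∑ T ∈ trees r E, h T) / ((trees r E).card : ℝ)

theorem card_pos' (r : Setoid V) (E : Finset (Sym2 V)) : (0 : ℝ) < ((trees r E).card : ℝ) := by
  exact_mod_cast Finset.card_pos.2 (trees_nonempty r E)

theorem sum_eq_av (r : Setoid V) (E : Finset (Sym2 V)) (h : Finset (Sym2 V) → ℝ) :
    ∑ T ∈ trees r E, h T = ((trees r E).card : ℝ) * av r E h := by
  unfold av
  have := card_pos' r E
  field_simp

theorem av_mono (r : Setoid V) (E : Finset (Sym2 V)) (h k : Finset (Sym2 V) → ℝ)
    (hk : ∀ T, h T ≤ k T) : av r E h ≤ av r E k := by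
  unfold av
  exact div_le_div_of_nonneg_right (Finset.sum_le_sum fun T _ => hk T) (card_pos' r E).le

/-- number of trees containing `f` -/
noncomputable def n1 (r : Setoid V) (E : Finset (Sym2 V)) (f : Sym2 V) : ℝ :=
  (((trees r E).filter (fun T => f ∈ T)).card : ℝ)

/-- number of trees not containing `f` -/
noncomputable def n0 (r : Setoid V) (E : Finset (Sym2 V)) (f : Sym2 V) : ℝ :=
  (((trees r E).filter (fun T => f ∉ T)).card : ℝ)

theorem n1_add_n0 (r : Setoid V) (E : Finset (Sym2 V)) (f : Sym2 V) :
    n1 r E f + n0 r E f = ((trees r E).card : ℝ) := by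
  unfold n1 n0
  exact_mod_cast Finset.card_filter_add_card_filter_not (s := trees r E) (fun T => f ∈ T)

theorem n1_nonneg (r : Setoid V) (E : Finset (Sym2 V)) (f : Sym2 V) : 0 ≤ n1 r E f :=
  Nat.cast_nonneg _

theorem n0_nonneg (r : Setoid V) (E : Finset (Sym2 V)) (f : Sym2 V) : 0 ≤ n0 r E f :=
  Nat.cast_nonneg _

/-- claim A -/
theorem sum_mem (r : Setoid V) (E : Finset (Sym2 V)) {f : Sym2 V} (hf : f ∈ E)
    (h : Finset (Sym2 V) → ℝ) :
    ∑ T ∈ (trees r E).filter (fun T => f ∈ T), h T =
      n1 r E f * av (contr r f) (E.erase f) (fun T => h (Insert.insert f T)) := by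
  induction f using Sym2.ind with
  | _ a b =>
    by_cases hab : r a b
    · have h0 : (trees r E).filter (fun T => s(a, b) ∈ T) = ∅ := by
        rw [Finset.filter_eq_empty_iff]
        intro T hT
        exact notMem_of_rel hT hab
      unfold n1
      rw [h0]; simp
    · have hbij : ∀ k : Finset (Sym2 V) → ℝ,
          ∑ T ∈ (trees r E).filter (fun T => s(a, b) ∈ T), k T =
          ∑ T ∈ trees (contr r s(a, b)) (E.erase s(a, b)), k (Insert.insert s(a, b) T) := by
        intro k
        refine Finset.sum_bij' (fun T _ => T.erase s(a, b)) (fun T _ => Insert.insert s(a, b) T)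
          ?_ ?_ ?_ ?_ ?_
        · intro T hT
          obtain ⟨hT, h1⟩ := Finset.mem_filter.1 hT
          exact erase_mem hT h1
        · intro T hT
          obtain ⟨h1, h2⟩ := insert_mem hf hab hT
          exact Finset.mem_filter.2 ⟨h1, Finset.mem_insert_self _ _⟩
        · intro T hT
          obtain ⟨hT, h1⟩ := Finset.mem_filter.1 hT
          exact Finset.insert_erase h1
        · intro T hT
          obtain ⟨h1, h2⟩ := insert_mem hf hab hT
          exact Finset.erase_insert h2
        · intro T hT
          obtain ⟨hT, h1⟩ := Finset.mem_filter.1 hT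
          rw [Finset.insert_erase h1]
      have hcard : n1 r E s(a, b) = ((trees (contr r s(a, b)) (E.erase s(a, b))).card : ℝ) := by
        have := hbij (fun _ => 1)
        unfold n1
        simpa using this
      rw [hbij, sum_eq_av, hcard]

/-- claim B -/
theorem sum_notMem (r : Setoid V) (E : Finset (Sym2 V)) {f : Sym2 V} (hf : f ∈ E)
    (h : Finset (Sym2 V) → ℝ) :
    ∑ T ∈ (trees r E).filter (fun T => f ∉ T), h T = n0 r E f * av r (E.erase f) h := by
  induction f using Sym2.ind with
  | _ a b =>
    by_cases hc : Conn r ((E.erase s(a, b) : Finset (Sym2 V)) : Set (Sym2 V)) a b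
    · have h0 : (trees r E).filter (fun T => s(a, b) ∉ T) = trees r (E.erase s(a, b)) := by
        ext T
        rw [mem_erase_iff hc, Finset.mem_filter]
      unfold n0
      rw [h0, sum_eq_av]
    · have h0 : (trees r E).filter (fun T => s(a, b) ∉ T) = ∅ := by
        rw [Finset.filter_eq_empty_iff]
        intro T hT hn
        exact hn (mem_of_bridge hf hc hT)
      unfold n0
      rw [h0]; simp

/-- splitting an average -/
theorem sum_split (r : Setoid V) (E : Finset (Sym2 V)) {f : Sym2 V} (hf : f ∈ E)
    (h : Finset (Sym2 V) → ℝ) :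
    ∑ T ∈ trees r E, h T =
      n1 r E f * av (contr r f) (E.erase f) (fun T => h (Insert.insert f T)) +
        n0 r E f * av r (E.erase f) h := by
  rw [← sum_mem r E hf h, ← sum_notMem r E hf h]
  exact (Finset.sum_filter_add_sum_filter_not _ _ _).symm

/-- Feder–Mihail, in terms of averages -/
theorem dom_av
    (RM : ∀ (r r' : Setoid V), r' ≤ r → ∀ E E' : Finset (Sym2 V), E' ⊆ E → ∀ e ∈ E',
      ((trees r E).filter (fun T => e ∈ T)).card * (trees r' E').card ≤
        ((trees r' E').filter (fun T => e ∈ T)).card * (trees r E).card)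
    (n : ℕ) : ∀ (r r' : Setoid V) (_ : r' ≤ r) (E E' : Finset (Sym2 V)) (_ : E' ⊆ E)
    (_ : E'.card = n)
    (g : Finset (Sym2 V) → ℝ) (_ : ∀ S T, S ⊆ T → g S ≤ g T),
    av r E (fun T => g (T ∩ E')) ≤ av r' E' g := by
  induction n with
  | zero =>
    intro r r' hr E E' hE hn g hg
    have h0 : E' = ∅ := Finset.card_eq_zero.1 hn
    subst h0
    have h1 : av r' ∅ g = g ∅ := by
      unfold av
      have h2 : ∀ T ∈ trees r' ∅, g T = g ∅ := by
        intro T hT
        rw [Finset.subset_empty.1 (mem_trees.1 hT).1]
      rw [Finset.sum_congr rfl h2, Finset.sum_const, nsmul_eq_mul]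
      have := card_pos' r' (∅ : Finset (Sym2 V))
      field_simp
    have h3 : av r E (fun T => g (T ∩ ∅)) = g ∅ := by
      unfold av
      simp only [Finset.inter_empty, Finset.sum_const, nsmul_eq_mul]
      have := card_pos' r E
      field_simp
    rw [h1, h3]
  | succ n ih =>
    intro r r' hr E E' hE hn g hg
    -- choice of the edge
    obtain ⟨T0, hT0⟩ := trees_nonempty r' E'
    have hk : ∀ T ∈ trees r' E', (T.card : ℝ) = T0.card := by
      intro T hT
      rw [trees_card_eq r' E' hT hT0]
    set N' : ℝ := ((trees r' E').card : ℝ) with hN'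
    have hN'0 : 0 < N' := card_pos' r' E'
    have hdouble : ∀ k : Finset (Sym2 V) → ℝ,
        ∑ f ∈ E', ∑ T ∈ (trees r' E').filter (fun T => f ∈ T), k T =
          (T0.card : ℝ) * ∑ T ∈ trees r' E', k T := by
      intro k
      simp_rw [Finset.sum_filter]
      rw [Finset.sum_comm, Finset.mul_sum]
      refine Finset.sum_congr rfl fun T hT => ?_
      rw [← Finset.sum_filter, Finset.filter_mem_eq_inter,
        Finset.inter_eq_right.2 (mem_trees.1 hT).1, Finset.sum_const, nsmul_eq_mul, hk T hT]
    have hex : ∃ f ∈ E', n1 r' E' f * ∑ T ∈ trees r' E', g T ≤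
        N' * ∑ T ∈ (trees r' E').filter (fun T => f ∈ T), g T := by
      by_contra hcon
      push Not at hcon
      have hne : E'.Nonempty := by rw [← Finset.card_pos, hn]; omega
      have hlt := Finset.sum_lt_sum_of_nonempty hne hcon
      rw [← Finset.mul_sum, hdouble g, ← Finset.sum_mul] at hlt
      have h1 : ∑ f ∈ E', n1 r' E' f = (T0.card : ℝ) * N' := by
        have := hdouble (fun _ => 1)
        simp only [Finset.sum_const, nsmul_eq_mul, mul_one] at this
        unfold n1
        rw [this]
      rw [h1] at hlt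
      nlinarith
    obtain ⟨f, hf, hchoice⟩ := hex
    have hfE := hE hf
    have hE1 : E'.erase f ⊆ E.erase f := Finset.erase_subset_erase _ hE
    have hn1 : (E'.erase f).card = n := by
      rw [Finset.card_erase_of_mem hf, hn]; rfl
    have hg1 : ∀ S T : Finset (Sym2 V), S ⊆ T → g (Insert.insert f S) ≤ g (Insert.insert f T) :=
      fun S T h => hg _ _ (Finset.insert_subset_insert _ h)
    have IH1 := ih (contr r f) (contr r' f) (contr_le hr f) (E.erase f) (E'.erase f) hE1 hn1
      (fun T => g (Insert.insert f T)) hg1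
    have IH0 := ih r r' hr (E.erase f) (E'.erase f) hE1 hn1 g hg
    -- rewriting the left-hand averages
    have e1 : av (contr r f) (E.erase f) (fun T => g (Insert.insert f T ∩ E')) =
        av (contr r f) (E.erase f) (fun T => g (Insert.insert f (T ∩ E'.erase f))) := by
      unfold av
      congr 1
      refine Finset.sum_congr rfl fun T _ => ?_
      show g _ = g _
      congr 1
      ext e
      simp only [Finset.mem_inter, Finset.mem_insert, Finset.mem_erase]
      constructor
      · rintro ⟨h1 | h1, h2⟩
        · exact Or.inl h1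
        · by_cases h3 : e = f
          · exact Or.inl h3
          · exact Or.inr ⟨h1, h3, h2⟩
      · rintro (h1 | ⟨h1, -, h2⟩)
        · exact ⟨Or.inl h1, h1 ▸ hf⟩
        · exact ⟨Or.inr h1, h2⟩
    have e0 : av r (E.erase f) (fun T => g (T ∩ E')) =
        av r (E.erase f) (fun T => g (T ∩ E'.erase f)) := by
      unfold av
      congr 1
      refine Finset.sum_congr rfl fun T hT => ?_
      show g _ = g _
      congr 1
      ext e
      simp only [Finset.mem_inter, Finset.mem_erase]
      constructor
      · rintro ⟨h1, h2⟩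
        exact ⟨h1, (Finset.mem_erase.1 ((mem_trees.1 hT).1 h1)).1, h2⟩
      · rintro ⟨h1, -, h2⟩
        exact ⟨h1, h2⟩
    have hL := sum_split r E hfE (fun T => g (T ∩ E'))
    have hR := sum_split r' E' hf g
    rw [e1, e0] at hL
    set u1 := av (contr r f) (E.erase f) (fun T => g (Insert.insert f (T ∩ E'.erase f)))
    set u0 := av r (E.erase f) (fun T => g (T ∩ E'.erase f))
    set v1 := av (contr r' f) (E'.erase f) (fun T => g (Insert.insert f T)) with hv1
    set v0 := av r' (E'.erase f) g with hv0
    set N : ℝ := ((trees r E).card : ℝ) with hN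
    have hN0 : 0 < N := card_pos' r E
    set a1 := n1 r E f
    set a0 := n0 r E f
    set b1 := n1 r' E' f with hb1
    set b0 := n0 r' E' f with hb0
    have ha : a1 + a0 = N := n1_add_n0 r E f
    have hb : b1 + b0 = N' := n1_add_n0 r' E' f
    have ha1 : 0 ≤ a1 := n1_nonneg _ _ _
    have ha0 : 0 ≤ a0 := n0_nonneg _ _ _
    have hb1' : 0 ≤ b1 := n1_nonneg _ _ _
    have hb0' : 0 ≤ b0 := n0_nonneg _ _ _
    have hRM : a1 * N' ≤ b1 * N := by
      have h1 := RM r r' hr E E' hE f hf
      have h2 : (((trees r E).filter (fun T => f ∈ T)).card : ℝ) * ((trees r' E').card : ℝ) ≤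
        (((trees r' E').filter (fun T => f ∈ T)).card : ℝ) * ((trees r E).card : ℝ) := by
        exact_mod_cast h1
      exact h2
    rw [hR] at hchoice
    have hch2 : ∑ T ∈ (trees r' E').filter (fun T => f ∈ T), g T = b1 * v1 :=
      sum_mem r' E' hf g
    rw [hch2] at hchoice
    -- goal in terms of the sums
    have goal' : (a1 * u1 + a0 * u0) * N' ≤ (b1 * v1 + b0 * v0) * N := by
      have hmain : b1 = 0 ∨ v0 ≤ v1 := by
        rcases eq_or_lt_of_le hb1' with h | h
        · exact Or.inl h.symm
        · right
          rcases eq_or_lt_of_le hb0' with k | k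
          · -- every tree contains `f`
            have hall : ∀ T ∈ trees r' E', f ∈ T := by
              intro T hT
              by_contra hfT
              have : 0 < n0 r' E' f := by
                unfold n0
                exact_mod_cast Finset.card_pos.2 ⟨T, Finset.mem_filter.2 ⟨hT, hfT⟩⟩
              rw [← hb0, ← k] at this
              exact lt_irrefl _ this
            have htr : trees (contr r' f) (E'.erase f) = trees r' (E'.erase f) := by
              induction f using Sym2.ind with
              | _ a b =>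
                apply trees_contr_bridge
                intro hc
                obtain ⟨T, hT⟩ := trees_nonempty r' (E'.erase s(a, b))
                obtain ⟨h1, h2⟩ := (mem_erase_iff hc T).1 hT
                exact h2 (hall T h1)
            rw [hv0, hv1]
            unfold av
            rw [htr]
            exact div_le_div_of_nonneg_right
              (Finset.sum_le_sum fun T _ => hg _ _ (Finset.subset_insert _ _))
              (card_pos' r' _).le
          · have h0 : N' * (b1 * v1) = (b1 + b0) * (b1 * v1) := by rw [hb]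
            have h1 : b1 * (b0 * v0) ≤ b1 * (b0 * v1) := by
              rw [h0] at hchoice
              linarith
            have h2 := le_of_mul_le_mul_left h1 h
            exact le_of_mul_le_mul_left h2 k
      have s1 : (a1 * u1 + a0 * u0) ≤ (a1 * v1 + a0 * v0) := by
        have := mul_le_mul_of_nonneg_left IH1 ha1
        have := mul_le_mul_of_nonneg_left IH0 ha0
        linarith
      have s2 : (a1 * v1 + a0 * v0) * N' ≤ (b1 * v1 + b0 * v0) * N := by
        rcases hmain with h | h
        · rw [h] at hRM hb ⊢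
          have h3 : a1 * N' = 0 := le_antisymm (by linarith) (mul_nonneg ha1 hN'0.le)
          have h4 : a1 = 0 := by
            rcases mul_eq_zero.1 h3 with h5 | h5
            · exact h5
            · exact absurd h5 hN'0.ne'
          rw [h4] at ha ⊢
          have h5 : a0 = N := by linarith
          have h6 : b0 = N' := by linarith
          rw [h5, h6]
          linarith
        · have h3 : a0 * N' - b0 * N = b1 * N - a1 * N' := by
            rw [← ha, ← hb]
            ring
          have h4 : 0 ≤ (b1 * N - a1 * N') * (v1 - v0) :=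
            mul_nonneg (by linarith) (by linarith)
          have h5 : (b1 * v1 + b0 * v0) * N - (a1 * v1 + a0 * v0) * N' =
              (b1 * N - a1 * N') * (v1 - v0) := by
            linear_combination (-v0) * h3
          linarith
      exact (mul_le_mul_of_nonneg_right s1 hN'0.le).trans s2
    show av r E (fun T => g (T ∩ E')) ≤ av r' E' g
    have f1 : av r E (fun T => g (T ∩ E')) = (a1 * u1 + a0 * u0) / N := by
      unfold av
      rw [hL]
    have f2 : av r' E' g = (b1 * v1 + b0 * v0) / N' := by
      unfold av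
      rw [hR]
    rw [f1, f2, div_le_div_iff₀ hN0 hN'0]
    exact goal'

/-- Feder–Mihail: more edges and more identifications make the uniform spanning tree
stochastically smaller on `E'`. -/
theorem dom
    (RM : ∀ (r r' : Setoid V), r' ≤ r → ∀ E E' : Finset (Sym2 V), E' ⊆ E → ∀ e ∈ E',
      ((trees r E).filter (fun T => e ∈ T)).card * (trees r' E').card ≤
        ((trees r' E').filter (fun T => e ∈ T)).card * (trees r E).card)
    (r r' : Setoid V) (hr : r' ≤ r) (E E' : Finset (Sym2 V)) (hE : E' ⊆ E)
    (g : Finset (Sym2 V) → ℝ) (hg : ∀ S T, S ⊆ T → g S ≤ g T) :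
    (∑ T ∈ trees r E, g (T ∩ E')) * ((trees r' E').card : ℝ) ≤
      (∑ T ∈ trees r' E', g T) * ((trees r E).card : ℝ) := by
  have h := dom_av RM _ r r' hr E E' hE rfl g hg
  unfold av at h
  rwa [div_le_div_iff₀ (card_pos' r E) (card_pos' r' E')] at h

end Pool.Agent.TH830.J74
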