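import Pool.Agent.TH43.AB.Ext

/-! # Job 571 (AB43 growth) -/

set_option autoImplicit false

open Module

namespace Pool.Agent.TH830.J571

open Pool.Agent.TH43.AB

/-- rank-nullity on a submodule -/
theorem rn {k V W : Type*} [Field k] [AddCommGroup V] [Module k V] [AddCommGroup W] [Module k W]
    [FiniteDimensional k V] (p : Submodule k V) (f : V →ₗ[k] W) :
    finrank k (p.map f) + finrank k (p ⊓ LinearMap.ker f : Submodule k V) = finrank k p := by
  have h1 := LinearMap.finrank_range_add_finrank_ker (f.domRestrict p)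
  rw [LinearMap.range_domRestrict, LinearMap.ker_domRestrict] at h1
  rw [← h1]
  congr 1
  rw [← Submodule.map_comap_subtype]
  exact Submodule.finrank_map_subtype_eq p _

variable {k : Type} [Field k]

theorem finrank_F (n : ℕ) : finrank k (Fin n → SR k) = 14 * n := by
  rw [Module.finrank_pi_fintype]
  simp [SR.finrank_eq, mul_comm]

/-- multiplication by `a` -/
def al (n : ℕ) : (Fin n → SR k) →ₗ[k] (Fin n → SR k) where
  toFun v := fun i => SR.A * v i
  map_add' v w := by funext i; simp [mul_add]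
  map_smul' c v := by funext i; simp

theorem ker_al (n : ℕ) : LinearMap.ker (al (k := k) n) = LinearMap.range (al (k := k) n) := by
  ext v
  rw [LinearMap.mem_ker, LinearMap.mem_range]
  constructor
  · intro h
    refine ⟨fun i => ⟨(v i).a, 0, (v i).ax, (v i).ay, (v i).av, (v i).aw, (v i).az, (v i).ao,
      0, 0, 0, 0, 0, 0⟩, ?_⟩
    funext i
    have h1 : SR.A * v i = 0 := congrFun h i
    have e1 := congrArg SR.a h1
    have e2 := congrArg SR.ax h1
    have e3 := congrArg SR.ay h1
    have e4 := congrArg SR.av h1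
    have e5 := congrArg SR.aw h1
    have e6 := congrArg SR.az h1
    have e7 := congrArg SR.ao h1
    simp [SR.A] at e1 e2 e3 e4 e5 e6 e7
    show SR.A * _ = v i
    ext <;> simp [SR.A, e1, e2, e3, e4, e5, e6, e7]
  · rintro ⟨w, rfl⟩
    funext i
    show SR.A * (SR.A * w i) = 0
    ext <;> simp [SR.A]

theorem finrank_range_al (n : ℕ) : finrank k (LinearMap.range (al (k := k) n)) = 7 * n := by
  have h1 := LinearMap.finrank_range_add_finrank_ker (al (k := k) n)
  rw [ker_al, finrank_F] at h1
  omega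

/-- the differentials as `k`-linear maps -/
def Lk (X : Res k) (i : ℕ) : (Fin (X.b (i + 1)) → SR k) →ₗ[k] (Fin (X.b i) → SR k) :=
  (X.P i).mulVecLin.restrictScalars k

theorem ker_Lk (X : Res k) (i : ℕ) :
    LinearMap.ker (Lk X i) = LinearMap.range (Lk X (i + 1)) := by
  ext v
  exact X.exact i v

theorem al_Lk (X : Res k) (i : ℕ) (v : Fin (X.b (i + 1)) → SR k) :
    al _ (Lk X i v) = Lk X i (al _ v) := by
  funext p
  show SR.A * (X.P i).mulVec v p = (X.P i).mulVec (fun q => SR.A * v q) p
  rw [Matrix.mulVec, Matrix.mulVec, dotProduct, dotProduct, Finset.mul_sum]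
  exact Finset.sum_congr rfl fun q _ => by ring

/-- the dimension of the `i`-th syzygy -/
noncomputable def D (X : Res k) (i : ℕ) : ℕ := finrank k (LinearMap.range (Lk X i))

/-- the dimension of `a` times the `i`-th syzygy -/
noncomputable def W (X : Res k) (i : ℕ) : ℕ :=
  finrank k ((LinearMap.range (Lk X i)).map (al (X.b i)))

theorem step1 (X : Res k) (i : ℕ) : D X i + D X (i + 1) = 14 * X.b (i + 1) := by
  have h1 := LinearMap.finrank_range_add_finrank_ker (Lk X i)
  rw [ker_Lk, finrank_F] at h1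
  exact h1

theorem step2a (X : Res k) (i : ℕ) :
    W X i + finrank k (LinearMap.range (Lk X i) ⊓ LinearMap.ker (al (X.b i)) :
      Submodule k (Fin (X.b i) → SR k)) = D X i :=
  rn _ _

theorem step2 (X : Res k) (i : ℕ) : W X i + D X (i + 1) = 7 * X.b (i + 1) + W X (i + 1) := by
  have h1 := rn (LinearMap.range (al (k := k) (X.b (i + 1)))) (Lk X i)
  have h2 : (LinearMap.range (al (k := k) (X.b (i + 1)))).map (Lk X i) =
      (LinearMap.range (Lk X i)).map (al (X.b i)) := by
    rw [← LinearMap.range_comp, ← LinearMap.range_comp]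
    congr 1
    refine LinearMap.ext fun v => ?_
    exact (al_Lk X i v).symm
  rw [h2, finrank_range_al, ker_Lk, inf_comm, ← ker_al] at h1
  have h3 := step2a X (i + 1)
  have h4 : finrank k ((LinearMap.range (Lk X i)).map (al (X.b i))) = W X i := rfl
  rw [h4] at h1
  omega

/-- vectors with `ao`-components -/
def zm (n : ℕ) : (Fin n → k) →ₗ[k] (Fin n → SR k) where
  toFun c := fun i => ⟨0, 0, 0, 0, 0, 0, 0, 0, 0, 0, 0, 0, 0, c i⟩
  map_add' v w := by funext i; ext <;> simp
  map_smul' c v := by funext i; ext <;> simp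

theorem step3 (X : Res k) (i : ℕ) : W X i ≤ X.b (i + 1) + X.b i := by
  set g : Fin (X.b (i + 1)) → (Fin (X.b i) → SR k) := fun q p => SR.A * X.P i p q with hg
  have hle : (LinearMap.range (Lk X i)).map (al (X.b i)) ≤
      Submodule.span k (Set.range g) ⊔ LinearMap.range (zm (k := k) (X.b i)) := by
    rintro _ ⟨_, ⟨v, rfl⟩, rfl⟩
    rw [Submodule.mem_sup]
    refine ⟨∑ q, (v q).u • g q, Submodule.sum_mem _ fun q _ => Submodule.smul_mem _ _
      (Submodule.subset_span ⟨q, rfl⟩), al _ (Lk X i v) - ∑ q, (v q).u • g q, ?_, by abel⟩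
    refine ⟨fun p => (SR.A * (X.P i).mulVec v p - ∑ q, (v q).u • g q p).ao, ?_⟩
    funext p
    have h1 : (al (X.b i) (Lk X i v) - ∑ q, (v q).u • g q) p =
        ∑ q, (SR.A * (X.P i p q * v q) - (v q).u • (SR.A * X.P i p q)) := by
      rw [Pi.sub_apply, Finset.sum_apply, Finset.sum_sub_distrib]
      congr 1
      show SR.A * (X.P i).mulVec v p = _
      rw [Matrix.mulVec, dotProduct, Finset.mul_sum]
    have h2 : SR.A * (X.P i).mulVec v p - ∑ q, (v q).u • g q p =
        ∑ q, (SR.A * (X.P i p q * v q) - (v q).u • (SR.A * X.P i p q)) := by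
      rw [← h1, Pi.sub_apply, Finset.sum_apply]
      rfl
    have h3 : ∀ q, ∃ c : k, SR.A * (X.P i p q * v q) - (v q).u • (SR.A * X.P i p q) =
        ⟨0, 0, 0, 0, 0, 0, 0, 0, 0, 0, 0, 0, 0, c⟩ := by
      intro q
      refine ⟨(SR.A * (X.P i p q * v q) - (v q).u • (SR.A * X.P i p q)).ao, ?_⟩
      have h0 := X.min i p q
      ext <;> simp [SR.A, h0] <;> ring
    have h4 : ∀ s : Finset (Fin (X.b (i + 1))), ∃ c : k,
        ∑ q ∈ s, (SR.A * (X.P i p q * v q) - (v q).u • (SR.A * X.P i p q)) =
          ⟨0, 0, 0, 0, 0, 0, 0, 0, 0, 0, 0, 0, 0, c⟩ := by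
      intro s
      classical
      induction s using Finset.induction_on with
      | empty => exact ⟨0, by rw [Finset.sum_empty]; ext <;> simp⟩
      | insert q s hq ih =>
        obtain ⟨c, hc⟩ := ih
        obtain ⟨c', hc'⟩ := h3 q
        refine ⟨c' + c, ?_⟩
        rw [Finset.sum_insert hq, hc, hc']
        ext <;> simp
    obtain ⟨c, hc⟩ := h4 Finset.univ
    show (⟨0, 0, 0, 0, 0, 0, 0, 0, 0, 0, 0, 0, 0,
      (SR.A * (X.P i).mulVec v p - ∑ q, (v q).u • g q p).ao⟩ : SR k) = _
    rw [h1, h2, hc]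
  have h1 : W X i ≤ _ := Submodule.finrank_mono hle
  refine h1.trans ((Submodule.finrank_add_le_finrank_add_finrank _ _).trans
    (add_le_add ?_ ?_))
  · have := finrank_range_le_card (R := k) g
    simpa [Set.finrank] using this
  · have := LinearMap.finrank_range_le (zm (k := k) (X.b i))
    simpa using this

theorem growth (X : Res k) : ∃ h : ℕ, ∀ i, 5 * X.b (i + 1) ≤ X.b (i + 2) + X.b i + h := by
  have h0 : 2 * W X 0 ≤ D X 0 := by
    have h1 := step2a X 0
    have h2 : W X 0 ≤ finrank k (LinearMap.range (Lk X 0) ⊓ LinearMap.ker (al (X.b 0)) :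
      Submodule k (Fin (X.b 0) → SR k)) := by
      refine Submodule.finrank_mono ?_
      rintro _ ⟨v, ⟨w, rfl⟩, rfl⟩
      refine ⟨⟨al _ w, (al_Lk X 0 w).symm⟩, ?_⟩
      have h3 : al (X.b 0) (Lk X 0 w) ∈ LinearMap.range (al (k := k) (X.b 0)) := ⟨_, rfl⟩
      rw [← ker_al] at h3
      exact h3
    omega
  obtain ⟨h, hh⟩ := Nat.exists_eq_add_of_le h0
  have key : ∀ i, D X i = 2 * W X i + h := by
    intro i
    induction i with
    | zero => exact hh
    | succ i ih =>
      have h1 := step1 X i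
      have h2 := step2 X i
      omega
  refine ⟨h, fun i => ?_⟩
  have h1 := step2 X i
  have h2 := key (i + 1)
  have h3 := step3 X i
  have h4 := step3 X (i + 1)
  rw [show i + 1 + 1 = i + 2 from rfl] at h4
  omega

end Pool.Agent.TH830.J571
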