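import Pool.Agent.TH43.AB.Ext

/-! # Job 572 (AB43 ineq) -/

set_option autoImplicit false

open Module

namespace Pool.Agent.TH830.J572

open Pool.Agent.TH43.AB

theorem exists_fac {R M N P : Type*} [CommRing R] [AddCommGroup M] [Module R M] [AddCommGroup N]
    [Module R N] [AddCommGroup P] [Module R P] (f : M →ₗ[R] N) (L : M →ₗ[R] P)
    (h : LinearMap.ker f ≤ LinearMap.ker L) :
    ∃ φ : LinearMap.range f →ₗ[R] P, ∀ w (hw : f w ∈ LinearMap.range f), φ ⟨f w, hw⟩ = L w := by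
  refine ⟨((LinearMap.ker f).liftQ L h) ∘ₗ f.quotKerEquivRange.symm.toLinearMap, fun w hw => ?_⟩
  have h1 : (⟨f w, hw⟩ : LinearMap.range f) = f.quotKerEquivRange (Submodule.Quotient.mk w) := by
    apply Subtype.ext
    rfl
  rw [h1, LinearMap.comp_apply, LinearEquiv.coe_coe, LinearEquiv.symm_apply_apply,
    Submodule.liftQ_apply]

variable {k : Type} [Field k]

theorem finrank_F (n : ℕ) : finrank k (Fin n → SR k) = 14 * n := by
  rw [Module.finrank_pi_fintype]
  simp [SR.finrank_eq, mul_comm]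

variable (X Y : Res k)

/-- the transposed differential on tuples of elements of `N` -/
def T (i j : ℕ) : (Fin (X.b i) → Y.N j) →ₗ[k] (Fin (X.b (i + 1)) → Y.N j) where
  toFun n q := ∑ p, X.P i p q • n p
  map_add' m n := by
    funext q
    simp only [Pi.add_apply, smul_add, Finset.sum_add_distrib]
  map_smul' c n := by
    funext q
    calc ∑ p, X.P i p q • (c • n p) = ∑ p, c • (X.P i p q • n p) :=
          Finset.sum_congr rfl fun p _ => smul_comm (X.P i p q) c (n p)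
      _ = c • ∑ p, X.P i p q • n p := by
          apply Subtype.ext
          rw [Submodule.coe_smul_of_tower, Submodule.coe_sum, Submodule.coe_sum, Finset.smul_sum]
          rfl

theorem T_apply (i j : ℕ) (n : Fin (X.b i) → Y.N j) (q : Fin (X.b (i + 1))) :
    T X Y i j n q = ∑ p, X.P i p q • n p := rfl

/-- the socle -/
def so (b j : ℕ) : (Fin b → Fin (Y.b j) → k) →ₗ[k] (Fin b → Y.N j) where
  toFun c p := ⟨fun r => ⟨0, 0, 0, 0, 0, 0, 0, 0, 0, 0, 0, 0, 0, c p r⟩, by
    show (Y.P j).transpose.mulVec _ = 0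
    funext q
    rw [Matrix.mulVec, dotProduct]
    refine Finset.sum_eq_zero fun r _ => ?_
    rw [Matrix.transpose_apply]
    have h0 := Y.min j r q
    ext <;> simp [h0]⟩
  map_add' c d := by
    funext p
    apply Subtype.ext
    funext r
    show (⟨0, 0, 0, 0, 0, 0, 0, 0, 0, 0, 0, 0, 0, _⟩ : SR k) =
      ⟨0, 0, 0, 0, 0, 0, 0, 0, 0, 0, 0, 0, 0, _⟩ + ⟨0, 0, 0, 0, 0, 0, 0, 0, 0, 0, 0, 0, 0, _⟩
    ext <;> simp
  map_smul' c d := by
    funext p
    apply Subtype.ext
    funext r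
    show (⟨0, 0, 0, 0, 0, 0, 0, 0, 0, 0, 0, 0, 0, _⟩ : SR k) =
      c • ⟨0, 0, 0, 0, 0, 0, 0, 0, 0, 0, 0, 0, 0, _⟩
    ext <;> simp

theorem so_inj (b j : ℕ) : Function.Injective (so Y b j) := by
  intro c d h
  funext p r
  have h1 := congrArg (fun n => ((n p).1 r).ao) h
  exact h1

theorem so_le (i j : ℕ) : LinearMap.range (so Y (X.b i) j) ≤ LinearMap.ker (T X Y i j) := by
  rintro _ ⟨c, rfl⟩
  rw [LinearMap.mem_ker]
  funext q
  rw [T_apply]
  refine Finset.sum_eq_zero fun p _ => ?_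
  apply Subtype.ext
  funext r
  show X.P i p q * ⟨0, 0, 0, 0, 0, 0, 0, 0, 0, 0, 0, 0, 0, _⟩ = 0
  have h0 := X.min i p q
  ext <;> simp [h0]

instance finN (j : ℕ) : Module.Finite k (Y.N j) := by
  have h1 : Module.Finite k ((Y.N j).restrictScalars k) := inferInstance
  exact h1

theorem ker_ge (i j : ℕ) : X.b i * Y.b j ≤ finrank k (LinearMap.ker (T X Y i j)) := by
  have h1 := Submodule.finrank_mono (so_le X Y i j)
  rw [LinearMap.finrank_range_of_inj (so_inj Y _ _), Module.finrank_pi_fintype] at h1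
  simpa using h1

theorem finrank_tuple (b j : ℕ) : finrank k (Fin b → Y.N j) = b * finrank k (Y.N j) := by
  rw [Module.finrank_pi_fintype]
  simp

theorem exact_T (i j : ℕ)
    (h : ∀ φ : X.U i →ₗ[SR k] Y.N j,
      ∃ ψ : (Fin (X.b i) → SR k) →ₗ[SR k] Y.N j, ψ ∘ₗ (X.U i).subtype = φ) :
    LinearMap.ker (T X Y (i + 1) j) ≤ LinearMap.range (T X Y i j) := by
  intro n hn
  rw [LinearMap.mem_ker] at hn
  set L : (Fin (X.b (i + 1)) → SR k) →ₗ[SR k] Y.N j := Fintype.linearCombination (SR k) n with hL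
  have hLa : ∀ w, L w = ∑ q, w q • n q := fun w => by
    rw [hL, Fintype.linearCombination_apply]
  have hker : LinearMap.ker (X.P i).mulVecLin ≤ LinearMap.ker L := by
    intro w hw
    obtain ⟨w', rfl⟩ := (X.exact i w).1 hw
    rw [LinearMap.mem_ker, hLa]
    have h1 : ∀ q, (X.P (i + 1)).mulVec w' q • n q = ∑ r, w' r • (X.P (i + 1) q r • n q) := by
      intro q
      rw [Matrix.mulVec, dotProduct, Finset.sum_smul]
      exact Finset.sum_congr rfl fun r _ => by rw [smul_smul, mul_comm]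
    simp only [h1]
    rw [Finset.sum_comm]
    refine Finset.sum_eq_zero fun r _ => ?_
    rw [← Finset.smul_sum]
    have h2 := congrFun hn r
    rw [T_apply] at h2
    rw [h2]
    simp
  obtain ⟨φ, hφa⟩ : ∃ φ : X.U i →ₗ[SR k] Y.N j, ∀ w (hw : (X.P i).mulVecLin w ∈ X.U i),
      φ ⟨(X.P i).mulVecLin w, hw⟩ = L w := exists_fac _ L hker
  obtain ⟨ψ, hψ⟩ := h φ
  classical
  refine ⟨fun p => ψ (Pi.single p 1), ?_⟩
  funext q
  rw [T_apply]
  have h1 : ∑ p, X.P i p q • ψ (Pi.single p 1) = ψ ((X.P i).mulVecLin (Pi.single q 1)) := by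
    rw [← (Pi.basisFun (SR k) (Fin (X.b i))).sum_repr ((X.P i).mulVecLin (Pi.single q 1)), map_sum]
    refine Finset.sum_congr rfl fun p _ => ?_
    rw [map_smul]
    simp
  rw [h1]
  have h2 : ψ ((X.P i).mulVecLin (Pi.single q 1)) = L (Pi.single q 1) :=
    (LinearMap.congr_fun hψ ⟨(X.P i).mulVecLin (Pi.single q 1), ⟨_, rfl⟩⟩).trans
      (hφa (Pi.single q 1) ⟨_, rfl⟩)
  have h3 : L (Pi.single q 1) = n q := by
    rw [hLa, Finset.sum_eq_single q]
    · simp
    · intro r _ hr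
      simp [hr]
    · simp
  rw [h3] at h2
  exact h2

theorem main_le (h : ∀ i j, ∀ φ : X.U i →ₗ[SR k] Y.N j,
      ∃ ψ : (Fin (X.b i) → SR k) →ₗ[SR k] Y.N j, ψ ∘ₗ (X.U i).subtype = φ) (i j : ℕ) :
    (X.b i + X.b (i + 1)) * Y.b j ≤ X.b i * finrank k (Y.N j) := by
  have h1 := LinearMap.finrank_range_add_finrank_ker (T X Y i j)
  rw [finrank_tuple] at h1
  have h2 := ker_ge X Y i j
  have h3 := ker_ge X Y (i + 1) j
  have h4 := Submodule.finrank_mono (exact_T X Y i j (h i j))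
  rw [← h1, add_mul]
  omega

theorem ineq (h : ∀ i j, ∀ φ : X.U i →ₗ[SR k] Y.N j,
      ∃ ψ : (Fin (X.b i) → SR k) →ₗ[SR k] Y.N j, ψ ∘ₗ (X.U i).subtype = φ)
    (hN : ∀ j (c : Fin (Y.b (j + 1)) → SR k), c ∈ Y.N (j + 1) ↔
      ∃ d, (Y.P j).transpose.mulVec d = c) (i j : ℕ) :
    (X.b i + X.b (i + 1)) * (Y.b j + Y.b (j + 1)) ≤ 14 * (X.b i * Y.b j) := by
  have h1 : finrank k (Y.N (j + 1)) + finrank k (Y.N j) = 14 * Y.b j := by
    have h2 := LinearMap.finrank_range_add_finrank_ker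
      ((Y.P j).transpose.mulVecLin.restrictScalars k)
    rw [finrank_F] at h2
    have h3 : LinearMap.range ((Y.P j).transpose.mulVecLin.restrictScalars k) =
        (Y.N (j + 1)).restrictScalars k := by
      ext c
      exact (hN j c).symm
    have h4 : LinearMap.ker ((Y.P j).transpose.mulVecLin.restrictScalars k) =
        (Y.N j).restrictScalars k := by
      ext c
      rfl
    rw [h3, h4] at h2
    exact h2
  have h2 := main_le X Y h i j
  have h3 := main_le X Y h i (j + 1)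
  calc (X.b i + X.b (i + 1)) * (Y.b j + Y.b (j + 1))
      = (X.b i + X.b (i + 1)) * Y.b j + (X.b i + X.b (i + 1)) * Y.b (j + 1) := by ring
    _ ≤ X.b i * finrank k (Y.N j) + X.b i * finrank k (Y.N (j + 1)) := add_le_add h2 h3
    _ = X.b i * (finrank k (Y.N (j + 1)) + finrank k (Y.N j)) := by ring
    _ = 14 * (X.b i * Y.b j) := by rw [h1]; ring

end Pool.Agent.TH830.J572
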