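import Pool.Agent.TH239.FF.Gen

set_option autoImplicit false

namespace Pool.Agent.TH830.J945

open Set Filter Topology MeasureTheory Pool.Agent.TH239.FF

/-- Cauchy product with a shift -/
theorem conv_hasSum (f : ℕ → ℝ) (h0 : ∀ n, 0 ≤ f n) (a : ℝ) (hf : HasSum f a) :
    HasSum (fun n : ℕ => ∑ i ∈ Finset.range n, f i * f (n - 1 - i)) (a ^ 2) := by
  have hn : Summable (fun n => ‖f n‖) := by
    have : (fun n => ‖f n‖) = f := by
      funext n
      exact Real.norm_of_nonneg (h0 n)
    rw [this]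
    exact hf.summable
  have h1 := summable_norm_sum_mul_range_of_summable_norm hn hn
  have h2 := tsum_mul_tsum_eq_tsum_sum_range_of_summable_norm hn hn
  have h3 : HasSum (fun n : ℕ => ∑ i ∈ Finset.range (n + 1), f i * f (n - i)) (a ^ 2) := by
    have h4 := h1.of_norm.hasSum
    rw [← h2, hf.tsum_eq, ← sq] at h4
    exact h4
  have h5 := (hasSum_nat_add_iff (f := fun n : ℕ => ∑ i ∈ Finset.range n, f i * f (n - 1 - i))
    (g := a ^ 2) 1).mp (by
      have e : (fun n : ℕ => ∑ i ∈ Finset.range (n + 1), f i * f (n + 1 - 1 - i)) =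
          fun n : ℕ => ∑ i ∈ Finset.range (n + 1), f i * f (n - i) := by
        funext n
        simp
      rw [e]
      exact h3)
  simpa using h5

variable {c : ℕ → ℝ → ℝ}

/-- the convolution -/
noncomputable def cv (c : ℕ → ℝ → ℝ) (n : ℕ) (t : ℝ) : ℝ :=
  ∑ i ∈ Finset.range n, c i t * c (n - 1 - i) t

theorem cv_nonneg (h : Sol c) (n : ℕ) {t : ℝ} (ht : 0 ≤ t) : 0 ≤ cv c n t :=
  Finset.sum_nonneg fun i _ => mul_nonneg (h.nn i t ht) (h.nn _ t ht)

theorem cv_hasSum (h : Sol c) {t : ℝ} (ht : 0 ≤ t) : HasSum (fun n => cv c n t) 1 := by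
  have := conv_hasSum (fun n => c n t) (fun n => h.nn n t ht) 1 (h.sm t ht)
  rw [one_pow] at this
  exact this

theorem cv_exp (h : Sol c) {t x : ℝ} (ht : 0 ≤ t)
    (hs : Summable (fun n : ℕ => c n t * Real.exp (-((n : ℝ) + 1) * x))) :
    HasSum (fun n : ℕ => cv c n t * Real.exp (-((n : ℝ) + 1) * x)) ((mo c 0 t x) ^ 2) := by
  have h1 := conv_hasSum (fun n : ℕ => c n t * Real.exp (-((n : ℝ) + 1) * x))
    (fun n => mul_nonneg (h.nn n t ht) (Real.exp_pos _).le) _ hs.hasSum
  have h2 : (∑' n : ℕ, c n t * Real.exp (-((n : ℝ) + 1) * x)) = mo c 0 t x := by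
    unfold mo
    simp
  rw [h2] at h1
  refine h1.congr_fun ?_ |> fun h => h
  intro n
  simp only [cv]
  rw [Finset.sum_mul]
  refine Finset.sum_congr rfl fun i hi => ?_
  rw [Finset.mem_range] at hi
  have h3 : Real.exp (-((n : ℝ) + 1) * x) =
      Real.exp (-((i : ℝ) + 1) * x) * Real.exp (-(((n - 1 - i : ℕ) : ℝ) + 1) * x) := by
    rw [← Real.exp_add]
    congr 1
    have h4 : ((n - 1 - i : ℕ) : ℝ) = (n : ℝ) - 1 - i := by
      rw [Nat.cast_sub (by omega), Nat.cast_sub (by omega)]
      simp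
    rw [h4]
    ring
  rw [h3]
  ring

theorem dr_eq (n : ℕ) (t : ℝ) : dr c n t = ((n : ℝ) + 1) * (-(c n t) + 1 / 2 * cv c n t) := by
  unfold dr cv
  ring

theorem inc_all (h : Sol c) (b : Bas c) (n : ℕ) {s t : ℝ} (hs : 0 ≤ s) (hst : s ≤ t) :
    c n t - c n s = (∫ r in s..t, dr c n r) + (if n = 0 then Ph c t - Ph c s else 0) := by
  by_cases hn : n = 0
  · subst hn
    rw [if_pos rfl]
    have h1 : ∀ r, dr c 0 r = -(c 0 r) := by
      intro r
      unfold dr
      simp
    simp only [h1]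
    rw [intervalIntegral.integral_neg]
    have hi : ∀ u v : ℝ, 0 ≤ u → 0 ≤ v → IntervalIntegrable (c 0) volume u v := by
      intro u v hu hv
      apply ContinuousOn.intervalIntegrable
      apply (h.ct 0).mono
      intro r hr
      exact (le_min hu hv).trans hr.1
    have h2 : Ph c t - Ph c s = c 0 t - c 0 s + ∫ r in s..t, c 0 r := by
      unfold Ph
      have := intervalIntegral.integral_add_adjacent_intervals (hi 0 s le_rfl hs)
        (hi s t hs (hs.trans hst))
      rw [← this]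
      ring
    rw [h2]
    ring
  · rw [if_neg hn, add_zero]
    exact b.inc n s t (by omega) hs hst

/-- the weighted mass balance -/
theorem wid (h : Sol c) (b : Bas c) (w : ℕ → ℝ) (hw0 : ∀ n, 0 ≤ w n)
    (hw1 : ∀ n : ℕ, ((n : ℝ) + 1) * w n ≤ 1) (R : ℝ → ℝ)
    (hR : ∀ r, 0 ≤ r → HasSum (fun n => w n * dr c n r) (R r)) {s t : ℝ} (hs : 0 ≤ s)
    (hst : s ≤ t) (St Ss : ℝ) (hSt : HasSum (fun n => c n t * w n) St)
    (hSs : HasSum (fun n => c n s * w n) Ss) :
    St - Ss = w 0 * (Ph c t - Ph c s) + ∫ r in s..t, R r := by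
  have hsub := hSt.sub hSs
  have h1 : HasSum (fun n => ∫ r in s..t, w n * dr c n r) (∫ r in s..t, R r) := by
    apply intervalIntegral.hasSum_integral_of_dominated_convergence
      (bound := fun n r => c n r + 1 / 2 * cv c n r)
    · intro n
      apply ContinuousOn.aestronglyMeasurable
      · apply continuousOn_const.mul
        apply (b.drc n).mono
        intro r hr
        rw [uIoc_of_le hst] at hr
        exact hs.trans hr.1.le
      · exact measurableSet_uIoc
    · intro n
      refine Eventually.of_forall fun r hr => ?_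
      rw [uIoc_of_le hst] at hr
      have hr0 : 0 ≤ r := hs.trans hr.1.le
      have h2 := h.nn n r hr0
      have h3 := cv_nonneg h n hr0
      have h4 : w n * dr c n r = (((n : ℝ) + 1) * w n) * (-(c n r) + 1 / 2 * cv c n r) := by
        rw [dr_eq]
        ring
      have h5 : 0 ≤ ((n : ℝ) + 1) * w n := mul_nonneg (by positivity) (hw0 n)
      rw [h4, Real.norm_eq_abs, abs_mul, abs_of_nonneg h5]
      have h6 : |-(c n r) + 1 / 2 * cv c n r| ≤ c n r + 1 / 2 * cv c n r := by
        rw [abs_le]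
        constructor <;> linarith
      calc ((n : ℝ) + 1) * w n * |-(c n r) + 1 / 2 * cv c n r| ≤
          1 * |-(c n r) + 1 / 2 * cv c n r| :=
            mul_le_mul_of_nonneg_right (hw1 n) (abs_nonneg _)
        _ = |-(c n r) + 1 / 2 * cv c n r| := one_mul _
        _ ≤ _ := h6
    · refine Eventually.of_forall fun r hr => ?_
      rw [uIoc_of_le hst] at hr
      have hr0 : 0 ≤ r := hs.trans hr.1.le
      exact (h.sm r hr0).summable.add ((cv_hasSum h hr0).summable.mul_left _)
    · have h2 : IntervalIntegrable (fun _ : ℝ => (3 / 2 : ℝ)) volume s t :=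
        intervalIntegrable_const
      refine h2.congr ?_
      intro r hr
      rw [uIoc_of_le hst] at hr
      have hr0 : 0 ≤ r := hs.trans hr.1.le
      have h3 := ((h.sm r hr0).add ((cv_hasSum h hr0).mul_left (1 / 2))).tsum_eq
      simp only
      rw [h3]
      norm_num
    · refine Eventually.of_forall fun r hr => ?_
      rw [uIoc_of_le hst] at hr
      exact hR r (hs.trans hr.1.le)
  have h7 : HasSum (fun n => c n t * w n - c n s * w n)
      ((∫ r in s..t, R r) + w 0 * (Ph c t - Ph c s)) := by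
    have h8 : HasSum (fun n : ℕ => if n = 0 then w 0 * (Ph c t - Ph c s) else 0)
        (w 0 * (Ph c t - Ph c s)) := by
      have := hasSum_ite_eq (0 : ℕ) (w 0 * (Ph c t - Ph c s))
      exact this
    have h9 := h1.add h8
    refine h9.congr_fun ?_ |> fun h => h
    intro n
    have h10 := inc_all h b n hs hst
    have h11 : c n t * w n - c n s * w n = w n * (c n t - c n s) := by ring
    rw [h11, h10, intervalIntegral.integral_const_mul]
    by_cases hn : n = 0
    · subst hn
      simp only [if_true]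
      ring
    · simp only [if_neg hn]
      ring
  have := hsub.unique h7
  linarith

theorem cl_hasSum (h : Sol c) {t : ℝ} (ht : 0 ≤ t) :
    HasSum (fun n : ℕ => c n t * (1 / ((n : ℝ) + 1))) (cl c t) := by
  have hs : Summable (fun n : ℕ => c n t / ((n : ℝ) + 1)) := by
    refine Summable.of_nonneg_of_le (fun n => ?_) (fun n => ?_) (h.sm t ht).summable
    · exact div_nonneg (h.nn n t ht) (by positivity)
    · exact div_le_self (h.nn n t ht) (by
        have : (0 : ℝ) ≤ n := Nat.cast_nonneg n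
        linarith)
  have := hs.hasSum
  have e : (fun n : ℕ => c n t * (1 / ((n : ℝ) + 1))) = fun n : ℕ => c n t / ((n : ℝ) + 1) := by
    funext n
    rw [mul_one_div]
  rw [e]
  exact this

theorem cl_id (h : Sol c) (b : Bas c) {s t : ℝ} (hs : 0 ≤ s) (hst : s ≤ t) :
    cl c t - cl c s = (Ph c t - Ph c s) - (1 / 2) * (t - s) := by
  have h1 := wid h b (fun n : ℕ => 1 / ((n : ℝ) + 1)) (fun n => by positivity)
    (fun n => by
      have : ((n : ℝ) + 1) ≠ 0 := by positivity
      rw [mul_one_div, div_self this]) (fun _ => -(1 / 2 : ℝ)) (fun r hr => by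
      have h2 := ((h.sm r hr).neg).add ((cv_hasSum h hr).mul_left (1 / 2))
      have e : (fun n : ℕ => 1 / ((n : ℝ) + 1) * dr c n r) =
          fun n => -(c n r) + 1 / 2 * cv c n r := by
        funext n
        rw [dr_eq]
        have : ((n : ℝ) + 1) ≠ 0 := by positivity
        field_simp
      rw [e]
      have e2 : (-1 + 1 / 2 * 1 : ℝ) = -(1 / 2) := by norm_num
      rw [← e2]
      exact h2) hs hst _ _ (cl_hasSum h (hs.trans hst)) (cl_hasSum h hs)
  rw [h1, intervalIntegral.integral_const]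
  simp
  ring

theorem cl_mem (h : Sol c) {t : ℝ} (ht : 0 ≤ t) : 0 ≤ cl c t ∧ cl c t ≤ 1 := by
  constructor
  · exact (cl_hasSum h ht).nonneg fun n => mul_nonneg (h.nn n t ht) (by positivity)
  · refine hasSum_le (fun n => ?_) (cl_hasSum h ht) (h.sm t ht)
    have h1 : 1 / ((n : ℝ) + 1) ≤ 1 := by
      rw [div_le_one (by positivity)]
      have : (0 : ℝ) ≤ n := Nat.cast_nonneg n
      linarith
    calc c n t * (1 / ((n : ℝ) + 1)) ≤ c n t * 1 := mul_le_mul_of_nonneg_left h1 (h.nn n t ht)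
      _ = c n t := mul_one _

/-- the weights of `D` -/
noncomputable def wD (x : ℝ) (n : ℕ) : ℝ := (1 - Real.exp (-((n : ℝ) + 1) * x)) / ((n : ℝ) + 1)

theorem wD_nonneg {x : ℝ} (hx : 0 < x) (n : ℕ) : 0 ≤ wD x n := by
  unfold wD
  apply div_nonneg _ (by positivity)
  rw [sub_nonneg, Real.exp_le_one_iff]
  have : 0 ≤ ((n : ℝ) + 1) * x := by positivity
  linarith

theorem wD_mul (x : ℝ) (n : ℕ) :
    ((n : ℝ) + 1) * wD x n = 1 - Real.exp (-((n : ℝ) + 1) * x) := by
  unfold wD
  have : ((n : ℝ) + 1) ≠ 0 := by positivity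
  field_simp

theorem wD_mul_le (x : ℝ) (n : ℕ) : ((n : ℝ) + 1) * wD x n ≤ 1 := by
  rw [wD_mul]
  linarith [Real.exp_pos (-((n : ℝ) + 1) * x)]

theorem wD_le {x : ℝ} (n : ℕ) : wD x n ≤ x := by
  unfold wD
  rw [div_le_iff₀ (by positivity)]
  have := Real.add_one_le_exp (-((n : ℝ) + 1) * x)
  linarith

theorem wD_ge {x : ℝ} (n : ℕ) : x * Real.exp (-((n : ℝ) + 1) * x) ≤ wD x n := by
  unfold wD
  rw [le_div_iff₀ (by positivity)]
  have h1 := Real.add_one_le_exp (((n : ℝ) + 1) * x)
  have h2 : Real.exp (-((n : ℝ) + 1) * x) * Real.exp (((n : ℝ) + 1) * x) = 1 := by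
    rw [← Real.exp_add]
    ring_nf
    exact Real.exp_zero
  have h3 := Real.exp_pos (-((n : ℝ) + 1) * x)
  nlinarith [mul_le_mul_of_nonneg_left h1 h3.le]

theorem D_hasSum (h : Sol c) {t x : ℝ} (ht : 0 ≤ t) (hx : 0 < x) :
    HasSum (fun n : ℕ => c n t * wD x n) (D c t x) := by
  have hs : Summable (fun n : ℕ => c n t * wD x n) := by
    refine Summable.of_nonneg_of_le (fun n => ?_) (fun n => ?_) ((h.sm t ht).summable.mul_right x)
    · exact mul_nonneg (h.nn n t ht) (wD_nonneg hx n)
    · exact mul_le_mul_of_nonneg_left (wD_le n) (h.nn n t ht)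
  exact hs.hasSum

theorem m0_hasSum (g : Gen c) {t x : ℝ} (ht : 0 ≤ t) (hx : 0 < x) :
    HasSum (fun n : ℕ => c n t * Real.exp (-((n : ℝ) + 1) * x)) (mo c 0 t x) := by
  have h1 := (g.su 0 t x ht hx).hasSum
  have e : (fun n : ℕ => c n t * Real.exp (-((n : ℝ) + 1) * x)) =
      fun n : ℕ => ((n : ℝ) + 1) ^ 0 * c n t * Real.exp (-((n : ℝ) + 1) * x) := by
    funext n
    rw [pow_zero, one_mul]
  rw [e]
  exact h1

theorem D_id (h : Sol c) (b : Bas c) (g : Gen c) {s t x : ℝ} (hs : 0 ≤ s)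
    (hst : s ≤ t) (hx : 0 < x) :
    D c t x - D c s x = (1 - Real.exp (-x)) * (Ph c t - Ph c s)
      - (1 / 2) * ∫ r in s..t, (U c r x) ^ 2 := by
  have h1 := wid h b (wD x) (wD_nonneg hx) (wD_mul_le x) (fun r => -(1 / 2) * (U c r x) ^ 2)
    (fun r hr => by
      have h2 := m0_hasSum g hr hx
      have h3 := cv_exp h hr h2.summable
      have h4 := (((h.sm r hr).sub h2).neg).add (((cv_hasSum h hr).sub h3).mul_left (1 / 2))
      have e : (fun n : ℕ => wD x n * dr c n r) =
          fun n : ℕ => -(c n r - c n r * Real.exp (-((n : ℝ) + 1) * x)) +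
            1 / 2 * (cv c n r - cv c n r * Real.exp (-((n : ℝ) + 1) * x)) := by
        funext n
        rw [dr_eq]
        have : wD x n * (((n : ℝ) + 1) * (-(c n r) + 1 / 2 * cv c n r)) =
            (((n : ℝ) + 1) * wD x n) * (-(c n r) + 1 / 2 * cv c n r) := by ring
        rw [this, wD_mul]
        ring
      rw [e]
      have e2 : -(1 / 2) * (U c r x) ^ 2 = -(1 - mo c 0 r x) + 1 / 2 * (1 - mo c 0 r x ^ 2) := by
        unfold U
        ring
      rw [e2]
      exact h4) hs hst _ _ (D_hasSum h (hs.trans hst) hx) (D_hasSum h hs hx)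
  rw [h1, intervalIntegral.integral_const_mul]
  have h5 : wD x 0 = 1 - Real.exp (-x) := by
    unfold wD
    simp
  rw [h5]
  ring

theorem U2_le (h : Sol c) (b : Bas c) (g : Gen c) {s t x : ℝ} (hs : 0 ≤ s)
    (hst : s ≤ t) (hx : 0 < x) :
    ∫ r in s..t, (U c r x) ^ 2 / x ≤ 2 * (Ph c t - Ph c s) + 2 * U c t x := by
  have h1 := D_id h b g hs hst hx
  have ht : 0 ≤ t := hs.trans hst
  have h2 : D c s x ≤ x := by
    have h3 := hasSum_le (fun n => mul_le_mul_of_nonneg_left (wD_le (x := x) n) (h.nn n s hs))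
      (D_hasSum h hs hx) ((h.sm s hs).mul_right x)
    linarith
  have h4 : x * mo c 0 t x ≤ D c t x := by
    refine hasSum_le (fun n => ?_) ((m0_hasSum g ht hx).mul_left x) (D_hasSum h ht hx)
    have := mul_le_mul_of_nonneg_left (wD_ge (x := x) n) (h.nn n t ht)
    linarith
  have h5 : 1 - Real.exp (-x) ≤ x := by
    have := Real.add_one_le_exp (-x)
    linarith
  have h6 : 0 ≤ Ph c t - Ph c s := by
    have := b.pm s t hs hst
    linarith
  have h7 := mul_le_mul_of_nonneg_right h5 h6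
  have h8 : ∫ r in s..t, (U c r x) ^ 2 / x = (∫ r in s..t, (U c r x) ^ 2) / x := by
    rw [intervalIntegral.integral_div]
  rw [h8, div_le_iff₀ hx]
  have h9 : mo c 0 t x = 1 - U c t x := by
    unfold U
    ring
  rw [h9] at h4
  nlinarith

end Pool.Agent.TH830.J945
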