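import Pool.Agent.TH239.FF.Gen

set_option autoImplicit false

namespace Pool.Agent.TH830.J949

open Set Filter Topology MeasureTheory Pool.Agent.TH239.FF

/-- Fubini on a rectangle -/
theorem rect (G : ℝ → ℝ → ℝ) {s t a b : ℝ} (hst : s ≤ t) (hab : a ≤ b)
    (hG : ContinuousOn (fun p : ℝ × ℝ => G p.1 p.2) (Icc s t ×ˢ Icc a b)) :
    IntervalIntegrable (fun r => ∫ x in a..b, G r x) volume s t ∧
    IntervalIntegrable (fun x => ∫ r in s..t, G r x) volume a b ∧
    ∫ r in s..t, ∫ x in a..b, G r x = ∫ x in a..b, ∫ r in s..t, G r x := by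
  have hint : Integrable (Function.uncurry G)
      ((volume.restrict (Ioc s t)).prod (volume.restrict (Ioc a b))) := by
    rw [Measure.prod_restrict, ← Measure.volume_eq_prod]
    have h1 : IntegrableOn (fun p : ℝ × ℝ => G p.1 p.2) (Icc s t ×ˢ Icc a b) volume :=
      hG.integrableOn_compact (isCompact_Icc.prod isCompact_Icc)
    exact h1.mono_set (prod_mono Ioc_subset_Icc_self Ioc_subset_Icc_self)
  have h2 := integral_integral_swap hint
  have h3 := hint.integral_prod_left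
  have h4 := hint.integral_prod_right
  simp only [intervalIntegral.integral_of_le hst, intervalIntegral.integral_of_le hab]
  refine ⟨?_, ?_, h2⟩
  · rw [intervalIntegrable_iff_integrableOn_Ioc_of_le hst]
    exact h3
  · rw [intervalIntegrable_iff_integrableOn_Ioc_of_le hab]
    exact h4

variable {c : ℕ → ℝ → ℝ}

theorem U_mem (g : Gen c) {t x : ℝ} (ht : 0 ≤ t) (hx : 0 < x) : 0 ≤ U c t x ∧ U c t x ≤ 1 := by
  have h1 := g.m0 t x ht hx.le
  have h2 := g.no 0 t x ht
  have h3 : Real.exp (-x) ≤ 1 := by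
    rw [Real.exp_le_one_iff]
    linarith
  unfold U
  constructor <;> linarith

theorem U_mono (h : Sol c) (g : Gen c) {t x y : ℝ} (ht : 0 ≤ t) (hx : 0 < x) (hxy : x ≤ y) :
    U c t x ≤ U c t y := by
  have h1 : mo c 0 t y ≤ mo c 0 t x := by
    unfold mo
    apply (g.su 0 t y ht (hx.trans_le hxy)).tsum_le_tsum _ (g.su 0 t x ht hx)
    intro n
    apply mul_le_mul_of_nonneg_left
    · apply Real.exp_le_exp.mpr
      have : (0 : ℝ) ≤ n := Nat.cast_nonneg n
      nlinarith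
    · rw [pow_zero, one_mul]
      exact h.nn n t ht
  unfold U
  linarith

theorem U_cont (g : Gen c) : ContinuousOn (fun p : ℝ × ℝ => U c p.1 p.2) (Ici 0 ×ˢ Ioi 0) := by
  unfold U
  exact continuousOn_const.sub (g.co 0)

theorem F_cont (g : Gen c) : ContinuousOn (fun p : ℝ × ℝ => F c p.1 p.2) (Ici 0 ×ˢ Ioi 0) := by
  have h1 := U_cont g
  have h2 := g.co 2
  unfold F W
  apply ContinuousOn.add
  · apply h1.mul
    apply ContinuousOn.rpow_const
    · apply ContinuousOn.mul _ h2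
      apply continuousOn_const.mul
      exact (continuousOn_const.sub (h1.pow 4)).pow 2
    · intro p _
      right
      norm_num
  · exact h1.pow 4

set_option maxHeartbeats 1000000 in
theorem exists_small_flux (h : Sol c) (b : Bas c) (g : Gen c)
    (hU2 : ∀ s t x : ℝ, 0 ≤ s → s ≤ t → 0 < x →
      ∫ r in s..t, (U c r x) ^ 2 / x ≤ 2 * (Ph c t - Ph c s) + 2 * U c t x)
    (hfa : ∀ t a b β : ℝ, 0 ≤ t → 0 < a → a < b → 0 < β →
      ∫ x in a..b, F c t x / x ≤ (β ^ 4 / 3) * Real.log (b / a)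
        + 2 / (3 * β ^ 2) * (∫ x in a..b, (U c t x) ^ 2 / x / x)
        + (2 * β / 3) * (U c t b / Real.sqrt b + U c t a / Real.sqrt a)
        + ∫ x in a..b, (U c t x) ^ 4 / x)
    {t₁ t₂ β η : ℝ} (ht₁ : 0 ≤ t₁) (h12 : t₁ ≤ t₂) (hβ : 0 < β) (hη : 0 < η) :
    ∃ a : ℝ, 0 < a ∧ a < η ∧ (∫ r in t₁..t₂, F c r a)
      ≤ (β ^ 4 / 3) * (t₂ - t₁) + 4 / (3 * β ^ 2) * (Ph c t₂ - Ph c t₁) + η := by
  by_contra hcon
  push Not at hcon
  have ht₂ : 0 ≤ t₂ := ht₁.trans h12
  set Q := Ph c t₂ - Ph c t₁ with hQ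
  set Δ := t₂ - t₁ with hΔ
  have hQ0 : 0 ≤ Q := by
    have := b.pm t₁ t₂ ht₁ h12
    linarith
  have hΔ0 : 0 ≤ Δ := by linarith
  set C3 := (2 * β / 3) * (Δ + 2 * Q + 2) with hC3
  set C4 := 2 * Q + 2 with hC4
  -- choice of e
  obtain ⟨e, he0, he1, heη, heU, heL⟩ : ∃ e : ℝ, 0 < e ∧ e < 1 ∧ e < η ∧
      4 / (3 * β ^ 2) * U c t₂ e ≤ η / 2 ∧ C3 + C4 < η / 2 * (-Real.log e) := by
    have hu := g.ut t₂ ht₂
    have h1 : Tendsto (fun x => 4 / (3 * β ^ 2) * U c t₂ x) (𝓝[>] 0) (𝓝 0) := by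
      have := hu.const_mul (4 / (3 * β ^ 2))
      rw [mul_zero] at this
      exact this
    have e1 : ∀ᶠ x in 𝓝[>] (0 : ℝ), 4 / (3 * β ^ 2) * U c t₂ x < η / 2 :=
      h1.eventually (gt_mem_nhds (by linarith))
    have h2 : Tendsto (fun x : ℝ => η / 2 * (-Real.log x)) (𝓝[>] 0) atTop := by
      apply Tendsto.const_mul_atTop (by linarith)
      exact tendsto_neg_atBot_atTop.comp Real.tendsto_log_nhdsGT_zero
    have e2 : ∀ᶠ x in 𝓝[>] (0 : ℝ), C3 + C4 < η / 2 * (-Real.log x) :=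
      h2.eventually_gt_atTop _
    have e3 : ∀ᶠ x in 𝓝[>] (0 : ℝ), x ∈ Ioo 0 (min 1 η) :=
      Ioo_mem_nhdsGT (by positivity)
    obtain ⟨e, h3, h4, h5⟩ := (e1.and (e2.and e3)).exists
    exact ⟨e, h5.1, h5.2.trans_le (min_le_left _ _), h5.2.trans_le (min_le_right _ _), h3.le, h4⟩
  set A := e ^ 2 with hA
  have hA0 : 0 < A := by positivity
  have hAe : A < e := by
    rw [hA]
    nlinarith
  have hlogL : Real.log (e / A) = -Real.log e := by
    rw [hA, sq, div_mul_cancel_left₀ he0.ne', Real.log_inv]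
  have hrectsub : Icc t₁ t₂ ×ˢ Icc A e ⊆ (Ici (0:ℝ)) ×ˢ (Ioi (0:ℝ)) := by
    rintro ⟨r, x⟩ ⟨hr, hx⟩
    exact ⟨ht₁.trans hr.1, hA0.trans_le hx.1⟩
  have hcU : ContinuousOn (fun p : ℝ × ℝ => U c p.1 p.2) (Icc t₁ t₂ ×ˢ Icc A e) :=
    (U_cont g).mono hrectsub
  have hcF : ContinuousOn (fun p : ℝ × ℝ => F c p.1 p.2) (Icc t₁ t₂ ×ˢ Icc A e) :=
    (F_cont g).mono hrectsub
  have hne : ∀ p ∈ Icc t₁ t₂ ×ˢ Icc A e, (p.2 : ℝ) ≠ 0 := by
    rintro ⟨r, x⟩ ⟨_, hx⟩
    exact (hA0.trans_le hx.1).ne'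
  have hcsnd : ContinuousOn (fun p : ℝ × ℝ => p.2) (Icc t₁ t₂ ×ˢ Icc A e) := continuousOn_snd
  obtain ⟨rF1, rF2, rF3⟩ := rect (fun r x => F c r x / x) h12 hAe.le (hcF.div hcsnd hne)
  obtain ⟨rU1, rU2, rU3⟩ := rect (fun r x => U c r x ^ 2 / x / x) h12 hAe.le
    (((hcU.pow 2).div hcsnd hne).div hcsnd hne)
  obtain ⟨rV1, rV2, rV3⟩ := rect (fun r x => U c r x ^ 4 / x) h12 hAe.le
    ((hcU.pow 4).div hcsnd hne)
  -- continuity in the first variable
  have hcUx : ∀ x, 0 < x → ContinuousOn (fun r => U c r x) (Icc t₁ t₂) := by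
    intro x hx
    have h1 : ContinuousOn (fun r : ℝ => ((r, x) : ℝ × ℝ)) (Icc t₁ t₂) := by fun_prop
    exact (U_cont g).comp h1 (fun r hr => ⟨ht₁.trans hr.1, hx⟩)
  have hiU : ∀ x, 0 < x → IntervalIntegrable (fun r => U c r x) volume t₁ t₂ := by
    intro x hx
    apply ContinuousOn.intervalIntegrable
    rw [uIcc_of_le h12]
    exact hcUx x hx
  have hiU2 : ∀ x, 0 < x → IntervalIntegrable (fun r => U c r x ^ 2 / x) volume t₁ t₂ := by
    intro x hx
    apply ContinuousOn.intervalIntegrable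
    rw [uIcc_of_le h12]
    exact ((hcUx x hx).pow 2).div_const x
  -- step 1
  have hinv : IntervalIntegrable (fun x : ℝ => x⁻¹) volume A e := by
    apply ContinuousOn.intervalIntegrable
    rw [uIcc_of_le hAe.le]
    exact continuousOn_id.inv₀ (fun x hx => (hA0.trans_le hx.1).ne')
  set B := (β ^ 4 / 3) * Δ + 4 / (3 * β ^ 2) * Q with hB
  have s1 : (B + η) * Real.log (e / A) ≤ ∫ x in A..e, ∫ r in t₁..t₂, F c r x / x := by
    rw [← integral_inv_of_pos hA0 he0, ← intervalIntegral.integral_const_mul]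
    apply intervalIntegral.integral_mono_on hAe.le (hinv.const_mul _) rF2
    intro x hx
    have hx0 : 0 < x := hA0.trans_le hx.1
    have h1 := hcon x hx0 (hx.2.trans_lt heη)
    rw [intervalIntegral.integral_div, div_eq_mul_inv]
    apply mul_le_mul_of_nonneg_right _ (inv_nonneg.mpr hx0.le)
    linarith
  rw [← rF3] at s1
  -- step 3
  have hU0 : ∀ r x, 0 ≤ r → 0 < x → 0 ≤ U c r x ∧ U c r x ≤ 1 := fun r x hr hx => U_mem g hr hx
  have hiT3 : IntervalIntegrable (fun r => (2 * β / 3) *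
      (U c r e / Real.sqrt e + U c r A / Real.sqrt A)) volume t₁ t₂ :=
    (((hiU e he0).div_const _).add ((hiU A hA0).div_const _)).const_mul _
  have s3 : ∫ r in t₁..t₂, ∫ x in A..e, F c r x / x ≤
      ∫ r in t₁..t₂, ((β ^ 4 / 3) * Real.log (e / A)
        + 2 / (3 * β ^ 2) * (∫ x in A..e, (U c r x) ^ 2 / x / x)
        + (2 * β / 3) * (U c r e / Real.sqrt e + U c r A / Real.sqrt A)
        + ∫ x in A..e, (U c r x) ^ 4 / x) := by
    apply intervalIntegral.integral_mono_on h12 rF1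
    · exact (((intervalIntegrable_const).add (rU1.const_mul _)).add hiT3).add rV1
    · intro r hr
      exact hfa r A e β (ht₁.trans hr.1) hA0 hAe hβ
  have s4 : ∫ r in t₁..t₂, ((β ^ 4 / 3) * Real.log (e / A)
        + 2 / (3 * β ^ 2) * (∫ x in A..e, (U c r x) ^ 2 / x / x)
        + (2 * β / 3) * (U c r e / Real.sqrt e + U c r A / Real.sqrt A)
        + ∫ x in A..e, (U c r x) ^ 4 / x) =
      Δ * ((β ^ 4 / 3) * Real.log (e / A))
        + 2 / (3 * β ^ 2) * (∫ x in A..e, ∫ r in t₁..t₂, (U c r x) ^ 2 / x / x)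
        + (2 * β / 3) * ((∫ r in t₁..t₂, U c r e / Real.sqrt e) +
          ∫ r in t₁..t₂, U c r A / Real.sqrt A)
        + ∫ x in A..e, ∫ r in t₁..t₂, (U c r x) ^ 4 / x := by
    rw [intervalIntegral.integral_add (((intervalIntegrable_const).add (rU1.const_mul _)).add hiT3)
      rV1, intervalIntegral.integral_add ((intervalIntegrable_const).add (rU1.const_mul _)) hiT3,
      intervalIntegral.integral_add intervalIntegrable_const (rU1.const_mul _),
      intervalIntegral.integral_const, intervalIntegral.integral_const_mul,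
      intervalIntegral.integral_const_mul,
      intervalIntegral.integral_add ((hiU e he0).div_const _) ((hiU A hA0).div_const _),
      smul_eq_mul, rU3, rV3]
  -- T2
  have t2 : ∫ x in A..e, ∫ r in t₁..t₂, (U c r x) ^ 2 / x / x ≤
      (2 * Q + 2 * U c t₂ e) * Real.log (e / A) := by
    rw [← integral_inv_of_pos hA0 he0, ← intervalIntegral.integral_const_mul]
    apply intervalIntegral.integral_mono_on hAe.le rU2 (hinv.const_mul _)
    intro x hx
    have hx0 : 0 < x := hA0.trans_le hx.1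
    have h1 := hU2 t₁ t₂ x ht₁ h12 hx0
    have h2 := U_mono h g ht₂ hx0 hx.2
    rw [intervalIntegral.integral_div, div_eq_mul_inv]
    apply mul_le_mul_of_nonneg_right _ (inv_nonneg.mpr hx0.le)
    linarith
  -- T3
  have t3 : ∀ x, 0 < x → ∫ r in t₁..t₂, U c r x / Real.sqrt x ≤ 1 / 2 * (Δ + 2 * Q + 2) := by
    intro x hx
    have h1 : ∫ r in t₁..t₂, U c r x / Real.sqrt x ≤
        ∫ r in t₁..t₂, (1 / 2 + 1 / 2 * (U c r x ^ 2 / x)) := by
      apply intervalIntegral.integral_mono_on h12 ((hiU x hx).div_const _)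
        (intervalIntegrable_const.add ((hiU2 x hx).const_mul _))
      intro r hr
      have hsx := Real.sqrt_pos.mpr hx
      have h2 : U c r x ^ 2 / x = (U c r x / Real.sqrt x) ^ 2 := by
        rw [div_pow, Real.sq_sqrt hx.le]
      rw [h2]
      have h3 := sq_nonneg (U c r x / Real.sqrt x - 1)
      have h4 : (U c r x / Real.sqrt x - 1) ^ 2 = (U c r x / Real.sqrt x) ^ 2 -
        2 * (U c r x / Real.sqrt x) + 1 := by ring
      linarith
    rw [intervalIntegral.integral_add intervalIntegrable_const ((hiU2 x hx).const_mul _),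
      intervalIntegral.integral_const, intervalIntegral.integral_const_mul, smul_eq_mul] at h1
    have h3 := hU2 t₁ t₂ x ht₁ h12 hx
    have h4 := (hU0 t₂ x ht₂ hx).2
    linarith
  -- T4
  have t4 : ∫ x in A..e, ∫ r in t₁..t₂, (U c r x) ^ 4 / x ≤ C4 := by
    have h1 : ∫ x in A..e, ∫ r in t₁..t₂, (U c r x) ^ 4 / x ≤ ∫ _x in A..e, C4 := by
      apply intervalIntegral.integral_mono_on hAe.le rV2 intervalIntegrable_const
      intro x hx
      have hx0 : 0 < x := hA0.trans_le hx.1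
      have h2 := hU2 t₁ t₂ x ht₁ h12 hx0
      have h3 := (hU0 t₂ x ht₂ hx0).2
      have h4 : ∫ r in t₁..t₂, (U c r x) ^ 4 / x ≤ ∫ r in t₁..t₂, (U c r x) ^ 2 / x := by
        apply intervalIntegral.integral_mono_on h12 _ (hiU2 x hx0)
        · intro r hr
          apply div_le_div_of_nonneg_right _ hx0.le
          have h5 := hU0 r x (ht₁.trans hr.1) hx0
          exact pow_le_pow_of_le_one h5.1 h5.2 (by norm_num)
        · apply ContinuousOn.intervalIntegrable
          rw [uIcc_of_le h12]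
          exact ((hcUx x hx0).pow 4).div_const x
      linarith
    rw [intervalIntegral.integral_const, smul_eq_mul] at h1
    have h5 : (e - A) * C4 ≤ 1 * C4 := by
      apply mul_le_mul_of_nonneg_right _ (by positivity)
      linarith
    linarith
  rw [s4] at s3
  have hfin := s1.trans s3
  rw [hlogL] at hfin t2
  have hLpos : 0 < -Real.log e := by
    have := Real.log_neg he0 he1
    linarith
  have t3e := t3 e he0
  have t3A := t3 A hA0
  have t3' : (2 * β / 3) * ((∫ r in t₁..t₂, U c r e / Real.sqrt e) +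
          ∫ r in t₁..t₂, U c r A / Real.sqrt A) ≤ C3 := by
    rw [hC3]
    apply mul_le_mul_of_nonneg_left _ (by positivity)
    linarith
  have t2' : 2 / (3 * β ^ 2) * (∫ x in A..e, ∫ r in t₁..t₂, (U c r x) ^ 2 / x / x) ≤
      2 / (3 * β ^ 2) * ((2 * Q + 2 * U c t₂ e) * (-Real.log e)) :=
    mul_le_mul_of_nonneg_left t2 (by positivity)
  have t2'' : 2 / (3 * β ^ 2) * ((2 * Q + 2 * U c t₂ e) * (-Real.log e)) =
      (4 / (3 * β ^ 2) * Q) * (-Real.log e) + (4 / (3 * β ^ 2) * U c t₂ e) * (-Real.log e) := by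
    ring
  have t5 : (4 / (3 * β ^ 2) * U c t₂ e) * (-Real.log e) ≤ η / 2 * (-Real.log e) :=
    mul_le_mul_of_nonneg_right heU hLpos.le
  have t6 : (B + η) * -Real.log e = Δ * (β ^ 4 / 3 * -Real.log e) +
      (4 / (3 * β ^ 2) * Q) * (-Real.log e) + η * (-Real.log e) := by
    rw [hB]
    ring
  linarith

end Pool.Agent.TH830.J949
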