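import Mathlib

set_option autoImplicit false

namespace Pool.Agent.TH830.J950

open Set Filter Topology MeasureTheory

theorem Ph_tendsto (K l P : ℝ → ℝ) (C : ℝ)
    (hK : ∀ t, 3 ≤ t → |K t| ≤ C) (hl : ∀ t, 3 ≤ t → |l t| ≤ C)
    (hP : ∀ s t, 3 ≤ s → s ≤ t → P s ≤ P t)
    (hlP : ∀ s t, 3 ≤ s → s ≤ t → l t - l s = (P t - P s) - (1 / 2) * (t - s))
    (hmain : ∀ s t β : ℝ, 3 ≤ s → s ≤ t → 0 < β →
      (1 - β ^ 4 / 3) * (t - s) - 4 / (3 * β ^ 2) * (P t - P s) ≤ K t - K s)
    (r : ℝ) (hr : 0 < r) :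
    Tendsto (fun t => P (t + r) - P t) atTop (𝓝 (r / 2)) := by
  have hL : ∀ s t g, 3 ≤ s → s ≤ t → 0 < g →
      (1 - g) / 3 * ((1 + g) * (t - s) - 4 / g * (P t - P s)) ≤
        (K t + 4 / 3 * l t) - (K s + 4 / 3 * l s) := by
    intro s t g hs hst hg
    have h1 := hmain s t (√g) hs hst (Real.sqrt_pos.mpr hg)
    have h2 := hlP s t hs hst
    have h3 : √g ^ 2 = g := Real.sq_sqrt hg.le
    have h4 : √g ^ 4 = g ^ 2 := by rw [show √g ^ 4 = (√g ^ 2) ^ 2 by ring, h3]
    rw [h3, h4] at h1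
    have h5 : (1 - g) / 3 * (4 / g * (P t - P s)) =
        4 / (3 * g) * (P t - P s) - 4 / 3 * (P t - P s) := by
      field_simp
    linarith
  let L : ℝ → ℝ := fun t => K (max t 3) + 4 / 3 * l (max t 3)
  have hmono : Monotone L := by
    intro s t hst
    have h1 := hL (max s 3) (max t 3) 1 (le_max_right _ _) (max_le_max_right 3 hst) one_pos
    simp only [L]
    linarith
  have hbdd : BddAbove (Set.range L) := by
    refine ⟨C + 4 / 3 * C, ?_⟩
    rintro _ ⟨t, rfl⟩
    have h1 := (abs_le.mp (hK (max t 3) (le_max_right _ _))).2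
    have h2 := (abs_le.mp (hl (max t 3) (le_max_right _ _))).2
    simp only [L]
    linarith
  have hlim := tendsto_atTop_ciSup hmono hbdd
  have hlim2 : Tendsto (fun t => L (t + r) - L t) atTop (𝓝 0) := by
    have h1 : Tendsto (fun t : ℝ => t + r) atTop atTop := tendsto_atTop_add_const_right _ _ tendsto_id
    have h2 := (hlim.comp h1).sub hlim
    rw [sub_self] at h2
    exact h2
  rw [Metric.tendsto_atTop]
  intro ε hε
  obtain ⟨e, he0, he1, heε⟩ : ∃ e : ℝ, 0 < e ∧ e ≤ 1 ∧ e * r ≤ ε := by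
    refine ⟨min 1 (ε / r), by positivity, min_le_left _ _, ?_⟩
    calc min 1 (ε / r) * r ≤ ε / r * r := mul_le_mul_of_nonneg_right (min_le_right _ _) hr.le
      _ = ε := by field_simp
  rw [Metric.tendsto_atTop] at hlim2
  obtain ⟨N, hN⟩ := hlim2 (e ^ 2 * r / 4) (by positivity)
  refine ⟨max N 3, ?_⟩
  intro t ht
  have ht3 : 3 ≤ t := (le_max_right _ _).trans ht
  have htN := hN t ((le_max_left _ _).trans ht)
  have e1 : max t 3 = t := max_eq_left ht3
  have e2 : max (t + r) 3 = t + r := max_eq_left (by linarith)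
  simp only [L, e1, e2] at htN
  rw [Real.dist_eq, sub_zero, abs_lt] at htN
  rw [Real.dist_eq, abs_lt]
  have hup := htN.2
  constructor
  · by_contra hcon
    have h1 : P (t + r) - P t ≤ (1 / 2 - e) * r := by
      have : P (t + r) - P t - r / 2 ≤ -ε := not_lt.mp hcon
      nlinarith
    have hg : 0 < 1 - e / 2 := by linarith
    have h2 := hL t (t + r) (1 - e / 2) ht3 (by linarith) hg
    have h3 : 4 / (1 - e / 2) * (P (t + r) - P t) ≤ 4 / (1 - e / 2) * ((1 / 2 - e) * r) :=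
      mul_le_mul_of_nonneg_left h1 (by positivity)
    have h4 : 4 / (1 - e / 2) * ((1 / 2 - e) * r) ≤ (2 - 3 * e) * r := by
      rw [div_mul_eq_mul_div, div_le_iff₀ hg]
      nlinarith [mul_pos he0 hr, mul_pos (mul_pos he0 he0) hr]
    have h5 : e / 6 * (5 / 2 * e * r) ≤ (1 - (1 - e / 2)) / 3 *
        ((1 + (1 - e / 2)) * (t + r - t) - 4 / (1 - e / 2) * (P (t + r) - P t)) := by
      have h6 : (1 - (1 - e / 2)) / 3 = e / 6 := by ring
      rw [h6]
      apply mul_le_mul_of_nonneg_left _ (by positivity)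
      nlinarith
    have h7 : 0 < e ^ 2 * r := by positivity
    nlinarith
  · by_contra hcon
    have h1 : (1 / 2 + e) * r ≤ P (t + r) - P t := by
      have : ε ≤ P (t + r) - P t - r / 2 := not_lt.mp hcon
      nlinarith
    have hg : 0 < 1 + e / 2 := by linarith
    have h2 := hL t (t + r) (1 + e / 2) ht3 (by linarith) hg
    have h3 : 4 / (1 + e / 2) * ((1 / 2 + e) * r) ≤ 4 / (1 + e / 2) * (P (t + r) - P t) :=
      mul_le_mul_of_nonneg_left h1 (by positivity)
    have h4 : (2 + 2 * e) * r ≤ 4 / (1 + e / 2) * ((1 / 2 + e) * r) := by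
      rw [div_mul_eq_mul_div, le_div_iff₀ hg]
      nlinarith [mul_pos he0 hr, mul_nonneg (mul_nonneg he0.le (sub_nonneg.mpr he1)) hr.le]
    have h5 : e / 6 * (3 / 2 * e * r) ≤ (1 - (1 + e / 2)) / 3 *
        ((1 + (1 + e / 2)) * (t + r - t) - 4 / (1 + e / 2) * (P (t + r) - P t)) := by
      have h6 : (1 - (1 + e / 2)) / 3 *
        ((1 + (1 + e / 2)) * (t + r - t) - 4 / (1 + e / 2) * (P (t + r) - P t)) = e / 6 *
        (4 / (1 + e / 2) * (P (t + r) - P t) - (1 + (1 + e / 2)) * (t + r - t)) := by ring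
      rw [h6]
      apply mul_le_mul_of_nonneg_left _ (by positivity)
      nlinarith
    nlinarith

end Pool.Agent.TH830.J950
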