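import Pool.Agent.TH477.PA.Defs
set_option autoImplicit false
open Finset Pool.Agent.TH477.PA

namespace Pool.Agent.TH830.J644

theorem card_comp_inj {E I : Type} [Fintype E] [Fintype I] (r : ℕ) (g : I → E)
    (hg : Function.Injective g) (Q : (I → Fin r) → Prop) :
    Nat.card {ψ : E → Fin r // Q (ψ ∘ g)} =
      Nat.card {φ : I → Fin r // Q φ} * r ^ (Fintype.card E - Fintype.card I) := by
  classical
  let F : {ψ : E → Fin r // Q (ψ ∘ g)} ≃
      {φ : I → Fin r // Q φ} × ({e : E // e ∉ Set.range g} → Fin r) :=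
    { toFun := fun ψ => (⟨ψ.1 ∘ g, ψ.2⟩, fun e => ψ.1 e.1)
      invFun := fun p => ⟨fun e => if h : ∃ i, g i = e then p.1.1 h.choose else
        p.2 ⟨e, fun h' => h h'⟩, by
          have : (fun e => if h : ∃ i, g i = e then p.1.1 h.choose else
              p.2 ⟨e, fun h' => h h'⟩) ∘ g = p.1.1 := by
            funext i
            have h : ∃ i', g i' = g i := ⟨i, rfl⟩
            simp only [Function.comp_apply]
            rw [dif_pos h]
            exact congrArg p.1.1 (hg h.choose_spec)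
          rw [this]
          exact p.1.2⟩
      left_inv := by
        rintro ⟨ψ, hψ⟩
        apply Subtype.ext
        funext e
        simp only [Function.comp_apply]
        split_ifs with h
        · rw [h.choose_spec]
        · rfl
      right_inv := by
        rintro ⟨⟨φ, hφ⟩, ρ⟩
        apply Prod.ext
        · apply Subtype.ext
          funext i
          have h : ∃ i', g i' = g i := ⟨i, rfl⟩
          simp only [Function.comp_apply]
          rw [dif_pos h]
          congr 1
          exact hg h.choose_spec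
        · funext e
          have h : ¬ ∃ i, g i = e.1 := fun h => e.2 h
          simp only
          rw [dif_neg h] }
  rw [Nat.card_congr F, Nat.card_prod]
  congr 1
  rw [Nat.card_eq_fintype_card, Fintype.card_fun, Fintype.card_fin]
  congr 1
  rw [Fintype.card_subtype_compl, ← Set.card_range_of_injective hg]

section general

variable {V W : Type} {r k s : ℕ}

theorem mem_cols (ψ : Sym2 V → Fin r) (S : Finset V) (i : Fin r) :
    i ∈ cols ψ S ↔ ∃ a ∈ S, ∃ b ∈ S, a ≠ b ∧ ψ s(a, b) = i := by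
  classical
  simp only [cols, mem_image, mem_offDiag, Prod.exists]
  constructor
  · rintro ⟨a, b, ⟨ha, hb, hab⟩, h⟩
    exact ⟨a, ha, b, hb, hab, h⟩
  · rintro ⟨a, ha, b, hb, hab, h⟩
    exact ⟨a, b, ⟨ha, hb, hab⟩, h⟩

theorem cols_congr {ψ φ : Sym2 V → Fin r} {S : Finset V}
    (h : ∀ a ∈ S, ∀ b ∈ S, a ≠ b → ψ s(a, b) = φ s(a, b)) : cols ψ S = cols φ S := by
  ext i
  rw [mem_cols, mem_cols]
  constructor
  · rintro ⟨a, ha, b, hb, hab, e⟩
    exact ⟨a, ha, b, hb, hab, by rw [← h a ha b hb hab, e]⟩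
  · rintro ⟨a, ha, b, hb, hab, e⟩
    exact ⟨a, ha, b, hb, hab, by rw [h a ha b hb hab, e]⟩

theorem cols_map (f : W ↪ V) (ψ : Sym2 V → Fin r) (S : Finset W) :
    cols ψ (S.map f) = cols (ψ ∘ Sym2.map f) S := by
  ext i
  rw [mem_cols, mem_cols]
  constructor
  · rintro ⟨a, ha, b, hb, hab, e⟩
    rw [mem_map] at ha hb
    obtain ⟨a, ha, rfl⟩ := ha
    obtain ⟨b, hb, rfl⟩ := hb
    exact ⟨a, ha, b, hb, fun h => hab (by rw [h]), e⟩
  · rintro ⟨a, ha, b, hb, hab, e⟩
    exact ⟨f a, mem_map_of_mem _ ha, f b, mem_map_of_mem _ hb, fun h => hab (f.injective h), e⟩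

theorem clique_colors (G : SimpleGraph V) (ψ : Sym2 V → Fin r) (S : Finset V)
    (hS : G.IsNClique k S) :
    {i : Fin r | ∃ e : G.edgeSet, (∀ v ∈ (e : Sym2 V), v ∈ S) ∧ ψ e = i} =
      (↑(cols ψ S) : Set (Fin r)) := by
  ext i
  rw [Set.mem_ofPred_eq, mem_coe, mem_cols]
  constructor
  · rintro ⟨⟨e, he⟩, h1, h2⟩
    induction e using Sym2.ind with
    | _ a b =>
      rw [SimpleGraph.mem_edgeSet] at he
      exact ⟨a, h1 a (Sym2.mem_mk_left a b), b, h1 b (Sym2.mem_mk_right a b), he.ne, h2⟩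
  · rintro ⟨a, ha, b, hb, hab, h⟩
    have hadj : G.Adj a b := hS.isClique ha hb hab
    refine ⟨⟨s(a, b), hadj⟩, ?_, h⟩
    intro v hv
    rw [Sym2.mem_iff] at hv
    rcases hv with rfl | rfl
    · exact ha
    · exact hb

/-- goodness on the range of an embedding, in terms of the colours of the edges -/
theorem good_emb (G : SimpleGraph V) [Fintype W] (f : W ↪ V) (ψ : Sym2 V → Fin r) :
    Good k s G (Set.range f) ψ ↔ Good k s (G.comap f) Set.univ (ψ ∘ Sym2.map f) := by
  classical
  constructor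
  · intro h S hS _
    rw [← cols_map]
    apply h
    · rw [SimpleGraph.isNClique_iff] at hS ⊢
      refine ⟨?_, by rw [card_map]; exact hS.2⟩
      intro a ha b hb hab
      rw [mem_coe, mem_map] at ha hb
      obtain ⟨a, ha, rfl⟩ := ha
      obtain ⟨b, hb, rfl⟩ := hb
      exact hS.1 ha hb (fun h => hab (by rw [h]))
    · intro v hv
      rw [mem_map] at hv
      obtain ⟨a, ha, rfl⟩ := hv
      exact ⟨a, rfl⟩
  · intro h S hS hU
    have e : ((univ.filter (fun w => f w ∈ S)).map f) = S := by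
      ext v
      rw [mem_map]
      constructor
      · rintro ⟨a, ha, rfl⟩
        rw [mem_filter] at ha
        exact ha.2
      · intro hv
        obtain ⟨a, rfl⟩ := hU v hv
        exact ⟨a, by rw [mem_filter]; exact ⟨mem_univ _, hv⟩, rfl⟩
    rw [← e, cols_map]
    apply h
    · rw [← e, SimpleGraph.isNClique_iff, card_map] at hS
      rw [SimpleGraph.isNClique_iff]
      refine ⟨?_, hS.2⟩
      intro a ha b hb hab
      have := hS.1 (mem_coe.mpr (mem_map_of_mem f ha)) (mem_coe.mpr (mem_map_of_mem f hb))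
        (fun h => hab (f.injective h))
      exact this
    · intro v _
      trivial

theorem good_univ_iff (G : SimpleGraph V) (ψ : Sym2 V → Fin r) :
    Good k s G Set.univ ψ ↔ ∀ S : Finset V, G.IsNClique k S →
      Set.ncard {i : Fin r | ∃ e : G.edgeSet, (∀ v ∈ (e : Sym2 V), v ∈ S) ∧
        (ψ ∘ Subtype.val) e = i} < s := by
  constructor
  · intro h S hS
    have := clique_colors G ψ S hS
    simp only [Function.comp_apply]
    rw [this, Set.ncard_coe_finset]
    exact h S hS (fun v _ => trivial)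
  · intro h S hS _
    have h1 := h S hS
    have := clique_colors G ψ S hS
    simp only [Function.comp_apply] at h1
    rw [this, Set.ncard_coe_finset] at h1
    exact h1

theorem norm_emb [Fintype V] [DecidableEq V] [Fintype W] (r k s : ℕ) (G : SimpleGraph V)
    (f : W ↪ V) :
    ∑ ψ : Sym2 V → Fin r, ind (Good k s G (Set.range f) ψ) =
      (F r k s (G.comap f) : ℝ) *
        (r : ℝ) ^ (Fintype.card (Sym2 V) - Nat.card (G.comap f).edgeSet) := by
  classical
  have e1 : ∀ ψ : Sym2 V → Fin r, Good k s G (Set.range f) ψ ↔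
      (fun c : (G.comap f).edgeSet → Fin r => ∀ S : Finset W, (G.comap f).IsNClique k S →
      Set.ncard {i : Fin r | ∃ e : (G.comap f).edgeSet, (∀ v ∈ (e : Sym2 W), v ∈ S) ∧
        c e = i} < s) (ψ ∘ (fun e : (G.comap f).edgeSet => Sym2.map f e.1)) := by
    intro ψ
    rw [good_emb, good_univ_iff]
    rfl
  have hinj : Function.Injective (fun e : (G.comap f).edgeSet => Sym2.map f e.1) := by
    intro a b h
    exact Subtype.ext (Sym2.map.injective f.injective h)
  have h2 := card_comp_inj r _ hinj (fun c : (G.comap f).edgeSet → Fin r => ∀ S : Finset W,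
      (G.comap f).IsNClique k S →
      Set.ncard {i : Fin r | ∃ e : (G.comap f).edgeSet, (∀ v ∈ (e : Sym2 W), v ∈ S) ∧
        c e = i} < s)
  rw [← Nat.card_eq_fintype_card (α := (G.comap f).edgeSet)] at h2
  rw [← natCard_ind]
  have h3 : Nat.card {ψ : Sym2 V → Fin r // Good k s G (Set.range f) ψ} = F r k s (G.comap f) *
      r ^ (Fintype.card (Sym2 V) - Nat.card (G.comap f).edgeSet) := by
    rw [← F] at h2
    rw [← h2]
    exact Nat.card_congr (Equiv.subtypeEquivRight e1)
  rw [h3]
  push_cast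
  rfl

theorem norm [Fintype V] [DecidableEq V] (r k s : ℕ) (G : SimpleGraph V) :
    ∑ ψ : Sym2 V → Fin r, ind (Good k s G Set.univ ψ) =
      (F r k s G : ℝ) * (r : ℝ) ^ (Fintype.card (Sym2 V) - Nat.card G.edgeSet) := by
  have h := norm_emb r k s G (Function.Embedding.refl V)
  have e : G.comap (Function.Embedding.refl V) = G := by
    ext a b
    rfl
  have e2 : Set.range (Function.Embedding.refl V) = Set.univ := Set.range_id
  rw [e, e2] at h
  exact h

theorem Good.mono {G : SimpleGraph V} {U U' : Set V} {ψ : Sym2 V → Fin r} (hU : U ⊆ U')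
    (h : Good k s G U' ψ) : Good k s G U ψ :=
  fun S hS hSU => h S hS (fun v hv => hU (hSU v hv))

theorem upd_star (y : V) (ψ : Sym2 V → Fin r) (b : V → Fin r) (v : V) :
    upd y ψ b s(y, v) = b v := by
  classical
  unfold upd
  have h : y ∈ s(y, v) := Sym2.mem_mk_left y v
  rw [dif_pos h]
  have h2 : s(y, Sym2.Mem.other h) = s(y, v) := Sym2.other_spec h
  rw [Sym2.congr_right] at h2
  rw [h2]

theorem upd_of_notMem {y : V} {e : Sym2 V} (he : y ∉ e) (ψ : Sym2 V → Fin r) (b : V → Fin r) :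
    upd y ψ b e = ψ e := by
  classical
  unfold upd
  rw [dif_neg he]

theorem upd_self (y : V) (ψ : Sym2 V → Fin r) : upd y ψ (fun v => ψ s(y, v)) = ψ := by
  funext e
  by_cases he : y ∈ e
  · obtain ⟨v, rfl⟩ := he
    rw [upd_star]
  · rw [upd_of_notMem he]

theorem upd_upd (y : V) (ψ : Sym2 V → Fin r) (b c : V → Fin r) :
    upd y (upd y ψ b) c = upd y ψ c := by
  funext e
  by_cases he : y ∈ e
  · obtain ⟨v, rfl⟩ := he
    rw [upd_star, upd_star]
  · rw [upd_of_notMem he, upd_of_notMem he, upd_of_notMem he]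

theorem good_upd_compl (G : SimpleGraph V) (y : V) (ψ : Sym2 V → Fin r) (b : V → Fin r) :
    Good k s G {y}ᶜ (upd y ψ b) ↔ Good k s G {y}ᶜ ψ := by
  have h : ∀ S : Finset V, (∀ v ∈ S, v ∈ ({y}ᶜ : Set V)) → cols (upd y ψ b) S = cols ψ S := by
    intro S hS
    apply cols_congr
    intro a ha c hc _
    apply upd_of_notMem
    rw [Sym2.mem_iff]
    rintro (h | h)
    · exact hS a ha h.symm
    · exact hS c hc h.symm
  constructor
  · intro H S hS hU
    rw [← h S hU]
    exact H S hS hU
  · intro H S hS hU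
    rw [h S hU]
    exact H S hS hU

theorem resample [Fintype V] [DecidableEq V] (y : V) (g : (Sym2 V → Fin r) → ℝ) :
    ∑ ψ : Sym2 V → Fin r, ∑ b : V → Fin r, g (upd y ψ b) =
      (r : ℝ) ^ (Fintype.card V) * ∑ ψ : Sym2 V → Fin r, g ψ := by
  let Φ : (Sym2 V → Fin r) × (V → Fin r) → (Sym2 V → Fin r) × (V → Fin r) :=
    fun p => (upd y p.1 p.2, fun v => p.1 s(y, v))
  have hΦ : Function.Involutive Φ := by
    rintro ⟨ψ, b⟩
    simp only [Φ]
    rw [upd_upd, upd_self]
    congr 1
    funext v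
    rw [upd_star]
  have h1 : ∑ ψ : Sym2 V → Fin r, ∑ b : V → Fin r, g (upd y ψ b) =
      ∑ p : (Sym2 V → Fin r) × (V → Fin r), g (Φ p).1 := by
    rw [Fintype.sum_prod_type]
  have h2 : ∑ p : (Sym2 V → Fin r) × (V → Fin r), g (Φ p).1 =
      ∑ p : (Sym2 V → Fin r) × (V → Fin r), g p.1 :=
    Equiv.sum_comp (hΦ.toPerm) (fun p => g p.1)
  rw [h1, h2, Fintype.sum_prod_type, mul_sum]
  refine sum_congr rfl fun ψ _ => ?_
  change ∑ _b : V → Fin r, g ψ = _
  rw [sum_const, card_univ, Fintype.card_fun, Fintype.card_fin, nsmul_eq_mul]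
  push_cast
  rfl

/-- edges of a graph: those avoiding `y` and those containing `y` -/
theorem card_edges [Finite V] (G : SimpleGraph V) (f : W ↪ V) (y : V)
    (hf : Set.range f = {y}ᶜ) :
    Nat.card G.edgeSet = Nat.card (G.comap f).edgeSet + Nat.card {v // G.Adj y v} := by
  have h1 : G.edgeSet = (Sym2.map f '' (G.comap f).edgeSet) ∪
      ((fun v => s(y, v)) '' {v | G.Adj y v}) := by
    ext e
    constructor
    · intro he
      by_cases hy : y ∈ e
      · obtain ⟨v, rfl⟩ := hy
        exact Or.inr ⟨v, he, rfl⟩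
      · left
        induction e using Sym2.ind with
        | _ a b =>
          rw [Sym2.mem_iff] at hy
          have ha : a ∈ Set.range f := by
            rw [hf]
            intro h
            exact hy (Or.inl h.symm)
          have hb : b ∈ Set.range f := by
            rw [hf]
            intro h
            exact hy (Or.inr h.symm)
          obtain ⟨a, rfl⟩ := ha
          obtain ⟨b, rfl⟩ := hb
          exact ⟨s(a, b), he, rfl⟩
    · rintro (⟨e, he, rfl⟩ | ⟨v, hv, rfl⟩)
      · induction e using Sym2.ind with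
        | _ a b => exact he
      · exact hv
  have h2 : Disjoint (Sym2.map f '' (G.comap f).edgeSet)
      ((fun v => s(y, v)) '' {v | G.Adj y v}) := by
    rw [Set.disjoint_left]
    rintro e ⟨e', he', rfl⟩ ⟨v, hv, h⟩
    have hy : y ∈ Sym2.map f e' := by
      rw [← h]
      exact Sym2.mem_mk_left y v
    rw [Sym2.mem_map] at hy
    obtain ⟨a, _, ha⟩ := hy
    have : f a ∈ Set.range f := ⟨a, rfl⟩
    rw [hf] at this
    exact this ha
  have : Finite W := Finite.of_injective f f.injective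
  have : Finite (Sym2 V) := by
    classical
    have := Fintype.ofFinite V
    infer_instance
  have : Finite (Sym2 W) := by
    classical
    have := Fintype.ofFinite W
    infer_instance
  rw [Nat.card_coe_set_eq, h1, Set.ncard_union_eq h2 (Set.toFinite _) (Set.toFinite _),
    Set.ncard_image_of_injective _ (Sym2.map.injective f.injective),
    Set.ncard_image_of_injective _ (fun a b h => Sym2.congr_right.mp h)]
  rfl

end general

theorem F_le_Fmax (r k s n : ℕ) (G : SimpleGraph (Fin n)) : F r k s G ≤ Fmax r k s n :=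
  le_ciSup (f := fun G : SimpleGraph (Fin n) => F r k s G)
    (Set.finite_range _).bddAbove G

theorem card_edges_le {V : Type} [Fintype V] [DecidableEq V] (G : SimpleGraph V) :
    Nat.card G.edgeSet ≤ Fintype.card (Sym2 V) := by
  classical
  rw [← Nat.card_eq_fintype_card]
  exact Nat.card_le_card_of_injective _ Subtype.val_injective

theorem J5_norm (r k s n : ℕ) (G : SimpleGraph (Fin n)) :
    ∑ ψ : Sym2 (Fin n) → Fin r, ind (Good k s G Set.univ ψ) =
      (F r k s G : ℝ) * (r : ℝ) ^ (Fintype.card (Sym2 (Fin n)) - Nat.card G.edgeSet) :=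
  norm r k s G

theorem J5_del (r k s n : ℕ) (hr : 1 ≤ r) (G : SimpleGraph (Fin n)) (y : Fin n)
    (Bad : (Sym2 (Fin n) → Fin r) → Prop) (β : ℝ) (hβ : 0 ≤ β)
    (hbad : ∀ ψ, Good k s G {y}ᶜ ψ →
      ∑ b : Fin n → Fin r, ind (Bad (upd y ψ b)) ≤ (r : ℝ) ^ (n - Nat.card {v // G.Adj y v}) * β) :
    ∑ ψ : Sym2 (Fin n) → Fin r, ind (Good k s G Set.univ ψ ∧ Bad ψ) ≤
      (Fmax r k s (n - 1) : ℝ) * β *
        (r : ℝ) ^ (Fintype.card (Sym2 (Fin n)) - Nat.card G.edgeSet) := by
  obtain ⟨m, rfl⟩ : ∃ m, n = m + 1 := ⟨n - 1, by have := y.isLt; omega⟩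
  have hrpos : (0 : ℝ) < r := by exact_mod_cast hr
  have hrange : Set.range (Fin.succAboveEmb y) = ({y}ᶜ : Set (Fin (m + 1))) := by
    have := Fin.range_succAbove y
    exact this
  have hcard := card_edges G (Fin.succAboveEmb y) y hrange
  have hnorm := norm_emb r k s G (Fin.succAboveEmb y)
  have hle := card_edges_le G
  have hd : Nat.card {v // G.Adj y v} ≤ m + 1 := by
    have := Nat.card_le_card_of_injective (Subtype.val : {v // G.Adj y v} → Fin (m + 1))
      Subtype.val_injective
    simpa using this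
  have hrange' : Set.range (Fin.succAboveEmb y) = ({y}ᶜ : Set (Fin (m + 1))) := hrange
  rw [hrange'] at hnorm
  set T := Fintype.card (Sym2 (Fin (m + 1)))
  set e := Nat.card G.edgeSet
  set d := Nat.card {v // G.Adj y v}
  set eH := Nat.card (G.comap (Fin.succAboveEmb y)).edgeSet
  have hF : (F r k s (G.comap (Fin.succAboveEmb y)) : ℝ) ≤ Fmax r k s m := by
    exact_mod_cast F_le_Fmax r k s m _
  have h1 := resample (r := r) y (fun ψ => ind (Good k s G Set.univ ψ ∧ Bad ψ))
  rw [Fintype.card_fin] at h1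
  have h2 : ∑ ψ : Sym2 (Fin (m + 1)) → Fin r, ∑ b : Fin (m + 1) → Fin r,
      ind (Good k s G Set.univ (upd y ψ b) ∧ Bad (upd y ψ b)) ≤
      ∑ ψ : Sym2 (Fin (m + 1)) → Fin r, ind (Good k s G {y}ᶜ ψ) * ((r : ℝ) ^ (m + 1 - d) * β) := by
    refine sum_le_sum fun ψ _ => ?_
    by_cases hg : Good k s G {y}ᶜ ψ
    · rw [ind_pos hg, one_mul]
      refine le_trans (sum_le_sum fun b _ => ?_) (hbad ψ hg)
      exact ind_mono fun h => h.2
    · rw [ind_neg hg, zero_mul]
      refine le_of_eq (sum_eq_zero fun b _ => ?_)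
      apply ind_neg
      rintro ⟨h, _⟩
      apply hg
      rw [← good_upd_compl G y ψ b]
      exact Good.mono (Set.subset_univ _) h
  rw [← sum_mul, hnorm] at h2
  have h1' : ∑ ψ : Sym2 (Fin (m + 1)) → Fin r, ∑ b : Fin (m + 1) → Fin r,
      ind (Good k s G Set.univ (upd y ψ b) ∧ Bad (upd y ψ b)) = (r : ℝ) ^ (m + 1) *
      ∑ ψ : Sym2 (Fin (m + 1)) → Fin r, ind (Good k s G Set.univ ψ ∧ Bad ψ) := h1
  rw [h1'] at h2
  obtain ⟨t, ht⟩ := Nat.exists_eq_add_of_le hle
  obtain ⟨q, hq⟩ := Nat.exists_eq_add_of_le hd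
  have e1 : T - eH = t + d := by omega
  have e2 : m + 1 - d = q := by omega
  have e3 : T - e = t := by omega
  rw [e1, e2] at h2
  rw [e3]
  have h4 : (r : ℝ) ^ (m + 1) = (r : ℝ) ^ d * (r : ℝ) ^ q := by
    rw [← pow_add, hq]
  have h5 : (r : ℝ) ^ (m + 1) *
      ∑ ψ : Sym2 (Fin (m + 1)) → Fin r, ind (Good k s G Set.univ ψ ∧ Bad ψ) ≤
      (r : ℝ) ^ (m + 1) * ((Fmax r k s m : ℝ) * β * (r : ℝ) ^ t) := by
    refine h2.trans ?_
    rw [h4, pow_add]
    have : 0 ≤ β * ((r : ℝ) ^ t * (r : ℝ) ^ d * (r : ℝ) ^ q) := by positivity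
    nlinarith [mul_le_mul_of_nonneg_right hF this]
  exact le_of_mul_le_mul_left h5 (by positivity)

end Pool.Agent.TH830.J644
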