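import Pool.Agent.TH477.PA.Defs2
import Pool.Agent.TH477.PA.Tuple
import Pool.Agent.TH477.PA.Upper
import Pool.Agent.TH669.J675
import Pool.Agent.TH883.J645
import Pool.Agent.TH480.J650
import Pool.Agent.TH830.J644
set_option autoImplicit false
open Finset Pool.Agent.TH477.PA Pool.Agent.TH830.J644

namespace Pool.Agent.TH830.J809

theorem union_bound {ι β : Type} [Fintype ι] [Fintype β] (P : β → Prop) (E : ι → β → Prop)
    (h : ∀ b, P b → ∃ i, E i b) (C : ℝ) (hC : ∀ i, ∑ b, ind (E i b) ≤ C) :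
    ∑ b, ind (P b) ≤ (Fintype.card ι : ℝ) * C := by
  calc ∑ b, ind (P b) ≤ ∑ b, ∑ i, ind (E i b) := by
        refine sum_le_sum fun b _ => ?_
        by_cases hb : P b
        · obtain ⟨i, hi⟩ := h b hb
          rw [ind_pos hb, ← ind_pos hi]
          exact single_le_sum (f := fun i => ind (E i b)) (fun _ _ => ind_nonneg _) (mem_univ i)
        · rw [ind_neg hb]
          exact sum_nonneg fun _ _ => ind_nonneg _
    _ = ∑ i, ∑ b, ind (E i b) := sum_comm
    _ ≤ ∑ _i : ι, C := sum_le_sum fun i _ => hC i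
    _ = _ := by rw [sum_const, card_univ, nsmul_eq_mul]

/-- the star lemma hypothesis -/
theorem no_scol {m s n r : ℕ} (hn : 1 ≤ n) (G : SimpleGraph (Fin n)) (y : Fin n)
    (A : Finset (Fin r)) (cls : Fin n → ℕ) (β δ τ0 : ℝ) (hβ : 0 < β) (hβ1 : β ≤ 1) (hδ : 0 < δ)
    (hτ : ((m : ℝ) + 1) * δ ≤ β ^ m * τ0)
    (ψ : Sym2 (Fin n) → Fin r) (hPR : PR G A cls {y}ᶜ β δ ψ) (b : Fin n → Fin r)
    (hgood : Good (m + 1) s G Set.univ (upd y ψ b))
    (B : ℕ → Finset (Fin r))
    (hB : ∀ j a, a ∈ B j → τ0 * n < ∑ v, ind (cls v = j ∧ G.Adj y v ∧ b v = a))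
    (J : Fin (m + 1) → ℕ) : ¬ SCol s
      (fun i j : Fin (m + 1) => if i.val = 0 then B (J j) else if J i = J j then A else univ) := by
  classical
  rintro ⟨c, hc, hs⟩
  have hc0 : ∀ t : Fin m, c 0 t.succ ∈ B (J t.succ) := by
    intro t
    have := hc 0 t.succ (Fin.succ_pos t)
    simpa using this
  have hc1 : ∀ t t' : Fin m, t < t' →
      (J t.succ ≠ J t'.succ ∨ c t.succ t'.succ ∈ A) := by
    intro t t' htt
    have := hc t.succ t'.succ (Fin.succ_lt_succ_iff.mpr htt)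
    simp only [Fin.val_succ, Nat.succ_ne_zero, if_false] at this
    by_cases h : J t.succ = J t'.succ
    · right
      rw [if_pos h] at this
      exact this
    · exact Or.inl h
  let X : Fin m → Finset (Fin n) := fun t =>
    univ.filter (fun v => cls v = J t.succ ∧ G.Adj y v ∧ b v = c 0 t.succ)
  have hXc : ∀ t, τ0 * n < ((X t).card : ℝ) := by
    intro t
    simp only [X]
    rw [card_filter_ind]
    exact hB _ _ (hc0 t)
  have hXm : ∀ t v, v ∈ X t → cls v = J t.succ ∧ G.Adj y v ∧ b v = c 0 t.succ := by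
    intro t v hv
    simp only [X, mem_filter, mem_univ, true_and] at hv
    exact hv
  obtain ⟨a, ha, hadj⟩ := Pool.Agent.TH883.J645.J6_embed hn G A cls {y}ᶜ β δ hβ hβ1 hδ ψ hPR m
    (fun t => J t.succ) X (fun t x hx => ⟨fun h => by
      have h1 := (hXm t x hx).2.1
      rw [Set.mem_singleton_iff] at h
      rw [h] at h1
      exact G.irrefl h1, (hXm t x hx).1⟩)
    (by
      intro t
      have h1 := hXc t
      have h2 : (0 : ℝ) < n := by exact_mod_cast hn
      have h3 : 0 < β ^ m := by positivity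
      calc ((m : ℝ) + 1) * δ * n ≤ β ^ m * τ0 * n := mul_le_mul_of_nonneg_right hτ h2.le
        _ = β ^ m * (τ0 * n) := by ring
        _ ≤ β ^ m * ((X t).card : ℝ) := mul_le_mul_of_nonneg_left h1.le h3.le)
    (fun t t' => c t.succ t'.succ) hc1
  let x : Fin (m + 1) → Fin n := Fin.cons y a
  have hay : ∀ t, a t ≠ y := fun t => (hXm t _ (ha t)).2.1.ne'
  have hx : ∀ i j : Fin (m + 1), i < j → G.Adj (x i) (x j) ∧ upd y ψ b s(x i, x j) = c i j := by
    intro i j hij
    induction j using Fin.cases with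
    | zero => exact absurd hij (Fin.not_lt_zero i)
    | succ t' =>
      induction i using Fin.cases with
      | zero =>
        have h1 := hXm t' _ (ha t')
        refine ⟨h1.2.1, ?_⟩
        change upd y ψ b s(y, a t') = _
        rw [upd_star]
        exact h1.2.2
      | succ t =>
        have h1 := hadj t t' (Fin.succ_lt_succ_iff.mp hij)
        refine ⟨h1.1, ?_⟩
        change upd y ψ b s(a t, a t') = _
        rw [upd_of_notMem]
        · exact h1.2
        · rw [Sym2.mem_iff]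
          rintro (h | h)
          · exact hay t h.symm
          · exact hay t' h.symm
  have hinj : Function.Injective x := by
    intro i j hij
    rcases lt_trichotomy i j with h | h | h
    · exact absurd hij (hx i j h).1.ne
    · exact h
    · exact absurd hij.symm (hx j i h).1.ne
  have hS : G.IsNClique (m + 1) (univ.image x) := by
    rw [SimpleGraph.isNClique_iff, card_image_of_injective _ hinj, card_univ, Fintype.card_fin]
    refine ⟨?_, rfl⟩
    intro u hu v hv huv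
    rw [mem_coe, mem_image] at hu hv
    obtain ⟨i, _, rfl⟩ := hu
    obtain ⟨j, _, rfl⟩ := hv
    rcases lt_trichotomy i j with h | h | h
    · exact (hx i j h).1
    · exact absurd (by rw [h]) huv
    · exact (hx j i h).1.symm
  have h1 := hgood _ hS (fun v _ => trivial)
  have h2 : ((univ.filter (fun p : Fin (m + 1) × Fin (m + 1) => p.1 < p.2)).image
      (fun p => c p.1 p.2)) ⊆ cols (upd y ψ b) (univ.image x) := by
    intro i hi
    rw [mem_image] at hi
    obtain ⟨⟨i1, i2⟩, hlt, rfl⟩ := hi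
    rw [mem_filter] at hlt
    rw [mem_cols]
    exact ⟨x i1, mem_image_of_mem _ (mem_univ _), x i2, mem_image_of_mem _ (mem_univ _),
      (hx i1 i2 hlt.2).1.ne, (hx i1 i2 hlt.2).2⟩
  have h3 := card_le_card h2
  omega

/-- the sum of the logarithms of the palettes -/
theorem sumlog {n r p : ℕ} (hp : 1 ≤ p) (cls : Fin n → ℕ) (hcls : ∀ v, cls v < p) (η : ℝ)
    (hsize : ∀ i, i < p → |(∑ x, ind (cls x = i)) - n / p| ≤ η * n)
    (B : ℕ → Finset (Fin r)) :
    ∑ v, Real.log ((B (cls v)).card : ℝ) ≤ Real.log r * n - n / p * ∑ j ∈ range p, ls (B j) +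
      η * n * (p * Real.log r) := by
  have hη : 0 ≤ η * n := (abs_nonneg _).trans (hsize 0 hp)
  have h1 : ∀ v, Real.log ((B (cls v)).card : ℝ) = Real.log r -
      ∑ j ∈ range p, ind (cls v = j) * ls (B j) := by
    intro v
    rw [sum_eq_single (cls v)]
    · rw [ind_pos rfl, one_mul]
      unfold ls
      ring
    · intro j _ hj
      rw [ind_neg (fun h => hj h.symm), zero_mul]
    · intro h
      exact absurd (mem_range.mpr (hcls v)) h
  have h2 : ∑ v, Real.log ((B (cls v)).card : ℝ) = Real.log r * n -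
      ∑ j ∈ range p, (∑ v, ind (cls v = j)) * ls (B j) := by
    rw [sum_congr rfl (fun v _ => h1 v), sum_sub_distrib, sum_const, card_univ, Fintype.card_fin,
      nsmul_eq_mul, sum_comm]
    congr 1
    · ring
    · refine sum_congr rfl fun j _ => ?_
      rw [sum_mul]
  have h3 : ∑ j ∈ range p, ((n : ℝ) / p - η * n) * ls (B j) ≤
      ∑ j ∈ range p, (∑ v, ind (cls v = j)) * ls (B j) := by
    refine sum_le_sum fun j hj => ?_
    apply mul_le_mul_of_nonneg_right _ (ls_nonneg _)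
    have := hsize j (mem_range.mp hj)
    rw [abs_le] at this
    linarith [this.1]
  rw [← mul_sum] at h3
  have h4 : ∑ j ∈ range p, ls (B j) ≤ p * Real.log r := by
    calc ∑ j ∈ range p, ls (B j) ≤ ∑ _j ∈ range p, Real.log r := sum_le_sum fun j _ => ls_le _
      _ = _ := by rw [sum_const, card_range, nsmul_eq_mul]
  have h5 := mul_le_mul_of_nonneg_left h4 hη
  rw [h2]
  nlinarith

theorem exists_n0 (K γ : ℝ) (hK : 0 < K) (hγ : 0 < γ) :
    ∃ n0 : ℕ, 1 ≤ n0 ∧ ∀ n : ℕ, n0 ≤ n → K * (n + 1) ≤ Real.exp (γ * n) := by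
  refine ⟨⌈4 * K / γ ^ 2⌉₊ + 1, by omega, ?_⟩
  intro n hn
  have h1 : (1 : ℝ) ≤ n := by
    exact_mod_cast (by omega : 1 ≤ n)
  have h2 : 4 * K / γ ^ 2 ≤ n := by
    have h3 := Nat.le_ceil (4 * K / γ ^ 2)
    have h4 : ((⌈4 * K / γ ^ 2⌉₊ : ℕ) : ℝ) ≤ n := by
      exact_mod_cast (by omega : ⌈4 * K / γ ^ 2⌉₊ ≤ n)
    linarith
  rw [div_le_iff₀ (by positivity)] at h2
  have h5 := Real.quadratic_le_exp_of_nonneg (x := γ * n) (by positivity)
  have h6 : K * (n + 1) ≤ (γ * n) ^ 2 / 2 := by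
    have h7 : 4 * K * n ≤ n * γ ^ 2 * n := mul_le_mul_of_nonneg_right h2 (by linarith)
    nlinarith
  have h8 : 0 ≤ γ * n := by positivity
  linarith

theorem sum_filter_ind {n : ℕ} (P Q : Fin n → Prop) [DecidablePred P] :
    ∑ v ∈ univ.filter P, ind (Q v) = ∑ v, ind (P v ∧ Q v) := by
  rw [sum_filter]
  refine sum_congr rfl fun v _ => ?_
  by_cases h : P v
  · rw [if_pos h]
    exact ind_congr ⟨fun h' => ⟨h, h'⟩, fun h' => h'.2⟩
  · rw [if_neg h, ind_neg (fun h' => h h'.1)]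

/-- extension of a palette function -/
noncomputable def ext {r p : ℕ} (Bt : Fin p → Finset (Fin r)) (j : ℕ) : Finset (Fin r) :=
  if h : j < p then Bt ⟨j, h⟩ else ∅

theorem ext_lt {r p : ℕ} (Bt : Fin p → Finset (Fin r)) {j : ℕ} (h : j < p) :
    ext Bt j = Bt ⟨j, h⟩ := dif_pos h

/-- rare colours -/
def Rare {n r : ℕ} (p : ℕ) (G : SimpleGraph (Fin n)) (y : Fin n) (cls : Fin n → ℕ)
    (B : ℕ → Finset (Fin r)) (t : ℝ) (b : Fin n → Fin r) : Prop :=
  ∀ i, i < p → ∀ a', a' ∉ B i → ∑ v, ind (cls v = i ∧ G.Adj y v ∧ b v = a') ≤ t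

/-- the bound of the star count used for one event -/
theorem event {r p n : ℕ} {ε τ τ0 C : ℝ} (hτ : τ0 ≤ τ)
    (J11 : ∀ (n : ℕ) (G : SimpleGraph (Fin n)) (y : Fin n) (cls : Fin n → ℕ)
      (B : ℕ → Finset (Fin r)) (Z : Finset (Fin n)) (a : Fin r), (∀ v, cls v < p) →
      (∀ v ∈ Z, a ∈ B (cls v) ∧ 2 ≤ (B (cls v)).card) →
      ∑ b : Fin n → Fin r, ind ((∀ i, i < p → ∀ a', a' ∉ B i →
          ∑ v, ind (cls v = i ∧ G.Adj y v ∧ b v = a') ≤ τ * n) ∧
        ∑ v ∈ Z, ind (G.Adj y v ∧ b v = a) ≤ τ * n) ≤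
      (r : ℝ) ^ (n - Nat.card {v // G.Adj y v}) *
        Real.exp (∑ v, Real.log ((B (cls v)).card : ℝ) + ε * n - (Z.card : ℝ) / r))
    (G : SimpleGraph (Fin n)) (y : Fin n) (cls : Fin n → ℕ) (hcls : ∀ v, cls v < p)
    (B : ℕ → Finset (Fin r)) (Z : Finset (Fin n)) (a : Fin r) (st : Prop)
    (hst : st → (∀ v ∈ Z, a ∈ B (cls v) ∧ 2 ≤ (B (cls v)).card) ∧
      ∑ v, Real.log ((B (cls v)).card : ℝ) + ε * n - (Z.card : ℝ) / r ≤ C) :
    ∑ b : Fin n → Fin r, ind (st ∧ Rare p G y cls B (τ0 * n) b ∧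
        ∑ v ∈ Z, ind (G.Adj y v ∧ b v = a) ≤ τ * n) ≤
      (r : ℝ) ^ (n - Nat.card {v // G.Adj y v}) * Real.exp C := by
  by_cases h : st
  · obtain ⟨h1, h2⟩ := hst h
    calc ∑ b : Fin n → Fin r, ind (st ∧ Rare p G y cls B (τ0 * n) b ∧
          ∑ v ∈ Z, ind (G.Adj y v ∧ b v = a) ≤ τ * n) ≤
        ∑ b : Fin n → Fin r, ind ((∀ i, i < p → ∀ a', a' ∉ B i →
          ∑ v, ind (cls v = i ∧ G.Adj y v ∧ b v = a') ≤ τ * n) ∧
        ∑ v ∈ Z, ind (G.Adj y v ∧ b v = a) ≤ τ * n) := by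
          refine sum_le_sum fun b _ => ind_mono ?_
          rintro ⟨_, h3, h4⟩
          refine ⟨fun i hi a' ha' => (h3 i hi a' ha').trans ?_, h4⟩
          exact mul_le_mul_of_nonneg_right hτ (Nat.cast_nonneg n)
      _ ≤ _ := J11 n G y cls B Z a hcls h1
      _ ≤ _ := by
          apply mul_le_mul_of_nonneg_left (Real.exp_le_exp.mpr h2)
          positivity
  · have : ∀ b : Fin n → Fin r, ind (st ∧ Rare p G y cls B (τ0 * n) b ∧
        ∑ v ∈ Z, ind (G.Adj y v ∧ b v = a) ≤ τ * n) = 0 := fun b => ind_neg (fun h' => h h'.1)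
    rw [sum_congr rfl (fun b _ => this b), sum_const_zero]
    positivity

theorem J20_bad_star (k D r p : ℕ) (ℓ : ℝ) (hO : Opt k D r ℓ) (hp : IsType k D r ℓ p) :
    ∃ δ1 δ2 : ℝ, 0 < δ1 ∧ 0 < δ2 ∧ ∀ β : ℝ, 0 < β → β ≤ 1 →
    ∃ δ0 η0 γ : ℝ, 0 < δ0 ∧ 0 < η0 ∧ 0 < γ ∧ ∃ n0 : ℕ, ∀ n, n0 ≤ n →
    ∀ (G : SimpleGraph (Fin n)) (y : Fin n) (A : Finset (Fin r)) (cls : Fin n → ℕ) (η ε δ : ℝ)
      (ψ : Sym2 (Fin n) → Fin r), A.card = ct k D p → η ≤ η0 → 0 < δ → δ ≤ δ0 →
      Valid G p A cls {y}ᶜ η ε β δ ψ → Good k (k.choose 2 + 1 - D) G {y}ᶜ ψ →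
      ∑ b : Fin n → Fin r, ind (Good k (k.choose 2 + 1 - D) G Set.univ (upd y ψ b) ∧
        ¬ GoodStar G p A cls y δ1 (δ1 / 2) δ2 (upd y ψ b)) ≤
        (r : ℝ) ^ (n - Nat.card {v // G.Adj y v}) * Real.exp ((Real.log r - ℓ - γ) * n) := by
  classical
  have hp1 := hp.1
  have hr3 := hO.r3
  have hL := hO.logpos
  have hDC := hO.hDC
  have hr2 : 2 ≤ r := by omega
  have hpR : (0 : ℝ) < p := by exact_mod_cast hp1
  have hrR : (0 : ℝ) < r := by exact_mod_cast (by omega : 0 < r)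
  obtain ⟨g0, hg0, hgap⟩ := finite_gap
    (fun Bt : Fin p → Finset (Fin r) => ∑ j ∈ range p, ls (ext Bt j) - p * ℓ)
  obtain ⟨τ1, hτ1, J1⟩ := Pool.Agent.TH480.J650.J11_star_count r p hr2 (1 / (8 * r * p))
    (by positivity)
  obtain ⟨τ2, hτ2, J2⟩ := Pool.Agent.TH480.J650.J11_star_count r p hr2 (τ1 / (16 * r))
    (by positivity)
  obtain ⟨τ3, hτ3, J3⟩ := Pool.Agent.TH480.J650.J11_star_count r p hr2 (g0 / (4 * p))
    (by positivity)
  refine ⟨τ1, τ2, hτ1, hτ2, ?_⟩
  intro β hβ hβ1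
  obtain ⟨m, rfl⟩ : ∃ m, k = m + 1 := ⟨k - 1, by have := hO.hk; omega⟩
  obtain ⟨τ0, hτ0, hτ01, hτ02, hτ03⟩ : ∃ τ0 : ℝ, 0 < τ0 ∧ τ0 ≤ τ1 ∧ τ0 ≤ τ2 ∧ τ0 ≤ τ3 :=
    ⟨min τ1 (min τ2 τ3), by positivity, min_le_left _ _,
      (min_le_right _ _).trans (min_le_left _ _), (min_le_right _ _).trans (min_le_right _ _)⟩
  obtain ⟨δ0, hδ0, hδ0'⟩ : ∃ δ0 : ℝ, 0 < δ0 ∧ ((m : ℝ) + 1) * δ0 ≤ β ^ m * τ0 := by
    refine ⟨β ^ m * τ0 / (m + 1), by positivity, ?_⟩
    apply le_of_eq
    field_simp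
  obtain ⟨μ, hμ, hμ1, hμ2, hμ3⟩ : ∃ μ : ℝ, 0 < μ ∧ μ ≤ g0 / (4 * p) ∧ μ ≤ 1 / (4 * r * p) ∧
      μ ≤ τ1 / (8 * r) :=
    ⟨min (g0 / (4 * p)) (min (1 / (4 * r * p)) (τ1 / (8 * r))), by positivity, min_le_left _ _,
      (min_le_right _ _).trans (min_le_left _ _), (min_le_right _ _).trans (min_le_right _ _)⟩
  obtain ⟨η0, hη0, hη0'⟩ : ∃ η0 : ℝ, 0 < η0 ∧ η0 * (p * Real.log r + 1 / r) ≤ μ := by
    refine ⟨μ / (p * Real.log r + 1 / r), by positivity, ?_⟩
    apply le_of_eq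
    field_simp
  obtain ⟨γ, hγ, hγ1, hγ2, hγ3⟩ : ∃ γ : ℝ, 0 < γ ∧ γ + γ ≤ g0 / (2 * p) ∧
      γ + γ ≤ 1 / (2 * r * p) ∧ γ + γ ≤ τ1 / (4 * r) := by
    refine ⟨min (g0 / (2 * p)) (min (1 / (2 * r * p)) (τ1 / (4 * r))) / 2, by positivity, ?_, ?_, ?_⟩
    · rw [add_halves]
      exact min_le_left _ _
    · rw [add_halves]
      exact (min_le_right _ _).trans (min_le_left _ _)
    · rw [add_halves]
      exact (min_le_right _ _).trans (min_le_right _ _)
  obtain ⟨n0, hn01, hn0⟩ := exists_n0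
    ((Fintype.card (Fin p → Finset (Fin r)) : ℝ) * (1 + p * r + p * r * r)) γ (by positivity) hγ
  refine ⟨δ0, η0, γ, hδ0, hη0, hγ, n0, ?_⟩
  intro n hn G y A cls η ε δ ψ hA hη hδ hδδ hV hG
  have hn1 : 1 ≤ n := hn01.trans hn
  have hnR : (0 : ℝ) < n := by exact_mod_cast hn1
  have hη' : 0 ≤ η * n := (abs_nonneg _).trans (hV.size 0 hp1)
  -- the exponent estimate
  have hexp : ∀ B : ℕ → Finset (Fin r), ∑ v, Real.log ((B (cls v)).card : ℝ) ≤
      Real.log r * n - n / p * ∑ j ∈ range p, ls (B j) + η * n * (p * Real.log r) :=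
    sumlog hp1 cls hV.lt η hV.size
  have hηn : η * n * (p * Real.log r) + η * n * (1 / r) ≤ μ * n := by
    have h1 : η * n ≤ η0 * n := mul_le_mul_of_nonneg_right hη hnR.le
    have h2 : η * n * (p * Real.log r + 1 / r) ≤ η0 * n * (p * Real.log r + 1 / r) :=
      mul_le_mul_of_nonneg_right h1 (by positivity)
    have h3 : η0 * n * (p * Real.log r + 1 / r) ≤ μ * n := by
      have := mul_le_mul_of_nonneg_right hη0' hnR.le
      linarith
    linarith
  have hηr : 0 ≤ η * n * (1 / r) := by positivity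
  -- the events
  let PB := Fin p → Finset (Fin r)
  let Z1 : Fin p → Finset (Fin n) := fun j => univ.filter (fun v => cls v = j.val)
  let Z2 : Fin p → Fin n → Fin r → Finset (Fin n) := fun j x c =>
    univ.filter (fun v => cls v = j.val ∧ v ≠ y ∧ G.Adj x v ∧ ψ s(x, v) = c)
  let E1 : PB → (Fin n → Fin r) → Prop := fun Bt b =>
    (g0 ≤ ∑ j ∈ range p, ls (ext Bt j) - p * ℓ) ∧ Rare p G y cls (ext Bt) (τ0 * n) b ∧
      ∑ v ∈ (∅ : Finset (Fin n)), ind (G.Adj y v ∧ b v = (⟨0, by omega⟩ : Fin r)) ≤ τ3 * n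
  let E2 : PB × Fin p × Fin r → (Fin n → Fin r) → Prop := fun i b =>
    (∑ j ∈ range p, ls (ext i.1 j) = p * ℓ ∧ i.2.2 ∈ ext i.1 i.2.1.val ∧
      2 ≤ (ext i.1 i.2.1.val).card) ∧ Rare p G y cls (ext i.1) (τ0 * n) b ∧
      ∑ v ∈ Z1 i.2.1, ind (G.Adj y v ∧ b v = i.2.2) ≤ τ1 * n
  let E3 : PB × Fin p × Fin r × Fin n × Fin r → (Fin n → Fin r) → Prop := fun i b =>
    (∑ j ∈ range p, ls (ext i.1 j) = p * ℓ ∧ i.2.2.1 ∈ ext i.1 i.2.1.val ∧
      2 ≤ (ext i.1 i.2.1.val).card ∧ τ1 / 2 * n ≤ ((Z2 i.2.1 i.2.2.2.1 i.2.2.2.2).card : ℝ)) ∧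
      Rare p G y cls (ext i.1) (τ0 * n) b ∧
      ∑ v ∈ Z2 i.2.1 i.2.2.2.1 i.2.2.2.2, ind (G.Adj y v ∧ b v = i.2.2.1) ≤ τ2 * n
  have hcover : ∀ b : Fin n → Fin r,
      (Good (m + 1) ((m + 1).choose 2 + 1 - D) G Set.univ (upd y ψ b) ∧
        ¬ GoodStar G p A cls y τ1 (τ1 / 2) τ2 (upd y ψ b)) →
      ∃ i : PB ⊕ (PB × Fin p × Fin r) ⊕ (PB × Fin p × Fin r × Fin n × Fin r),
        Sum.elim E1 (Sum.elim E2 E3) i b := by
    rintro b ⟨hgood, hbad⟩
    let Bt : PB := fun j => univ.filter (fun a =>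
      τ0 * n < ∑ v, ind (cls v = j.val ∧ G.Adj y v ∧ b v = a))
    have hBt : ∀ j a, a ∈ ext Bt j →
        τ0 * n < ∑ v, ind (cls v = j ∧ G.Adj y v ∧ b v = a) := by
      intro j a ha
      by_cases hj : j < p
      · rw [ext_lt Bt hj] at ha
        simp only [Bt, mem_filter, mem_univ, true_and] at ha
        exact ha
      · simp only [ext, dif_neg hj, notMem_empty] at ha
    have hrare : Rare p G y cls (ext Bt) (τ0 * n) b := by
      intro i hi a' ha'
      rw [ext_lt Bt hi] at ha'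
      simp only [Bt, mem_filter, mem_univ, true_and, not_lt] at ha'
      exact ha'
    rcases hgap Bt with h | h
    · -- tight case
      obtain ⟨h1, h2, i0, hi0, h3⟩ := Pool.Agent.TH669.J675.J16_star (m + 1) D r p ℓ hO
        (fun Q hQ hg => tuple hO Q hQ hg) hp A hA (ext Bt)
        (fun J _ => no_scol hn1 G y A cls β δ τ0 hβ hβ1 hδ
          ((mul_le_mul_of_nonneg_left hδδ (by positivity)).trans hδ0') ψ hV.rich b hgood
          (ext Bt) hBt J) (by linarith)
      by_contra hno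
      apply hbad
      refine ⟨i0, hi0, ?_⟩
      intro j hj hji a ha
      have hja : a ∈ ext Bt j ∧ 2 ≤ (ext Bt j).card := by
        by_cases hp1' : p = 1
        · have hj0 : j = 0 := by omega
          rw [hj0, h2 hp1']
          refine ⟨ha hp1', ?_⟩
          rw [hA, hp1']
          simp only [ct, if_true]
          omega
        · rcases hji with h4 | h4
          · exact absurd h4 hp1'
          · rw [h3 j hj h4]
            refine ⟨mem_univ _, ?_⟩
            rw [card_univ, Fintype.card_fin]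
            exact hr2
      constructor
      · by_contra hlt
        apply hno
        refine ⟨Sum.inr (Sum.inl (Bt, ⟨j, hj⟩, a)), ?_⟩
        change E2 (Bt, ⟨j, hj⟩, a) b
        refine ⟨⟨h1, hja.1, hja.2⟩, hrare, ?_⟩
        simp only [Z1]
        rw [sum_filter_ind]
        push Not at hlt
        simp only [upd_star] at hlt
        exact hlt.le
      · intro x hx c hc
        by_contra hlt
        apply hno
        refine ⟨Sum.inr (Sum.inr (Bt, ⟨j, hj⟩, a, x, c)), ?_⟩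
        change E3 (Bt, ⟨j, hj⟩, a, x, c) b
        have hupd : ∀ v, v ≠ y → upd y ψ b s(x, v) = ψ s(x, v) := by
          intro v hv
          apply upd_of_notMem
          rw [Sym2.mem_iff]
          rintro (h | h)
          · exact hx h.symm
          · exact hv h.symm
        refine ⟨⟨h1, hja.1, hja.2, ?_⟩, hrare, ?_⟩
        · simp only [Z2]
          rw [card_filter_ind]
          refine hc.trans (le_of_eq (sum_congr rfl fun v _ => ind_congr ?_))
          constructor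
          · rintro ⟨h5, h6, h7, h8⟩
            exact ⟨h5, h6, h7, by rw [← hupd v h6]; exact h8⟩
          · rintro ⟨h5, h6, h7, h8⟩
            exact ⟨h5, h6, h7, by rw [hupd v h6]; exact h8⟩
        · simp only [Z2]
          rw [sum_filter_ind]
          push Not at hlt
          refine le_trans (sum_le_sum fun v _ => ind_mono ?_) hlt.le
          rintro ⟨⟨h5, h6, h7, h8⟩, h9, h10⟩
          refine ⟨h5, h7, by rw [hupd v h6]; exact h8, h9, ?_⟩
          rw [upd_star]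
          exact h10
    · refine ⟨Sum.inl Bt, ?_⟩
      change E1 Bt b
      refine ⟨h, hrare, ?_⟩
      rw [sum_empty]
      positivity
  have hbound : ∀ i : PB ⊕ (PB × Fin p × Fin r) ⊕ (PB × Fin p × Fin r × Fin n × Fin r),
      ∑ b : Fin n → Fin r, ind (Sum.elim E1 (Sum.elim E2 E3) i b) ≤
      (r : ℝ) ^ (n - Nat.card {v // G.Adj y v}) *
        Real.exp ((Real.log r - ℓ - (γ + γ)) * n) := by
    rintro (Bt | ⟨Bt, j, a⟩ | ⟨Bt, j, a, x, c⟩)
    · refine event hτ03 J3 G y cls hV.lt (ext Bt) ∅ _ _ ?_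
      intro hst
      refine ⟨fun v hv => absurd hv (notMem_empty v), ?_⟩
      have h1 := hexp (ext Bt)
      have h2 : n / p * (p * ℓ + g0) ≤ n / p * ∑ j ∈ range p, ls (ext Bt j) :=
        mul_le_mul_of_nonneg_left (by linarith) (by positivity)
      have h3 : (n : ℝ) / p * (p * ℓ + g0) = n * ℓ + g0 / p * n := by
        field_simp
      have h4 : μ * n ≤ g0 / (4 * p) * n := mul_le_mul_of_nonneg_right hμ1 hnR.le
      have h5 : (γ + γ) * n ≤ g0 / (2 * p) * n := mul_le_mul_of_nonneg_right hγ1 hnR.le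
      have h6 : g0 / (4 * p) * n = g0 / p * n / 4 := by ring
      have h7 : g0 / (2 * p) * n = g0 / p * n / 2 := by ring
      rw [card_empty, Nat.cast_zero, zero_div, sub_zero]
      linarith
    · refine event hτ01 J1 G y cls hV.lt (ext Bt) (Z1 j) _ _ ?_
      rintro ⟨hst, ha, hc⟩
      refine ⟨fun v hv => ?_, ?_⟩
      · simp only [Z1, mem_filter, mem_univ, true_and] at hv
        rw [hv]
        exact ⟨ha, hc⟩
      · have h1 := hexp (ext Bt)
        simp only at hst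
        rw [hst] at h1
        have h3 : (n : ℝ) / p * (p * ℓ) = n * ℓ := by
          field_simp
        have hZ : (n : ℝ) / p - η * n ≤ ((Z1 j).card : ℝ) := by
          simp only [Z1]
          rw [card_filter_ind]
          have := hV.size j.val j.isLt
          rw [abs_le] at this
          linarith [this.1]
        have h8 : ((n : ℝ) / p - η * n) / r ≤ ((Z1 j).card : ℝ) / r :=
          div_le_div_of_nonneg_right hZ hrR.le
        have h9 : ((n : ℝ) / p - η * n) / r = 1 / (r * p) * n - η * n * (1 / r) := by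
          field_simp
        have h4 : μ * n ≤ 1 / (4 * r * p) * n := mul_le_mul_of_nonneg_right hμ2 hnR.le
        have h5 : (γ + γ) * n ≤ 1 / (2 * r * p) * n := mul_le_mul_of_nonneg_right hγ2 hnR.le
        have h6 : (1 : ℝ) / (4 * r * p) * n = 1 / (r * p) * n / 4 := by
          field_simp
        have h7 : (1 : ℝ) / (2 * r * p) * n = 1 / (r * p) * n / 2 := by
          field_simp
        have h10 : (1 : ℝ) / (8 * r * p) * n = 1 / (r * p) * n / 8 := by
          field_simp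
        have h11 : 0 ≤ 1 / (r * p) * (n : ℝ) := by positivity
        linarith
    · refine event hτ02 J2 G y cls hV.lt (ext Bt) (Z2 j x c) _ _ ?_
      rintro ⟨hst, ha, hc, hZ⟩
      refine ⟨fun v hv => ?_, ?_⟩
      · simp only [Z2, mem_filter, mem_univ, true_and] at hv
        rw [hv.1]
        exact ⟨ha, hc⟩
      · have h1 := hexp (ext Bt)
        simp only at hst hZ
        rw [hst] at h1
        have h3 : (n : ℝ) / p * (p * ℓ) = n * ℓ := by
          field_simp
        have h8 : (τ1 / 2 * n) / r ≤ ((Z2 j x c).card : ℝ) / r :=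
          div_le_div_of_nonneg_right hZ hrR.le
        have h9 : (τ1 / 2 * n) / r = τ1 / r * n / 2 := by ring
        have h4 : μ * n ≤ τ1 / (8 * r) * n := mul_le_mul_of_nonneg_right hμ3 hnR.le
        have h5 : (γ + γ) * n ≤ τ1 / (4 * r) * n := mul_le_mul_of_nonneg_right hγ3 hnR.le
        have h6 : τ1 / (8 * r) * n = τ1 / r * n / 8 := by ring
        have h7 : τ1 / (4 * r) * n = τ1 / r * n / 4 := by ring
        have h10 : τ1 / (16 * r) * n = τ1 / r * n / 16 := by ring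
        have h11 : 0 ≤ τ1 / r * (n : ℝ) := by positivity
        linarith
  have hub := union_bound _ _ hcover _ hbound
  refine hub.trans ?_
  have hcard : (Fintype.card (PB ⊕ (PB × Fin p × Fin r) ⊕ (PB × Fin p × Fin r × Fin n × Fin r)) : ℝ)
      ≤ (Fintype.card (Fin p → Finset (Fin r)) : ℝ) * (1 + p * r + p * r * r) * (n + 1) := by
    simp only [Fintype.card_sum, Fintype.card_prod, Fintype.card_fin, PB]
    push_cast
    have h1 : (0 : ℝ) ≤ (Fintype.card (Fin p → Finset (Fin r)) : ℝ) := by positivity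
    have h2 : (1 : ℝ) + p * r + p * r * r * n ≤ (1 + p * r + p * r * r) * (n + 1) := by
      have : (0 : ℝ) ≤ (1 + p * r) * n + p * r * r := by positivity
      nlinarith
    have h3 := mul_le_mul_of_nonneg_left h2 h1
    simp only [Fintype.card_pi, Fintype.card_finset, Fintype.card_fin, Finset.prod_const,
      Finset.card_univ] at h3 ⊢
    push_cast at h3 ⊢
    linarith
  have h1 := hcard.trans (hn0 n hn)
  have h2 : Real.exp ((Real.log r - ℓ - γ) * n) =
      Real.exp (γ * n) * Real.exp ((Real.log r - ℓ - (γ + γ)) * n) := by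
    rw [← Real.exp_add]
    congr 1
    ring
  rw [h2]
  have h3 : 0 ≤ (r : ℝ) ^ (n - Nat.card {v // G.Adj y v}) *
      Real.exp ((Real.log r - ℓ - (γ + γ)) * n) := by positivity
  have h4 := mul_le_mul_of_nonneg_right h1 h3
  linarith

end Pool.Agent.TH830.J809
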