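import Pool.Agent.TH843.PY.Stm

/-!
# Monogenicity of the Dickson polynomial (job 205)
-/

set_option autoImplicit false
open Polynomial Pool.Agent.TH843.PY

namespace Pool.Agent.TH830.J205

/-! ### Dickson polynomials -/

/-- `T n (x + 4 / x) = x ^ n + (4 / x) ^ n` -/
noncomputable abbrev T (n : ℕ) : ℤ[X] := dickson 1 4 n

/-- `S n (x + 4 / x) * (x - 4 / x) = x ^ (n + 1) - (4 / x) ^ (n + 1)` -/
noncomputable abbrev S (n : ℕ) : ℤ[X] := dickson 2 4 n

theorem T_add_two (n : ℕ) : T (n + 2) = X * T (n + 1) - C 4 * T n := dickson_add_two 1 4 n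

theorem S_add_two (n : ℕ) : S (n + 2) = X * S (n + 1) - C 4 * S n := dickson_add_two 2 4 n

theorem T_zero : T 0 = 2 := by
  unfold T; rw [dickson_zero]; norm_num

theorem T_one : T 1 = X := dickson_one 1 4

theorem S_zero : S 0 = 1 := by
  unfold S; rw [dickson_zero]; norm_num

theorem S_one : S 1 = X := dickson_one 2 4

theorem T_eval (x y : ℂ) (h : x * y = 4) (n : ℕ) : aeval (x + y) (T n) = x ^ n + y ^ n := by
  induction n using Nat.twoStepInduction with
  | zero => rw [T_zero, map_ofNat]; norm_num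
  | one => rw [T_one]; simp
  | more n ih1 ih2 =>
    rw [T_add_two, map_sub, map_mul, map_mul, aeval_X, aeval_C, ih1, ih2]
    simp only [algebraMap_int_eq, eq_intCast, Int.cast_ofNat]
    rw [← h]; ring

theorem S_eval (x y : ℂ) (h : x * y = 4) (n : ℕ) :
    aeval (x + y) (S n) * (x - y) = x ^ (n + 1) - y ^ (n + 1) := by
  induction n using Nat.twoStepInduction with
  | zero => rw [S_zero]; simp
  | one => rw [S_one]; simp; ring
  | more n ih1 ih2 =>
    rw [S_add_two, map_sub, map_mul, map_mul, aeval_X, aeval_C]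
    simp only [algebraMap_int_eq, eq_intCast, Int.cast_ofNat]
    have : ((x + y) * aeval (x + y) (S (n + 1)) - 4 * aeval (x + y) (S n)) * (x - y) =
      (x + y) * (aeval (x + y) (S (n + 1)) * (x - y)) - 4 * (aeval (x + y) (S n) * (x - y)) := by
      ring
    rw [this, ih1, ih2, ← h]
    ring

theorem poly_ext (F G : ℤ[X])
    (h : ∀ x y : ℂ, x * y = 4 → aeval (x + y) F = aeval (x + y) G) : F = G := by
  have hinj : Function.Injective (Polynomial.map (Int.castRingHom ℂ)) :=
    Polynomial.map_injective _ (RingHom.injective_int _)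
  apply hinj
  apply Polynomial.funext
  intro u
  -- solve `x ^ 2 - u x + 4 = 0`
  obtain ⟨s, hs⟩ := IsAlgClosed.exists_pow_nat_eq (u ^ 2 - 16) two_pos
  have h1 := h ((u + s) / 2) ((u - s) / 2) (by
    have : (u + s) / 2 * ((u - s) / 2) = (u ^ 2 - s ^ 2) / 4 := by ring
    rw [this, hs]; ring)
  have h2 : (u + s) / 2 + (u - s) / 2 = u := by ring
  rw [h2] at h1
  rw [Polynomial.eval_map, Polynomial.eval_map]
  rw [Polynomial.aeval_def, Polynomial.aeval_def] at h1
  exact h1

theorem S_monic (n : ℕ) : (S n).Monic ∧ (S n).natDegree = n := by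
  induction n using Nat.twoStepInduction with
  | zero => rw [S_zero]; exact ⟨monic_one, natDegree_one⟩
  | one => rw [S_one]; exact ⟨monic_X, natDegree_X⟩
  | more n ih1 ih2 =>
    have hm : (X * S (n + 1)).Monic := monic_X.mul ih2.1
    have hd : (X * S (n + 1)).natDegree = n + 2 := by
      rw [monic_X.natDegree_mul ih2.1, natDegree_X, ih2.2]; ring
    have hlt : (C 4 * S n).degree < (X * S (n + 1)).degree := by
      refine degree_lt_degree ?_
      rw [hd]
      refine lt_of_le_of_lt (natDegree_C_mul_le _ _) ?_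
      rw [ih1.2]; omega
    rw [S_add_two]
    refine ⟨hm.sub_of_left hlt, ?_⟩
    rw [natDegree_sub_eq_left_of_natDegree_lt, hd]
    rw [hd]
    refine lt_of_le_of_lt (natDegree_C_mul_le _ _) ?_
    rw [ih1.2]; omega

/-- `T` in terms of `S` -/
theorem T_eq (n : ℕ) : T (n + 2) = S (n + 2) - C 4 * S n := by
  induction n using Nat.twoStepInduction with
  | zero =>
    rw [T_add_two, S_add_two, T_one, T_zero, S_one, S_zero]
    simp only [map_ofNat]
    ring
  | one =>
    rw [T_add_two, S_add_two, T_add_two, S_add_two, T_one, T_zero, S_one, S_zero]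
    simp only [map_ofNat]
    ring
  | more n ih1 ih2 =>
    rw [T_add_two (n + 2), ih1, show n + 2 + 1 = n + 1 + 2 from rfl, ih2, S_add_two (n + 2),
      show n + 2 + 1 = n + 1 + 2 from rfl]
    have := S_add_two n
    rw [show n + 1 + 2 = n + 2 + 1 from rfl]
    rw [this]
    ring

theorem T_monic (n : ℕ) : (T (n + 1)).Monic ∧ (T (n + 1)).natDegree = n + 1 := by
  cases n with
  | zero => rw [T_one]; exact ⟨monic_X, natDegree_X⟩
  | succ n =>
    have h1 := S_monic (n + 2)
    have h2 := S_monic n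
    have hlt : (C 4 * S n).natDegree < (S (n + 2)).natDegree := by
      rw [h1.2]
      refine lt_of_le_of_lt (natDegree_C_mul_le _ _) ?_
      rw [h2.2]; omega
    rw [T_eq]
    refine ⟨h1.1.sub_of_left (degree_lt_degree hlt), ?_⟩
    rw [natDegree_sub_eq_left_of_natDegree_lt hlt, h1.2]

theorem T_deriv (n : ℕ) : derivative (T (n + 1)) = ((n : ℤ[X]) + 1) * S n := by
  induction n using Nat.twoStepInduction with
  | zero => rw [T_one, S_zero]; simp
  | one =>
    rw [T_add_two, T_one, T_zero, S_one]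
    simp [derivative_mul]
    ring
  | more n ih1 ih2 =>
    rw [T_add_two, derivative_sub, derivative_mul, derivative_mul, derivative_X, derivative_C,
      ih2, ih1, T_eq, S_add_two]
    push_cast
    simp only [map_ofNat]
    ring

theorem T_zero_coeff (k : ℕ) : (T (2 * k + 1)).coeff 0 = 0 := by
  induction k with
  | zero => rw [T_one]; simp
  | succ k ih =>
    rw [show 2 * (k + 1) + 1 = (2 * k + 1) + 2 by ring, T_add_two, coeff_sub, mul_coeff_zero,
      mul_coeff_zero, ih]
    simp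

/-! ### the identities, `q = 2 (k + 1) + 1` -/

noncomputable def Wp (k : ℕ) : ℤ[X] := S (k + 1) + C 2 * S k

noncomputable def Wm (k : ℕ) : ℤ[X] := S (k + 1) - C 2 * S k

theorem Wp_monic (k : ℕ) : (Wp k).Monic ∧ (Wp k).natDegree = k + 1 := by
  have h1 := S_monic (k + 1)
  have h2 := S_monic k
  have hlt : (C 2 * S k).natDegree < (S (k + 1)).natDegree := by
    rw [h1.2]
    refine lt_of_le_of_lt (natDegree_C_mul_le _ _) ?_
    rw [h2.2]; omega
  unfold Wp
  refine ⟨h1.1.add_of_left (degree_lt_degree hlt), ?_⟩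
  rw [natDegree_add_eq_left_of_natDegree_lt hlt, h1.2]

theorem Wm_monic (k : ℕ) : (Wm k).Monic ∧ (Wm k).natDegree = k + 1 := by
  have h1 := S_monic (k + 1)
  have h2 := S_monic k
  have hlt : (C 2 * S k).natDegree < (S (k + 1)).natDegree := by
    rw [h1.2]
    refine lt_of_le_of_lt (natDegree_C_mul_le _ _) ?_
    rw [h2.2]; omega
  unfold Wm
  refine ⟨h1.1.sub_of_left (degree_lt_degree hlt), ?_⟩
  rw [natDegree_sub_eq_left_of_natDegree_lt hlt, h1.2]

theorem Wp_eval (x y : ℂ) (h : x * y = 4) (k : ℕ) :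
    aeval (x + y) (Wp k) * (x - y) = x ^ (k + 1) * (x + 2) - y ^ (k + 1) * (y + 2) := by
  unfold Wp
  rw [map_add, map_mul, aeval_C]
  simp only [algebraMap_int_eq, eq_intCast, Int.cast_ofNat]
  have h1 := S_eval x y h (k + 1)
  have h2 := S_eval x y h k
  linear_combination h1 + 2 * h2

theorem Wm_eval (x y : ℂ) (h : x * y = 4) (k : ℕ) :
    aeval (x + y) (Wm k) * (x - y) = x ^ (k + 1) * (x - 2) - y ^ (k + 1) * (y - 2) := by
  unfold Wm
  rw [map_sub, map_mul, aeval_C]
  simp only [algebraMap_int_eq, eq_intCast, Int.cast_ofNat]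
  have h1 := S_eval x y h (k + 1)
  have h2 := S_eval x y h k
  linear_combination h1 - 2 * h2

theorem I1 (k : ℕ) : (X - C 4) * Wp k ^ 2 = T (2 * k + 3) - C (4 ^ (k + 2)) := by
  have hne : (X + C 4 : ℤ[X]) ≠ 0 := (monic_X_add_C 4).ne_zero
  apply mul_left_cancel₀ hne
  apply poly_ext
  intro x y h
  simp only [map_mul, map_add, map_sub, map_pow, aeval_X, map_ofNat]
  rw [T_eval x y h]
  have h1 := Wp_eval x y h k
  have h2 : (x * y) ^ (k + 1) = 4 ^ (k + 1) := by rw [h]
  rw [mul_pow] at h2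
  have h3 : (x + y + 4) * (x + y - 4) = (x - y) ^ 2 := by linear_combination 4 * h
  have h4 : (x + y + 4) * ((x + y - 4) * aeval (x + y) (Wp k) ^ 2) =
      (x ^ (k + 1) * (x + 2) - y ^ (k + 1) * (y + 2)) ^ 2 := by
    rw [← h1, mul_pow, ← h3]; ring
  rw [h4]
  have e1 : x ^ (2 * k + 3) = x ^ (k + 1) * x ^ (k + 1) * x := by ring
  have e2 : y ^ (2 * k + 3) = y ^ (k + 1) * y ^ (k + 1) * y := by ring
  have e3 : (4 : ℂ) ^ (k + 2) = 4 * 4 ^ (k + 1) := by ring
  rw [e1, e2, e3]
  generalize x ^ (k + 1) = A at *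
  generalize y ^ (k + 1) = B at *
  generalize (4 : ℂ) ^ (k + 1) = M at *
  linear_combination (-A ^ 2 - B ^ 2 - 2 * M) * h - 2 * (x + 2) * (y + 2) * h2

theorem I2 (k : ℕ) : (X + C 4) * Wm k ^ 2 = T (2 * k + 3) + C (4 ^ (k + 2)) := by
  have hne : (X - C 4 : ℤ[X]) ≠ 0 := (monic_X_sub_C 4).ne_zero
  apply mul_left_cancel₀ hne
  apply poly_ext
  intro x y h
  simp only [map_mul, map_add, map_sub, map_pow, aeval_X, map_ofNat]
  rw [T_eval x y h]
  have h1 := Wm_eval x y h k
  have h2 : (x * y) ^ (k + 1) = 4 ^ (k + 1) := by rw [h]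
  rw [mul_pow] at h2
  have h3 : (x + y - 4) * (x + y + 4) = (x - y) ^ 2 := by linear_combination 4 * h
  have h4 : (x + y - 4) * ((x + y + 4) * aeval (x + y) (Wm k) ^ 2) =
      (x ^ (k + 1) * (x - 2) - y ^ (k + 1) * (y - 2)) ^ 2 := by
    rw [← h1, mul_pow, ← h3]; ring
  rw [h4]
  have e1 : x ^ (2 * k + 3) = x ^ (k + 1) * x ^ (k + 1) * x := by ring
  have e2 : y ^ (2 * k + 3) = y ^ (k + 1) * y ^ (k + 1) * y := by ring
  have e3 : (4 : ℂ) ^ (k + 2) = 4 * 4 ^ (k + 1) := by ring
  rw [e1, e2, e3]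
  generalize x ^ (k + 1) = A at *
  generalize y ^ (k + 1) = B at *
  generalize (4 : ℂ) ^ (k + 1) = M at *
  linear_combination (-A ^ 2 - B ^ 2 - 2 * M) * h - 2 * (x - 2) * (y - 2) * h2

theorem I3 (k : ℕ) : S (2 * k + 2) = Wp k * Wm k := by
  have hne : ((X - C 4) * (X + C 4) : ℤ[X]) ≠ 0 :=
    mul_ne_zero (monic_X_sub_C 4).ne_zero (monic_X_add_C 4).ne_zero
  apply mul_left_cancel₀ hne
  apply poly_ext
  intro x y h
  simp only [map_mul, map_add, map_sub, aeval_X, map_ofNat]
  have h1 := Wp_eval x y h k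
  have h1' := Wm_eval x y h k
  have h2 : (x * y) ^ (k + 1) = 4 ^ (k + 1) := by rw [h]
  rw [mul_pow] at h2
  have h3 : (x + y - 4) * (x + y + 4) = (x - y) ^ 2 := by linear_combination 4 * h
  have h4 := S_eval x y h (2 * k + 2)
  have h5 : (x + y - 4) * (x + y + 4) * aeval (x + y) (S (2 * k + 2)) =
      (x - y) * (x ^ (2 * k + 2 + 1) - y ^ (2 * k + 2 + 1)) := by
    rw [h3, ← h4]; ring
  have h6 : (x + y - 4) * (x + y + 4) * (aeval (x + y) (Wp k) * aeval (x + y) (Wm k)) =
      (x ^ (k + 1) * (x + 2) - y ^ (k + 1) * (y + 2)) *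
        (x ^ (k + 1) * (x - 2) - y ^ (k + 1) * (y - 2)) := by
    rw [h3, ← h1, ← h1']; ring
  rw [h5, h6]
  have e1 : x ^ (2 * k + 2 + 1) = x ^ (k + 1) * x ^ (k + 1) * x := by ring
  have e2 : y ^ (2 * k + 2 + 1) = y ^ (k + 1) * y ^ (k + 1) * y := by ring
  rw [e1, e2]
  generalize x ^ (k + 1) = A at *
  generalize y ^ (k + 1) = B at *
  linear_combination (-A ^ 2 - B ^ 2 + 2 * A * B) * h

theorem T_deriv' (k : ℕ) :
    derivative (T (2 * k + 3)) = ((2 * k + 3 : ℕ) : ℤ[X]) * (Wp k * Wm k) := by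
  rw [show 2 * k + 3 = (2 * k + 2) + 1 from rfl, T_deriv, I3]
  push_cast
  ring

theorem I5p (k : ℕ) :
    Wp k + 2 * ((X - C 4) * derivative (Wp k)) = ((2 * k + 3 : ℕ) : ℤ[X]) * Wm k := by
  have h1 := congrArg derivative (I1 k)
  rw [derivative_sub, derivative_C, sub_zero, T_deriv', derivative_mul, derivative_sub,
    derivative_X, derivative_C, sub_zero, one_mul, derivative_pow] at h1
  apply mul_left_cancel₀ (Wp_monic k).1.ne_zero
  simp only [Nat.cast_ofNat, map_ofNat] at h1 ⊢
  linear_combination h1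

theorem I5m (k : ℕ) :
    Wm k + 2 * ((X + C 4) * derivative (Wm k)) = ((2 * k + 3 : ℕ) : ℤ[X]) * Wp k := by
  have h1 := congrArg derivative (I2 k)
  rw [derivative_add, derivative_C, add_zero, T_deriv', derivative_mul, derivative_add,
    derivative_X, derivative_C, add_zero, one_mul, derivative_pow] at h1
  apply mul_left_cancel₀ (Wm_monic k).1.ne_zero
  simp only [Nat.cast_ofNat, map_ofNat] at h1 ⊢
  linear_combination h1

/-! ### the key lemma -/

/-- reduction mod `p` -/
noncomputable abbrev rd (p : ℕ) (f : ℤ[X]) : (ZMod p)[X] := f.map (Int.castRingHom (ZMod p))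

theorem key {P : ℤ[X]} {v : ℂ} (hdiv : ∀ F : ℤ[X], aeval v F = 0 → P ∣ F) {p : ℕ}
    [Fact p.Prime] (h : ℤ[X]) (z : ℂ) (hz : IsIntegral ℤ z) (hv : aeval v h = p * z) :
    ∃ k : ℕ, k ≠ 0 ∧ rd p P ∣ rd p h ^ k := by
  obtain ⟨f, hf, hfz⟩ := hz
  have hfz' : aeval z f = 0 := hfz
  have h1 : aeval (aeval v h) (f.scaleRoots (p : ℤ)) = 0 := by
    rw [hv]
    have := scaleRoots_aeval_eq_zero (r := (p : ℤ)) hfz'
    simpa using this
  have h2 : P ∣ (f.scaleRoots (p : ℤ)).comp h := by
    apply hdiv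
    rw [aeval_comp]
    exact h1
  refine ⟨f.natDegree, ?_, ?_⟩
  · intro h0
    have : f = 1 := (Monic.natDegree_eq_zero hf).1 h0
    rw [this] at hfz'
    simp at hfz'
  · have h3 := Polynomial.map_dvd (Int.castRingHom (ZMod p)) h2
    rw [Polynomial.map_comp] at h3
    have h4 : (f.scaleRoots (p : ℤ)).map (Int.castRingHom (ZMod p)) = X ^ f.natDegree := by
      ext i
      rw [coeff_map, coeff_scaleRoots, coeff_X_pow]
      split_ifs with hi
      · subst hi
        rw [hf.coeff_natDegree]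
        simp
      · rcases lt_or_gt_of_ne hi with hlt | hgt
        · have : f.natDegree - i ≠ 0 := by omega
          simp [this]
        · rw [coeff_eq_zero_of_natDegree_lt hgt]
          simp
    rw [h4, X_pow_comp] at h3
    exact h3

theorem int_aeval {v : ℂ} (hv : IsIntegral ℤ v) (g : ℤ[X]) : IsIntegral ℤ (aeval v g) :=
  adjoin_le_integralClosure hv (aeval_mem_adjoin_singleton ℤ v)

theorem natDegree_rd_le (p : ℕ) (f : ℤ[X]) : (rd p f).natDegree ≤ f.natDegree := natDegree_map_le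

theorem natDegree_rd {p : ℕ} [Fact p.Prime] {f : ℤ[X]} (hf : f.Monic) :
    (rd p f).natDegree = f.natDegree := hf.natDegree_map _

theorem eq_zero_of_dvd' {p : ℕ} [Fact p.Prime] {f g : ℤ[X]} (hf : f.Monic)
    (h : rd p f ∣ rd p g) (hd : g.natDegree < f.natDegree) : rd p g = 0 := by
  apply Polynomial.eq_zero_of_dvd_of_natDegree_lt h
  rw [natDegree_rd hf]
  exact lt_of_le_of_lt (natDegree_rd_le _ _) hd

theorem exists_of_rd_eq_zero {p : ℕ} [Fact p.Prime] {g : ℤ[X]} (h : rd p g = 0) :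
    ∃ g' : ℤ[X], g = C (p : ℤ) * g' := by
  have : C (p : ℤ) ∣ g := by
    rw [C_dvd_iff_dvd_coeff]
    intro i
    have h1 := congrArg (fun f => coeff f i) h
    simp only [coeff_map, coeff_zero, eq_intCast] at h1
    rwa [ZMod.intCast_zmod_eq_zero_iff_dvd] at h1
  exact this

/-- the separable case -/
theorem caseA {P : ℤ[X]} {v : ℂ} (hdiv : ∀ F : ℤ[X], aeval v F = 0 → P ∣ F) {p : ℕ}
    [Fact p.Prime] (hPm : P.Monic) (hsep : (rd p P).Separable) (g : ℤ[X])
    (hg : g.natDegree < P.natDegree) (z : ℂ) (hz : IsIntegral ℤ z) (hv : aeval v g = p * z) :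
    rd p g = 0 := by
  obtain ⟨k, hk, hdvd⟩ := key hdiv g z hz hv
  exact eq_zero_of_dvd' hPm ((hsep.squarefree.dvd_pow_iff_dvd hk).1 hdvd) hg

/-- the Eisenstein case -/
theorem caseB {P U : ℤ[X]} {v : ℂ} (hdiv : ∀ F : ℤ[X], aeval v F = 0 → P ∣ F) {q : ℕ}
    [Fact q.Prime] (hP : P = X ^ q + C (q : ℤ) * U) (hU : ¬ (q : ℤ) ∣ U.coeff 0)
    (hPv : aeval v P = 0) (hvi : IsIntegral ℤ v) (g : ℤ[X])
    (hg : g.natDegree < q) (z : ℂ) (hz : IsIntegral ℤ z) (hv : aeval v g = q * z) :
    rd q g = 0 := by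
  have hq0 : (q : ℂ) ≠ 0 := by exact_mod_cast (Fact.out : q.Prime).ne_zero
  by_contra hne
  -- the order of vanishing at `0`
  obtain ⟨g0, hg0, hnd⟩ := Polynomial.exists_eq_pow_rootMultiplicity_mul_and_not_dvd (rd q g) hne 0
  set s := rootMultiplicity 0 (rd q g) with hs
  rw [C_0, sub_zero] at hg0 hnd
  have hsq : s < q := by
    have h1 : (rd q g).natDegree = s + g0.natDegree := by
      rw [hg0, natDegree_mul (pow_ne_zero _ X_ne_zero), natDegree_X_pow]
      rintro rfl
      exact hnd (dvd_zero _)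
    have h2 := natDegree_rd_le q g
    omega
  have hXm : (X ^ s : ℤ[X]).Monic := monic_X_pow s
  have hdec := modByMonic_add_div g (X ^ s : ℤ[X])
  set g1 := g /ₘ (X ^ s : ℤ[X]) with hg1
  set rem := g %ₘ (X ^ s : ℤ[X]) with hrem
  have hrem0 : rd q rem = 0 := by
    rw [hrem]
    show (g %ₘ (X ^ s : ℤ[X])).map _ = 0
    rw [map_modByMonic _ hXm, Polynomial.map_pow, map_X,
      modByMonic_eq_zero_iff_dvd (monic_X_pow s)]
    exact ⟨g0, hg0⟩
  have hg1' : rd q g1 = g0 := by
    have h1 := congrArg (rd q) hdec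
    simp only [rd, Polynomial.map_add, Polynomial.map_mul, Polynomial.map_pow, map_X] at h1
    have h2 : rem.map (Int.castRingHom (ZMod q)) = 0 := hrem0
    rw [h2, zero_add] at h1
    have h3 : (X ^ s : (ZMod q)[X]) ≠ 0 := pow_ne_zero _ X_ne_zero
    apply mul_left_cancel₀ h3
    rw [h1]
    exact hg0
  obtain ⟨g2, hg2⟩ := exists_of_rd_eq_zero hrem0
  set z1 := z - aeval v g2 with hz1
  have hz1i : IsIntegral ℤ z1 := hz.sub (int_aeval hvi g2)
  have e1 : v ^ s * aeval v g1 = q * z1 := by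
    have h1 := congrArg (aeval v) hdec
    rw [map_add, map_mul, hg2, map_mul, aeval_C, hv, map_pow, aeval_X] at h1
    simp only [algebraMap_int_eq, eq_intCast, Int.cast_natCast] at h1
    rw [hz1]
    linear_combination h1
  have e2 : v ^ q = -(q * aeval v U) := by
    have h1 := hPv
    rw [hP, map_add, map_mul, aeval_C, map_pow, aeval_X] at h1
    simp only [algebraMap_int_eq, eq_intCast, Int.cast_natCast] at h1
    linear_combination h1
  have e3 : aeval v ((-U) ^ s * g1 ^ q) = q * ((q : ℂ) ^ (q - s - 1) * z1 ^ q) := by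
    have h1 : (v ^ s * aeval v g1) ^ q = (q * z1) ^ q := by rw [e1]
    have h2 : (v ^ s * aeval v g1) ^ q = (v ^ q) ^ s * aeval v g1 ^ q := by
      rw [mul_pow, ← pow_mul, ← pow_mul, mul_comm s q]
    rw [h2, e2] at h1
    rw [map_mul, map_pow, map_pow, map_neg]
    have h3 : (q : ℂ) ^ s ≠ 0 := pow_ne_zero _ hq0
    apply mul_left_cancel₀ h3
    have h4 : (q : ℂ) ^ s * ((-aeval v U) ^ s * aeval v g1 ^ q) =
        (-(q * aeval v U)) ^ s * aeval v g1 ^ q := by
      rw [← mul_assoc, ← mul_pow, mul_neg]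
    rw [h4, h1, mul_pow]
    have h5 : (q : ℂ) ^ q = q ^ s * (q * q ^ (q - s - 1)) := by
      rw [← pow_succ', ← pow_add]
      congr 1
      omega
    rw [h5]
    ring
  have hz3 : IsIntegral ℤ ((q : ℂ) ^ (q - s - 1) * z1 ^ q) := by
    refine IsIntegral.mul (IsIntegral.pow ?_ _) (hz1i.pow _)
    exact_mod_cast isIntegral_algebraMap (R := ℤ) (A := ℂ) (x := (q : ℤ))
  obtain ⟨k, hk, hdvd⟩ := key hdiv _ _ hz3 e3
  have hXP : (X : (ZMod q)[X]) ∣ rd q P := by
    rw [hP]
    simp only [rd, Polynomial.map_add, Polynomial.map_mul, Polynomial.map_pow, map_X, map_C]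
    have : (Int.castRingHom (ZMod q)) (q : ℤ) = 0 := by simp
    rw [this, C_0, zero_mul, add_zero]
    exact dvd_pow_self _ (Fact.out : q.Prime).ne_zero
  have h1 := (prime_X.dvd_of_dvd_pow (hXP.trans hdvd))
  simp only [rd, Polynomial.map_mul, Polynomial.map_pow, Polynomial.map_neg] at h1
  rcases prime_X.dvd_or_dvd h1 with h2 | h2
  · have h3 := prime_X.dvd_of_dvd_pow h2
    rw [dvd_neg, X_dvd_iff, coeff_map] at h3
    apply hU
    rw [← ZMod.intCast_zmod_eq_zero_iff_dvd]
    simpa using h3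
  · have h3 := prime_X.dvd_of_dvd_pow h2
    apply hnd
    rw [← hg1']
    exact h3

/-- the ramified case -/
theorem caseC {P L W : ℤ[X]} {v : ℂ} (hdiv : ∀ F : ℤ[X], aeval v F = 0 → P ∣ F) {p m : ℕ}
    [Fact p.Prime] {m' : ℤ} (hP : P = L * W ^ 2 + C (p * m')) (hm' : ¬ (p : ℤ) ∣ m')
    (hL : L.Monic) (hLd : L.natDegree = 1) (hW : W.Monic) (hWd : W.natDegree = m) (hm : 0 < m)
    (hsep : (rd p (L * W)).Separable) (hPv : aeval v P = 0) (hvi : IsIntegral ℤ v)
    (g : ℤ[X]) (hg : g.natDegree < 2 * m + 1) (z : ℂ) (hz : IsIntegral ℤ z)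
    (hv : aeval v g = p * z) : rd p g = 0 := by
  have hp0 : (p : ℂ) ≠ 0 := by exact_mod_cast (Fact.out : p.Prime).ne_zero
  have hrP : rd p P = rd p L * rd p W ^ 2 := by
    rw [hP]
    simp only [rd, Polynomial.map_add, Polynomial.map_mul, Polynomial.map_pow, map_C]
    have : (Int.castRingHom (ZMod p)) ((p : ℤ) * m') = 0 := by simp
    rw [this, C_0, add_zero]
  have hrLW : rd p (L * W) = rd p L * rd p W := Polynomial.map_mul _
  obtain ⟨k, hk, hdvd⟩ := key hdiv g z hz hv
  have hD : rd p (L * W) ∣ rd p g := by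
    refine (hsep.squarefree.dvd_pow_iff_dvd hk).1 (Dvd.dvd.trans ?_ hdvd)
    rw [hrP, hrLW]
    exact ⟨rd p W, by ring⟩
  have hLW : (L * W).Monic := hL.mul hW
  have hLWd : (L * W).natDegree = m + 1 := by
    rw [hL.natDegree_mul hW, hLd, hWd]; ring
  have hdec := modByMonic_add_div g (L * W)
  set g1 := g /ₘ (L * W) with hg1
  set rem := g %ₘ (L * W) with hrem
  have hrem0 : rd p rem = 0 := by
    rw [hrem]
    show (g %ₘ (L * W)).map _ = 0
    rw [map_modByMonic _ hLW, modByMonic_eq_zero_iff_dvd (hLW.map _)]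
    exact hD
  have hg1d : g1.natDegree < W.natDegree := by
    rw [hg1, natDegree_divByMonic _ hLW, hLWd, hWd]
    omega
  obtain ⟨g2, hg2⟩ := exists_of_rd_eq_zero hrem0
  set z1 := z - aeval v g2 with hz1
  have hz1i : IsIntegral ℤ z1 := hz.sub (int_aeval hvi g2)
  have e1 : aeval v L * aeval v W * aeval v g1 = p * z1 := by
    have h1 := congrArg (aeval v) hdec
    rw [map_add, map_mul, map_mul, hg2, map_mul, aeval_C, hv] at h1
    simp only [algebraMap_int_eq, eq_intCast, Int.cast_natCast] at h1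
    rw [hz1]
    linear_combination h1
  have e2 : aeval v L * aeval v W ^ 2 = -(p * m') := by
    have h1 := hPv
    rw [hP, map_add, map_mul, aeval_C, map_pow] at h1
    simp only [algebraMap_int_eq, eq_intCast, Int.cast_natCast, Int.cast_mul] at h1
    linear_combination h1
  have e3 : aeval v (C m' * L * g1 ^ 2) = p * (-z1 ^ 2) := by
    rw [map_mul, map_mul, aeval_C, map_pow]
    simp only [algebraMap_int_eq, eq_intCast]
    apply mul_left_cancel₀ hp0
    have h1 : (aeval v L * aeval v W * aeval v g1) ^ 2 = (p * z1) ^ 2 := by rw [e1]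
    have h2 : (aeval v L * aeval v W * aeval v g1) ^ 2 =
      aeval v L * (aeval v L * aeval v W ^ 2) * aeval v g1 ^ 2 := by ring
    rw [h2, e2] at h1
    linear_combination -h1
  obtain ⟨k', hk', hdvd'⟩ := key hdiv _ _ (hz1i.pow 2).neg e3
  have hWsep : (rd p W).Separable := by
    rw [hrLW] at hsep
    exact hsep.of_mul_right
  have hcop : IsCoprime (rd p L) (rd p W) := by
    rw [hrLW] at hsep
    exact hsep.isCoprime
  have hW1 : rd p W ∣ rd p (C m' * L * g1 ^ 2) := by
    refine (hWsep.squarefree.dvd_pow_iff_dvd hk').1 (Dvd.dvd.trans ?_ hdvd')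
    rw [hrP]
    exact ⟨rd p L * rd p W, by ring⟩
  have hm'0 : (Int.castRingHom (ZMod p)) m' ≠ 0 := by
    intro h
    apply hm'
    rw [← ZMod.intCast_zmod_eq_zero_iff_dvd]
    simpa using h
  have hW2 : rd p W ∣ rd p g1 ^ 2 := by
    have h1 : rd p (C m' * L * g1 ^ 2) = C ((Int.castRingHom (ZMod p)) m') *
        (rd p L * rd p g1 ^ 2) := by
      simp only [rd, Polynomial.map_mul, Polynomial.map_pow, map_C]
      ring
    rw [h1] at hW1
    have h2 : IsUnit (C ((Int.castRingHom (ZMod p)) m')) := isUnit_C.2 (isUnit_iff_ne_zero.2 hm'0)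
    have h3 := (h2.dvd_mul_left).1 hW1
    exact (hcop.symm.dvd_of_dvd_mul_left h3)
  have hW3 : rd p W ∣ rd p g1 := (hWsep.squarefree.dvd_pow_iff_dvd two_ne_zero).1 hW2
  have hg10 := eq_zero_of_dvd' hW hW3 hg1d
  have h1 := congrArg (rd p) hdec
  have h2 : rd p (rem + L * W * g1) = rd p rem + rd p L * rd p W * rd p g1 := by
    simp only [rd, Polynomial.map_add, Polynomial.map_mul]
  rw [h2, hrem0, hg10, mul_zero, add_zero] at h1
  exact h1.symm

/-! ### separability -/

theorem coprime_of {F : Type*} [Field F] {f g a b : F[X]} {u : F} (hu : u ≠ 0)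
    (h : a * f + b * g = C u) : IsCoprime f g := by
  refine ⟨C u⁻¹ * a, C u⁻¹ * b, ?_⟩
  have : C u⁻¹ * a * f + C u⁻¹ * b * g = C u⁻¹ * (a * f + b * g) := by ring
  rw [this, h, ← C_mul, inv_mul_cancel₀ hu, C_1]

theorem sepC {p : ℕ} [Fact p.Prime] (A B W V : ℤ[X]) (qq c : ℤ)
    (h1 : W + 2 * (A * derivative W) = C qq * V) (h2 : B * V ^ 2 - A * W ^ 2 = C c)
    (hA : (rd p A).Separable) (hq : (qq : ZMod p) ≠ 0) (hc : (c : ZMod p) ≠ 0) :
    (rd p (A * W)).Separable := by
  have h3 : W * (B * W + 4 * A * B * derivative W - C qq ^ 2 * A * W) +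
      (A * derivative W) * (4 * A * B * derivative W) = C (qq ^ 2 * c) := by
    rw [C_mul, C_pow, ← h2]
    linear_combination (B * (W + 2 * (A * derivative W)) + B * C qq * V) * h1
  have h4 := congrArg (Polynomial.map (Int.castRingHom (ZMod p))) h3
  rw [Polynomial.map_add, Polynomial.map_mul, Polynomial.map_mul, map_C] at h4
  have h5 : (Int.castRingHom (ZMod p)) (qq ^ 2 * c) ≠ 0 := by
    rw [map_mul, map_pow]
    exact mul_ne_zero (pow_ne_zero _ (by simpa using hq)) (by simpa using hc)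
  have hcop : IsCoprime (W.map (Int.castRingHom (ZMod p)))
      ((A * derivative W).map (Int.castRingHom (ZMod p))) := by
    refine coprime_of
      (a := (B * W + 4 * A * B * derivative W - C qq ^ 2 * A * W).map
        (Int.castRingHom (ZMod p)))
      (b := (4 * A * B * derivative W).map (Int.castRingHom (ZMod p))) h5 ?_
    rw [← h4]; ring
  rw [Polynomial.map_mul] at hcop
  have hWA := hcop.of_mul_right_left
  have hWW := hcop.of_mul_right_right
  rw [rd, Polynomial.map_mul]
  refine Separable.mul hA ?_ hWA.symm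
  show IsCoprime _ _
  rwa [derivative_map]

/-! ### assembly -/

theorem DP_eq (k : ℕ) (t : ℤ) : DP (2 * k + 3) t = T (2 * k + 3) - C t := rfl

theorem DP_monic (k : ℕ) (t : ℤ) :
    (DP (2 * k + 3) t).Monic ∧ (DP (2 * k + 3) t).natDegree = 2 * k + 3 := by
  rw [DP_eq]
  have h := T_monic (2 * k + 2)
  have h1 : (T (2 * k + 3)).Monic := h.1
  have h2 : (T (2 * k + 3)).natDegree = 2 * k + 3 := h.2
  have hlt : (C t : ℤ[X]).natDegree < (T (2 * k + 3)).natDegree := by
    rw [natDegree_C, h2]; omega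
  refine ⟨h1.sub_of_left (degree_lt_degree hlt), ?_⟩
  rw [natDegree_sub_eq_left_of_natDegree_lt hlt, h2]

theorem rd_DP {q : ℕ} [Fact q.Prime] {k : ℕ} (hk : q = 2 * k + 3) {t : ℤ} (ht : (q : ℤ) ∣ t) :
    rd q (DP q t) = X ^ q := by
  subst hk
  have hm := DP_monic k t
  ext i
  rw [coeff_map, coeff_X_pow]
  split_ifs with hi
  · subst hi
    have : (DP (2 * k + 3) t).coeff (2 * k + 3) = 1 := by
      conv_lhs => rw [← hm.2]
      have := hm.1
      rw [hm.2]
      rw [Monic, leadingCoeff, hm.2] at this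
      exact this
    rw [this]; simp
  · rcases lt_or_gt_of_ne hi with hlt | hgt
    · rw [DP_eq, coeff_sub]
      rcases Nat.eq_zero_or_pos i with h0 | h0
      · subst h0
        have h1 := T_zero_coeff (k + 1)
        rw [show 2 * (k + 1) + 1 = 2 * k + 3 by ring] at h1
        rw [h1, coeff_C_zero, zero_sub, eq_intCast, ZMod.intCast_zmod_eq_zero_iff_dvd]
        exact (dvd_neg).2 ht
      · obtain ⟨j, rfl⟩ : ∃ j, i = j + 1 := ⟨i - 1, by omega⟩
        rw [coeff_C_succ, sub_zero, eq_intCast, ZMod.intCast_zmod_eq_zero_iff_dvd]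
        have h1 := congrArg (fun f => coeff f j) (T_deriv (2 * k + 2))
        simp only [coeff_derivative] at h1
        have h2 : ((((2 * k + 2 : ℕ) : ℤ[X]) + 1) * S (2 * k + 2)).coeff j =
            ((2 * k + 3 : ℕ) : ℤ) * (S (2 * k + 2)).coeff j := by
          have : (((2 * k + 2 : ℕ) : ℤ[X]) + 1) = C ((2 * k + 3 : ℕ) : ℤ) := by
            push_cast
            simp
            ring
          rw [this, coeff_C_mul]
        rw [h2] at h1
        have h3 : ((2 * k + 3 : ℕ) : ℤ) ∣ (T (2 * k + 2 + 1)).coeff (j + 1) * (((j : ℤ) + 1)) :=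
          ⟨_, h1⟩
        have hp : Prime ((2 * k + 3 : ℕ) : ℤ) := Nat.prime_iff_prime_int.1 Fact.out
        rcases hp.dvd_or_dvd h3 with h4 | h4
        · exact h4
        · exfalso
          have h5 : (2 * k + 3) ∣ j + 1 := by exact_mod_cast h4
          exact absurd (Nat.le_of_dvd (by omega) h5) (by omega)
    · rw [coeff_eq_zero_of_natDegree_lt (by rw [hm.2]; exact hgt)]
      simp

theorem star {q : ℕ} {t : ℤ} (h : GoodPar q t) {v : ℂ} (hv : aeval v (DP q t) = 0)
    (p : ℕ) [Fact p.Prime] (g : ℤ[X]) (hg : g.natDegree < q) (z : ℂ) (hz : IsIntegral ℤ z)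
    (hgv : aeval v g = p * z) : rd p g = 0 := by
  obtain ⟨hq, hq5, hodd, -, hqt, hqt2, hsq⟩ := h
  have : Fact q.Prime := ⟨hq⟩
  obtain ⟨k, hk⟩ : ∃ k, q = 2 * k + 3 := by
    have := hq.eq_two_or_odd
    exact ⟨(q - 3) / 2, by omega⟩
  have hk1 : 1 ≤ k := by omega
  have hPm : (DP q t).Monic := by rw [hk]; exact (DP_monic k t).1
  have hPd : (DP q t).natDegree = q := by rw [hk]; exact (DP_monic k t).2
  have hvi : IsIntegral ℤ v := ⟨DP q t, hPm, hv⟩
  have hrd := rd_DP hk hqt
  -- Eisenstein form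
  obtain ⟨U, hU⟩ : ∃ U, DP q t - X ^ q = C (q : ℤ) * U := by
    apply exists_of_rd_eq_zero
    rw [rd, Polynomial.map_sub, Polynomial.map_pow, map_X]
    have : (DP q t).map (Int.castRingHom (ZMod q)) = X ^ q := hrd
    rw [this, sub_self]
  have hP : DP q t = X ^ q + C (q : ℤ) * U := by rw [← hU]; ring
  have hc0 : (DP q t).coeff 0 = -t := by
    rw [hk, DP_eq, coeff_sub, coeff_C_zero]
    have h1 := T_zero_coeff (k + 1)
    rw [show 2 * (k + 1) + 1 = 2 * k + 3 by ring] at h1
    rw [h1]; ring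
  have hU0 : ¬ (q : ℤ) ∣ U.coeff 0 := by
    rintro ⟨c, hc⟩
    apply hqt2
    have h1 := congrArg (fun f => coeff f 0) hP
    simp only [coeff_add, mul_coeff_zero, coeff_C_zero, hc0] at h1
    rw [coeff_X_pow, if_neg hq.ne_zero.symm, hc] at h1
    exact ⟨-c, by linear_combination -h1⟩
  have hqpI : Prime (q : ℤ) := Nat.prime_iff_prime_int.1 hq
  have hEis : (DP q t).IsEisensteinAt (Ideal.span {(q : ℤ)}) := by
    refine ⟨?_, ?_, ?_⟩
    · rw [hPm.leadingCoeff, Ideal.mem_span_singleton]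
      exact hqpI.not_dvd_one
    · intro n hn
      rw [Ideal.mem_span_singleton, hP, coeff_add, coeff_X_pow, if_neg (by omega), coeff_C_mul,
        zero_add]
      exact dvd_mul_right _ _
    · rw [hc0, Ideal.span_singleton_pow, Ideal.mem_span_singleton, dvd_neg]
      exact hqt2
  have hirr : Irreducible (DP q t) := by
    refine hEis.irreducible ?_ hPm.isPrimitive (by rw [hPd]; omega)
    exact (Ideal.span_singleton_prime hqpI.ne_zero).2 hqpI
  have hdiv : ∀ F : ℤ[X], aeval v F = 0 → DP q t ∣ F := by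
    intro F hF
    have h1 := minpoly.isIntegrallyClosed_dvd hvi hF
    have h2 := minpoly.isIntegrallyClosed_dvd hvi hv
    exact ((minpoly.irreducible hvi).dvd_symm hirr h2).trans h1
  have hc4 : ((4 : ℤ) ^ (k + 2)) = 2 ^ (q + 1) := by
    rw [hk, show (4 : ℤ) = 2 ^ 2 by norm_num, ← pow_mul]
    congr 1
  by_cases hpq : p = q
  · subst hpq
    exact caseB hdiv hP hU0 hv hvi g hg z hz hgv
  · have hqp : ((q : ℤ) : ZMod p) ≠ 0 := by
      rw [Ne, ZMod.intCast_zmod_eq_zero_iff_dvd]
      intro h1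
      have : p ∣ q := by exact_mod_cast h1
      exact hpq ((Nat.prime_dvd_prime_iff_eq Fact.out hq).1 this)
    have hpp : p.Prime := Fact.out
    -- `p` is odd if it divides an odd number
    have h2p : ∀ u : ℤ, Odd u → (p : ℤ) ∣ u → ((2 : ℤ) : ZMod p) ≠ 0 := by
      intro u hu hpu h2
      rw [ZMod.intCast_zmod_eq_zero_iff_dvd] at h2
      have h3 : p ∣ 2 := by exact_mod_cast h2
      have h4 : p = 2 := (Nat.prime_dvd_prime_iff_eq hpp Nat.prime_two).1 h3
      subst h4
      exact (Int.not_even_iff_odd.2 hu) (even_iff_two_dvd.2 hpu)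
    have hev : Even ((2 : ℤ) ^ (q + 1)) := by
      rw [pow_succ]; exact even_two.mul_left _
    by_cases hpC : (p : ℤ) ∣ 2 ^ (q + 1) - t
    · obtain ⟨m', hm'⟩ := hpC
      have h2 := h2p _ (hev.sub_odd hodd) ⟨m', hm'⟩
      have hm'p : ¬ (p : ℤ) ∣ m' := by
        rintro ⟨c, hc⟩
        exact (hsq p hpp).1 ⟨c, by rw [hm', hc]; ring⟩
      have hPeq : DP q t = (X - C 4) * Wp k ^ 2 + C (p * m') := by
        rw [I1, ← hm', ← hc4, hk, DP_eq]
        simp only [C_sub]
        ring
      have hsepA : (rd p (X - C 4 : ℤ[X])).Separable := by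
        rw [rd, Polynomial.map_sub, map_X, map_C]
        exact separable_X_sub_C
      have hsep : (rd p ((X - C 4) * Wp k)).Separable := by
        refine sepC (X - C 4) (X + C 4) (Wp k) (Wm k) (q : ℤ) (2 * 4 ^ (k + 2)) ?_ ?_ hsepA hqp ?_
        · rw [I5p, ← hk]; simp
        · rw [I1, I2]
          simp only [C_mul, C_pow, map_ofNat]
          ring
        · rw [hc4]
          push_cast
          have h3 : (2 : ZMod p) ≠ 0 := by simpa using h2
          exact mul_ne_zero h3 (pow_ne_zero _ h3)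
      refine caseC (m := k + 1) hdiv hPeq hm'p (monic_X_sub_C 4) (natDegree_X_sub_C 4)
        (Wp_monic k).1 (Wp_monic k).2 (by omega) hsep hv hvi g ?_ z hz hgv
      omega
    · by_cases hpD : (p : ℤ) ∣ 2 ^ (q + 1) + t
      · obtain ⟨m', hm'⟩ := hpD
        have h2 := h2p _ (hev.add_odd hodd) ⟨m', hm'⟩
        have hm'p : ¬ (p : ℤ) ∣ -m' := by
          rintro ⟨c, hc⟩
          refine (hsq p hpp).2 ⟨-c, ?_⟩
          rw [hm']
          linear_combination (-(p : ℤ)) * hc
        have hPeq : DP q t = (X + C 4) * Wm k ^ 2 + C (p * -m') := by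
          rw [I2, mul_neg, ← hm', ← hc4, hk, DP_eq]
          simp only [C_neg, C_add]
          ring
        have hsepA : (rd p (X + C 4 : ℤ[X])).Separable := by
          rw [rd, Polynomial.map_add, map_X, map_C]
          have := separable_X_sub_C (x := -(Int.castRingHom (ZMod p)) 4)
          rwa [C_neg, sub_neg_eq_add] at this
        have hsep : (rd p ((X + C 4) * Wm k)).Separable := by
          refine sepC (X + C 4) (X - C 4) (Wm k) (Wp k) (q : ℤ) (-(2 * 4 ^ (k + 2))) ?_ ?_ hsepA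
            hqp ?_
          · rw [I5m, ← hk]; simp
          · rw [I1, I2]
            simp only [C_neg, C_mul, C_pow, map_ofNat]
            ring
          · rw [hc4]
            push_cast
            have h3 : (2 : ZMod p) ≠ 0 := by simpa using h2
            exact neg_ne_zero.2 (mul_ne_zero h3 (pow_ne_zero _ h3))
        refine caseC (m := k + 1) hdiv hPeq hm'p (monic_X_add_C 4) (natDegree_X_add_C 4)
          (Wm_monic k).1 (Wm_monic k).2 (by omega) hsep hv hvi g ?_ z hz hgv
        omega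
      · -- unramified
        refine caseA hdiv hPm ?_ g (by rw [hPd]; exact hg) z hz hgv
        have hder : derivative (DP q t) = C (q : ℤ) * (Wp k * Wm k) := by
          have h1 : DP q t = T (2 * k + 3) - C t := by rw [hk]; rfl
          rw [h1, derivative_sub, derivative_C, sub_zero, T_deriv', ← hk]
          simp
        have hid : (-(C (q : ℤ) ^ 2 * (DP q t + 2 * C t))) * DP q t +
            ((X - C 4) * (X + C 4) * derivative (DP q t)) * derivative (DP q t) =
            C ((q : ℤ) ^ 2 * (t ^ 2 - (2 ^ (q + 1)) ^ 2)) := by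
          have e1 : T (2 * k + 3) = DP q t + C t := by rw [hk, DP_eq]; ring
          have i1 := I1 k
          have i2 := I2 k
          rw [e1, hc4] at i1 i2
          rw [hder]
          have i3 : (X - C 4) * (X + C 4) * (Wp k * Wm k) ^ 2 =
              (DP q t + C t - C (2 ^ (q + 1))) * (DP q t + C t + C (2 ^ (q + 1))) := by
            rw [← i1, ← i2]; ring
          simp only [C_mul, C_pow, C_sub]
          simp only [C_pow] at i3
          linear_combination (C (q : ℤ)) ^ 2 * i3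
        have h4 := congrArg (Polynomial.map (Int.castRingHom (ZMod p))) hid
        rw [Polynomial.map_add, Polynomial.map_mul, Polynomial.map_mul, map_C,
          ← derivative_map] at h4
        refine coprime_of ?_ h4
        rw [eq_intCast]
        push_cast
        have h5 : ((2 ^ (q + 1) - t : ℤ) : ZMod p) ≠ 0 := by
          rwa [Ne, ZMod.intCast_zmod_eq_zero_iff_dvd]
        have h6 : ((2 ^ (q + 1) + t : ℤ) : ZMod p) ≠ 0 := by
          rwa [Ne, ZMod.intCast_zmod_eq_zero_iff_dvd]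
        push_cast at h5 h6 hqp
        have h7 : (t : ZMod p) ^ 2 - (2 ^ (q + 1)) ^ 2 =
            -((2 ^ (q + 1) - t) * (2 ^ (q + 1) + t)) := by ring
        rw [h7]
        exact mul_ne_zero (pow_ne_zero _ hqp) (neg_ne_zero.2 (mul_ne_zero h5 h6))

theorem stmA2 : StmA2 := by
  intro q t h v hv g hg hgi
  -- clearing denominators
  have main : ∀ N : ℕ, 0 < N → ∀ g : ℚ[X], g.natDegree < q → IsIntegral ℤ (aeval v g) →
      ∀ G : ℤ[X], G.map (Int.castRingHom ℚ) = C (N : ℚ) * g →
      ∃ g' : ℤ[X], g'.map (Int.castRingHom ℚ) = g := by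
    intro N
    induction N using Nat.strong_induction_on with
    | _ N ih =>
      intro hN g hg hgi G hG
      rcases Nat.eq_or_lt_of_le hN with h1 | h1
      · refine ⟨G, ?_⟩
        rw [hG, ← h1]
        simp
      · obtain ⟨p, hp, N', hN'⟩ := Nat.exists_prime_and_dvd (show N ≠ 1 by omega)
        have : Fact p.Prime := ⟨hp⟩
        have hN0 : (N : ℚ) ≠ 0 := by exact_mod_cast hN.ne'
        have hGd : G.natDegree < q := by
          have h2 : (G.map (Int.castRingHom ℚ)).natDegree = G.natDegree :=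
            natDegree_map_eq_of_injective (RingHom.injective_int _) G
          rw [← h2, hG]
          exact lt_of_le_of_lt (natDegree_C_mul_le _ _) hg
        have hGv : aeval v G = p * ((N' : ℂ) * aeval v g) := by
          have h2 : aeval v G = aeval v (G.map (Int.castRingHom ℚ)) := by
            rw [aeval_def, aeval_def, eval₂_map]
            congr 1
          rw [h2, hG, map_mul, aeval_C, hN']
          push_cast
          ring
        have hzi : IsIntegral ℤ ((N' : ℂ) * aeval v g) := by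
          refine IsIntegral.mul ?_ hgi
          exact_mod_cast isIntegral_algebraMap (R := ℤ) (A := ℂ) (x := (N' : ℤ))
        obtain ⟨G', hG'⟩ := exists_of_rd_eq_zero (star h hv p G hGd _ hzi hGv)
        have hp0 : (p : ℚ) ≠ 0 := by exact_mod_cast hp.ne_zero
        have hN'pos : 0 < N' := by
          rcases Nat.eq_zero_or_pos N' with h0 | h0
          · rw [h0, mul_zero] at hN'; omega
          · exact h0
        refine ih N' ?_ hN'pos g hg hgi G' ?_
        · rw [hN']
          nlinarith [hp.two_le]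
        · rw [hG', Polynomial.map_mul, map_C, hN'] at hG
          have h3 : (C (p : ℚ) : ℚ[X]) ≠ 0 := by rwa [Ne, C_eq_zero]
          apply mul_left_cancel₀ h3
          rw [← mul_assoc, ← C_mul]
          have h4 : (Int.castRingHom ℚ) (p : ℤ) = (p : ℚ) := by simp
          rw [h4] at hG
          rw [hG]
          push_cast
          rfl
  obtain ⟨⟨b, hb0⟩, hb⟩ := IsLocalization.integerNormalization_map_to_map (nonZeroDivisors ℤ) g
  have hb1 : b ≠ 0 := nonZeroDivisors.ne_zero hb0
  -- make the denominator positive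
  have hbb : (C (SignType.sign b : ℤ) * IsLocalization.integerNormalization (nonZeroDivisors ℤ) g).map
      (Int.castRingHom ℚ) = C ((b.natAbs : ℕ) : ℚ) * g := by
    rw [Polynomial.map_mul, map_C]
    have h1 : (IsLocalization.integerNormalization (nonZeroDivisors ℤ) g).map
        (Int.castRingHom ℚ) = C (b : ℚ) * g := by
      have h2 : (algebraMap ℤ ℚ) = Int.castRingHom ℚ := rfl
      rw [h2] at hb
      rw [hb]
      ext i
      simp
    rw [h1, ← mul_assoc, ← C_mul]
    congr 2
    have h2 : (b.natAbs : ℤ) = (SignType.sign b : ℤ) * b := by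
      rw [Int.natCast_natAbs]
      exact (sign_mul_self b).symm
    have h3 : ((b.natAbs : ℕ) : ℚ) = ((b.natAbs : ℤ) : ℚ) := by simp
    rw [h3, h2]
    push_cast
    simp
  exact main b.natAbs (Int.natAbs_pos.2 hb1) g hg hgi _ hbb

end Pool.Agent.TH830.J205
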