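import Pool.Agent.TH28.FL.Dat

/-!
# Job 1775: the inequality of Vinberg and Rais
-/

set_option autoImplicit false

universe u v

namespace Pool.Agent.TH830.J1775

open Module LinearMap

section lin

variable {K : Type*} [Field K]

theorem exists_indep [Infinite K] {W : Type*} [AddCommGroup W] [Module K W] {n : Type*} [Fintype n]
    [DecidableEq n] (w0 w1 : n → W) (h : LinearIndependent K w0) :
    ∃ t : K, t ≠ 0 ∧ LinearIndependent K (fun i => w0 i + t • w1 i) := by
  have hinj : LinearMap.ker (Fintype.linearCombination K w0) = ⊥ :=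
    (by
      rw [LinearMap.ker_eq_bot']
      intro m hm
      rw [Fintype.linearCombination_apply] at hm
      exact funext (Fintype.linearIndependent_iff.1 h m hm))
  obtain ⟨φ, hφ⟩ := LinearMap.exists_leftInverse_of_injective _ hinj
  have hφ0 : ∀ i, φ (w0 i) = Pi.single i 1 := by
    intro i
    have := LinearMap.congr_fun hφ (Pi.single i 1)
    simpa using this
  let M : Matrix n n K := Matrix.of fun i j => φ (w1 i) j
  let P : Matrix n n (Polynomial K) := 1 + (Polynomial.X : Polynomial K) • M.map Polynomial.C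
  have hP : ∀ t : K, P.det.eval t = (1 + t • M).det := by
    intro t
    have h1 := RingHom.map_det (Polynomial.evalRingHom t) P
    have h2 : (Polynomial.evalRingHom t).mapMatrix P = 1 + t • M := by
      ext i j
      simp [P, Matrix.one_apply, apply_ite]
      exact mul_comm _ _
    rw [h2] at h1
    exact h1
  have hne : Polynomial.X * P.det ≠ 0 := by
    intro h0
    rcases mul_eq_zero.1 h0 with h0 | h0
    · exact Polynomial.X_ne_zero h0
    · have := hP 0
      rw [h0] at this
      simp at this
  obtain ⟨t, ht⟩ : ∃ t : K, (Polynomial.X * P.det).eval t ≠ 0 := by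
    by_contra hcon
    push Not at hcon
    exact hne (Polynomial.funext (by simpa using hcon))
  rw [Polynomial.eval_mul, Polynomial.eval_X, hP] at ht
  have ht0 : t ≠ 0 := left_ne_zero_of_mul ht
  have hdet : (1 + t • M).det ≠ 0 := right_ne_zero_of_mul ht
  refine ⟨t, ht0, ?_⟩
  have hr := Matrix.linearIndependent_rows_of_det_ne_zero hdet
  refine LinearIndependent.of_comp φ ?_
  have he : (⇑φ ∘ fun i => w0 i + t • w1 i) = (1 + t • M).row := by
    funext i j
    simp [hφ0, M, Matrix.one_apply, Pi.single_apply, eq_comm]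
  rw [he]
  exact hr

theorem pencil [Infinite K] {V W Q : Type*} [AddCommGroup V] [Module K V] [AddCommGroup W]
    [Module K W] [FiniteDimensional K V] [FiniteDimensional K W] [AddCommGroup Q] [Module K Q]
    (A B : V →ₗ[K] W) (ν : ℕ) (h : ∀ t : K, finrank K (range (A + t • B)) ≤ ν)
    (q : W →ₗ[K] Q) (hq : q ∘ₗ A = 0) (z : Submodule K V) (hz : ∀ v ∈ z, A v = 0) :
    finrank K (range A) + finrank K (range (q ∘ₗ B ∘ₗ z.subtype)) ≤ ν := by
  let bA := finBasis K (range A)
  let bG := finBasis K (range (q ∘ₗ B ∘ₗ z.subtype))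
  have hu : ∀ i, ∃ u, A u = bA i := fun i => (bA i).2
  have hv : ∀ j, ∃ v : z, q (B v) = bG j := fun j => (bG j).2
  choose u hu using hu
  choose v hv using hv
  let w0 : Fin (finrank K (range A)) ⊕ Fin (finrank K (range (q ∘ₗ B ∘ₗ z.subtype))) → W :=
    Sum.elim (fun i => A (u i)) (fun j => B (v j))
  let w1 : Fin (finrank K (range A)) ⊕ Fin (finrank K (range (q ∘ₗ B ∘ₗ z.subtype))) → W :=
    Sum.elim (fun i => B (u i)) (fun _ => 0)
  have hbA : LinearIndependent K (fun i => A (u i)) := by
    have h1 := bA.linearIndependent.map' (range A).subtype (Submodule.ker_subtype _)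
    have h2 : (fun i => A (u i)) = ⇑(range A).subtype ∘ ⇑bA := by
      funext i
      exact hu i
    rw [h2]
    exact h1
  have hbG : LinearIndependent K (fun j => q (B (v j))) := by
    have h1 := bG.linearIndependent.map' (range (q ∘ₗ B ∘ₗ z.subtype)).subtype
      (Submodule.ker_subtype _)
    have h2 : (fun j => q (B (v j))) = ⇑(range (q ∘ₗ B ∘ₗ z.subtype)).subtype ∘ ⇑bG := by
      funext i
      exact hv i
    rw [h2]
    exact h1
  have hqA : ∀ x, q (A x) = 0 := fun x => LinearMap.congr_fun hq x
  have hw0 : LinearIndependent K w0 := by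
    rw [Fintype.linearIndependent_iff]
    intro g hg
    rw [Fintype.sum_sum_type] at hg
    simp only [w0, Sum.elim_inl, Sum.elim_inr] at hg
    have h1 : ∑ j, g (Sum.inr j) • q (B (v j)) = 0 := by
      have := congrArg q hg
      simpa [map_sum, map_add, hqA] using this
    have h2 := Fintype.linearIndependent_iff.1 hbG _ h1
    have h3 : ∑ i, g (Sum.inl i) • A (u i) = 0 := by
      simpa [h2] using hg
    have h4 := Fintype.linearIndependent_iff.1 hbA _ h3
    rintro (i | j)
    · exact h4 i
    · exact h2 j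
  obtain ⟨t, ht0, ht⟩ := exists_indep w0 w1 hw0
  -- the vectors are in the range of `A + t B`
  have hmem : ∀ s, w0 s + t • w1 s ∈ range (A + t • B) := by
    rintro (i | j)
    · exact ⟨u i, by simp [w0, w1]⟩
    · refine ⟨t⁻¹ • (v j : V), ?_⟩
      have : A (v j : V) = 0 := hz _ (v j).2
      simp [w0, w1, this, ht0]
  have hli : LinearIndependent K (fun s => (⟨w0 s + t • w1 s, hmem s⟩ : range (A + t • B))) := by
    refine LinearIndependent.of_comp (range (A + t • B)).subtype ?_
    exact ht
  have hc := hli.fintype_card_le_finrank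
  rw [Fintype.card_sum, Fintype.card_fin, Fintype.card_fin] at hc
  exact hc.trans (h t)

theorem rank_le_restrict {X T Y : Type*} [AddCommGroup X] [Module K X] [AddCommGroup Y]
    [Module K Y] [AddCommGroup T] [Module K T] [FiniteDimensional K X] [FiniteDimensional K Y]
    [FiniteDimensional K T] (f : X →ₗ[K] Y) (i : T →ₗ[K] X) (hi : Function.Injective i) :
    finrank K (range f) + finrank K T ≤ finrank K (range (f ∘ₗ i)) + finrank K X := by
  have h1 := LinearMap.finrank_range_add_finrank_ker f
  have h2 := LinearMap.finrank_range_add_finrank_ker (f ∘ₗ i)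
  have h3 : finrank K (ker (f ∘ₗ i)) ≤ finrank K (ker f) := by
    let g : ker (f ∘ₗ i) →ₗ[K] ker f :=
      (i ∘ₗ (ker (f ∘ₗ i)).subtype).codRestrict (ker f) (fun c => c.2)
    refine LinearMap.finrank_le_finrank_of_injective (f := g) ?_
    intro a b hab
    have : i (a : T) = i (b : T) := congrArg Subtype.val hab
    exact Subtype.ext (hi this)
  omega

theorem rank_le_comp {X Y Q : Type*} [AddCommGroup X] [Module K X] [AddCommGroup Y]
    [Module K Y] [AddCommGroup Q] [Module K Q] [FiniteDimensional K X] [FiniteDimensional K Y]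
    [FiniteDimensional K Q] (f : X →ₗ[K] Y) (q : Y →ₗ[K] Q) (hq : Function.Surjective q) :
    finrank K (range f) + finrank K Q ≤ finrank K (range (q ∘ₗ f)) + finrank K Y := by
  have h1 := LinearMap.finrank_range_add_finrank_ker q
  rw [LinearMap.range_eq_top.2 hq, finrank_top] at h1
  have h2 := LinearMap.finrank_range_add_finrank_ker (q ∘ₗ (range f).subtype)
  have h3 : finrank K (ker (q ∘ₗ (range f).subtype)) ≤ finrank K (ker q) := by
    let g : ker (q ∘ₗ (range f).subtype) →ₗ[K] ker q :=
      ((range f).subtype ∘ₗ (ker (q ∘ₗ (range f).subtype)).subtype).codRestrict (ker q)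
        (fun c => c.2)
    refine LinearMap.finrank_le_finrank_of_injective (f := g) ?_
    intro a b hab
    have h5 : (g a).1 = (g b).1 := by rw [hab]
    exact Subtype.ext (Subtype.ext h5)
  have h4 : range (q ∘ₗ (range f).subtype) = range (q ∘ₗ f) := by
    rw [LinearMap.range_comp, LinearMap.range_comp, Submodule.range_subtype]
  rw [h4] at h2
  omega

theorem rank_comp_le {X Y Q Z : Type*} [AddCommGroup X] [Module K X] [AddCommGroup Y]
    [Module K Y] [AddCommGroup Q] [Module K Q] [AddCommGroup Z] [Module K Z]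
    [FiniteDimensional K X] [FiniteDimensional K Y]
    [FiniteDimensional K Q] [FiniteDimensional K Z] (j : Z →ₗ[K] X) (f : X →ₗ[K] Y)
    (q : Y →ₗ[K] Q) : finrank K (range (q ∘ₗ f ∘ₗ j)) ≤ finrank K (range f) := by
  rw [LinearMap.range_comp]
  refine (Submodule.finrank_map_le _ _).trans (Submodule.finrank_mono ?_)
  exact LinearMap.range_comp_le_range _ _

theorem rank_form {X T : Type*} [AddCommGroup X] [Module K X] [AddCommGroup T] [Module K T]
    [FiniteDimensional K X] [FiniteDimensional K T] (f : X →ₗ[K] Dual K X) (i : T →ₗ[K] X)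
    (hi : Function.Injective i) :
    finrank K (range f) + 2 * finrank K T ≤
      finrank K (range (i.dualMap ∘ₗ f ∘ₗ i)) + 2 * finrank K X := by
  have h1 := rank_le_restrict f i hi
  have h2 := rank_le_comp (f ∘ₗ i) i.dualMap (LinearMap.dualMap_surjective_of_injective hi)
  rw [Subspace.dual_finrank_eq, Subspace.dual_finrank_eq] at h2
  omega

end lin

open Pool.Agent.TH28.FL

theorem penc : Pool.Agent.TH28.FL.S_PENC.{u, v} := by
  intro K _ _ L _ _ _ _ r α x ν h1 h2
  let κ : L →ₗ[K] Dual K L := killingForm K L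
  have hκ : Function.Injective κ := by
    have := LieAlgebra.IsKilling.killingForm_nondegenerate K L
    rw [← LinearMap.ker_eq_bot]
    exact LieAlgebra.IsKilling.ker_killingForm_eq_bot K L
  have hinv : ∀ a b c : L, κ ⁅a, b⁆ c = κ a ⁅b, c⁆ := fun a b c =>
    LieModule.traceForm_apply_lie_apply K L L a b c
  let A : L →ₗ[K] Dual K L := κ ∘ₗ LieAlgebra.ad K L x
  let B : L →ₗ[K] Dual K L := κ ∘ₗ LieAlgebra.ad K L α
  let z : Submodule K L := ker (LieAlgebra.ad K L x)
  have hrange : ∀ g : L →ₗ[K] L, finrank K (range (κ ∘ₗ g)) = finrank K (range g) := by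
    intro g
    rw [LinearMap.range_comp]
    exact (LinearEquiv.finrank_eq (Submodule.equivMapOfInjective κ hκ (range g))).symm
  have hp := pencil A B ν (by
      intro t
      have : A + t • B = κ ∘ₗ LieAlgebra.ad K L (x + t • α) := by
        ext a b
        simp [A, B]
      rw [this, hrange]
      exact h1 t) z.subtype.dualMap (by
      ext u v
      have hv : ⁅x, (v : L)⁆ = 0 := v.2
      have : κ ⁅x, u⁆ (v : L) = 0 := by
        rw [hinv, ← lie_skew, map_neg, ← hinv, hv]
        simp
      simpa [A] using this) z (by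
      intro v hv
      have : ⁅x, v⁆ = 0 := hv
      simp [A, this])
  rw [hrange] at hp
  -- the form
  let rx : Submodule K r := ker (LieAlgebra.ad K L x ∘ₗ r.toSubmodule.subtype)
  let i : (rx × L) →ₗ[K] (r.toSubmodule × L) := LinearMap.prodMap rx.subtype LinearMap.id
  have hi : Function.Injective i := by
    rintro ⟨a, b⟩ ⟨c, d⟩ hab
    have h3 := congrArg Prod.fst hab
    have h4 := congrArg Prod.snd hab
    exact Prod.ext (Subtype.ext h3) h4
  let j : (rx × L) →ₗ[K] z :=
    (r.toSubmodule.subtype ∘ₗ rx.subtype ∘ₗ LinearMap.fst K rx L).codRestrict z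
      (fun c => c.1.2)
  have hij : i.dualMap ∘ₗ cform K r.toSubmodule α x ∘ₗ i =
      j.dualMap ∘ₗ (z.subtype.dualMap ∘ₗ B ∘ₗ z.subtype) ∘ₗ j := by
    refine LinearMap.ext fun a => LinearMap.ext fun b => ?_
    have ha : ⁅x, ((a.1 : r) : L)⁆ = 0 := a.1.2
    have hb : ⁅x, ((b.1 : r) : L)⁆ = 0 := b.1.2
    change κ α ⁅((a.1 : r) : L), ((b.1 : r) : L)⁆ +
      κ x (⁅((a.1 : r) : L), b.2⁆ + ⁅a.2, ((b.1 : r) : L)⁆) =
      κ ⁅α, ((a.1 : r) : L)⁆ ((b.1 : r) : L)
    have e1 : κ x ⁅((a.1 : r) : L), b.2⁆ = 0 := by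
      rw [← hinv, ha]
      simp
    have e2 : κ x ⁅a.2, ((b.1 : r) : L)⁆ = 0 := by
      rw [← lie_skew, map_neg, ← hinv, hb]
      simp
    rw [map_add, e1, e2, hinv, add_zero, add_zero]
  have hf := rank_form (cform K r.toSubmodule α x) i hi
  rw [hij] at hf
  have hg := rank_comp_le j (z.subtype.dualMap ∘ₗ B ∘ₗ z.subtype) j.dualMap
  rw [Module.finrank_prod, Module.finrank_prod] at hf
  have hR := LinearMap.finrank_range_add_finrank_ker
    (LieAlgebra.ad K L x ∘ₗ r.toSubmodule.subtype)
  rw [LinearMap.range_comp, Submodule.range_subtype] at hR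
  have hR' : finrank K (r.toSubmodule.map (LieAlgebra.ad K L x : L →ₗ[K] L)) + finrank K rx =
    finrank K r := hR
  have h2' : ν ≤ finrank K (range (cform K r.toSubmodule α x)) := h2
  have hf' : finrank K (range (cform K r.toSubmodule α x)) + 2 * (finrank K rx + finrank K L) ≤
      finrank K (range (j.dualMap ∘ₗ (z.subtype.dualMap ∘ₗ B ∘ₗ z.subtype) ∘ₗ j)) +
        2 * (finrank K r + finrank K L) := hf
  generalize finrank K (range (cform K r.toSubmodule α x)) = c at h2' hf'
  omega

end Pool.Agent.TH830.J1775
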