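import Pool.Agent.TH296.NC.Defs

/-!
# Quadratic phases, trigonometric approximation and Fourier coefficient bounds (job 161)
-/

set_option autoImplicit false
open Filter Topology Finset MeasureTheory
open scoped commutatorElement
open Pool.Agent.TH296.NC

namespace Pool.Agent.TH830.J161

/-- the point `exp(2 π i x)` -/
noncomputable def ex (x : ℝ) : Circle := Circle.exp (2 * Real.pi * x)

theorem ex_zpow (x : ℝ) (b : ℤ) :
    (((ex x) ^ b : Circle) : ℂ) = Complex.exp (2 * Real.pi * Complex.I * b * x) := by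
  rw [Circle.coe_zpow, ex, Circle.coe_exp, ← Complex.exp_int_mul]
  congr 1
  push_cast
  ring

@[fun_prop] theorem continuous_ex : Continuous ex := by
  unfold ex
  exact Circle.exp.continuous.comp (by fun_prop)

theorem exists_ex (z : Circle) : ∃ x : ℝ, |x| ≤ 1 / 2 ∧ ex x = z := by
  refine ⟨Complex.arg z / (2 * Real.pi), ?_, ?_⟩
  · rw [abs_div, abs_of_pos Real.two_pi_pos, div_le_iff₀ Real.two_pi_pos]
    have := Complex.abs_arg_le_pi (z : ℂ)
    linarith
  · unfold ex
    rw [mul_div_cancel₀ _ Real.two_pi_pos.ne']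
    exact Circle.exp_arg z

/-! ### trigonometric polynomials -/

def TPf (N : ℕ) (f : Circle → ℂ) : Prop := ∃ c : ℤ → ℂ, ∀ z, f z = tp N c z

theorem TPf.zpow {N : ℕ} {b : ℤ} (h : |b| ≤ N) : TPf N (fun z => ((z ^ b : Circle) : ℂ)) := by
  refine ⟨fun b' => if b' = b then 1 else 0, fun z => ?_⟩
  unfold tp
  have : b ∈ Finset.Icc (-(N : ℤ)) (N : ℤ) := Finset.mem_Icc.2 (abs_le.1 h)
  rw [Finset.sum_eq_single_of_mem b this]
  · simp
  · intro b' _ hb'
    show (if b' = b then (1 : ℂ) else 0) * ((z ^ b' : Circle) : ℂ) = 0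
    rw [if_neg hb', zero_mul]

theorem TPf.add {N : ℕ} {f g : Circle → ℂ} (hf : TPf N f) (hg : TPf N g) :
    TPf N (fun z => f z + g z) := by
  obtain ⟨c, hc⟩ := hf
  obtain ⟨d, hd⟩ := hg
  refine ⟨fun b => c b + d b, fun z => ?_⟩
  beta_reduce
  rw [hc, hd]
  unfold tp
  rw [← Finset.sum_add_distrib]
  exact Finset.sum_congr rfl fun b _ => by ring

theorem TPf.const_mul {N : ℕ} {f : Circle → ℂ} (k : ℂ) (hf : TPf N f) :
    TPf N (fun z => k * f z) := by
  obtain ⟨c, hc⟩ := hf
  refine ⟨fun b => k * c b, fun z => ?_⟩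
  beta_reduce
  rw [hc]
  unfold tp
  rw [Finset.mul_sum]
  exact Finset.sum_congr rfl fun b _ => by ring

theorem TPf.zero (N : ℕ) : TPf N (fun _ => 0) := ⟨fun _ => 0, fun z => by simp [tp]⟩

theorem TPf.sum {N : ℕ} {ι : Type*} (s : Finset ι) (f : ι → Circle → ℂ)
    (h : ∀ i ∈ s, TPf N (f i)) : TPf N (fun z => ∑ i ∈ s, f i z) := by
  classical
  induction s using Finset.induction_on with
  | empty => simpa using TPf.zero N
  | insert a s ha ih =>
    have h1 := (h a (Finset.mem_insert_self a s)).add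
      (ih fun i hi => h i (Finset.mem_insert_of_mem hi))
    simpa [Finset.sum_insert ha] using h1

theorem TPf.mono {N M : ℕ} (hNM : N ≤ M) {f : Circle → ℂ} (hf : TPf N f) : TPf M f := by
  obtain ⟨c, hc⟩ := hf
  have h := TPf.sum (N := M) (Finset.Icc (-(N : ℤ)) (N : ℤ))
    (fun b z => c b * ((z ^ b : Circle) : ℂ)) (fun b hb => by
      refine TPf.const_mul _ (TPf.zpow ?_)
      have := abs_le.2 (Finset.mem_Icc.1 hb)
      exact this.trans (by exact_mod_cast hNM))
  obtain ⟨d, hd⟩ := h
  exact ⟨d, fun z => by rw [← hd z, hc z]; rfl⟩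

theorem TPf.mul {N M : ℕ} {f g : Circle → ℂ} (hf : TPf N f) (hg : TPf M g) :
    TPf (N + M) (fun z => f z * g z) := by
  obtain ⟨c, hc⟩ := hf
  obtain ⟨d, hd⟩ := hg
  have h := TPf.sum (N := N + M) (Finset.Icc (-(N : ℤ)) (N : ℤ))
    (fun b z => ∑ b' ∈ Finset.Icc (-(M : ℤ)) (M : ℤ),
      (c b * d b') * ((z ^ (b + b') : Circle) : ℂ)) (fun b hb => by
      refine TPf.sum _ _ fun b' hb' => TPf.const_mul _ (TPf.zpow ?_)
      have h1 := abs_le.2 (Finset.mem_Icc.1 hb)
      have h2 := abs_le.2 (Finset.mem_Icc.1 hb')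
      have := abs_add_le b b'
      push_cast
      linarith)
  obtain ⟨e, he⟩ := h
  refine ⟨e, fun z => ?_⟩
  rw [← he z]
  beta_reduce
  rw [hc z, hd z]
  unfold tp
  rw [Finset.sum_mul_sum]
  refine Finset.sum_congr rfl fun b _ => Finset.sum_congr rfl fun b' _ => ?_
  rw [zpow_add, Circle.coe_mul]
  ring

theorem fej_eq (B : ℕ) (z : Circle) :
    ((fej B z : ℝ) : ℂ) = (1 / (B : ℂ)) *
      ∑ j ∈ range B, ∑ k ∈ range B, ((z ^ ((j : ℤ) - (k : ℤ)) : Circle) : ℂ) := by
  unfold fej
  have h1 : ((‖∑ j ∈ range B, (z : ℂ) ^ j‖ ^ 2 : ℝ) : ℂ) =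
      (∑ j ∈ range B, (z : ℂ) ^ j) * (starRingEnd ℂ) (∑ j ∈ range B, (z : ℂ) ^ j) := by
    rw [Complex.mul_conj, Complex.normSq_eq_norm_sq]
  have h2 : (starRingEnd ℂ) (∑ j ∈ range B, (z : ℂ) ^ j) =
      ∑ k ∈ range B, ((z ^ (-(k : ℤ)) : Circle) : ℂ) := by
    rw [map_sum]
    refine Finset.sum_congr rfl fun k _ => ?_
    rw [map_pow, ← Circle.coe_inv_eq_conj, zpow_neg, zpow_natCast, ← inv_pow, Circle.coe_pow]
  rw [Complex.ofReal_div, h1, h2, Finset.sum_mul_sum]
  rw [div_eq_mul_one_div, mul_comm]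
  congr 1
  refine Finset.sum_congr rfl fun j _ => Finset.sum_congr rfl fun k _ => ?_
  rw [sub_eq_add_neg, zpow_add, Circle.coe_mul, zpow_natCast, Circle.coe_pow]

theorem TPf.fej (B : ℕ) : TPf B (fun z => ((fej B z : ℝ) : ℂ)) := by
  have h : TPf B (fun z => (1 / (B : ℂ)) *
      ∑ j ∈ range B, ∑ k ∈ range B, ((z ^ ((j : ℤ) - (k : ℤ)) : Circle) : ℂ)) := by
    refine TPf.const_mul _ (TPf.sum _ _ fun j hj => TPf.sum _ _ fun k hk => TPf.zpow ?_)
    rw [abs_le]
    have := Finset.mem_range.1 hj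
    have := Finset.mem_range.1 hk
    constructor <;> omega
  obtain ⟨c, hc⟩ := h
  exact ⟨c, fun z => by beta_reduce; rw [fej_eq]; exact hc z⟩

/-! ### integrals -/

theorem orth (n : ℤ) :
    ∫ x in (-(1 / 2 : ℝ))..(1 / 2), Complex.exp (2 * Real.pi * Complex.I * n * x) =
      if n = 0 then 1 else 0 := by
  split_ifs with h
  · subst h
    simp
    norm_num
  · have hc : (2 * Real.pi * Complex.I * n : ℂ) ≠ 0 := by
      have : (n : ℂ) ≠ 0 := by exact_mod_cast h
      have h2 : (Real.pi : ℂ) ≠ 0 := by exact_mod_cast Real.pi_ne_zero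
      simp [this, h2]
    rw [integral_exp_mul_complex hc]
    have : Complex.exp (2 * Real.pi * Complex.I * n * ((1 / 2 : ℝ) : ℂ)) =
        Complex.exp (2 * Real.pi * Complex.I * n * ((-(1 / 2) : ℝ) : ℂ)) := by
      rw [Complex.exp_eq_exp_iff_exists_int]
      refine ⟨n, ?_⟩
      push_cast
      ring
    rw [this, sub_self, zero_div]

theorem continuous_tp (R : ℕ) (c : ℤ → ℂ) : Continuous (tp R c) := by
  unfold tp
  refine continuous_finsetSum _ fun b _ => continuous_const.mul ?_
  exact continuous_subtype_val.comp (continuous_zpow b)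

theorem coef (R : ℕ) (c : ℤ → ℂ) {b : ℤ} (hb : b ∈ Finset.Icc (-(R : ℤ)) (R : ℤ)) :
    ∫ x in (-(1 / 2 : ℝ))..(1 / 2), tp R c (ex x) * Complex.exp (-(2 * Real.pi * Complex.I * b * x))
      = c b := by
  have h1 : ∀ x : ℝ, tp R c (ex x) * Complex.exp (-(2 * Real.pi * Complex.I * b * x)) =
      ∑ b' ∈ Finset.Icc (-(R : ℤ)) (R : ℤ),
        c b' * Complex.exp (2 * Real.pi * Complex.I * ((b' - b : ℤ) : ℂ) * x) := by
    intro x
    unfold tp
    rw [Finset.sum_mul]
    refine Finset.sum_congr rfl fun b' _ => ?_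
    rw [ex_zpow, mul_assoc, ← Complex.exp_add]
    congr 2
    push_cast
    ring
  simp_rw [h1]
  rw [intervalIntegral.integral_finsetSum]
  · rw [Finset.sum_eq_single_of_mem b hb]
    · rw [intervalIntegral.integral_const_mul, orth]
      simp
    · intro b' _ hne
      rw [intervalIntegral.integral_const_mul, orth, if_neg (sub_ne_zero.2 hne), mul_zero]
  · intro b' _
    apply Continuous.intervalIntegrable
    fun_prop

/-- the Fejer kernel as a function of a real variable -/
noncomputable def hh (B : ℕ) (x : ℝ) : ℝ := fej B (ex x)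

theorem continuous_fej (B : ℕ) : Continuous (fej B) := by
  unfold fej
  refine Continuous.div_const (Continuous.pow (Continuous.norm ?_) 2) _
  exact continuous_finsetSum _ fun j _ => continuous_subtype_val.pow j

theorem continuous_hh (B : ℕ) : Continuous (hh B) := (continuous_fej B).comp continuous_ex

theorem hh_nonneg (B : ℕ) (x : ℝ) : 0 ≤ hh B x := by
  unfold hh fej; positivity

theorem ex_neg (x : ℝ) : ex (-x) = (ex x)⁻¹ := by
  unfold ex
  rw [mul_neg, Circle.exp_neg]

theorem hh_neg (B : ℕ) (x : ℝ) : hh B (-x) = hh B x := by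
  unfold hh fej
  rw [ex_neg]
  congr 2
  have : ∑ j ∈ range B, (((ex x)⁻¹ : Circle) : ℂ) ^ j =
      (starRingEnd ℂ) (∑ j ∈ range B, ((ex x : Circle) : ℂ) ^ j) := by
    rw [map_sum]
    refine Finset.sum_congr rfl fun j _ => ?_
    rw [map_pow, Circle.coe_inv_eq_conj]
  rw [this, Complex.norm_conj]

theorem integral_hh {B : ℕ} (hB : 1 ≤ B) : ∫ x in (-(1 / 2 : ℝ))..(1 / 2), hh B x = 1 := by
  have h1 : (∫ x in (-(1 / 2 : ℝ))..(1 / 2), ((hh B x : ℝ) : ℂ)) = 1 := by
    have : ∀ x : ℝ, ((hh B x : ℝ) : ℂ) = (1 / (B : ℂ)) *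
      ∑ j ∈ range B, ∑ k ∈ range B,
        Complex.exp (2 * Real.pi * Complex.I * (((j : ℤ) - (k : ℤ) : ℤ) : ℂ) * x) := by
      intro x
      unfold hh
      rw [fej_eq]
      congr 1
      refine Finset.sum_congr rfl fun j _ => Finset.sum_congr rfl fun k _ => ?_
      rw [ex_zpow]
    simp_rw [this]
    rw [intervalIntegral.integral_const_mul, intervalIntegral.integral_finsetSum]
    · have h2 : ∀ j ∈ range B, ∫ x in (-(1 / 2 : ℝ))..(1 / 2), ∑ k ∈ range B,
          Complex.exp (2 * Real.pi * Complex.I * (((j : ℤ) - (k : ℤ) : ℤ) : ℂ) * x) = 1 := by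
        intro j hj
        rw [intervalIntegral.integral_finsetSum]
        · rw [Finset.sum_eq_single_of_mem j hj]
          · rw [orth]; simp
          · intro k _ hne
            rw [orth, if_neg]
            intro h
            exact hne (by omega)
        · intro k _
          apply Continuous.intervalIntegrable
          fun_prop
      rw [Finset.sum_congr rfl h2]
      have : (B : ℂ) ≠ 0 := by
        have : B ≠ 0 := by omega
        exact_mod_cast this
      simp [this]
    · intro j _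
      apply Continuous.intervalIntegrable
      fun_prop
  rw [intervalIntegral.integral_ofReal] at h1
  exact_mod_cast h1

/-- even functions -/
theorem integral_even (g : ℝ → ℂ) (hg : Continuous g) (he : ∀ x, g (-x) = g x) :
    ∫ x in (-(1 / 2 : ℝ))..(1 / 2), g x = 2 * ∫ x in (0 : ℝ)..(1 / 2), g x := by
  rw [← intervalIntegral.integral_add_adjacent_intervals (b := 0)
    (hg.intervalIntegrable _ _) (hg.intervalIntegrable _ _)]
  have : ∫ x in (-(1 / 2 : ℝ))..0, g x = ∫ x in (0 : ℝ)..(1 / 2), g x := by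
    have h := intervalIntegral.integral_comp_neg (a := 0) (b := 1 / 2) g
    rw [neg_zero] at h
    rw [← h]
    refine intervalIntegral.integral_congr fun x _ => ?_
    exact he x
  rw [this]; ring

/-- the quadratic Riemann-Lebesgue lemma -/
theorem exists_a (B : ℕ) : ∃ a : ℝ,
    ‖∫ x in (-(1 / 2 : ℝ))..(1 / 2), ((hh B x : ℝ) : ℂ) *
      Complex.exp (8 * Real.pi * Complex.I * a * x ^ 2)‖ ≤ 1 / 10 := by
  classical
  let s : Set ℝ := Set.Ioo 0 (1 / 2)
  let f : ℝ → ℝ := fun x => x ^ 2
  let F : ℝ → ℂ := Set.indicator (f '' s)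
    (fun t => ((hh B (Real.sqrt t) / (2 * Real.sqrt t) : ℝ) : ℂ))
  have hinj : Set.InjOn f s := by
    intro x hx y hy h
    have h1 : 0 < x := hx.1
    have h2 : 0 < y := hy.1
    exact (pow_left_inj₀ h1.le h2.le two_ne_zero).1 h
  have himg : f '' s = Set.Ioo 0 (1 / 4) := by
    ext t
    constructor
    · rintro ⟨x, ⟨h1, h2⟩, rfl⟩
      refine ⟨by positivity, ?_⟩
      show x ^ 2 < 1 / 4
      nlinarith
    · rintro ⟨h1, h2⟩
      refine ⟨Real.sqrt t, ⟨Real.sqrt_pos.2 h1, ?_⟩, Real.sq_sqrt h1.le⟩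
      rw [show (1 / 2 : ℝ) = Real.sqrt (1 / 4) by
        rw [show (1 / 4 : ℝ) = (1 / 2) ^ 2 by norm_num, Real.sqrt_sq (by norm_num)]]
      exact Real.sqrt_lt_sqrt h1.le h2
  have hRL := Real.tendsto_integral_exp_smul_cocompact F
  rw [Metric.tendsto_nhds] at hRL
  have hev := hRL (1 / 20) (by norm_num)
  have hne : ∃ w : ℝ, dist (∫ v, Real.fourierChar (-(v * w)) • F v) 0 < 1 / 20 := by
    have : (cocompact ℝ).NeBot := inferInstance
    exact hev.exists
  obtain ⟨w, hw⟩ := hne
  rw [dist_zero_right] at hw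
  refine ⟨-w / 4, ?_⟩
  rw [integral_even]
  rotate_left
  · have := continuous_hh B
    fun_prop
  · intro x
    rw [hh_neg]
    push_cast
    ring_nf
  have hkey : ∫ v, Real.fourierChar (-(v * w)) • F v =
      ∫ x in (0 : ℝ)..(1 / 2), ((hh B x : ℝ) : ℂ) *
        Complex.exp (8 * Real.pi * Complex.I * ((-w / 4 : ℝ) : ℂ) * x ^ 2) := by
    have h1 : ∀ v, Real.fourierChar (-(v * w)) • F v =
        Set.indicator (f '' s) (fun t => Real.fourierChar (-(t * w)) •
          ((hh B (Real.sqrt t) / (2 * Real.sqrt t) : ℝ) : ℂ)) v := by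
      intro v
      by_cases hv : v ∈ f '' s
      · simp only [F, Set.indicator_of_mem hv]
      · simp only [F, Set.indicator_of_notMem hv, smul_zero]
    simp_rw [h1]
    rw [integral_indicator (by rw [himg]; exact measurableSet_Ioo)]
    rw [integral_image_eq_integral_abs_deriv_smul (f' := fun x => 2 * x) measurableSet_Ioo
      (fun x _ => by
        have h := (hasDerivAt_pow 2 x).hasDerivWithinAt (s := s)
        have e : ((2 : ℕ) : ℝ) * x ^ (2 - 1) = 2 * x := by norm_num
        rw [e] at h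
        exact h) hinj]
    rw [intervalIntegral.integral_of_le (by norm_num), integral_Ioc_eq_integral_Ioo]
    refine setIntegral_congr_fun measurableSet_Ioo fun x hx => ?_
    have hx0 : 0 < x := hx.1
    show |2 * x| • (Real.fourierChar (-(x ^ 2 * w)) •
      ((hh B (Real.sqrt (x ^ 2)) / (2 * Real.sqrt (x ^ 2)) : ℝ) : ℂ)) = _
    rw [Real.sqrt_sq hx0.le, abs_of_pos (by linarith), Circle.smul_def, Real.fourierChar_apply,
      Complex.real_smul, smul_eq_mul]
    have hx' : (x : ℂ) ≠ 0 := by exact_mod_cast hx0.ne'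
    have e1 : Complex.exp (((2 * Real.pi * -(x ^ 2 * w) : ℝ) : ℂ) * Complex.I) =
        Complex.exp (8 * Real.pi * Complex.I * ((-w / 4 : ℝ) : ℂ) * x ^ 2) := by
      congr 1
      push_cast
      ring
    rw [e1]
    push_cast
    field_simp
  rw [hkey] at hw
  rw [norm_mul]
  have : ‖(2 : ℂ)‖ = 2 := by simp
  rw [this]
  push_cast at hw ⊢
  linarith

/-- the phase -/
noncomputable def E (a x : ℝ) : ℂ := Complex.exp (4 * Real.pi * Complex.I * a * x ^ 2)

theorem continuous_E (a : ℝ) : Continuous (E a) := by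
  unfold E
  fun_prop

theorem norm_E (a x : ℝ) : ‖E a x‖ = 1 := by
  unfold E
  rw [show (4 * Real.pi * Complex.I * a * x ^ 2 : ℂ) =
    ((4 * Real.pi * a * x ^ 2 : ℝ) : ℂ) * Complex.I by push_cast; ring]
  exact Complex.norm_exp_ofReal_mul_I _

theorem E_sq (a x : ℝ) : E a x ^ 2 = Complex.exp (8 * Real.pi * Complex.I * a * x ^ 2) := by
  unfold E
  rw [← Complex.exp_nat_mul]
  congr 1
  push_cast
  ring

/-- the Fourier coefficients of `h E` are bounded by `0.742` -/
theorem coef_E {B : ℕ} (hB : 1 ≤ B) (a : ℝ)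
    (ha : ‖∫ x in (-(1 / 2 : ℝ))..(1 / 2), ((hh B x : ℝ) : ℂ) *
      Complex.exp (8 * Real.pi * Complex.I * a * x ^ 2)‖ ≤ 1 / 10) (b : ℤ) :
    ‖∫ x in (-(1 / 2 : ℝ))..(1 / 2), ((hh B x : ℝ) : ℂ) * E a x *
      Complex.exp (-(2 * Real.pi * Complex.I * b * x))‖ ≤ 742 / 1000 := by
  have hch := continuous_hh B
  have hcE := continuous_E a
  set J : ℂ := ∫ x in (-(1 / 2 : ℝ))..(1 / 2), ((hh B x : ℝ) : ℂ) * E a x *
      Complex.exp (-(2 * Real.pi * Complex.I * b * x)) with hJ
  -- symmetrise
  have h1 : J = ∫ x in (-(1 / 2 : ℝ))..(1 / 2), ((hh B x : ℝ) : ℂ) * E a x *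
      ((Real.cos (2 * Real.pi * b * x) : ℝ) : ℂ) := by
    have h2 : J = ∫ x in (-(1 / 2 : ℝ))..(1 / 2), ((hh B x : ℝ) : ℂ) * E a x *
      Complex.exp (2 * Real.pi * Complex.I * b * x) := by
      have h := intervalIntegral.integral_comp_neg (a := -(1 / 2)) (b := 1 / 2)
        (fun x : ℝ => ((hh B x : ℝ) : ℂ) * E a x * Complex.exp (-(2 * Real.pi * Complex.I * b * x)))
      rw [neg_neg] at h
      rw [hJ, ← h]
      refine intervalIntegral.integral_congr fun x _ => ?_
      show ((hh B (-x) : ℝ) : ℂ) * E a (-x) *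
        Complex.exp (-(2 * Real.pi * Complex.I * b * ((-x : ℝ) : ℂ))) = _
      rw [hh_neg]
      unfold E
      congr 2
      · congr 2
        push_cast
        ring
      · congr 1
        push_cast
        ring
    have h3 : J = (1 / 2) * (J + J) := by ring
    rw [h3]
    conv_lhs => rw [h2]
    conv_lhs =>
      rw [← h2]
    rw [show J + J = J + ∫ x in (-(1 / 2 : ℝ))..(1 / 2), ((hh B x : ℝ) : ℂ) * E a x *
      Complex.exp (2 * Real.pi * Complex.I * b * x) by rw [← h2]]
    rw [hJ, ← intervalIntegral.integral_add, ← intervalIntegral.integral_const_mul]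
    · refine intervalIntegral.integral_congr fun x _ => ?_
      show (1 / 2 : ℂ) * (((hh B x : ℝ) : ℂ) * E a x *
        Complex.exp (-(2 * Real.pi * Complex.I * b * x)) + ((hh B x : ℝ) : ℂ) * E a x *
        Complex.exp (2 * Real.pi * Complex.I * b * x)) = ((hh B x : ℝ) : ℂ) * E a x *
        ((Real.cos (2 * Real.pi * b * x) : ℝ) : ℂ)
      rw [Complex.ofReal_cos, Complex.cos]
      have e1 : (((2 * Real.pi * b * x : ℝ) : ℂ)) * Complex.I =
        2 * Real.pi * Complex.I * b * x := by push_cast; ring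
      have e2 : -(((2 * Real.pi * b * x : ℝ) : ℂ)) * Complex.I =
        -(2 * Real.pi * Complex.I * b * x) := by push_cast; ring
      rw [e1, e2]
      ring
    · apply Continuous.intervalIntegrable; fun_prop
    · apply Continuous.intervalIntegrable; fun_prop
  -- rotate
  obtain ⟨c, hc1, hc2⟩ : ∃ c : ℂ, ‖c‖ = 1 ∧ c * J = (‖J‖ : ℂ) := by
    by_cases hJ0 : J = 0
    · exact ⟨1, by simp, by simp [hJ0]⟩
    · refine ⟨(starRingEnd ℂ) J / ‖J‖, ?_, ?_⟩
      · rw [norm_div, Complex.norm_conj, Complex.norm_real, norm_norm]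
        exact div_self (norm_ne_zero_iff.2 hJ0)
      · have : (‖J‖ : ℂ) ≠ 0 := by exact_mod_cast norm_ne_zero_iff.2 hJ0
        rw [div_mul_eq_mul_div, mul_comm, Complex.mul_conj, Complex.normSq_eq_norm_sq]
        push_cast
        field_simp
  have h4 : ‖J‖ = ∫ x in (-(1 / 2 : ℝ))..(1 / 2), hh B x * (c * E a x).re *
      Real.cos (2 * Real.pi * b * x) := by
    have h5 : (‖J‖ : ℂ) = ∫ x in (-(1 / 2 : ℝ))..(1 / 2), c * (((hh B x : ℝ) : ℂ) * E a x *
      ((Real.cos (2 * Real.pi * b * x) : ℝ) : ℂ)) := by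
      rw [intervalIntegral.integral_const_mul, ← h1, hc2]
    have h6 := congrArg Complex.re h5
    rw [Complex.ofReal_re] at h6
    rw [h6]
    have h7 := (Complex.reCLM).intervalIntegral_comp_comm (μ := volume)
      (f := fun x : ℝ => c * (((hh B x : ℝ) : ℂ) * E a x *
      ((Real.cos (2 * Real.pi * b * x) : ℝ) : ℂ))) (a := -(1 / 2 : ℝ)) (b := 1 / 2)
      (by apply Continuous.intervalIntegrable; fun_prop)
    simp only [Complex.reCLM_apply] at h7
    rw [← h7]
    refine intervalIntegral.integral_congr fun x _ => ?_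
    show (c * (((hh B x : ℝ) : ℂ) * E a x * ((Real.cos (2 * Real.pi * b * x) : ℝ) : ℂ))).re = _
    rw [show c * (((hh B x : ℝ) : ℂ) * E a x * ((Real.cos (2 * Real.pi * b * x) : ℝ) : ℂ)) =
      (((hh B x * Real.cos (2 * Real.pi * b * x) : ℝ)) : ℂ) * (c * E a x) by push_cast; ring,
      Complex.re_ofReal_mul]
    ring
  -- the square
  have h8 : ∫ x in (-(1 / 2 : ℝ))..(1 / 2), hh B x * (c * E a x).re ^ 2 ≤ 55 / 100 := by
    have h9 : ∀ x : ℝ, hh B x * (c * E a x).re ^ 2 =
        1 / 2 * hh B x + 1 / 2 * (c ^ 2 * (((hh B x : ℝ) : ℂ) *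
          Complex.exp (8 * Real.pi * Complex.I * a * x ^ 2))).re := by
      intro x
      rw [← E_sq]
      set w := c * E a x with hw
      have hw1 : ‖w‖ = 1 := by rw [hw, norm_mul, hc1, norm_E, one_mul]
      have hn : w.re ^ 2 + w.im ^ 2 = 1 := by
        have := Complex.normSq_eq_norm_sq w
        rw [hw1, Complex.normSq_apply] at this
        nlinarith
      have e1 : c ^ 2 * (((hh B x : ℝ) : ℂ) * E a x ^ 2) = ((hh B x : ℝ) : ℂ) * w ^ 2 := by
        rw [hw]; ring
      rw [e1, Complex.re_ofReal_mul]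
      have e2 : (w ^ 2).re = w.re ^ 2 - w.im ^ 2 := by
        rw [sq, Complex.mul_re]; ring
      rw [e2]
      have : w.im ^ 2 = 1 - w.re ^ 2 := by linarith
      rw [this]; ring
    simp_rw [h9]
    rw [intervalIntegral.integral_add, intervalIntegral.integral_const_mul,
      intervalIntegral.integral_const_mul, integral_hh hB]
    · have h10 : ∫ x in (-(1 / 2 : ℝ))..(1 / 2), (c ^ 2 * (((hh B x : ℝ) : ℂ) *
          Complex.exp (8 * Real.pi * Complex.I * a * x ^ 2))).re ≤ 1 / 10 := by
        have h7 := (Complex.reCLM).intervalIntegral_comp_comm (μ := volume)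
          (f := fun x : ℝ => c ^ 2 * (((hh B x : ℝ) : ℂ) *
          Complex.exp (8 * Real.pi * Complex.I * a * x ^ 2))) (a := -(1 / 2 : ℝ)) (b := 1 / 2)
          (by apply Continuous.intervalIntegrable; fun_prop)
        simp only [Complex.reCLM_apply] at h7
        rw [h7, intervalIntegral.integral_const_mul]
        refine (Complex.re_le_norm _).trans ?_
        rw [norm_mul, norm_pow, hc1, one_pow, one_mul]
        exact ha
      linarith
    · apply Continuous.intervalIntegrable; fun_prop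
    · apply Continuous.intervalIntegrable
      have : Continuous fun x : ℝ => (c ^ 2 * (((hh B x : ℝ) : ℂ) *
          Complex.exp (8 * Real.pi * Complex.I * a * x ^ 2))) := by fun_prop
      exact continuous_const.mul (Complex.continuous_re.comp this)
  rw [h4]
  have hcr : Continuous fun x : ℝ => (c * E a x).re :=
    Complex.continuous_re.comp (continuous_const.mul hcE)
  calc ∫ x in (-(1 / 2 : ℝ))..(1 / 2), hh B x * (c * E a x).re * Real.cos (2 * Real.pi * b * x)
      ≤ ∫ x in (-(1 / 2 : ℝ))..(1 / 2), (2 / 3 * (hh B x * (c * E a x).re ^ 2) +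
          3 / 8 * hh B x) := by
        refine intervalIntegral.integral_mono_on (by norm_num) ?_ ?_ ?_
        · apply Continuous.intervalIntegrable; fun_prop
        · apply Continuous.intervalIntegrable; fun_prop
        · intro x _
          have h0 := hh_nonneg B x
          set u := (c * E a x).re
          set v := Real.cos (2 * Real.pi * b * x)
          have hv : |v| ≤ 1 := Real.abs_cos_le_one _
          have h11 : u * v ≤ |u| := by
            calc u * v ≤ |u * v| := le_abs_self _
              _ = |u| * |v| := abs_mul _ _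
              _ ≤ |u| * 1 := mul_le_mul_of_nonneg_left hv (abs_nonneg _)
              _ = |u| := mul_one _
          have h12 : |u| ≤ 2 / 3 * u ^ 2 + 3 / 8 := by
            have := sq_abs u
            nlinarith [sq_nonneg (|u| - 3 / 4)]
          have h13 : u * v ≤ 2 / 3 * u ^ 2 + 3 / 8 := h11.trans h12
          have h14 := mul_le_mul_of_nonneg_left h13 h0
          linarith
    _ = 2 / 3 * (∫ x in (-(1 / 2 : ℝ))..(1 / 2), hh B x * (c * E a x).re ^ 2) + 3 / 8 := by
        rw [intervalIntegral.integral_add, intervalIntegral.integral_const_mul,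
          intervalIntegral.integral_const_mul, integral_hh hB, mul_one]
        · apply Continuous.intervalIntegrable; fun_prop
        · apply Continuous.intervalIntegrable; fun_prop
    _ ≤ 742 / 1000 := by linarith

/-- trigonometric approximation of the phase -/
theorem approx (a δ : ℝ) (hδ : 0 < δ) : ∃ (N : ℕ) (q : Circle → ℂ), TPf N q ∧
    ∀ x : ℝ, |x| ≤ 1 / 2 → ‖q (ex x) - E a x‖ ≤ δ := by
  have : Fact ((0 : ℝ) < 1) := ⟨one_pos⟩
  let g : AddCircle (1 : ℝ) → ℂ := AddCircle.liftIco 1 (-(1 / 2)) (E a)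
  have hg : Continuous g := by
    apply AddCircle.liftIco_continuous
    · unfold E
      congr 1
      push_cast
      ring
    · exact (continuous_E a).continuousOn
  have hgx : ∀ x : ℝ, |x| ≤ 1 / 2 → g (x : AddCircle (1 : ℝ)) = E a x := by
    intro x hx
    rw [abs_le] at hx
    rcases eq_or_lt_of_le hx.2 with h | h
    · have h1 : ((x : ℝ) : AddCircle (1 : ℝ)) = ((-(1 / 2) : ℝ) : AddCircle (1 : ℝ)) := by
        rw [h]
        have := AddCircle.coe_add_period (1 : ℝ) (-(1 / 2) : ℝ)
        rw [← this]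
        congr 1
        norm_num
      rw [h1]
      have h2 : g ((-(1 / 2) : ℝ) : AddCircle (1 : ℝ)) = E a (-(1 / 2)) :=
        AddCircle.liftIco_coe_apply (by constructor <;> norm_num)
      rw [h2, h]
      unfold E
      congr 1
      push_cast
      ring
    · exact AddCircle.liftIco_coe_apply ⟨hx.1, by linarith⟩
  let G : C(AddCircle (1 : ℝ), ℂ) := ⟨g, hg⟩
  have hmem : G ∈ (Submodule.span ℂ (Set.range (@fourier (1 : ℝ)))).topologicalClosure := by
    rw [span_fourier_closure_eq_top]; trivial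
  rw [← SetLike.mem_coe, Submodule.topologicalClosure_coe, Metric.mem_closure_iff] at hmem
  obtain ⟨q0, hq0, hdist⟩ := hmem δ hδ
  -- elements of the span are trigonometric polynomials
  have hspan : ∀ q ∈ Submodule.span ℂ (Set.range (@fourier (1 : ℝ))),
      ∃ (N : ℕ) (f : Circle → ℂ), TPf N f ∧ ∀ x : ℝ, q (x : AddCircle (1 : ℝ)) = f (ex x) := by
    intro q hq
    induction hq using Submodule.span_induction with
    | mem q hq =>
      obtain ⟨n, rfl⟩ := hq
      refine ⟨n.natAbs, fun z => ((z ^ n : Circle) : ℂ), TPf.zpow ?_, fun x => ?_⟩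
      · rw [Int.natCast_natAbs]
      · rw [fourier_coe_apply]
        beta_reduce
        rw [ex_zpow]
        congr 1
        push_cast
        ring
    | zero => exact ⟨0, fun _ => 0, TPf.zero 0, fun x => rfl⟩
    | add q1 q2 _ _ ih1 ih2 =>
      obtain ⟨N1, f1, h1, e1⟩ := ih1
      obtain ⟨N2, f2, h2, e2⟩ := ih2
      refine ⟨max N1 N2, fun z => f1 z + f2 z,
        (h1.mono (le_max_left _ _)).add (h2.mono (le_max_right _ _)), fun x => ?_⟩
      rw [ContinuousMap.add_apply, e1, e2]
    | smul k q1 _ ih1 =>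
      obtain ⟨N1, f1, h1, e1⟩ := ih1
      refine ⟨N1, fun z => k * f1 z, h1.const_mul k, fun x => ?_⟩
      rw [ContinuousMap.smul_apply, e1, smul_eq_mul]
  obtain ⟨N, f, hf, he⟩ := hspan q0 hq0
  refine ⟨N, f, hf, fun x hx => ?_⟩
  rw [← he x, ← hgx x hx, ← dist_eq_norm, dist_comm]
  exact (ContinuousMap.dist_apply_le_dist (f := G) (g := q0) (x : AddCircle (1 : ℝ))).trans
    hdist.le

theorem exists_phase (B : ℕ) (hB : 1 ≤ B) (ε : ℝ) (hε : 0 < ε) (hε' : ε ≤ 1 / 40) :
    ∃ (a : ℝ) (R : ℕ) (cq cp cr : ℤ → ℂ),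
      (∀ z : Circle, ‖tp R cq z‖ ≤ 1) ∧
      (∀ x : ℝ, |x| ≤ 1 / 2 → ‖tp R cq (Circle.exp (2 * Real.pi * x)) -
        Complex.exp (4 * Real.pi * Complex.I * a * x ^ 2)‖ ≤ ε) ∧
      (∀ z : Circle, tp R cp z = fej B z * tp R cq z) ∧ (∀ b : ℤ, ‖cp b‖ ≤ 4 / 5) ∧
      (∀ z : Circle, tp R cr z = fej B z * tp R cq z ^ 2) ∧ ‖cr 0‖ ≤ 1 / 5 := by
  obtain ⟨a, ha⟩ := exists_a B
  obtain ⟨N, q0, hq0, happ⟩ := approx a (ε / 2) (by linarith)
  have hpos : (0 : ℝ) < 1 + ε / 2 := by linarith
  let q : Circle → ℂ := fun z => ((1 / (1 + ε / 2) : ℝ) : ℂ) * q0 z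
  have hq : TPf N q := hq0.const_mul _
  have hclose : ∀ x : ℝ, |x| ≤ 1 / 2 → ‖q (ex x) - E a x‖ ≤ ε := by
    intro x hx
    have h1 := happ x hx
    have h2 : q (ex x) - E a x = ((1 / (1 + ε / 2) : ℝ) : ℂ) * (q0 (ex x) - E a x) -
        ((ε / 2 / (1 + ε / 2) : ℝ) : ℂ) * E a x := by
      simp only [q]
      have hK : ε / 2 / (1 + ε / 2) = 1 - 1 / (1 + ε / 2) := by
        field_simp
        ring
      rw [hK]
      push_cast
      ring
    rw [h2]
    refine (norm_sub_le _ _).trans ?_
    rw [norm_mul, norm_mul, norm_E, Complex.norm_real, Complex.norm_real,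
      Real.norm_of_nonneg (by positivity), Real.norm_of_nonneg (by positivity), mul_one]
    have h3 : 1 / (1 + ε / 2) ≤ 1 := by rw [div_le_one hpos]; linarith
    have h4 : ε / 2 / (1 + ε / 2) ≤ ε / 2 := div_le_self (by linarith) (by linarith)
    have h5 : 1 / (1 + ε / 2) * ‖q0 (ex x) - E a x‖ ≤ 1 * (ε / 2) :=
      mul_le_mul h3 h1 (norm_nonneg _) zero_le_one
    linarith
  have hnorm : ∀ z : Circle, ‖q z‖ ≤ 1 := by
    intro z
    obtain ⟨x, hx, rfl⟩ := exists_ex z
    have h1 := happ x hx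
    have h2 : ‖q0 (ex x)‖ ≤ 1 + ε / 2 := by
      calc ‖q0 (ex x)‖ = ‖(q0 (ex x) - E a x) + E a x‖ := by ring_nf
        _ ≤ ‖q0 (ex x) - E a x‖ + ‖E a x‖ := norm_add_le _ _
        _ ≤ ε / 2 + 1 := by rw [norm_E]; linarith
        _ = 1 + ε / 2 := by ring
    simp only [q]
    rw [norm_mul, Complex.norm_real, Real.norm_of_nonneg (by positivity), div_mul_eq_mul_div,
      one_mul, div_le_one hpos]
    exact h2
  -- common degree
  let R : ℕ := B + (N + N)
  have hqR : TPf R q := hq.mono (by omega)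
  have hp : TPf R (fun z => ((fej B z : ℝ) : ℂ) * q z) := ((TPf.fej B).mul hq).mono (by omega)
  have hr : TPf R (fun z => ((fej B z : ℝ) : ℂ) * (q z * q z)) :=
    ((TPf.fej B).mul (hq.mul hq)).mono (by omega)
  obtain ⟨cq, hcq⟩ := hqR
  obtain ⟨cp, hcp⟩ := hp
  obtain ⟨cr, hcr⟩ := hr
  have hqc : Continuous q := by
    rw [show q = tp R cq from funext hcq]
    exact continuous_tp R cq
  have hch := continuous_hh B
  have hcE := continuous_E a
  have hcq' : Continuous fun x : ℝ => q (ex x) := hqc.comp continuous_ex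
  refine ⟨a, R, cq, fun b => if b ∈ Finset.Icc (-(R : ℤ)) (R : ℤ) then cp b else 0, cr,
    ?_, ?_, ?_, ?_, ?_, ?_⟩
  · intro z
    rw [← hcq z]; exact hnorm z
  · intro x hx
    have := hclose x hx
    rw [hcq] at this
    exact this
  · intro z
    rw [← hcq z]
    refine Eq.trans ?_ (hcp z).symm
    unfold tp
    exact Finset.sum_congr rfl fun b hb => by beta_reduce; rw [if_pos hb]
  · intro b
    show ‖(if b ∈ Finset.Icc (-(R : ℤ)) (R : ℤ) then cp b else 0)‖ ≤ 4 / 5
    split_ifs with hb
    · rw [← coef R cp hb]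
      have e1 : ∀ x : ℝ, tp R cp (ex x) * Complex.exp (-(2 * Real.pi * Complex.I * b * x)) =
          ((hh B x : ℝ) : ℂ) * E a x * Complex.exp (-(2 * Real.pi * Complex.I * b * x)) +
          ((hh B x : ℝ) : ℂ) * (q (ex x) - E a x) *
            Complex.exp (-(2 * Real.pi * Complex.I * b * x)) := by
        intro x
        rw [← hcp]
        unfold hh
        ring
      simp_rw [e1]
      rw [intervalIntegral.integral_add]
      · refine (norm_add_le _ _).trans ?_
        have h1 := coef_E hB a ha b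
        have h2 : ‖∫ x in (-(1 / 2 : ℝ))..(1 / 2), ((hh B x : ℝ) : ℂ) * (q (ex x) - E a x) *
            Complex.exp (-(2 * Real.pi * Complex.I * b * x))‖ ≤ ε := by
          calc _ ≤ ∫ x in (-(1 / 2 : ℝ))..(1 / 2), ‖((hh B x : ℝ) : ℂ) * (q (ex x) - E a x) *
              Complex.exp (-(2 * Real.pi * Complex.I * b * x))‖ :=
                intervalIntegral.norm_integral_le_integral_norm (by norm_num)
            _ ≤ ∫ x in (-(1 / 2 : ℝ))..(1 / 2), ε * hh B x := by
                refine intervalIntegral.integral_mono_on (by norm_num) ?_ ?_ ?_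
                · apply Continuous.intervalIntegrable; fun_prop
                · apply Continuous.intervalIntegrable; fun_prop
                · intro x hx
                  rw [norm_mul, norm_mul, Complex.norm_real,
                    Real.norm_of_nonneg (hh_nonneg B x)]
                  have e2 : ‖Complex.exp (-(2 * Real.pi * Complex.I * b * x))‖ = 1 := by
                    rw [show (-(2 * Real.pi * Complex.I * b * x) : ℂ) =
                      ((-(2 * Real.pi * b * x) : ℝ) : ℂ) * Complex.I by push_cast; ring]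
                    exact Complex.norm_exp_ofReal_mul_I _
                  rw [e2, mul_one, mul_comm]
                  exact mul_le_mul_of_nonneg_right
                    (hclose x (abs_le.2 ⟨hx.1, hx.2⟩)) (hh_nonneg B x)
            _ = ε := by
                rw [intervalIntegral.integral_const_mul, integral_hh hB, mul_one]
        linarith
      · apply Continuous.intervalIntegrable; fun_prop
      · apply Continuous.intervalIntegrable; fun_prop
    · rw [norm_zero]; norm_num
  · intro z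
    rw [← hcq z, ← hcr z]
    ring
  · have h0 : (0 : ℤ) ∈ Finset.Icc (-(R : ℤ)) (R : ℤ) := by simp
    rw [← coef R cr h0]
    have e1 : ∀ x : ℝ, tp R cr (ex x) *
        Complex.exp (-(2 * Real.pi * Complex.I * ((0 : ℤ) : ℂ) * x)) =
        ((hh B x : ℝ) : ℂ) * Complex.exp (8 * Real.pi * Complex.I * a * x ^ 2) +
        ((hh B x : ℝ) : ℂ) * (q (ex x) * q (ex x) - E a x * E a x) := by
      intro x
      rw [← hcr, ← E_sq]
      unfold hh
      simp
      ring
    simp_rw [e1]
    rw [intervalIntegral.integral_add]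
    · refine (norm_add_le _ _).trans ?_
      have h2 : ‖∫ x in (-(1 / 2 : ℝ))..(1 / 2), ((hh B x : ℝ) : ℂ) *
          (q (ex x) * q (ex x) - E a x * E a x)‖ ≤ 2 * ε := by
        calc _ ≤ ∫ x in (-(1 / 2 : ℝ))..(1 / 2), ‖((hh B x : ℝ) : ℂ) *
            (q (ex x) * q (ex x) - E a x * E a x)‖ :=
              intervalIntegral.norm_integral_le_integral_norm (by norm_num)
          _ ≤ ∫ x in (-(1 / 2 : ℝ))..(1 / 2), 2 * ε * hh B x := by
              refine intervalIntegral.integral_mono_on (by norm_num) ?_ ?_ ?_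
              · apply Continuous.intervalIntegrable; fun_prop
              · apply Continuous.intervalIntegrable; fun_prop
              · intro x hx
                rw [norm_mul, Complex.norm_real, Real.norm_of_nonneg (hh_nonneg B x), mul_comm]
                refine mul_le_mul_of_nonneg_right ?_ (hh_nonneg B x)
                have h3 := hclose x (abs_le.2 ⟨hx.1, hx.2⟩)
                have h4 : q (ex x) * q (ex x) - E a x * E a x =
                    (q (ex x) - E a x) * (q (ex x) + E a x) := by ring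
                rw [h4, norm_mul]
                have h5 : ‖q (ex x) + E a x‖ ≤ 2 := by
                  refine (norm_add_le _ _).trans ?_
                  rw [norm_E]
                  have := hnorm (ex x)
                  linarith
                calc ‖q (ex x) - E a x‖ * ‖q (ex x) + E a x‖ ≤ ε * 2 :=
                      mul_le_mul h3 h5 (norm_nonneg _) hε.le
                  _ = 2 * ε := by ring
          _ = 2 * ε := by
              rw [intervalIntegral.integral_const_mul, integral_hh hB, mul_one]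
      linarith
    · apply Continuous.intervalIntegrable; fun_prop
    · apply Continuous.intervalIntegrable; fun_prop

end Pool.Agent.TH830.J161
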