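import Pool.Agent.TH336.KR.Defs

/-! # Job 352 (KR-GOOD-LH) -/

set_option autoImplicit false
open MeasureTheory Polynomial

namespace Pool.Agent.TH830.J352

open Pool.Agent.TH336.KR

/-- it is enough to compare the moments -/
theorem good_of {Φ : ℝ[X] →ₗ[ℝ] ℝ} {μ : Measure ℝ} {c : ℝ} (hμ : Lst μ) (hc : c ≠ 0)
    (hI : ∀ n : ℕ, Integrable (fun x : ℝ => x ^ n) μ)
    (hm : ∀ n : ℕ, ∫ x, x ^ n ∂μ = c * Φ (X ^ n)) : Good Φ := by
  have hI' : ∀ f : ℝ[X], Integrable (fun x : ℝ => f.eval x) μ := by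
    intro f
    induction f using Polynomial.induction_on' with
    | add p q hp hq =>
      simp only [eval_add]
      exact hp.add hq
    | monomial n a => simpa only [eval_monomial] using (hI n).const_mul a
  refine ⟨μ, hμ, 1, 0, c, one_ne_zero, hc, fun f => ?_⟩
  have h1 : f.comp (C 1 * X + C 0) = f := by simp
  rw [h1]
  induction f using Polynomial.induction_on' with
  | add p q hp hq =>
    have hp' := hp (by simp)
    have hq' := hq (by simp)
    simp only [eval_add]
    rw [integral_add (hI' p) (hI' q), hp', hq', map_add]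
    ring
  | monomial n a =>
    simp only [eval_monomial]
    rw [integral_const_mul, hm, ← C_mul_X_pow_eq_monomial, ← smul_eq_C_mul, map_smul, smul_eq_mul]
    ring

theorem int_wd {g : ℝ → ℝ} (hg : Measurable g) (h0 : ∀ x, 0 ≤ g x) (f : ℝ → ℝ) :
    ∫ x, f x ∂(volume.withDensity fun x => ENNReal.ofReal (g x)) = ∫ x, g x * f x := by
  rw [integral_withDensity_eq_integral_toReal_smul hg.ennreal_ofReal
    (Filter.Eventually.of_forall fun x => ENNReal.ofReal_lt_top)]
  refine integral_congr_ae (Filter.Eventually.of_forall fun x => ?_)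
  simp only [ENNReal.toReal_ofReal (h0 x), smul_eq_mul]

theorem ing_wd {g : ℝ → ℝ} (hg : Measurable g) (h0 : ∀ x, 0 ≤ g x) {f : ℝ → ℝ}
    (hf : Integrable (fun x => g x * f x)) :
    Integrable f (volume.withDensity fun x => ENNReal.ofReal (g x)) := by
  rw [integrable_withDensity_iff_integrable_smul' hg.ennreal_ofReal
    (Filter.Eventually.of_forall fun x => ENNReal.ofReal_lt_top)]
  refine hf.congr (Filter.Eventually.of_forall fun x => ?_)
  simp only [ENNReal.toReal_ofReal (h0 x), smul_eq_mul]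

theorem hermite_int (n : ℕ) : Integrable (fun x : ℝ => Real.exp (-(x ^ 2)) * x ^ n) := by
  have h := integrable_rpow_mul_exp_neg_mul_sq (b := 1) one_pos (s := (n : ℝ))
    (lt_of_lt_of_le (by norm_num) (Nat.cast_nonneg n))
  refine h.congr (Filter.Eventually.of_forall fun x => ?_)
  simp only [Real.rpow_natCast, neg_mul, one_mul]
  ring

theorem hermite_rec (n : ℕ) : 2 * ∫ x : ℝ, Real.exp (-(x ^ 2)) * x ^ (n + 1) =
    n * ∫ x : ℝ, Real.exp (-(x ^ 2)) * x ^ (n - 1) := by
  have h := integral_eq_zero_of_hasDerivAt_of_integrable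
    (f := fun x : ℝ => Real.exp (-(x ^ 2)) * x ^ n)
    (f' := fun x : ℝ => n * (Real.exp (-(x ^ 2)) * x ^ (n - 1)) -
      2 * (Real.exp (-(x ^ 2)) * x ^ (n + 1)))
    (fun x => by
      have h1 : HasDerivAt (fun x : ℝ => -(x ^ 2)) (-(2 * x)) x := by
        refine (hasDerivAt_pow 2 x).neg.congr_deriv ?_
        simp
      have h2 := h1.exp.mul (hasDerivAt_pow n x)
      refine h2.congr_deriv ?_
      rw [pow_succ]
      ring)
    (((hermite_int (n - 1)).const_mul _).sub ((hermite_int (n + 1)).const_mul _))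
    (hermite_int n)
  rw [integral_sub ((hermite_int (n - 1)).const_mul _) ((hermite_int (n + 1)).const_mul _),
    integral_const_mul, integral_const_mul] at h
  linarith

theorem good_hermite (Φ : ℝ[X] →ₗ[ℝ] ℝ) (h1 : 0 < Φ 1)
    (h : ∀ f : ℝ[X], Φ (derivative f - 2 * X * f) = 0) : Good Φ := by
  have hmeas : Measurable (fun x : ℝ => Real.exp (-(x ^ 2))) := by fun_prop
  have hnn : ∀ x : ℝ, 0 ≤ Real.exp (-(x ^ 2)) := fun x => (Real.exp_pos _).le
  have hΦ : ∀ n : ℕ, 2 * Φ (X ^ (n + 1)) = n * Φ (X ^ (n - 1)) := by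
    intro n
    have h2 := h (X ^ n)
    have h3 : (derivative (X ^ n) : ℝ[X]) - 2 * X * X ^ n =
        (n : ℝ) • X ^ (n - 1) - (2 : ℝ) • X ^ (n + 1) := by
      rw [derivative_X_pow, smul_eq_C_mul, smul_eq_C_mul, show (C (2 : ℝ) : ℝ[X]) = 2 from rfl]
      ring
    rw [h3, map_sub, map_smul, map_smul, smul_eq_mul, smul_eq_mul] at h2
    linarith
  refine good_of (c := Real.sqrt Real.pi / Φ 1)
    (μ := volume.withDensity fun x : ℝ => ENNReal.ofReal (Real.exp (-(x ^ 2))))
    (Or.inr (Or.inr (Or.inl rfl))) (by positivity)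
    (fun n => ing_wd hmeas hnn (hermite_int n)) ?_
  intro n
  rw [int_wd hmeas hnn]
  induction n using Nat.strong_induction_on with
  | _ n ih =>
    match n with
    | 0 =>
      have h3 := integral_gaussian 1
      simp only [neg_mul, one_mul, div_one] at h3
      simp only [pow_zero, mul_one, h3]
      field_simp
    | 1 =>
      have h3 := hermite_rec 0
      have h4 := hΦ 0
      simp only [Nat.cast_zero, zero_mul, zero_add] at h3 h4
      have h5 : ∫ x : ℝ, Real.exp (-(x ^ 2)) * x ^ 1 = 0 := by linarith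
      have h6 : Φ (X ^ 1) = 0 := by linarith
      rw [h5, h6, mul_zero]
    | m + 2 =>
      have h3 := hermite_rec (m + 1)
      have h4 := hΦ (m + 1)
      have h5 := ih m (by omega)
      simp only [Nat.add_sub_cancel] at h3 h4
      rw [h5] at h3
      have h6 : ∫ x : ℝ, Real.exp (-(x ^ 2)) * x ^ (m + 2) =
        (((m + 1 : ℕ) : ℝ) * (Real.sqrt Real.pi / Φ 1 * Φ (X ^ m))) / 2 := by
        rw [show m + 2 = m + 1 + 1 from rfl]
        linarith
      have h7 : Φ (X ^ (m + 2)) = ((m + 1 : ℕ) : ℝ) * Φ (X ^ m) / 2 := by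
        rw [show m + 2 = m + 1 + 1 from rfl]
        linarith
      rw [h6, h7]
      ring

theorem lag_int {α : ℝ} (hα : -1 < α) (n : ℕ) : Integrable (fun x : ℝ =>
    (Set.Ioi (0 : ℝ)).indicator (fun y : ℝ => y ^ α * Real.exp (-y)) x * x ^ n) := by
  have hn : (0 : ℝ) ≤ n := Nat.cast_nonneg n
  have h := Real.GammaIntegral_convergent (s := n + α + 1) (by linarith)
  rw [← integrable_indicator_iff measurableSet_Ioi] at h
  refine h.congr (Filter.Eventually.of_forall fun x => ?_)
  simp only [Set.indicator_apply]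
  split_ifs with hx
  · rw [Set.mem_Ioi] at hx
    rw [show (n : ℝ) + α + 1 - 1 = α + n by ring, Real.rpow_add hx, Real.rpow_natCast]
    ring
  · simp

theorem lag_mom {α : ℝ} (hα : -1 < α) (n : ℕ) : ∫ x : ℝ,
    (Set.Ioi (0 : ℝ)).indicator (fun y : ℝ => y ^ α * Real.exp (-y)) x * x ^ n =
      Real.Gamma (n + α + 1) := by
  have hn : (0 : ℝ) ≤ n := Nat.cast_nonneg n
  rw [Real.Gamma_eq_integral (by linarith), ← integral_indicator measurableSet_Ioi]
  refine integral_congr_ae (Filter.Eventually.of_forall fun x => ?_)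
  simp only [Set.indicator_apply]
  split_ifs with hx
  · rw [Set.mem_Ioi] at hx
    rw [show (n : ℝ) + α + 1 - 1 = α + n by ring, Real.rpow_add hx, Real.rpow_natCast]
    ring
  · simp

theorem lag_meas (α : ℝ) : Measurable (fun x : ℝ =>
    (Set.Ioi (0 : ℝ)).indicator (fun y : ℝ => y ^ α * Real.exp (-y)) x) := by
  refine Measurable.indicator ?_ measurableSet_Ioi
  fun_prop

theorem lag_nn (α : ℝ) (x : ℝ) :
    0 ≤ (Set.Ioi (0 : ℝ)).indicator (fun y : ℝ => y ^ α * Real.exp (-y)) x := by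
  refine Set.indicator_nonneg (fun y hy => ?_) x
  rw [Set.mem_Ioi] at hy
  positivity

theorem good_laguerre (Φ : ℝ[X] →ₗ[ℝ] ℝ) (h1 : 0 < Φ 1) (α : ℝ) (hα : -1 < α)
    (h : ∀ f : ℝ[X], Φ (X * derivative f + (C (α + 1) - X) * f) = 0) : Good Φ := by
  have hΦ : ∀ n : ℕ, Φ (X ^ (n + 1)) = (n + α + 1) * Φ (X ^ n) := by
    intro n
    have h2 := h (X ^ n)
    have h3 : (X : ℝ[X]) * derivative (X ^ n) + (C (α + 1) - X) * X ^ n =
        ((n : ℝ) + α + 1) • X ^ n - X ^ (n + 1) := by
      rw [derivative_X_pow, smul_eq_C_mul]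
      rcases n with _ | n
      · simp
      · simp only [Nat.add_sub_cancel, C_add, C_1, map_natCast]
        push_cast
        ring
    rw [h3, map_sub, map_smul, smul_eq_mul] at h2
    linarith
  have hG : 0 < Real.Gamma (α + 1) := Real.Gamma_pos_of_pos (by linarith)
  refine good_of (c := Real.Gamma (α + 1) / Φ 1)
    (μ := volume.withDensity fun x : ℝ => ENNReal.ofReal
      ((Set.Ioi (0 : ℝ)).indicator (fun y : ℝ => y ^ α * Real.exp (-y)) x))
    (Or.inr (Or.inl ⟨α, hα, rfl⟩)) (by positivity)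
    (fun n => ing_wd (lag_meas α) (lag_nn α) (lag_int hα n)) ?_
  intro n
  rw [int_wd (lag_meas α) (lag_nn α), lag_mom hα]
  induction n with
  | zero =>
    simp only [Nat.cast_zero, zero_add, pow_zero]
    field_simp
  | succ n ih =>
    have hn : (0 : ℝ) ≤ n := Nat.cast_nonneg n
    rw [hΦ n]
    push_cast
    rw [show (n : ℝ) + 1 + α + 1 = (n + α + 1) + 1 by ring,
      Real.Gamma_add_one (by linarith), ih]
    ring

theorem good_laguerre_type (Φ : ℝ[X] →ₗ[ℝ] ℝ) (c M : ℝ) (hc : 0 < c) (hM : 0 < M)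
    (h0 : Φ 1 = c + M) (h : ∀ n : ℕ, 0 < n → Φ (X ^ n) = c * (n.factorial : ℝ)) : Good Φ := by
  have hfun : (fun x : ℝ => (Set.Ioi (0 : ℝ)).indicator (fun y : ℝ => Real.exp (-y)) x) =
      fun x : ℝ => (Set.Ioi (0 : ℝ)).indicator (fun y : ℝ => y ^ (0 : ℝ) * Real.exp (-y)) x := by
    funext x
    simp
  have hR : 1 / (c / M) = M / c := by
    field_simp
  have hI1 : ∀ n : ℕ, Integrable (fun x : ℝ => x ^ n)
      (volume.withDensity fun x : ℝ => ENNReal.ofReal
        ((Set.Ioi (0 : ℝ)).indicator (fun y : ℝ => Real.exp (-y)) x)) := by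
    intro n
    have h1 := ing_wd (lag_meas 0) (lag_nn 0) (lag_int (by norm_num) n)
    simpa only [Real.rpow_zero, one_mul] using h1
  have hI2 : ∀ n : ℕ, Integrable (fun x : ℝ => x ^ n)
      (ENNReal.ofReal (1 / (c / M)) • Measure.dirac (0 : ℝ)) := by
    intro n
    refine Integrable.smul_measure ?_ ENNReal.ofReal_ne_top
    exact integrable_dirac (by simp)
  refine good_of (c := 1 / c)
    (μ := volume.withDensity (fun x : ℝ => ENNReal.ofReal
      ((Set.Ioi (0 : ℝ)).indicator (fun y : ℝ => Real.exp (-y)) x)) +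
        ENNReal.ofReal (1 / (c / M)) • Measure.dirac (0 : ℝ))
    (Or.inr (Or.inr (Or.inr (Or.inr (Or.inl ⟨c / M, by positivity, rfl⟩))))) (by positivity)
    (fun n => (hI1 n).add_measure (hI2 n)) ?_
  intro n
  have h2 : ∫ x, x ^ n ∂(volume.withDensity fun x : ℝ => ENNReal.ofReal
        ((Set.Ioi (0 : ℝ)).indicator (fun y : ℝ => Real.exp (-y)) x)) = (n.factorial : ℝ) := by
    have h3 := int_wd (lag_meas 0) (lag_nn 0) (fun x => x ^ n)
    rw [lag_mom (by norm_num)] at h3
    simp only [Real.rpow_zero, one_mul, add_zero, Real.Gamma_nat_eq_factorial] at h3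
    exact h3
  rw [integral_add_measure (hI1 n) (hI2 n), h2, integral_smul_measure, integral_dirac,
    ENNReal.toReal_ofReal (by positivity), hR, smul_eq_mul]
  rcases Nat.eq_zero_or_pos n with hn | hn
  · subst hn
    simp only [Nat.factorial_zero, Nat.cast_one, pow_zero, mul_one, h0]
    field_simp
  · rw [h n hn, zero_pow hn.ne']
    field_simp
    simp

end Pool.Agent.TH830.J352
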