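import Mathlib

/-! # Job 356 (KR-LAGPOLY) -/

set_option autoImplicit false
open Polynomial

namespace Pool.Agent.TH830.J356

theorem eval_asc (k m : ℕ) : (ascPochhammer ℝ m).eval (k : ℝ) = (k.ascFactorial m : ℝ) := by
  rw [← ascPochhammer_nat_eq_ascFactorial, ascPochhammer_eval_cast]

theorem alt_asc (N m : ℕ) (hm : m ≤ N) :
    ∑ k ∈ Finset.range (N + 2), (-1 : ℝ) ^ k * ((N + 1).choose k : ℝ) *
      (k.ascFactorial m : ℝ) = 0 := by
  have h := Polynomial.fwdDiff_iter_eq_zero_of_degree_lt (R := ℝ) (P := ascPochhammer ℝ m)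
    (n := N + 1) (by rw [ascPochhammer_natDegree]; omega)
  have h1 := congrFun h 0
  rw [fwdDiff_iter_eq_sum_shift] at h1
  have h2 : ∑ k ∈ Finset.range (N + 2), (-1 : ℝ) ^ k * ((N + 1).choose k : ℝ) *
      (k.ascFactorial m : ℝ) = (-1) ^ (N + 1) * ∑ k ∈ Finset.range (N + 1 + 1),
        ((-1 : ℤ) ^ (N + 1 - k) * (N + 1).choose k) • (ascPochhammer ℝ m).eval (0 + k • (1 : ℝ)) := by
    rw [Finset.mul_sum]
    refine Finset.sum_congr rfl fun k hk => ?_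
    rw [Finset.mem_range] at hk
    rw [nsmul_one, zero_add, eval_asc, zsmul_eq_mul]
    push_cast
    have h3 : (-1 : ℝ) ^ (N + 1) * (-1) ^ (N + 1 - k) = (-1) ^ k := by
      have h4 : (-1 : ℝ) ^ (N + 1) = (-1) ^ (N + 1 - k) * (-1) ^ k := by
        rw [← pow_add]; congr 1; omega
      rw [h4, mul_right_comm, ← mul_pow]
      norm_num
    rw [← mul_assoc, ← mul_assoc, h3]
  rw [h2, h1]
  simp

/-- the test polynomial -/
noncomputable def tp (N : ℕ) : ℝ[X] :=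
  ∑ j ∈ Finset.range (N + 1),
    ((-1 : ℝ) ^ j * ((N + 1).choose (j + 1) : ℝ) / (((N : ℝ) + 1) * (j.factorial : ℝ))) • X ^ j

theorem tp_eval (N : ℕ) : (tp N).eval 0 = 1 := by
  rw [tp, eval_finsetSum, Finset.sum_range_succ']
  have h1 : ∑ k ∈ Finset.range N, eval (0 : ℝ) (((-1 : ℝ) ^ (k + 1) *
      ((N + 1).choose (k + 1 + 1) : ℝ) / (((N : ℝ) + 1) * ((k + 1).factorial : ℝ))) •
        X ^ (k + 1)) = 0 :=
    Finset.sum_eq_zero fun k _ => by simp
  rw [h1]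
  have : ((N : ℝ) + 1) ≠ 0 := by positivity
  simp [this]

theorem tp_G (N : ℕ) (G : ℝ[X] →ₗ[ℝ] ℝ) (hG : ∀ n : ℕ, G (X ^ n) = (n.factorial : ℝ)) (m : ℕ)
    (hm : m ≤ N) : G (tp N * X ^ m) = if m = 0 then 1 / ((N : ℝ) + 1) else 0 := by
  have hN : ((N : ℝ) + 1) ≠ 0 := by positivity
  have h1 : G (tp N * X ^ m) = (1 / ((N : ℝ) + 1)) * ∑ j ∈ Finset.range (N + 1),
      (-1 : ℝ) ^ j * ((N + 1).choose (j + 1) : ℝ) * ((j + 1).ascFactorial m : ℝ) := by
    rw [tp, Finset.sum_mul, map_sum, Finset.mul_sum]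
    refine Finset.sum_congr rfl fun j _ => ?_
    rw [smul_mul_assoc, map_smul, ← pow_add, hG, smul_eq_mul, ← Nat.factorial_mul_ascFactorial]
    have : (j.factorial : ℝ) ≠ 0 := by positivity
    push_cast
    field_simp
  have h2 := alt_asc N m hm
  rw [Finset.sum_range_succ'] at h2
  have h3 : ∑ k ∈ Finset.range (N + 1), (-1 : ℝ) ^ (k + 1) * ((N + 1).choose (k + 1) : ℝ) *
      ((k + 1).ascFactorial m : ℝ) = - ∑ j ∈ Finset.range (N + 1),
      (-1 : ℝ) ^ j * ((N + 1).choose (j + 1) : ℝ) * ((j + 1).ascFactorial m : ℝ) := by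
    rw [← Finset.sum_neg_distrib]
    refine Finset.sum_congr rfl fun j _ => ?_
    rw [pow_succ]
    ring
  rw [h3] at h2
  have h4 : ∑ j ∈ Finset.range (N + 1),
      (-1 : ℝ) ^ j * ((N + 1).choose (j + 1) : ℝ) * ((j + 1).ascFactorial m : ℝ) =
      ((0 : ℕ).ascFactorial m : ℝ) := by
    simp only [pow_zero, Nat.choose_zero_right, Nat.cast_one, one_mul] at h2
    linarith
  rw [h1, h4]
  split_ifs with h0
  · subst h0
    simp
  · obtain ⟨k, rfl⟩ := Nat.exists_eq_succ_of_ne_zero h0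
    rw [Nat.zero_ascFactorial]
    simp

theorem lag_test (N : ℕ) : ∃ f : ℝ[X], f.eval 0 = 1 ∧
    ∀ G : ℝ[X] →ₗ[ℝ] ℝ, (∀ n : ℕ, G (X ^ n) = (n.factorial : ℝ)) →
      G (f * f) = 1 / ((N : ℝ) + 1) := by
  refine ⟨tp N, tp_eval N, fun G hG => ?_⟩
  have h1 : G (tp N * tp N) = ∑ j ∈ Finset.range (N + 1),
      ((-1 : ℝ) ^ j * ((N + 1).choose (j + 1) : ℝ) / (((N : ℝ) + 1) * (j.factorial : ℝ))) *
        (if j = 0 then 1 / ((N : ℝ) + 1) else 0) := by
    conv_lhs => rw [show tp N * tp N = tp N * ∑ j ∈ Finset.range (N + 1),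
      ((-1 : ℝ) ^ j * ((N + 1).choose (j + 1) : ℝ) / (((N : ℝ) + 1) * (j.factorial : ℝ))) •
        X ^ j from rfl]
    rw [Finset.mul_sum, map_sum]
    refine Finset.sum_congr rfl fun j hj => ?_
    rw [Finset.mem_range] at hj
    rw [mul_smul_comm, map_smul, tp_G N G hG j (by omega), smul_eq_mul]
  rw [h1]
  simp only [mul_ite, mul_zero, Finset.sum_ite_eq', Finset.mem_range]
  have hN : ((N : ℝ) + 1) ≠ 0 := by positivity
  rw [if_pos (by omega)]
  simp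
  field_simp

end Pool.Agent.TH830.J356
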