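import Pool.Agent.TH349.HI.Defs

/-! # Job 374 (HI-CLASSIFY) -/

set_option autoImplicit false

open Finset Equiv

namespace Pool.Agent.TH830.J374

open Pool.Agent.TH349.HI

section nb

variable {W U : Type} [Finite W] [Finite U] (C : Str W U)

theorem two_nb {a x y : U} (hx : C.A a x) (hy : C.A a y) (hxy : x ≠ y) :
    (∀ b, C.A a b ↔ b = x ∨ b = y) ∧ ∀ w, ¬ C.T a w := by
  classical
  cases nonempty_fintype W
  cases nonempty_fintype U
  have h := C.deg a
  rw [Nat.card_eq_fintype_card, Nat.card_eq_fintype_card, Fintype.card_subtype,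
    Fintype.card_subtype] at h
  have hsub : ({x, y} : Finset U) ⊆ Finset.univ.filter (fun b => C.A a b) := by
    intro b hb
    simp only [Finset.mem_insert, Finset.mem_singleton] at hb
    rw [Finset.mem_filter]
    rcases hb with rfl | rfl
    · exact ⟨Finset.mem_univ _, hx⟩
    · exact ⟨Finset.mem_univ _, hy⟩
  have hc := Finset.card_le_card hsub
  rw [Finset.card_pair hxy] at hc
  have hT : (Finset.univ.filter (fun w => C.T a w)).card = 0 := by omega
  have hA : (Finset.univ.filter (fun b => C.A a b)).card ≤ ({x, y} : Finset U).card := by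
    rw [Finset.card_pair hxy]; omega
  have heq := Finset.eq_of_subset_of_card_le hsub hA
  refine ⟨fun b => ?_, fun w hw => ?_⟩
  · have : b ∈ ({x, y} : Finset U) ↔ b ∈ Finset.univ.filter (fun b => C.A a b) := by rw [heq]
    simp only [Finset.mem_insert, Finset.mem_singleton, Finset.mem_filter, Finset.mem_univ,
      true_and] at this
    exact this.symm
  · rw [Finset.card_eq_zero] at hT
    have : w ∈ Finset.univ.filter (fun w => C.T a w) := by
      rw [Finset.mem_filter]; exact ⟨Finset.mem_univ _, hw⟩
    rw [hT] at this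
    simp at this

theorem one_nb {a x : U} (h1 : ∀ b, C.A a b ↔ b = x) : ∃ u, ∀ w, C.T a w ↔ w = u := by
  classical
  cases nonempty_fintype W
  cases nonempty_fintype U
  have h := C.deg a
  rw [Nat.card_eq_fintype_card, Nat.card_eq_fintype_card, Fintype.card_subtype,
    Fintype.card_subtype] at h
  have hA : Finset.univ.filter (fun b => C.A a b) = {x} := by
    ext b
    simp [h1]
  rw [hA, Finset.card_singleton] at h
  obtain ⟨u, hu⟩ := Finset.card_eq_one.1 (show (Finset.univ.filter (fun w => C.T a w)).card = 1 by
    omega)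
  refine ⟨u, fun w => ?_⟩
  have : w ∈ Finset.univ.filter (fun w => C.T a w) ↔ w ∈ ({u} : Finset W) := by rw [hu]
  simpa using this

theorem zero_nb {a : U} (h1 : ∀ b, ¬ C.A a b) :
    ∃ u v, u ≠ v ∧ ∀ w, C.T a w ↔ w = u ∨ w = v := by
  classical
  cases nonempty_fintype W
  cases nonempty_fintype U
  have h := C.deg a
  rw [Nat.card_eq_fintype_card, Nat.card_eq_fintype_card, Fintype.card_subtype,
    Fintype.card_subtype] at h
  have hA : Finset.univ.filter (fun b => C.A a b) = ∅ := by
    ext b
    simp [h1]
  rw [hA, Finset.card_empty] at h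
  obtain ⟨u, v, huv, hu⟩ := Finset.card_eq_two.1
    (show (Finset.univ.filter (fun w => C.T a w)).card = 2 by omega)
  refine ⟨u, v, huv, fun w => ?_⟩
  have : w ∈ Finset.univ.filter (fun w => C.T a w) ↔ w ∈ ({u, v} : Finset W) := by rw [hu]
  simpa using this

end nb

/-- a word of length `k` without repetition, consecutive points adjacent -/
def Wd {W : Type} {m : ℕ} (C : Str W (Fin m)) (g : ℕ → Fin m) (k : ℕ) : Prop :=
  (∀ i j, i < k → j < k → g i = g j → i = j) ∧ (∀ i, i + 1 < k → C.A (g i) (g (i + 1)))

theorem Wd.le {W : Type} {m : ℕ} {C : Str W (Fin m)} {g : ℕ → Fin m} {k : ℕ} (h : Wd C g k) :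
    k ≤ m := by
  have h1 : Function.Injective (fun i : Fin k => g i) := fun i j hij =>
    Fin.ext (h.1 i j i.2 j.2 hij)
  simpa using Fintype.card_le_of_injective _ h1

theorem exists_word {W : Type} [Finite W] {m : ℕ} (hm : 1 ≤ m) (C : Str W (Fin m))
    (hC : C.Conn) : ∃ g : ℕ → Fin m, Wd C g m := by
  classical
  -- the longest word
  have hP1 : ∃ g, Wd C g 1 := ⟨fun _ => ⟨0, hm⟩, fun i j hi hj _ => by omega, fun i hi => by omega⟩
  have hb : ∀ k, (∃ g, Wd C g k) → k ≤ m := fun k ⟨g, hg⟩ => hg.le
  set k := Nat.findGreatest (fun k => ∃ g, Wd C g k) m with hk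
  have hk1 : 1 ≤ k := Nat.le_findGreatest hm hP1
  have hPk : ∃ g, Wd C g k := Nat.findGreatest_spec (P := fun k => ∃ g, Wd C g k) hm hP1
  have hmax : ∀ g, ¬ Wd C g (k + 1) := by
    intro g hg
    have h1 := Nat.le_findGreatest (P := fun k => ∃ g, Wd C g k) (hb _ ⟨g, hg⟩) ⟨g, hg⟩
    omega
  obtain ⟨g, hg⟩ := hPk
  -- the image is closed
  have hcl := hC {a | ∃ i < k, g i = a} ⟨g 0, 0, hk1, rfl⟩ (by
    rintro a b ⟨i, hi, rfl⟩ hab
    by_contra hb'
    have hb'' : ∀ j < k, g j ≠ b := fun j hj h => hb' ⟨j, hj, h⟩
    by_cases h0 : i + 1 = k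
    · -- extend at the end
      refine hmax (fun j => if j = k then b else g j) ⟨?_, ?_⟩
      · intro j l hj hl hjl
        simp only at hjl
        split_ifs at hjl with h1 h2 h2
        · omega
        · exact absurd hjl.symm (hb'' l (by omega))
        · exact absurd hjl (hb'' j (by omega))
        · exact hg.1 j l (by omega) (by omega) hjl
      · intro j hj
        simp only
        rw [if_neg (by omega)]
        split_ifs with h1
        · have : j = i := by omega
          rw [this]; exact hab
        · exact hg.2 j (by omega)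
    by_cases h00 : i = 0
    · -- extend at the beginning
      subst h00
      refine hmax (fun j => if j = 0 then b else g (j - 1)) ⟨?_, ?_⟩
      · intro j l hj hl hjl
        simp only at hjl
        split_ifs at hjl with h1 h2 h2
        · omega
        · exact absurd hjl.symm (hb'' _ (by omega))
        · exact absurd hjl (hb'' _ (by omega))
        · have := hg.1 _ _ (by omega) (by omega) hjl
          omega
      · intro j hj
        simp only
        rw [if_neg (show ¬ (j + 1 = 0) by omega), Nat.add_sub_cancel]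
        split_ifs with h1
        · rw [h1]; exact C.symm _ _ hab
        · have := hg.2 (j - 1) (by omega)
          rwa [show j - 1 + 1 = j by omega] at this
    · -- interior point
      have h1 := hg.2 i (by omega)
      have h2 := hg.2 (i - 1) (by omega)
      rw [show i - 1 + 1 = i by omega] at h2
      have h3 := (two_nb C h1 (C.symm _ _ h2) (fun h => by
        have := hg.1 _ _ (by omega) (by omega) h
        omega)).1 b
      rcases h3.1 hab with h | h
      · exact hb'' _ (by omega) h.symm
      · exact hb'' _ (by omega) h.symm)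
  have hkm : k = m := by
    refine le_antisymm hg.le ?_
    have hsurj : Function.Surjective (fun i : Fin k => g i) := by
      intro a
      have ha : a ∈ {a | ∃ i < k, g i = a} := by rw [hcl]; exact Set.mem_univ _
      obtain ⟨i, hi, h⟩ := ha
      exact ⟨⟨i, hi⟩, h⟩
    simpa using Fintype.card_le_of_surjective _ hsurj
  rw [hkm] at hg
  exact ⟨g, hg⟩

theorem classify {W : Type} [Finite W] {m : ℕ} (hm : 1 ≤ m) (C : Str W (Fin m)) (hC : C.Conn) :
    (∃ f u v, IsPath C f u v) ∨ (∃ f, IsCyc C f) := by
  classical
  obtain ⟨g, hg⟩ := exists_word hm C hC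
  have hinj : Function.Injective (fun i : Fin m => g i) := fun i j hij =>
    Fin.ext (hg.1 i j i.2 j.2 hij)
  set f : Perm (Fin m) := Equiv.ofBijective (fun i : Fin m => g i)
    (Finite.injective_iff_bijective.1 hinj) with hf
  have hfi : ∀ i : Fin m, f i = g i := fun i => rfl
  have hsurj : ∀ b : Fin m, ∃ j, j < m ∧ b = g j := by
    intro b
    obtain ⟨j, hj⟩ := f.surjective b
    exact ⟨j, j.2, by rw [← hj, hfi]⟩
  -- neighbours of interior points
  have hint : ∀ i, 0 < i → i + 1 < m → (∀ b, C.A (g i) b ↔ b = g (i + 1) ∨ b = g (i - 1)) ∧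
      ∀ w, ¬ C.T (g i) w := by
    intro i h0 h1
    have h2 := hg.2 (i - 1) (by omega)
    rw [show i - 1 + 1 = i by omega] at h2
    exact two_nb C (hg.2 i h1) (C.symm _ _ h2) (fun h => by
        have := hg.1 _ _ (by omega) (by omega) h
        omega)
  rcases hm.eq_or_lt with h1 | h1
  · -- one point
    subst h1
    left
    obtain ⟨u, v, -, huv⟩ := zero_nb C (a := (0 : Fin 1)) (fun b hb => by
      rw [Subsingleton.elim b 0] at hb
      exact C.irr _ hb)
    refine ⟨1, u, v, fun i j => ?_, fun i w => ?_⟩
    · rw [Subsingleton.elim ((1 : Perm (Fin 1)) i) 0, Subsingleton.elim ((1 : Perm (Fin 1)) j) 0]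
      refine ⟨fun h => absurd h (C.irr _), fun h => ?_⟩
      omega
    · rw [Subsingleton.elim ((1 : Perm (Fin 1)) i) 0, huv]
      have : i.val = 0 := by omega
      simp
  by_cases hcyc : 3 ≤ m ∧ C.A (g 0) (g (m - 1))
  · -- polygon
    obtain ⟨h3, hc⟩ := hcyc
    right
    have hz := two_nb C (hg.2 0 (by omega)) hc (fun h => by
      have := hg.1 _ _ (by omega) (by omega) h
      omega)
    have hl0 := hg.2 (m - 2) (by omega)
    rw [show m - 2 + 1 = m - 1 by omega] at hl0
    have hl := two_nb C (C.symm _ _ hc) (C.symm _ _ hl0) (fun h => by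
      have := hg.1 _ _ (by omega) (by omega) h
      omega)
    refine ⟨f, h3, fun i j => ?_, fun i w => ?_⟩
    · rw [hfi, hfi]
      have hi := i.2
      have hj := j.2
      have hmod : ∀ a, a < m → (a + 1) % m = if a + 1 = m then 0 else a + 1 := by
        intro a ha
        split_ifs with h
        · rw [h, Nat.mod_self]
        · exact Nat.mod_eq_of_lt (by omega)
      rw [hmod _ hi, hmod _ hj]
      have hgj : ∀ l, l < m → (g j = g l ↔ (j : ℕ) = l) := fun l hl =>
        ⟨fun h => hg.1 _ _ hj hl h, fun h => by rw [h]⟩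
      by_cases hi0 : (i : ℕ) = 0
      · rw [hi0, hz.1, hgj _ (by omega), hgj _ (by omega)]
        split_ifs <;> (try simp) <;> (try omega)
      by_cases hi1 : (i : ℕ) + 1 = m
      · have : (i : ℕ) = m - 1 := by omega
        rw [this, hl.1, hgj _ (by omega), hgj _ (by omega)]
        split_ifs <;> omega
      · rw [(hint i (by omega) (by omega)).1, hgj _ (by omega), hgj _ (by omega)]
        split_ifs <;> omega
    · rw [hfi]
      by_cases hi0 : (i : ℕ) = 0
      · rw [hi0]; exact hz.2 w
      by_cases hi1 : (i : ℕ) + 1 = m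
      · have : (i : ℕ) = m - 1 := by omega
        rw [this]; exact hl.2 w
      · exact (hint i (by omega) (by omega)).2 w
  · -- path
    left
    have hz : ∀ b, C.A (g 0) b ↔ b = g 1 := by
      intro b
      refine ⟨fun hb => ?_, fun h => h ▸ hg.2 0 (by omega)⟩
      obtain ⟨j, hj, rfl⟩ := hsurj b
      by_cases hj0 : j = 0
      · subst hj0; exact absurd hb (C.irr _)
      by_cases hj1 : j + 1 = m
      · have hjm : j = m - 1 := by omega
        rw [hjm] at hb ⊢
        by_cases h3 : 3 ≤ m
        · exact absurd ⟨h3, hb⟩ hcyc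
        · rw [show m - 1 = 1 by omega]
      · have h4 := ((hint j (by omega) (by omega)).1 (g 0)).1 (C.symm _ _ hb)
        rcases h4 with h4 | h4
        · have := hg.1 _ _ (by omega) (by omega) h4
          omega
        · have := hg.1 _ _ (by omega) (by omega) h4
          rw [show j = 1 by omega]
    have hl : ∀ b, C.A (g (m - 1)) b ↔ b = g (m - 2) := by
      intro b
      have hl0 := hg.2 (m - 2) (by omega)
      rw [show m - 2 + 1 = m - 1 by omega] at hl0
      refine ⟨fun hb => ?_, fun h => h ▸ C.symm _ _ hl0⟩
      obtain ⟨j, hj, rfl⟩ := hsurj b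
      by_cases hj0 : j = 0
      · subst hj0
        by_cases h3 : 3 ≤ m
        · exact absurd ⟨h3, C.symm _ _ hb⟩ hcyc
        · rw [show m - 2 = 0 by omega]
      by_cases hj1 : j + 1 = m
      · have hjm : j = m - 1 := by omega
        rw [hjm] at hb
        exact absurd hb (C.irr _)
      · have h4 := ((hint j (by omega) (by omega)).1 (g (m - 1))).1 (C.symm _ _ hb)
        rcases h4 with h4 | h4
        · have := hg.1 _ _ (by omega) (by omega) h4
          rw [show j = m - 2 by omega]
        · have := hg.1 _ _ (by omega) (by omega) h4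
          omega
    obtain ⟨u, hu⟩ := one_nb C hz
    obtain ⟨v, hv⟩ := one_nb C hl
    refine ⟨f, u, v, fun i j => ?_, fun i w => ?_⟩
    · rw [hfi, hfi]
      have hi := i.2
      have hj := j.2
      have hgj : ∀ l, l < m → (g j = g l ↔ (j : ℕ) = l) := fun l hl =>
        ⟨fun h => hg.1 _ _ hj hl h, fun h => by rw [h]⟩
      by_cases hi0 : (i : ℕ) = 0
      · rw [hi0, hz, hgj _ (by omega)]
        omega
      by_cases hi1 : (i : ℕ) + 1 = m
      · have : (i : ℕ) = m - 1 := by omega
        rw [this, hl, hgj _ (by omega)]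
        omega
      · rw [(hint i (by omega) (by omega)).1, hgj _ (by omega), hgj _ (by omega)]
        omega
    · rw [hfi]
      by_cases hi0 : (i : ℕ) = 0
      · rw [hi0, hu]
        constructor
        · intro h; exact Or.inl ⟨rfl, h⟩
        · rintro (h | h)
          · exact h.2
          · omega
      by_cases hi1 : (i : ℕ) + 1 = m
      · have : (i : ℕ) = m - 1 := by omega
        rw [this, hv]
        constructor
        · intro h; exact Or.inr ⟨by omega, h⟩
        · rintro (h | h)
          · omega
          · exact h.2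
      · refine ⟨fun h => absurd h ((hint i (by omega) (by omega)).2 w), ?_⟩
        rintro (h | h)
        · exact absurd h.1 hi0
        · exact absurd h.1 hi1

end Pool.Agent.TH830.J374
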