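import Pool.Agent.TH349.HI.Defs

/-! # Job 375 (HI-PATHSUM) -/

set_option autoImplicit false

open Finset Equiv

namespace Pool.Agent.TH830.J375

open Pool.Agent.TH349.HI

theorem sign_rev (m : ℕ) : Perm.sign (Fin.revPerm : Perm (Fin m)) = (-1) ^ (m / 2) := by
  rw [Equiv.Perm.sign_eq_prod_prod_Iio]
  have h1 : ∀ j : Fin m, (∏ i ∈ Finset.Iio j,
      if (Fin.revPerm : Perm (Fin m)) i < Fin.revPerm j then (1 : ℤˣ) else -1) =
      (-1) ^ (j : ℕ) := by
    intro j
    have h2 : ∀ i ∈ Finset.Iio j,
        (if (Fin.revPerm : Perm (Fin m)) i < Fin.revPerm j then (1 : ℤˣ) else -1) = -1 := by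
      intro i hi
      rw [Finset.mem_Iio] at hi
      rw [if_neg]
      rw [Fin.revPerm_apply, Fin.revPerm_apply, Fin.rev_lt_rev, not_lt]
      exact hi.le
    rw [Finset.prod_congr rfl h2, Finset.prod_const, Fin.card_Iio]
  rw [Finset.prod_congr rfl fun j _ => h1 j,
    Fin.prod_univ_eq_prod_range (fun j => (-1 : ℤˣ) ^ j) m]
  clear h1
  induction m with
  | zero => simp
  | succ n ih =>
    rw [Finset.prod_range_succ, ih, ← pow_add]
    rcases Nat.even_or_odd' n with ⟨k, rfl | rfl⟩
    · rw [show 2 * k / 2 + 2 * k = k + 2 * k by omega, show (2 * k + 1) / 2 = k by omega, pow_add,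
        pow_mul]
      simp
    · rw [show (2 * k + 1) / 2 + (2 * k + 1) = (k + 1) + 2 * k by omega,
        show (2 * k + 1 + 1) / 2 = k + 1 by omega, pow_add, pow_mul]
      simp

section

variable {W : Type} {m : ℕ}

/-- the path structure -/
def mkP [Finite W] (f : Perm (Fin m)) (u v : W) (h : m = 1 → u ≠ v) : Str W (Fin m) where
  A a b := (f.symm a).val + 1 = (f.symm b).val ∨ (f.symm b).val + 1 = (f.symm a).val
  T a w := ((f.symm a).val = 0 ∧ w = u) ∨ ((f.symm a).val + 1 = m ∧ w = v)
  symm a b h := h.symm
  irr a h := by omega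
  deg a := by
    classical
    cases nonempty_fintype W
    rw [Nat.card_eq_fintype_card, Nat.card_eq_fintype_card, Fintype.card_subtype,
      Fintype.card_subtype]
    obtain ⟨i, rfl⟩ := f.surjective a
    simp only [symm_apply_apply]
    have hi := i.2
    have hA : (Finset.univ.filter fun b : Fin m => i.val + 1 = (f.symm b).val ∨
        (f.symm b).val + 1 = i.val).card =
        (Finset.univ.filter fun j : Fin m => i.val + 1 = j.val ∨ j.val + 1 = i.val).card := by
      refine Finset.card_equiv f.symm fun b => ?_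
      simp
    rw [hA]
    by_cases h0 : i.val = 0
    · by_cases h1 : i.val + 1 = m
      · have e1 : (Finset.univ.filter fun j : Fin m => i.val + 1 = j.val ∨ j.val + 1 = i.val) =
            ∅ := by
          ext j
          have := j.2
          simp only [Finset.mem_filter, Finset.mem_univ, true_and, Finset.notMem_empty, iff_false]
          omega
        have e2 : (Finset.univ.filter fun w : W => (i.val = 0 ∧ w = u) ∨
            (i.val + 1 = m ∧ w = v)) = {u, v} := by
          ext w
          simp [h0, ← h1]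
        rw [e1, e2, Finset.card_pair (h (by omega))]
        simp
      · have e1 : (Finset.univ.filter fun j : Fin m => i.val + 1 = j.val ∨ j.val + 1 = i.val) =
            {⟨i.val + 1, by omega⟩} := by
          ext j
          have := j.2
          simp only [Finset.mem_filter, Finset.mem_univ, true_and, Finset.mem_singleton,
            Fin.ext_iff]
          omega
        have e2 : (Finset.univ.filter fun w : W => (i.val = 0 ∧ w = u) ∨
            (i.val + 1 = m ∧ w = v)) = {u} := by
          ext w
          simp [h0]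
          omega
        rw [e1, e2]
        simp
    · by_cases h1 : i.val + 1 = m
      · have e1 : (Finset.univ.filter fun j : Fin m => i.val + 1 = j.val ∨ j.val + 1 = i.val) =
            {⟨i.val - 1, by omega⟩} := by
          ext j
          have := j.2
          simp only [Finset.mem_filter, Finset.mem_univ, true_and, Finset.mem_singleton,
            Fin.ext_iff]
          omega
        have e2 : (Finset.univ.filter fun w : W => (i.val = 0 ∧ w = u) ∨
            (i.val + 1 = m ∧ w = v)) = {v} := by
          ext w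
          simp [h0, h1]
        rw [e1, e2]
        simp
      · have e1 : (Finset.univ.filter fun j : Fin m => i.val + 1 = j.val ∨ j.val + 1 = i.val) =
            {⟨i.val - 1, by omega⟩, ⟨i.val + 1, by omega⟩} := by
          ext j
          have := j.2
          simp only [Finset.mem_filter, Finset.mem_univ, true_and, Finset.mem_singleton,
            Finset.mem_insert, Fin.ext_iff]
          omega
        have e2 : (Finset.univ.filter fun w : W => (i.val = 0 ∧ w = u) ∨
            (i.val + 1 = m ∧ w = v)) = ∅ := by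
          ext w
          simp [h0, h1]
        rw [e1, e2, Finset.card_pair (by
          intro h
          rw [Fin.ext_iff] at h
          simp only at h
          omega)]
        simp

theorem isPath_mkP [Finite W] (f : Perm (Fin m)) (u v : W) (h : m = 1 → u ≠ v) :
    IsPath (mkP f u v h) f u v := by
  refine ⟨fun i j => ?_, fun i w => ?_⟩
  · simp [mkP]
  · simp [mkP]

theorem path_det {C C' : Str W (Fin m)} {f : Perm (Fin m)} {u v : W} (h : IsPath C f u v)
    (h' : IsPath C' f u v) : C = C' := by
  apply Str.ext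
  · funext a b
    obtain ⟨i, rfl⟩ := f.surjective a
    obtain ⟨j, rfl⟩ := f.surjective b
    rw [eq_iff_iff, h.1, h'.1]
  · funext a w
    obtain ⟨i, rfl⟩ := f.surjective a
    rw [eq_iff_iff, h.2, h'.2]

theorem path_valid {C : Str W (Fin m)} {f : Perm (Fin m)} {u v : W} (h : IsPath C f u v) :
    m = 1 → u ≠ v := by
  rintro rfl rfl
  have h1 := C.deg (f 0)
  have h2 : Nat.card {b // C.A (f 0) b} = 0 := by
    rw [Nat.card_eq_zero]
    left
    refine ⟨fun b => ?_⟩
    have h3 := b.2
    rw [Subsingleton.elim b.1 (f 0)] at h3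
    exact C.irr _ h3
  have h3 : Nat.card {w // C.T (f 0) w} = 1 := by
    rw [Nat.card_eq_one_iff_unique]
    refine ⟨⟨fun a b => ?_⟩, ⟨⟨u, ?_⟩⟩⟩
    · have ha := (h.2 0 a.1).1 a.2
      have hb := (h.2 0 b.1).1 b.2
      apply Subtype.ext
      rw [show a.1 = u by tauto, show b.1 = u by tauto]
    · exact (h.2 0 u).2 (Or.inl ⟨rfl, rfl⟩)
  omega

theorem path_rev {C : Str W (Fin m)} {f : Perm (Fin m)} {u v : W} (h : IsPath C f u v) :
    IsPath C (f * Fin.revPerm) v u := by
  refine ⟨fun i j => ?_, fun i w => ?_⟩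
  · rw [Perm.mul_apply, Perm.mul_apply, h.1, Fin.revPerm_apply, Fin.revPerm_apply, Fin.val_rev,
      Fin.val_rev]
    have hi := i.2
    have hj := j.2
    omega
  · rw [Perm.mul_apply, h.2, Fin.revPerm_apply, Fin.val_rev]
    have hi := i.2
    rw [or_comm]
    refine or_congr (and_congr ?_ Iff.rfl) (and_congr ?_ Iff.rfl) <;> omega

theorem path_aux {C : Str W (Fin m)} {f f' : Perm (Fin m)} {u v u' v' : W}
    (h : IsPath C f u v) (h' : IsPath C f' u' v') (hm : 0 < m)
    (h0 : f' ⟨0, hm⟩ = f ⟨0, hm⟩) : f' = f := by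
  have key : ∀ k (hk : k < m), f' ⟨k, hk⟩ = f ⟨k, hk⟩ := by
    intro k
    induction k using Nat.strong_induction_on with
    | _ k ih =>
      intro hk
      match k with
      | 0 => exact h0
      | 1 =>
        have h1 : C.A (f' ⟨0, hm⟩) (f' ⟨1, hk⟩) := (h'.1 _ _).2 (Or.inl rfl)
        obtain ⟨j, hj⟩ := f.surjective (f' ⟨1, hk⟩)
        rw [h0, ← hj, h.1] at h1
        simp only at h1
        rw [← hj]
        congr 1
        apply Fin.ext
        simp only
        omega
      | k + 2 =>
        have h1 : C.A (f' ⟨k + 1, by omega⟩) (f' ⟨k + 2, hk⟩) := (h'.1 _ _).2 (Or.inl rfl)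
        obtain ⟨j, hj⟩ := f.surjective (f' ⟨k + 2, hk⟩)
        rw [ih (k + 1) (by omega) (by omega), ← hj, h.1] at h1
        simp only at h1
        rcases h1 with h1 | h1
        · rw [← hj]
          congr 1
          apply Fin.ext
          simp only
          omega
        · exfalso
          have h2 : j = ⟨k, by omega⟩ := Fin.ext (by simp only; omega)
          rw [h2, ← ih k (by omega) (by omega)] at hj
          have h3 := f'.injective hj
          rw [Fin.ext_iff] at h3
          simp only at h3
          omega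
  ext i
  rw [key i.val i.2]

theorem path_unique {C : Str W (Fin m)} {f f' : Perm (Fin m)} {u v u' v' : W}
    (h : IsPath C f u v) (h' : IsPath C f' u' v') (hm : 1 ≤ m) :
    (f' = f ∧ u' = u ∧ v' = v) ∨ (f' = f * Fin.revPerm ∧ u' = v ∧ v' = u) := by
  rcases hm.eq_or_lt with h1 | h1
  · subst h1
    have hf : f' = f := Subsingleton.elim _ _
    have hf' : f' = f * Fin.revPerm := Subsingleton.elim _ _
    have hv := path_valid h rfl
    have hv' := path_valid h' rfl
    have key : ∀ w, (w = u ∨ w = v) ↔ (w = u' ∨ w = v') := by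
      intro w
      have e1 := h.2 0 w
      have e2 := h'.2 0 w
      rw [hf, e1] at e2
      simpa using e2
    have k1 := (key u').2 (Or.inl rfl)
    have k2 := (key v').2 (Or.inr rfl)
    rcases k1 with rfl | rfl
    · rcases k2 with rfl | rfl
      · exact absurd rfl hv'
      · exact Or.inl ⟨hf, rfl, rfl⟩
    · rcases k2 with rfl | rfl
      · exact Or.inr ⟨hf', rfl, rfl⟩
      · exact absurd rfl hv'
  · -- at least two points
    have huv : ∀ {C : Str W (Fin m)} {f : Perm (Fin m)} {u v u' v' : W}
        (_ : IsPath C f u v) (_ : IsPath C f u' v'), u' = u ∧ v' = v := by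
      intro C f u v u' v' h h'
      constructor
      · have h2 := (h'.2 ⟨0, by omega⟩ u').2 (Or.inl ⟨rfl, rfl⟩)
        rw [h.2] at h2
        simp only at h2
        rcases h2 with h2 | h2
        · exact h2.2
        · omega
      · have h2 := (h'.2 ⟨m - 1, by omega⟩ v').2 (Or.inr ⟨by simp only; omega, rfl⟩)
        rw [h.2] at h2
        simp only at h2
        rcases h2 with h2 | h2
        · omega
        · exact h2.2
    obtain ⟨i, hi⟩ := f.surjective (f' ⟨0, by omega⟩)
    have h2 := (h'.2 ⟨0, by omega⟩ u').2 (Or.inl ⟨rfl, rfl⟩)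
    rw [← hi, h.2] at h2
    rcases h2 with h2 | h2
    · left
      have hi0 : i = ⟨0, by omega⟩ := Fin.ext h2.1
      rw [hi0] at hi
      have hf := path_aux h h' (by omega) hi.symm
      subst hf
      exact ⟨rfl, huv h h'⟩
    · right
      have hi0 : (Fin.revPerm (⟨0, by omega⟩ : Fin m)) = i := by
        apply Fin.ext
        rw [Fin.revPerm_apply, Fin.val_rev]
        simp only
        omega
      rw [← hi0, ← Perm.mul_apply] at hi
      have hf := path_aux (path_rev h) h' (by omega) hi.symm
      subst hf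
      exact ⟨rfl, huv (path_rev h) h'⟩

theorem triple_ne {f : Perm (Fin m)} {u v : W} (hm : 1 ≤ m) (hv : m = 1 → u ≠ v) :
    (f, u, v) ≠ (f * Fin.revPerm, v, u) := by
  intro h
  simp only [Prod.mk.injEq] at h
  rcases hm.eq_or_lt with h1 | h1
  · exact hv h1.symm h.2.1
  · have h2 : (1 : Perm (Fin m)) = Fin.revPerm := by
      have := h.1
      rwa [left_eq_mul, eq_comm] at this
    have h3 := congrArg (fun g : Perm (Fin m) => (g ⟨0, by omega⟩).val) h2
    simp only [Perm.one_apply, Fin.revPerm_apply, Fin.val_rev] at h3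
    omega

theorem card_pairs {U V : Type} [Finite U] [Finite V] (R : U → V → Prop) [Fintype U] :
    Nat.card {p : U × V // R p.1 p.2} = ∑ a : U, Nat.card {b // R a b} := by
  rw [Nat.card_congr (Equiv.subtypeProdEquivSigmaSubtype R), Nat.card_sigma]

theorem path_e [Finite W] {C : Str W (Fin m)} {f : Perm (Fin m)} {u v : W} (hm : 1 ≤ m)
    (h : IsPath C f u v) : C.e = m + 1 := by
  classical
  cases nonempty_fintype W
  have h1 : ∑ a : Fin m, (Nat.card {b // C.A a b} + Nat.card {w // C.T a w}) = 2 * m := by
    rw [Finset.sum_congr rfl fun a _ => C.deg a]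
    simp [mul_comm]
  rw [Finset.sum_add_distrib, ← card_pairs, ← card_pairs] at h1
  have h2 : Nat.card {p : Fin m × W // C.T p.1 p.2} = 2 := by
    rw [Nat.card_eq_fintype_card, Fintype.card_subtype]
    have h3 : (Finset.univ.filter fun p : Fin m × W => C.T p.1 p.2) =
        {(f ⟨0, by omega⟩, u), (f ⟨m - 1, by omega⟩, v)} := by
      ext ⟨a, w⟩
      obtain ⟨i, rfl⟩ := f.surjective a
      simp only [Finset.mem_filter, Finset.mem_univ, true_and, h.2, Finset.mem_insert,
        Prod.mk.injEq, Finset.mem_singleton, f.injective.eq_iff, Fin.ext_iff]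
      refine or_congr Iff.rfl (and_congr ?_ Iff.rfl)
      have := i.2
      omega
    rw [h3, Finset.card_pair]
    intro h4
    simp only [Prod.mk.injEq, f.injective.eq_iff, Fin.ext_iff] at h4
    exact path_valid h (by omega) h4.2
  rw [Str.e, h2]
  omega

theorem fx_iff {C : Str W (Fin m)} {f : Perm (Fin m)} {u v : W} (hm : 1 ≤ m)
    (h : IsPath C f u v) (τ : Perm W) (ρ : Perm (Fin m)) :
    C.Fx τ ρ ↔ (ρ = 1 ∧ τ u = u ∧ τ v = v) ∨
      (ρ = f * Fin.revPerm * f⁻¹ ∧ τ u = v ∧ τ v = u) := by
  constructor
  · intro hF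
    have h1 : IsPath C (ρ * f) (τ u) (τ v) := by
      refine ⟨fun i j => ?_, fun i w => ?_⟩
      · rw [Perm.mul_apply, Perm.mul_apply, hF.1, h.1]
      · obtain ⟨w', rfl⟩ := τ.surjective w
        rw [Perm.mul_apply, hF.2, h.2, τ.injective.eq_iff, τ.injective.eq_iff]
    rcases path_unique h h1 hm with ⟨a, b, c⟩ | ⟨a, b, c⟩
    · left
      refine ⟨?_, b, c⟩
      rwa [mul_eq_right] at a
    · right
      refine ⟨?_, b, c⟩
      rw [← a, mul_assoc, mul_inv_cancel, mul_one]
  · rintro (⟨rfl, hu, hv⟩ | ⟨rfl, hu, hv⟩)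
    · refine ⟨fun a b => Iff.rfl, fun a w => ?_⟩
      obtain ⟨i, rfl⟩ := f.surjective a
      rw [Perm.one_apply, h.2, h.2]
      have e1 : τ w = u ↔ w = u := by
        conv_lhs => rw [← hu]
        exact τ.injective.eq_iff
      have e2 : τ w = v ↔ w = v := by
        conv_lhs => rw [← hv]
        exact τ.injective.eq_iff
      rw [e1, e2]
    · have h' := path_rev h
      refine ⟨fun a b => ?_, fun a w => ?_⟩
      · obtain ⟨i, rfl⟩ := f.surjective a
        obtain ⟨j, rfl⟩ := f.surjective b
        have e : ∀ i, (f * Fin.revPerm * f⁻¹ : Perm (Fin m)) (f i) =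
            (f * Fin.revPerm : Perm (Fin m)) i := fun i => by simp
        rw [e, e, h'.1, h.1]
      · obtain ⟨i, rfl⟩ := f.surjective a
        have e : ∀ i, (f * Fin.revPerm * f⁻¹ : Perm (Fin m)) (f i) =
            (f * Fin.revPerm : Perm (Fin m)) i := fun i => by simp
        rw [e, h'.2, h.2]
        have e1 : τ w = u ↔ w = v := by
          conv_lhs => rw [← hv]
          exact τ.injective.eq_iff
        have e2 : τ w = v ↔ w = u := by
          conv_lhs => rw [← hu]
          exact τ.injective.eq_iff
        rw [e1, e2]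

end

open Classical in
theorem path_sum {F : Type} [Field F] [CharZero F] (W : Type) [Fintype W] (τ : Perm W) (x : F)
    (m : ℕ) (hm : 1 ≤ m) :
    (∑ ρ : Perm (Fin m), ∑ C : Str W (Fin m),
      if (∃ f u v, IsPath C f u v) ∧ C.Fx τ ρ then ((Perm.sign ρ : ℤ) : F) * x ^ C.e else 0) =
    (m.factorial : F) / 2 * x ^ (m + 1) *
      ((Nat.card {p : W × W // τ p.1 = p.1 ∧ τ p.2 = p.2 ∧ (m = 1 → p.1 ≠ p.2)} : F) +
        (-1) ^ (m / 2) *
        (Nat.card {p : W × W // τ p.1 = p.2 ∧ τ p.2 = p.1 ∧ (m = 1 → p.1 ≠ p.2)} : F)) := by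
  set d : Perm (Fin m) → Str W (Fin m) → Perm (Fin m) × W × W → F := fun ρ C t =>
    if IsPath C t.1 t.2.1 t.2.2 then
      (if C.Fx τ ρ then ((Perm.sign ρ : ℤ) : F) * x ^ (m + 1) else 0) else 0 with hd
  have claim1 : ∀ (ρ : Perm (Fin m)) (C : Str W (Fin m)),
      (if (∃ f u v, IsPath C f u v) ∧ C.Fx τ ρ then ((Perm.sign ρ : ℤ) : F) * x ^ C.e else 0) =
        (∑ t, d ρ C t) / 2 := by
    intro ρ C
    by_cases hp : ∃ f u v, IsPath C f u v
    · obtain ⟨f, u, v, h⟩ := hp
      have hfil : (Finset.univ.filter fun t : Perm (Fin m) × W × W =>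
          IsPath C t.1 t.2.1 t.2.2) = {(f, u, v), (f * Fin.revPerm, v, u)} := by
        ext ⟨f', u', v'⟩
        simp only [Finset.mem_filter, Finset.mem_univ, true_and, Finset.mem_insert,
          Finset.mem_singleton, Prod.mk.injEq]
        constructor
        · intro h'
          exact path_unique h h' hm
        · rintro (⟨rfl, rfl, rfl⟩ | ⟨rfl, rfl, rfl⟩)
          · exact h
          · exact path_rev h
      rw [hd]
      simp only
      rw [← Finset.sum_filter, hfil, Finset.sum_pair (triple_ne hm (path_valid h)), path_e hm h]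
      have hex : ∃ f u v, IsPath C f u v := ⟨f, u, v, h⟩
      simp only [hex, true_and]
      ring
    · rw [if_neg fun h => hp h.1]
      have : ∀ t : Perm (Fin m) × W × W, d ρ C t = 0 := by
        intro t
        rw [hd]
        simp only
        rw [if_neg]
        intro h
        exact hp ⟨_, _, _, h⟩
      simp [this]
  simp only [claim1]
  have claim3 : ∀ t : Perm (Fin m) × W × W, ∑ ρ : Perm (Fin m), ∑ C : Str W (Fin m), d ρ C t =
      x ^ (m + 1) *
        ((if τ t.2.1 = t.2.1 ∧ τ t.2.2 = t.2.2 ∧ (m = 1 → t.2.1 ≠ t.2.2) then 1 else 0) +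
        (-1) ^ (m / 2) *
        (if τ t.2.1 = t.2.2 ∧ τ t.2.2 = t.2.1 ∧ (m = 1 → t.2.1 ≠ t.2.2) then 1 else 0)) := by
    rintro ⟨f, u, v⟩
    simp only
    by_cases hv : m = 1 → u ≠ v
    · have h0 := isPath_mkP f u v hv
      have h1 : ∀ ρ : Perm (Fin m), ∑ C : Str W (Fin m), d ρ C (f, u, v) =
          (if ρ = 1 then (if τ u = u ∧ τ v = v then x ^ (m + 1) else 0) else 0) +
          (if ρ = f * Fin.revPerm * f⁻¹ then
            (if τ u = v ∧ τ v = u then (-1) ^ (m / 2) * x ^ (m + 1) else 0) else 0) := by
        intro ρ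
        rw [Finset.sum_eq_single (mkP f u v hv)]
        · rw [hd]
          simp only
          rw [if_pos h0]
          have hfx := fx_iff hm h0 τ ρ
          by_cases c1 : ρ = 1 ∧ τ u = u ∧ τ v = v
          · rw [if_pos (hfx.2 (Or.inl c1)), if_pos c1.1, if_pos c1.2]
            have c2 : ¬ (ρ = f * Fin.revPerm * f⁻¹ ∧ τ u = v ∧ τ v = u) := by
              rintro ⟨a, b, c⟩
              have huv : u = v := c1.2.1.symm.trans b
              rcases hm.eq_or_lt with hm1 | hm1
              · exact hv hm1.symm huv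
              · rw [c1.1] at a
                have h3 := congrArg (fun g : Perm (Fin m) => (f⁻¹ * g * f) ⟨0, by omega⟩) a
                simp only [mul_one, inv_mul_cancel, Perm.one_apply] at h3
                have h4 : (f⁻¹ * (f * Fin.revPerm * f⁻¹) * f : Perm (Fin m)) = Fin.revPerm := by
                  group
                rw [h4, Fin.revPerm_apply] at h3
                have h5 := congrArg Fin.val h3
                rw [Fin.val_rev] at h5
                simp only at h5
                omega
            have e2 : (if ρ = f * Fin.revPerm * f⁻¹ then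
              (if τ u = v ∧ τ v = u then (-1) ^ (m / 2) * x ^ (m + 1) else 0) else 0) = (0 : F) := by
              split_ifs with a b
              · exact absurd ⟨a, b⟩ c2
              · rfl
              · rfl
            rw [e2, c1.1]
            simp
          · have e1 : (if ρ = 1 then (if τ u = u ∧ τ v = v then x ^ (m + 1) else 0) else 0) =
                (0 : F) := by
              split_ifs with a b
              · exact absurd ⟨a, b⟩ c1
              · rfl
              · rfl
            rw [e1, zero_add]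
            by_cases c2 : ρ = f * Fin.revPerm * f⁻¹ ∧ τ u = v ∧ τ v = u
            · rw [if_pos (hfx.2 (Or.inr c2)), if_pos c2.1, if_pos c2.2, c2.1]
              have hs : Perm.sign (f * Fin.revPerm * f⁻¹) = (-1) ^ (m / 2) := by
                rw [map_mul, map_mul, sign_rev, Perm.sign_inv, mul_right_comm]
                rcases Int.units_eq_one_or (Perm.sign f) with h | h <;> simp [h]
              rw [hs]
              push_cast
              ring
            · rw [if_neg (fun h => (hfx.1 h).elim c1 c2)]
              split_ifs with a b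
              · exact absurd ⟨a, b⟩ c2
              · rfl
              · rfl
        · intro C _ hC
          rw [hd]
          simp only
          rw [if_neg]
          intro h
          exact hC (path_det h h0)
        · intro h
          exact absurd (Finset.mem_univ _) h
      simp only [h1]
      rw [Finset.sum_add_distrib, Finset.sum_ite_eq' , Finset.sum_ite_eq']
      simp only [Finset.mem_univ, if_true]
      have e1 : (τ u = u ∧ τ v = v ∧ (m = 1 → u ≠ v)) ↔ (τ u = u ∧ τ v = v) := by tauto
      have e2 : (τ u = v ∧ τ v = u ∧ (m = 1 → u ≠ v)) ↔ (τ u = v ∧ τ v = u) := by tauto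
      simp only [e1, e2]
      split_ifs <;> ring
    · have h1 : ∀ (ρ : Perm (Fin m)) (C : Str W (Fin m)), d ρ C (f, u, v) = 0 := by
        intro ρ C
        rw [hd]
        simp only
        rw [if_neg]
        intro h
        exact hv (path_valid h)
      simp only [h1, Finset.sum_const_zero]
      rw [if_neg (fun h => hv h.2.2), if_neg (fun h => hv h.2.2)]
      ring
  have claim4 : ∑ ρ : Perm (Fin m), ∑ C : Str W (Fin m), (∑ t, d ρ C t) / 2 =
      (∑ t, ∑ ρ : Perm (Fin m), ∑ C : Str W (Fin m), d ρ C t) / 2 := by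
    simp only [← Finset.sum_div]
    congr 1
    rw [Finset.sum_comm' (s := Finset.univ) (t := fun _ => Finset.univ)
      (t' := Finset.univ) (s' := fun _ => Finset.univ) (by simp)]
    calc ∑ C : Str W (Fin m), ∑ ρ : Perm (Fin m), ∑ t, d ρ C t
        = ∑ C : Str W (Fin m), ∑ t, ∑ ρ : Perm (Fin m), d ρ C t :=
          Finset.sum_congr rfl fun C _ => Finset.sum_comm
      _ = ∑ t, ∑ C : Str W (Fin m), ∑ ρ : Perm (Fin m), d ρ C t := Finset.sum_comm
      _ = ∑ t, ∑ ρ : Perm (Fin m), ∑ C : Str W (Fin m), d ρ C t :=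
          Finset.sum_congr rfl fun t _ => Finset.sum_comm
  rw [claim4]
  have hc : ∀ P : W × W → Prop, (Nat.card {p : W × W // P p} : F) = ∑ p, if P p then 1 else 0 := by
    intro P
    rw [Nat.card_eq_fintype_card, Fintype.card_subtype, Finset.card_filter]
    push_cast
    rfl
  obtain ⟨kk, hkk⟩ : ∃ kk : W × W → F, kk = fun p => x ^ (m + 1) *
        ((if τ p.1 = p.1 ∧ τ p.2 = p.2 ∧ (m = 1 → p.1 ≠ p.2) then 1 else 0) +
        (-1) ^ (m / 2) *
        (if τ p.1 = p.2 ∧ τ p.2 = p.1 ∧ (m = 1 → p.1 ≠ p.2) then 1 else 0)) := ⟨_, rfl⟩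
  have claim5 : ∀ t : Perm (Fin m) × W × W, ∑ ρ : Perm (Fin m), ∑ C : Str W (Fin m), d ρ C t =
      kk t.2 := by
    intro t
    rw [claim3, hkk]
  simp only [claim5]
  rw [Fintype.sum_prod_type]
  simp only
  rw [Finset.sum_const, Finset.card_univ, Fintype.card_perm,
    Fintype.card_fin, nsmul_eq_mul, hkk, ← Finset.mul_sum, Finset.sum_add_distrib,
    ← Finset.mul_sum, hc, hc]
  ring_nf

end Pool.Agent.TH830.J375
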