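import Pool.Agent.TH378.CW.Base
set_option autoImplicit false

namespace Pool.Agent.TH830.J1049

open MeasureTheory Metric Pool.Agent.TH378.CW
open scoped Real RealInnerProductSpace

theorem mem_sub {K : Set H} (hK : Wid K) (q : H) (hq : q ∈ K) (u : H) (hu : u ∈ Nc K q)
    (hu1 : ‖u‖ = 1) : q - u ∈ K := by
  obtain ⟨q', hq', hqu⟩ := hK.dia u hu1
  have h1 := hK.diam q hq _ hqu
  have h2 : ‖(q - q') + u‖ ^ 2 ≤ 1 := by
    have h3 : (q - q') + u = q - (q' - u) := by abel
    rw [h3]
    have := norm_nonneg (q - (q' - u))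
    nlinarith
  rw [norm_add_sq_real, hu1] at h2
  have h4 : ⟪u, q' - q⟫ ≤ 0 := hu q' hq'
  have h5 : ⟪q - q', u⟫ = - ⟪u, q' - q⟫ := by
    rw [← inner_neg_right, neg_sub, real_inner_comm]
  rw [h5] at h2
  have h6 : ‖q - q'‖ = 0 := by
    have := norm_nonneg (q - q')
    nlinarith
  rw [norm_eq_zero, sub_eq_zero] at h6
  rw [h6]
  exact hqu

theorem cone60_Nc {K : Set H} (hK : Wid K) (q : H) (hq : q ∈ K) : Cone60 (Nc K q) := by
  refine ⟨?_, ?_, ?_, ?_⟩
  · have : Nc K q = ⋂ x ∈ K, {u : H | ⟪u, x - q⟫ ≤ 0} := by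
      ext u
      simp [Nc]
    rw [this]
    refine isClosed_biInter fun x _ => isClosed_le ?_ continuous_const
    exact continuous_id.inner continuous_const
  · intro u hu v hv a b ha hb _ x hx
    rw [inner_add_left, real_inner_smul_left, real_inner_smul_left]
    have h1 := hu x hx
    have h2 := hv x hx
    nlinarith [mul_nonneg ha (neg_nonneg.mpr h1), mul_nonneg hb (neg_nonneg.mpr h2)]
  · intro u hu t ht x hx
    rw [real_inner_smul_left]
    have h1 := hu x hx
    nlinarith [mul_nonneg ht (neg_nonneg.mpr h1)]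
  · intro u hu v hv hu1 hv1
    have h1 := hK.diam _ (mem_sub hK q hq u hu hu1) _ (mem_sub hK q hq v hv hv1)
    have h2 : (q - u) - (q - v) = v - u := by abel
    rw [h2] at h1
    have h3 : ‖v - u‖ ^ 2 ≤ 1 := by
      have := norm_nonneg (v - u)
      nlinarith
    rw [norm_sub_sq_real, hu1, hv1, real_inner_comm] at h3
    linarith

/-- a unit normal at `q` making a nonobtuse angle with a direction that does not illuminate `q` -/
theorem exists_normal {K : Set H} (hK : Wid K) (hi : (interior K).Nonempty) (e : H) (q : H)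
    (hq : q ∈ K) (h : ∀ t : ℝ, 0 < t → q + t • e ∉ interior K) :
    ∃ u ∈ Nc K q, ‖u‖ = 1 ∧ 0 ≤ ⟪u, e⟫ := by
  let R : Set H := (fun t : ℝ => q + t • e) '' Set.Ioi 0
  have hR : Convex ℝ R := by
    rintro _ ⟨t, ht, rfl⟩ _ ⟨t', ht', rfl⟩ a b ha hb hab
    refine ⟨a * t + b * t', ?_, ?_⟩
    · have h1 : (0 : ℝ) < t := ht
      have h2 : (0 : ℝ) < t' := ht'
      change 0 < a * t + b * t'
      rcases ha.eq_or_lt with h3 | h3
      · have : b = 1 := by linarith
        rw [← h3, this]
        linarith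
      · have := mul_pos h3 h1
        have := mul_nonneg hb h2.le
        linarith
    · have h3 : q = a • q + b • q := by rw [← add_smul, hab, one_smul]
      change q + (a * t + b * t') • e = a • (q + t • e) + b • (q + t' • e)
      conv_lhs => rw [h3]
      module
  have hdisj : Disjoint (interior K) R := by
    rw [Set.disjoint_left]
    rintro x hx ⟨t, ht, rfl⟩
    exact h t ht hx
  obtain ⟨f, s, hf1, hf2⟩ := geometric_hahn_banach_open hK.cvx.interior isOpen_interior hR hdisj
  let v : H := (InnerProductSpace.toDual ℝ H).symm f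
  have hv : ∀ x, ⟪v, x⟫ = f x := fun x => InnerProductSpace.toDual_symm_apply
  have hK1 : ∀ x ∈ K, f x ≤ s := by
    intro x hx
    have h1 : x ∈ closure (interior K) := by
      rw [hK.cvx.closure_interior_eq_closure_of_nonempty_interior hi]
      exact subset_closure hx
    have h2 : closure (interior K) ⊆ {x | f x ≤ s} := by
      apply closure_minimal
      · intro y hy
        exact (hf1 y hy).le
      · exact isClosed_le f.continuous continuous_const
    exact h2 h1
  have hR1 : ∀ t : ℝ, 0 < t → s ≤ f q + t * f e := by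
    intro t ht
    have := hf2 _ ⟨t, ht, rfl⟩
    rw [map_add, map_smul, smul_eq_mul] at this
    exact this
  have hq1 : s ≤ f q := by
    have h1 : Filter.Tendsto (fun t : ℝ => f q + t * f e) (nhdsWithin 0 (Set.Ioi 0))
        (nhds (f q + 0 * f e)) := by
      apply Filter.Tendsto.mono_left _ nhdsWithin_le_nhds
      exact (continuous_const.add (continuous_id.mul continuous_const)).tendsto 0
    rw [zero_mul, add_zero] at h1
    refine ge_of_tendsto h1 ?_
    filter_upwards [self_mem_nhdsWithin] with t ht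
    exact hR1 t ht
  have hfe : 0 ≤ f e := by
    have h1 := hR1 1 one_pos
    have h2 := hK1 q hq
    linarith
  have hvN : v ∈ Nc K q := by
    intro x hx
    rw [hv, map_sub]
    have := hK1 x hx
    linarith
  have hv0 : v ≠ 0 := by
    intro h0
    obtain ⟨x, hx⟩ := hi
    have h1 := hf1 x hx
    rw [← hv, h0, inner_zero_left] at h1
    have h2 := hK1 q hq
    rw [← hv, h0, inner_zero_left] at h2
    have h3 := hq1
    rw [← hv, h0, inner_zero_left] at h3
    linarith
  have hn : 0 < ‖v‖ := norm_pos_iff.mpr hv0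
  refine ⟨‖v‖⁻¹ • v, (cone60_Nc hK q hq).smul v hvN _ (inv_nonneg.mpr hn.le), ?_, ?_⟩
  · rw [norm_smul, norm_inv, norm_norm, inv_mul_cancel₀ hn.ne']
  · rw [real_inner_smul_left, hv]
    exact mul_nonneg (inv_nonneg.mpr hn.le) hfe

/-- bad boundary points are the only non-illuminated ones -/
theorem illum {K : Set H} (hK : Wid K) (hi : (interior K).Nonempty) (e : H) (q : H)
    (hq : q ∈ frontier K) (h : ∀ u ∈ Nc K q, ‖u‖ = 1 → ⟪u, e⟫ ≠ 0) :
    (∃ t : ℝ, 0 < t ∧ q + t • e ∈ interior K) ∨ (∃ t : ℝ, 0 < t ∧ q + t • (-e) ∈ interior K) := by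
  by_contra hcon
  rw [not_or] at hcon
  obtain ⟨h1, h2⟩ := hcon
  push Not at h1 h2
  have hqK : q ∈ K := hK.cpt.isClosed.frontier_subset hq
  have hC := cone60_Nc hK q hqK
  obtain ⟨u, hu, hu1, hue⟩ := exists_normal hK hi e q hqK h1
  obtain ⟨v, hv, hv1, hve⟩ := exists_normal hK hi (-e) q hqK h2
  rw [inner_neg_right] at hve
  have hue' : 0 < ⟪u, e⟫ := lt_of_le_of_ne hue (h u hu hu1).symm
  have hve' : 0 < - ⟪v, e⟫ := lt_of_le_of_ne hve (by
    intro h3
    exact h v hv hv1 (by linarith))
  have huv := hC.ang u hu v hv hu1 hv1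
  let w : H := (- ⟪v, e⟫) • u + ⟪u, e⟫ • v
  have hwN : w ∈ Nc K q := by
    intro x hx
    rw [inner_add_left, real_inner_smul_left, real_inner_smul_left]
    have h3 := hu x hx
    have h4 := hv x hx
    nlinarith [mul_nonneg hve'.le (neg_nonneg.mpr h3), mul_nonneg hue'.le (neg_nonneg.mpr h4)]
  have hwe : ⟪w, e⟫ = 0 := by
    rw [inner_add_left, real_inner_smul_left, real_inner_smul_left]
    ring
  have hw0 : w ≠ 0 := by
    intro h0
    have h3 : ⟪w, u⟫ = 0 := by rw [h0, inner_zero_left]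
    rw [inner_add_left, real_inner_smul_left, real_inner_smul_left, real_inner_self_eq_norm_sq,
      hu1, real_inner_comm u v] at h3
    nlinarith [mul_pos hue' (by linarith : (0 : ℝ) < ⟪u, v⟫)]
  have hn : 0 < ‖w‖ := norm_pos_iff.mpr hw0
  refine h (‖w‖⁻¹ • w) (hC.smul w hwN _ (inv_nonneg.mpr hn.le)) ?_ ?_
  · rw [norm_smul, norm_inv, norm_norm, inv_mul_cancel₀ hn.ne']
  · rw [real_inner_smul_left, hwe, mul_zero]

end Pool.Agent.TH830.J1049
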