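import Pool.Agent.TH830.J644
set_option autoImplicit false
open Finset Pool.Agent.TH477.PA Pool.Agent.TH830.J644

namespace Pool.Agent.TH830.J643

section general

variable {V V' : Type} {r k s : ℕ}

theorem good_congr {G : SimpleGraph V} {U : Set V} {ψ φ : Sym2 V → Fin r}
    (h : ∀ a b, a ≠ b → ψ s(a, b) = φ s(a, b)) (H : Good k s G U ψ) : Good k s G U φ := by
  intro S hS hU
  rw [← cols_congr (fun a _ b _ hab => h a b hab)]
  exact H S hS hU

/-- the second copy of `V` in the clone graph -/
noncomputable def clEmb (x : V) (f : V ↪ V') (z : V') (hf : Set.range f = {z}ᶜ) : V ↪ V' where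
  toFun := by
    classical
    exact fun v => if v = x then z else f v
  inj' := by
    classical
    have hz : ∀ v, f v ≠ z := by
      intro v
      have : f v ∈ Set.range f := ⟨v, rfl⟩
      rw [hf] at this
      exact this
    intro a b h
    simp only at h
    by_cases ha : a = x
    · by_cases hb : b = x
      · rw [ha, hb]
      · rw [if_pos ha, if_neg hb] at h
        exact absurd h.symm (hz b)
    · by_cases hb : b = x
      · rw [if_neg ha, if_pos hb] at h
        exact absurd h (hz a)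
      · rw [if_neg ha, if_neg hb] at h
        exact f.injective h

theorem clEmb_self (x : V) (f : V ↪ V') (z : V') (hf : Set.range f = {z}ᶜ) :
    clEmb x f z hf x = z := by
  classical
  exact if_pos rfl

theorem clEmb_ne (x : V) (f : V ↪ V') (z : V') (hf : Set.range f = {z}ᶜ) {v : V} (hv : v ≠ x) :
    clEmb x f z hf v = f v := by
  classical
  exact if_neg hv

theorem clone_good [Fintype V] (G : SimpleGraph V) (x : V) (f : V ↪ V') (z : V')
    (hf : Set.range f = {z}ᶜ) (p : V' → V) (hp : ∀ v, p (f v) = v) (hpz : p z = x)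
    (Ψ : Sym2 V' → Fin r) :
    Good k s (G.comap p) Set.univ Ψ ↔ Good k s G Set.univ (Ψ ∘ Sym2.map f) ∧
      Good k s G Set.univ (upd x (Ψ ∘ Sym2.map f) (fun v => Ψ s(z, f v))) := by
  classical
  set g := clEmb x f z hf with hg
  have hpg : ∀ v, p (g v) = v := by
    intro v
    by_cases hv : v = x
    · rw [hv, hg, clEmb_self, hpz]
    · rw [hg, clEmb_ne x f z hf hv, hp]
  have ef : (G.comap p).comap f = G := by
    ext a b
    simp only [SimpleGraph.comap_adj]
    rw [hp, hp]
  have eg : (G.comap p).comap g = G := by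
    ext a b
    simp only [SimpleGraph.comap_adj]
    rw [hpg, hpg]
  have hcol : ∀ a b, a ≠ b → (Ψ ∘ Sym2.map g) s(a, b) =
      (upd x (Ψ ∘ Sym2.map f) (fun v => Ψ s(z, f v))) s(a, b) := by
    intro a b hab
    simp only [Function.comp_apply, Sym2.map_mk]
    by_cases ha : a = x
    · have hb : b ≠ x := fun h => hab (by rw [ha, h])
      rw [ha, upd_star, hg, clEmb_self, clEmb_ne x f z hf hb]
    · by_cases hb : b = x
      · rw [Sym2.eq_swap (a := a) (b := b), hb, upd_star, hg, clEmb_self, clEmb_ne x f z hf ha,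
          Sym2.eq_swap]
      · rw [upd_of_notMem, hg, clEmb_ne x f z hf ha, clEmb_ne x f z hf hb]
        · rfl
        · rw [Sym2.mem_iff]
          rintro (h | h)
          · exact ha h.symm
          · exact hb h.symm
  constructor
  · intro h
    constructor
    · have h1 := Good.mono (Set.subset_univ (Set.range f)) h
      rw [good_emb, ef] at h1
      exact h1
    · have h1 := Good.mono (Set.subset_univ (Set.range g)) h
      rw [good_emb, eg] at h1
      exact good_congr hcol h1
  · rintro ⟨h1, h2⟩ S hS _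
    have h2' := good_congr (fun a b hab => (hcol a b hab).symm) h2
    by_cases hz : z ∈ S
    · have h3 : Good k s (G.comap p) (Set.range g) Ψ := by
        rw [good_emb, eg]
        exact h2'
      apply h3 S hS
      intro v hv
      by_cases hvz : v = z
      · exact ⟨x, by rw [hvz, hg, clEmb_self]⟩
      · have hvr : v ∈ Set.range f := by
          rw [hf]
          exact hvz
        obtain ⟨u, rfl⟩ := hvr
        refine ⟨u, ?_⟩
        apply clEmb_ne
        rintro rfl
        have := hS.isClique hv hz hvz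
        rw [SimpleGraph.comap_adj, hp, hpz] at this
        exact G.irrefl this
    · have h3 : Good k s (G.comap p) (Set.range f) Ψ := by
        rw [good_emb, ef]
        exact h1
      apply h3 S hS
      intro v hv
      rw [hf]
      intro h
      rw [Set.mem_singleton_iff] at h
      exact hz (h ▸ hv)

theorem clone_count [Fintype V] [DecidableEq V] [Fintype V'] [DecidableEq V']
    (G : SimpleGraph V) (x : V) (f : V ↪ V') (z : V')
    (hf : Set.range f = {z}ᶜ) (p : V' → V) (hp : ∀ v, p (f v) = v) (hpz : p z = x) :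
    ∑ Ψ : Sym2 V' → Fin r, ind (Good k s (G.comap p) Set.univ Ψ) =
      (∑ φ : Sym2 V → Fin r, ind (Good k s G Set.univ φ) *
        ∑ b : V → Fin r, ind (Good k s G Set.univ (upd x φ b))) *
        (r : ℝ) ^ (Fintype.card (Sym2 V') - (Fintype.card (Sym2 V) + Fintype.card V)) := by
  let g : Sym2 V ⊕ V → Sym2 V' := Sum.elim (Sym2.map f) (fun v => s(z, f v))
  have hz : ∀ v, f v ≠ z := by
    intro v
    have : f v ∈ Set.range f := ⟨v, rfl⟩
    rw [hf] at this
    exact this
  have hnz : ∀ e : Sym2 V, z ∉ Sym2.map f e := by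
    intro e h
    rw [Sym2.mem_map] at h
    obtain ⟨a, _, ha⟩ := h
    exact hz a ha
  have hg : Function.Injective g := by
    rintro (a | a) (b | b) h
    · exact congrArg Sum.inl (Sym2.map.injective f.injective h)
    · exfalso
      have h' : Sym2.map f a = s(z, f b) := h
      exact hnz a (h' ▸ Sym2.mem_mk_left z (f b))
    · exfalso
      have h' : s(z, f a) = Sym2.map f b := h
      exact hnz b (h' ▸ Sym2.mem_mk_left z (f a))
    · have h' : s(z, f a) = s(z, f b) := h
      exact congrArg Sum.inr (f.injective (Sym2.congr_right.mp h'))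
  have h1 := card_comp_inj r g hg (fun ρ => Good k s G Set.univ (ρ ∘ Sum.inl) ∧
      Good k s G Set.univ (upd x (ρ ∘ Sum.inl) (ρ ∘ Sum.inr)))
  have h2 : Nat.card {Ψ : Sym2 V' → Fin r // Good k s (G.comap p) Set.univ Ψ} =
      Nat.card {φ : Sym2 V ⊕ V → Fin r // Good k s G Set.univ (φ ∘ Sum.inl) ∧
      Good k s G Set.univ (upd x (φ ∘ Sum.inl) (φ ∘ Sum.inr))} *
        r ^ (Fintype.card (Sym2 V') - Fintype.card (Sym2 V ⊕ V)) := by
    rw [← h1]
    exact Nat.card_congr (Equiv.subtypeEquivRight (fun Ψ => clone_good G x f z hf p hp hpz Ψ))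
  rw [← natCard_ind, h2, Fintype.card_sum]
  push_cast
  congr 1
  rw [natCard_ind]
  have h3 := Equiv.sum_comp (Equiv.sumArrowEquivProdArrow (Sym2 V) V (Fin r))
    (fun q => ind (Good k s G Set.univ q.1 ∧ Good k s G Set.univ (upd x q.1 q.2)))
  have h4 : ∑ x_1 : Sym2 V ⊕ V → Fin r, ind (Good k s G Set.univ (x_1 ∘ Sum.inl) ∧
      Good k s G Set.univ (upd x (x_1 ∘ Sum.inl) (x_1 ∘ Sum.inr))) =
      ∑ i, (fun q : (Sym2 V → Fin r) × (V → Fin r) => ind (Good k s G Set.univ q.1 ∧
        Good k s G Set.univ (upd x q.1 q.2))) (Equiv.sumArrowEquivProdArrow (Sym2 V) V (Fin r) i) :=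
    rfl
  rw [h4, h3, Fintype.sum_prod_type]
  refine sum_congr rfl fun φ _ => ?_
  rw [mul_sum]
  refine sum_congr rfl fun b _ => ?_
  exact ind_and _ _

/-- log-convexity with a fixed graph -/
theorem convex_graph [Fintype V] [DecidableEq V] [Fintype V'] [DecidableEq V']
    {W : Type} [Fintype W] (hr : 1 ≤ r)
    (G : SimpleGraph V) (x : V) (f : V ↪ V') (z : V')
    (hf : Set.range f = {z}ᶜ) (p : V' → V) (hp : ∀ v, p (f v) = v) (hpz : p z = x)
    (h : W ↪ V) (hh : Set.range h = {x}ᶜ) (hcard : Fintype.card V' = Fintype.card V + 1) :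
    F r k s G ^ 2 ≤ F r k s (G.comap h) * F r k s (G.comap p) := by
  have hrpos : (0 : ℝ) < r := by exact_mod_cast hr
  have ef : (G.comap p).comap f = G := by
    ext a b
    simp only [SimpleGraph.comap_adj]
    rw [hp, hp]
  have hz : ∀ v, f v ≠ z := by
    intro v
    have : f v ∈ Set.range f := ⟨v, rfl⟩
    rw [hf] at this
    exact this
  -- degrees
  have hdeg : Nat.card {v // (G.comap p).Adj z v} = Nat.card {v // G.Adj x v} := by
    symm
    refine Nat.card_congr (Equiv.ofBijective
      (fun v : {v // G.Adj x v} => (⟨f v.1, by rw [SimpleGraph.comap_adj, hp, hpz]; exact v.2⟩ :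
        {v // (G.comap p).Adj z v})) ⟨?_, ?_⟩)
    · intro a b hab
      have := congrArg Subtype.val hab
      exact Subtype.ext (f.injective this)
    · rintro ⟨v, hv⟩
      have hvz : v ≠ z := hv.ne'
      have hvr : v ∈ Set.range f := by
        rw [hf]
        exact hvz
      obtain ⟨u, rfl⟩ := hvr
      refine ⟨⟨u, ?_⟩, rfl⟩
      rw [SimpleGraph.comap_adj, hp, hpz] at hv
      exact hv
  have he1 := card_edges (G.comap p) f z hf
  rw [ef, hdeg] at he1
  have he2 := card_edges G h x hh
  have hd : Nat.card {v // G.Adj x v} ≤ Fintype.card V := by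
    rw [← Nat.card_eq_fintype_card]
    exact Nat.card_le_card_of_injective _ Subtype.val_injective
  have hle := card_edges_le G
  have hT : Fintype.card (Sym2 V') = Fintype.card (Sym2 V) + Fintype.card V + 1 := by
    rw [Sym2.card, Sym2.card, hcard, Nat.choose_succ_succ (Fintype.card V + 1) 1,
      Nat.choose_one_right]
    ring
  have hcount := clone_count (r := r) (k := k) (s := s) G x f z hf p hp hpz
  have hN' := norm r k s (G.comap p)
  have hN := norm r k s G
  have hH := norm_emb r k s G h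
  rw [hh] at hH
  rw [hN'] at hcount
  have hres := resample (r := r) x (fun φ => ind (Good k s G Set.univ φ))
  have hres2 := resample (r := r) x (fun φ => ind (Good k s G Set.univ φ) *
        ∑ b : V → Fin r, ind (Good k s G Set.univ (upd x φ b)))
  rw [hN] at hres
  -- the number of extensions
  set E : (Sym2 V → Fin r) → ℝ := fun φ => ∑ b : V → Fin r, ind (Good k s G Set.univ (upd x φ b))
    with hE
  have hEupd : ∀ φ (b : V → Fin r), E (upd x φ b) = E φ := by
    intro φ b
    simp only [hE]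
    refine sum_congr rfl fun c _ => ?_
    rw [upd_upd]
  have hsq : ∑ φ : Sym2 V → Fin r, E φ ^ 2 = (r : ℝ) ^ (Fintype.card V) *
      ∑ φ : Sym2 V → Fin r, ind (Good k s G Set.univ φ) * E φ := by
    rw [← hres2]
    refine sum_congr rfl fun φ _ => ?_
    have : ∀ b : V → Fin r, ind (Good k s G Set.univ (upd x φ b)) *
        ∑ b_1 : V → Fin r, ind (Good k s G Set.univ (upd x (upd x φ b) b_1)) =
        ind (Good k s G Set.univ (upd x φ b)) * E φ := by
      intro b
      rw [← hEupd φ b]
    rw [sum_congr rfl (fun b _ => this b), ← sum_mul, sq]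
  have hE0 : ∀ φ, E φ = ind (Good k s G {x}ᶜ φ) * E φ := by
    intro φ
    by_cases hg : Good k s G {x}ᶜ φ
    · rw [ind_pos hg, one_mul]
    · rw [ind_neg hg, zero_mul]
      refine sum_eq_zero fun b _ => ?_
      apply ind_neg
      intro hb
      apply hg
      rw [← good_upd_compl G x φ b]
      exact Good.mono (Set.subset_univ _) hb
  have hCS : (∑ φ : Sym2 V → Fin r, E φ) ^ 2 ≤
      (∑ φ : Sym2 V → Fin r, ind (Good k s G {x}ᶜ φ)) * ∑ φ : Sym2 V → Fin r, E φ ^ 2 := by
    have h1 := sum_mul_sq_le_sq_mul_sq univ (fun φ : Sym2 V → Fin r => ind (Good k s G {x}ᶜ φ)) E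
    have h2 : ∑ φ : Sym2 V → Fin r, ind (Good k s G {x}ᶜ φ) * E φ = ∑ φ : Sym2 V → Fin r, E φ :=
      sum_congr rfl fun φ _ => (hE0 φ).symm
    have h3 : ∑ φ : Sym2 V → Fin r, ind (Good k s G {x}ᶜ φ) ^ 2 =
        ∑ φ : Sym2 V → Fin r, ind (Good k s G {x}ᶜ φ) := by
      refine sum_congr rfl fun φ _ => ?_
      by_cases hg : Good k s G {x}ᶜ φ
      · rw [ind_pos hg, one_pow]
      · rw [ind_neg hg]
        norm_num
    rw [h2, h3] at h1
    exact h1
  have hres' : ∑ φ : Sym2 V → Fin r, E φ = (r : ℝ) ^ Fintype.card V *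
      ((F r k s G : ℝ) * (r : ℝ) ^ (Fintype.card (Sym2 V) - Nat.card G.edgeSet)) := hres
  rw [hres', hH, hsq] at hCS
  have hcount' : (F r k s (G.comap p) : ℝ) *
      (r : ℝ) ^ (Fintype.card (Sym2 V') - Nat.card (G.comap p).edgeSet) =
      (∑ φ : Sym2 V → Fin r, ind (Good k s G Set.univ φ) * E φ) *
        (r : ℝ) ^ (Fintype.card (Sym2 V') - (Fintype.card (Sym2 V) + Fintype.card V)) := hcount
  set A := ∑ φ : Sym2 V → Fin r, ind (Good k s G Set.univ φ) * E φ
  set T := Fintype.card (Sym2 V)
  set e := Nat.card G.edgeSet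
  set eH := Nat.card (G.comap h).edgeSet
  set e' := Nat.card (G.comap p).edgeSet
  set d := Nat.card {v // G.Adj x v}
  set n := Fintype.card V
  obtain ⟨t, ht⟩ := Nat.exists_eq_add_of_le hle
  obtain ⟨q, hq⟩ := Nat.exists_eq_add_of_le hd
  rw [hT, show T + n + 1 - e' = t + q + 1 by omega, show T + n + 1 - (T + n) = 1 by omega,
    pow_one, pow_succ, ← mul_assoc] at hcount'
  have hA : A = (F r k s (G.comap p) : ℝ) * (r : ℝ) ^ (t + q) :=
    (mul_right_cancel₀ hrpos.ne' hcount').symm
  rw [hA, show T - e = t by omega, show T - eH = t + d by omega, hq] at hCS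
  have h5 : ((r : ℝ) ^ (2 * t + 2 * d + 2 * q)) * ((F r k s G : ℝ) ^ 2) ≤
      ((r : ℝ) ^ (2 * t + 2 * d + 2 * q)) *
        ((F r k s (G.comap h) : ℝ) * (F r k s (G.comap p) : ℝ)) := by
    calc ((r : ℝ) ^ (2 * t + 2 * d + 2 * q)) * ((F r k s G : ℝ) ^ 2) =
        ((r : ℝ) ^ (d + q) * ((F r k s G : ℝ) * (r : ℝ) ^ t)) ^ 2 := by ring
      _ ≤ _ := hCS
      _ = _ := by ring
  have h6 := le_of_mul_le_mul_left h5 (by positivity)
  exact_mod_cast h6

end general

theorem exists_Fmax (r k s n : ℕ) : ∃ G : SimpleGraph (Fin n), F r k s G = Fmax r k s n :=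
  exists_eq_ciSup_of_finite (f := fun G : SimpleGraph (Fin n) => F r k s G)

theorem F_bot_pos {V : Type} (r k s : ℕ) (h : 2 ≤ k ∨ 0 < s) :
    1 ≤ F r k s (⊥ : SimpleGraph V) := by
  classical
  have hE : IsEmpty (⊥ : SimpleGraph V).edgeSet := by
    rw [SimpleGraph.edgeSet_bot]
    infer_instance
  have : Fintype (⊥ : SimpleGraph V).edgeSet := Fintype.ofIsEmpty
  unfold F
  rw [Nat.one_le_iff_ne_zero, ← Nat.pos_iff_ne_zero, Nat.card_pos_iff]
  refine ⟨⟨⟨fun e => hE.elim e, ?_⟩⟩, inferInstance⟩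
  intro S hS
  rcases h with h | h
  · exfalso
    have h2 : 1 < S.card := by rw [hS.card_eq]; omega
    rw [one_lt_card] at h2
    obtain ⟨a, ha, b, hb, hab⟩ := h2
    exact hS.isClique ha hb hab
  · have : {i : Fin r | ∃ e : (⊥ : SimpleGraph V).edgeSet, (∀ v ∈ (e : Sym2 V), v ∈ S) ∧
        (fun e => hE.elim e : (⊥ : SimpleGraph V).edgeSet → Fin r) e = i} = ∅ := by
      rw [Set.eq_empty_iff_forall_notMem]
      rintro i ⟨e, _⟩
      exact hE.elim e
    rw [this, Set.ncard_empty]
    exact h

theorem Fmax_pos (r k s n : ℕ) (h : 2 ≤ k ∨ 0 < s) : 1 ≤ Fmax r k s n :=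
  (F_bot_pos r k s h).trans (F_le_Fmax r k s n ⊥)

theorem J4_convex (r k s n : ℕ) (hn : 1 ≤ n) :
    Fmax r k s n ^ 2 ≤ Fmax r k s (n - 1) * Fmax r k s (n + 1) := by
  classical
  obtain ⟨m, rfl⟩ : ∃ m, n = m + 1 := ⟨n - 1, by omega⟩
  obtain ⟨G, hG⟩ := exists_Fmax r k s (m + 1)
  rcases Nat.eq_zero_or_pos r with hr | hr
  · subst hr
    have hle : F 0 k s G ≤ 1 := by
      unfold F
      rw [Nat.card_eq_fintype_card, Fintype.card_le_one_iff_subsingleton]
      refine ⟨fun a b => Subtype.ext (funext fun e => (a.1 e).elim0)⟩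
    rcases Nat.eq_zero_or_pos (F 0 k s G) with h0 | h0
    · rw [← hG, h0]
      exact Nat.zero_le _
    · have h1 : F 0 k s G = 1 := le_antisymm hle h0
      rw [← hG, h1]
      have hks : 2 ≤ k ∨ 0 < s := by
        by_contra hcon
        push Not at hcon
        obtain ⟨hk, hs⟩ := hcon
        unfold F at h0
        rw [gt_iff_lt, Nat.card_pos_iff] at h0
        obtain ⟨⟨⟨c, hc⟩⟩, _⟩ := h0
        have hex : ∃ S : Finset (Fin (m + 1)), G.IsNClique k S := by
          have hk' : k = 0 ∨ k = 1 := by omega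
          rcases hk' with rfl | rfl
          · exact ⟨∅, by simp⟩
          · exact ⟨{0}, by simp⟩
        obtain ⟨S, hS⟩ := hex
        have := hc S hS
        omega
      have h2 := Fmax_pos 0 k s m hks
      have h3 := Fmax_pos 0 k s (m + 1 + 1) hks
      rw [Nat.add_sub_cancel]
      nlinarith
  · have hf : Set.range (Fin.succAboveEmb (Fin.last (m + 1))) =
        ({Fin.last (m + 1)}ᶜ : Set (Fin (m + 2))) := Fin.range_succAbove _
    have hh : Set.range (Fin.succAboveEmb (0 : Fin (m + 1))) =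
        ({0}ᶜ : Set (Fin (m + 1))) := Fin.range_succAbove (0 : Fin (m + 1))
    let f := Fin.succAboveEmb (Fin.last (m + 1))
    let p : Fin (m + 2) → Fin (m + 1) := Function.extend f id (fun _ => 0)
    have hp : ∀ v, p (f v) = v := fun v => f.injective.extend_apply _ _ _
    have hpz : p (Fin.last (m + 1)) = 0 := by
      apply Function.extend_apply'
      rintro ⟨a, ha⟩
      have : f a ∈ Set.range f := ⟨a, rfl⟩
      rw [hf] at this
      exact this ha
    have h1 := convex_graph (r := r) (k := k) (s := s) hr G 0 f (Fin.last (m + 1)) hf p hp hpz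
      (Fin.succAboveEmb (0 : Fin (m + 1))) hh (by simp)
    rw [hG] at h1
    refine h1.trans (Nat.mul_le_mul ?_ ?_)
    · exact F_le_Fmax r k s m _
    · exact F_le_Fmax r k s (m + 1 + 1) _

theorem J4_pos (r k s n : ℕ) (hr : 1 ≤ r) (hs : 2 ≤ s) : 1 ≤ Fmax r k s n :=
  Fmax_pos r k s n (Or.inr (by omega))

end Pool.Agent.TH830.J643
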