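import Pool.Agent.TH830.J644
set_option autoImplicit false
open Finset Pool.Agent.TH477.PA Pool.Agent.TH830.J644

namespace Pool.Agent.TH830.J654

/-- resampling one coordinate -/
theorem resample1 {E : Type} [Fintype E] [DecidableEq E] {r : ℕ} (e : E)
    (g : (E → Fin r) → ℝ) :
    ∑ ψ : E → Fin r, ∑ a : Fin r, g (Function.update ψ e a) = (r : ℝ) * ∑ ψ : E → Fin r, g ψ := by
  let Φ : (E → Fin r) × Fin r → (E → Fin r) × Fin r :=
    fun p => (Function.update p.1 e p.2, p.1 e)
  have hΦ : Function.Involutive Φ := by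
    rintro ⟨ψ, a⟩
    simp [Φ]
  have h1 : ∑ ψ : E → Fin r, ∑ a : Fin r, g (Function.update ψ e a) =
      ∑ p : (E → Fin r) × Fin r, g (Φ p).1 := by
    rw [Fintype.sum_prod_type]
  have h2 : ∑ p : (E → Fin r) × Fin r, g (Φ p).1 =
      ∑ p : (E → Fin r) × Fin r, g p.1 :=
    Equiv.sum_comp (hΦ.toPerm) (fun p => g p.1)
  rw [h1, h2, Fintype.sum_prod_type, mul_sum]
  refine sum_congr rfl fun ψ _ => ?_
  change ∑ _b : Fin r, g ψ = _
  rw [sum_const, card_univ, Fintype.card_fin, nsmul_eq_mul]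

theorem inner_pairs {V : Type} [DecidableEq V] (S : Finset V) (p : ℕ) (κ : V → ℕ)
    (hκ : ∀ x, κ x < p)
    [DecidablePred (fun e : Sym2 V => ∃ a b, e = s(a, b) ∧ κ a = κ b)] :
    S.card ≤ p + ((S.offDiag.image (fun q : _ × _ => s(q.1, q.2))).filter
      (fun e => ∃ a b, e = s(a, b) ∧ κ a = κ b)).card := by
  classical
  -- representatives
  let rep : V → V := fun v => if h : ∃ w ∈ S, κ w = κ v then h.choose else v
  have hrep1 : ∀ v ∈ S, rep v ∈ S ∧ κ (rep v) = κ v := by
    intro v hv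
    have h : ∃ w ∈ S, κ w = κ v := ⟨v, hv, rfl⟩
    have : rep v = h.choose := dif_pos h
    rw [this]
    exact h.choose_spec
  have hrep2 : ∀ v ∈ S, ∀ w ∈ S, κ v = κ w → rep v = rep w := by
    intro v hv w hw h
    simp only [rep]
    have : (fun u => u ∈ S ∧ κ u = κ v) = (fun u => u ∈ S ∧ κ u = κ w) := by
      rw [h]
    simp only [h]
    have h1 : ∃ u ∈ S, κ u = κ w := ⟨w, hw, rfl⟩
    rw [dif_pos h1, dif_pos h1]
  have h1 : (S.filter (fun v => rep v = v)).card ≤ p := by
    have : ((S.filter (fun v => rep v = v)).image κ).card = (S.filter (fun v => rep v = v)).card := by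
      apply card_image_of_injOn
      intro a ha b hb hab
      rw [mem_coe, mem_filter] at ha hb
      rw [← ha.2, ← hb.2]
      exact hrep2 a ha.1 b hb.1 hab
    rw [← this]
    have h2 : (S.filter (fun v => rep v = v)).image κ ⊆ range p := by
      intro i hi
      rw [mem_image] at hi
      obtain ⟨a, _, rfl⟩ := hi
      exact mem_range.mpr (hκ a)
    have := card_le_card h2
    rwa [card_range] at this
  have h2 : (S.filter (fun v => ¬ rep v = v)).card ≤ ((S.offDiag.image (fun q : _ × _ => s(q.1, q.2))).filter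
      (fun e => ∃ a b, e = s(a, b) ∧ κ a = κ b)).card := by
    apply card_le_card_of_injOn (fun v => s(rep v, v))
    · intro v hv
      rw [mem_coe, mem_filter] at hv
      rw [mem_coe, mem_filter, mem_image]
      refine ⟨⟨(rep v, v), ?_, rfl⟩, rep v, v, rfl, (hrep1 v hv.1).2⟩
      rw [mem_offDiag]
      exact ⟨(hrep1 v hv.1).1, hv.1, hv.2⟩
    · intro v hv w hw h
      rw [mem_coe, mem_filter] at hv hw
      simp only [Sym2.eq_iff] at h
      rcases h with ⟨_, h⟩ | ⟨h1, h2⟩
      · exact h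
      · exfalso
        apply hv.2
        have h3 : κ v = κ w := by
          rw [← (hrep1 v hv.1).2, h1]
        rw [hrep2 v hv.1 w hw.1 h3, ← h2]
  have h3 := card_filter_add_card_filter_not (s := S) (fun v => rep v = v)
  omega

/-- perfect colourings are good -/
theorem good_of_perf (k D r n : ℕ) (hD2 : D ≤ k.choose 2) (G : SimpleGraph (Fin n))
    (ψ : Sym2 (Fin n) → Fin r) (p : ℕ) (A : Finset (Fin r))
    (hpA : (p = 1 ∧ A.card + D = k.choose 2) ∨ (2 ≤ p ∧ k ≤ 2 * p ∧ p + A.card + D = k))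
    (hP : Perf G p A ψ) :
    Good k (k.choose 2 + 1 - D) G Set.univ ψ := by
  classical
  intro S hS _
  obtain ⟨κ, hκ, hA⟩ := hP
  rcases hpA with ⟨hp, hAc⟩ | ⟨_, _, hAc⟩
  · have : cols ψ S ⊆ A := by
      intro i hi
      rw [mem_cols] at hi
      obtain ⟨a, ha, b, hb, hab, rfl⟩ := hi
      apply hA a b (hS.isClique ha hb hab)
      have h1 := hκ a
      have h2 := hκ b
      omega
    have := card_le_card this
    omega
  · set E := S.offDiag.image (fun q : _ × _ => s(q.1, q.2)) with hE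
    have hEc : E.card = k.choose 2 := by
      have := Sym2.card_image_offDiag S
      rw [hS.card_eq] at this
      rw [← this]
      rfl
    have h1 := inner_pairs S p κ hκ
    rw [← hE, hS.card_eq] at h1
    have h2 := card_filter_add_card_filter_not (s := E)
      (fun e => ∃ a b, e = s(a, b) ∧ κ a = κ b)
    have h3 : cols ψ S ⊆ A ∪ (E.filter (fun e => ¬ ∃ a b, e = s(a, b) ∧ κ a = κ b)).image ψ := by
      intro i hi
      rw [mem_cols] at hi
      obtain ⟨a, ha, b, hb, hab, rfl⟩ := hi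
      rw [mem_union]
      by_cases h : ∃ a' b', s(a, b) = s(a', b') ∧ κ a' = κ b'
      · left
        obtain ⟨a', b', h4, h5⟩ := h
        rw [h4]
        apply hA a' b' _ h5
        have hadj : G.Adj a b := hS.isClique ha hb hab
        rw [← SimpleGraph.mem_edgeSet, h4, SimpleGraph.mem_edgeSet] at hadj
        exact hadj
      · right
        apply mem_image_of_mem
        rw [mem_filter]
        refine ⟨?_, h⟩
        rw [hE, mem_image]
        exact ⟨(a, b), mem_offDiag.mpr ⟨ha, hb, hab⟩, rfl⟩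
    have h4 := card_le_card h3
    have h5 := card_union_le A ((E.filter (fun e => ¬ ∃ a b, e = s(a, b) ∧ κ a = κ b)).image ψ)
    have h6 := card_image_le (s := E.filter (fun e => ¬ ∃ a b, e = s(a, b) ∧ κ a = κ b)) (f := ψ)
    omega

theorem J15_complete (k D r n : ℕ) (hk : 3 ≤ k) (hD : 1 ≤ D) (hDC : D + 2 ≤ k.choose 2)
    (hr : k.choose 2 < r + D)
    (G : SimpleGraph (Fin n)) (Cp : (Sym2 (Fin n) → Fin r) → Prop)
    (hC : ∀ ψ, Cp ψ → ∃ (p : ℕ) (A : Finset (Fin r)), ((p = 1 ∧ A.card + D = k.choose 2) ∨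
      (2 ≤ p ∧ k ≤ 2 * p ∧ p + A.card + D = k)) ∧ 2 ≤ A.card ∧ Perf G p A ψ)
    (hmany : ∑ ψ : Sym2 (Fin n) → Fin r, ind (Good k (k.choose 2 + 1 - D) G Set.univ ψ) <
      2 * ∑ ψ : Sym2 (Fin n) → Fin r, ind (Cp ψ))
    (hmax : ∀ H : SimpleGraph (Fin n), F r k (k.choose 2 + 1 - D) H ≤ F r k (k.choose 2 + 1 - D) G) :
    G = ⊤ := by
  classical
  by_contra hne
  obtain ⟨x, y, hxy, hadj⟩ : ∃ x y, x ≠ y ∧ ¬ G.Adj x y := by
    by_contra hcon
    push Not at hcon
    apply hne
    ext a b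
    rw [SimpleGraph.top_adj]
    exact ⟨fun h => h.ne, fun h => hcon a b h⟩
  have hr2 : 2 ≤ r := by omega
  set H : SimpleGraph (Fin n) := G ⊔ SimpleGraph.edge x y with hH
  have hHE : H.edgeSet = insert s(x, y) G.edgeSet := by
    rw [hH, SimpleGraph.edgeSet_sup, SimpleGraph.edgeSet_edge_of_ne hxy, Set.union_comm]
    rfl
  have hHc : Nat.card H.edgeSet = Nat.card G.edgeSet + 1 := by
    rw [Nat.card_coe_set_eq, Nat.card_coe_set_eq, hHE]
    exact Set.ncard_insert_of_notMem (fun h => hadj h) (Set.toFinite _)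
  have hHadj : ∀ u v, H.Adj u v → s(u, v) = s(x, y) ∨ G.Adj u v := by
    intro u v h
    have h' : s(u, v) ∈ H.edgeSet := h
    rw [hHE, Set.mem_insert_iff] at h'
    exact h'
  -- at least two colours for the new edge
  have hext : ∀ ψ : Sym2 (Fin n) → Fin r, 2 * ind (Cp ψ) ≤
      ∑ a : Fin r, ind (Good k (k.choose 2 + 1 - D) H Set.univ (Function.update ψ s(x, y) a)) := by
    intro ψ
    by_cases hψ : Cp ψ
    · rw [ind_pos hψ, mul_one]
      obtain ⟨p, A, hpA, hA2, κ, hκ, hP⟩ := hC ψ hψ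
      have hgood : ∀ a : Fin r, (κ x = κ y → a ∈ A) →
          Good k (k.choose 2 + 1 - D) H Set.univ (Function.update ψ s(x, y) a) := by
        intro a ha
        apply good_of_perf k D r n (by omega) H _ p A hpA
        refine ⟨κ, hκ, ?_⟩
        intro u v huv hκuv
        by_cases he : s(u, v) = s(x, y)
        · rw [he, Function.update_self]
          apply ha
          rw [Sym2.eq_iff] at he
          rcases he with ⟨rfl, rfl⟩ | ⟨rfl, rfl⟩
          · exact hκuv
          · exact hκuv.symm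
        · rw [Function.update_of_ne he]
          rcases hHadj u v huv with h | h
          · exact absurd h he
          · exact hP u v h hκuv
      have hB : ∃ B : Finset (Fin r), 2 ≤ B.card ∧ ∀ a ∈ B, (κ x = κ y → a ∈ A) := by
        by_cases hxyκ : κ x = κ y
        · exact ⟨A, hA2, fun a ha _ => ha⟩
        · exact ⟨univ, by rw [card_univ, Fintype.card_fin]; exact hr2,
            fun a _ h => absurd h hxyκ⟩
      obtain ⟨B, hB2, hB3⟩ := hB
      calc (2 : ℝ) ≤ B.card := by exact_mod_cast hB2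
        _ = ∑ a ∈ B, 1 := by rw [sum_const, nsmul_eq_mul, mul_one]
        _ = ∑ a ∈ B, ind (Good k (k.choose 2 + 1 - D) H Set.univ (Function.update ψ s(x, y) a)) :=
          sum_congr rfl fun a ha => (ind_pos (hgood a (hB3 a ha))).symm
        _ ≤ _ := sum_le_sum_of_subset_of_nonneg (subset_univ _) (fun _ _ _ => ind_nonneg _)
    · rw [ind_neg hψ, mul_zero]
      exact sum_nonneg fun _ _ => ind_nonneg _
  have h1 := resample1 (r := r) s(x, y) (fun ψ => ind (Good k (k.choose 2 + 1 - D) H Set.univ ψ))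
  have h2 : 2 * ∑ ψ : Sym2 (Fin n) → Fin r, ind (Cp ψ) ≤
      ∑ ψ : Sym2 (Fin n) → Fin r, ∑ a : Fin r,
        ind (Good k (k.choose 2 + 1 - D) H Set.univ (Function.update ψ s(x, y) a)) := by
    rw [mul_sum]
    exact sum_le_sum fun ψ _ => hext ψ
  have h3 := norm r k (k.choose 2 + 1 - D) G
  have h4 := norm r k (k.choose 2 + 1 - D) H
  have h5 := card_edges_le H
  have h6 := hmax H
  have h1' : ∑ ψ : Sym2 (Fin n) → Fin r, ∑ a : Fin r,
        ind (Good k (k.choose 2 + 1 - D) H Set.univ (Function.update ψ s(x, y) a)) =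
      (r : ℝ) * ∑ ψ : Sym2 (Fin n) → Fin r, ind (Good k (k.choose 2 + 1 - D) H Set.univ ψ) := h1
  rw [h1', h4] at h2
  rw [h3] at hmany
  have h7 := lt_of_lt_of_le hmany h2
  obtain ⟨t, ht⟩ := Nat.exists_eq_add_of_le h5
  rw [hHc] at ht
  rw [hHc, show Fintype.card (Sym2 (Fin n)) - Nat.card G.edgeSet = t + 1 by omega,
    show Fintype.card (Sym2 (Fin n)) - (Nat.card G.edgeSet + 1) = t by omega, pow_succ] at h7
  have h8 : (F r k (k.choose 2 + 1 - D) H : ℝ) ≤ F r k (k.choose 2 + 1 - D) G := by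
    exact_mod_cast h6
  have hrpos : (0 : ℝ) < r := by
    have : 0 < r := by omega
    exact_mod_cast this
  have h9 : (F r k (k.choose 2 + 1 - D) H : ℝ) * ((r : ℝ) ^ t * r) ≤
      (F r k (k.choose 2 + 1 - D) G : ℝ) * ((r : ℝ) ^ t * r) :=
    mul_le_mul_of_nonneg_right h8 (by positivity)
  nlinarith

end Pool.Agent.TH830.J654
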