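import Pool.Agent.TH477.PA.Defs2
import Pool.Agent.TH477.PA.Tuple
set_option autoImplicit false
open Finset Pool.Agent.TH477.PA

namespace Pool.Agent.TH830.J811

theorem J22_transfer {n r p : ℕ} (G : SimpleGraph (Fin n)) (A : Finset (Fin r))
    (cls cls' : Fin n → ℕ) (π : ℕ → ℕ) (y : Fin n) (a1 a2 a3 θ : ℝ) (ψ : Sym2 (Fin n) → Fin r)
    (hπ : ∀ i, i < p → π i < p) (hinj : ∀ i j, i < p → j < p → π i = π j → i = j)
    (hag : ∀ i, i < p → ∑ x, ind (cls x = i ∧ cls' x ≠ π i) ≤ θ * n ∧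
        ∑ x, ind (cls x ≠ i ∧ cls' x = π i) ≤ θ * n)
    (h : GoodStar G p A cls' y a1 a2 a3 ψ) :
    GoodStar G p A cls y (a1 - θ) (a2 + θ) (a3 - θ) ψ := by
  obtain ⟨i', hi', H⟩ := h
  have hf : Function.Injective (fun i : Fin p => (⟨π i.1, hπ i.1 i.2⟩ : Fin p)) := by
    intro a b hab
    exact Fin.ext (hinj a.1 b.1 a.2 b.2 (congrArg Fin.val hab))
  obtain ⟨⟨i, hi⟩, hii⟩ := Finite.surjective_of_injective hf ⟨i', hi'⟩
  have hii' : π i = i' := congrArg Fin.val hii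
  have h1 : ∀ j, j < p → ∀ R : Fin n → Prop, ∑ v, ind (cls' v = π j ∧ R v) ≤
      ∑ v, ind (cls v = j ∧ R v) + θ * n := by
    intro j hj R
    refine le_trans ?_ (add_le_add (le_refl _) (hag j hj).2)
    rw [← sum_add_distrib]
    refine sum_le_sum fun v _ => ?_
    refine le_trans (ind_mono ?_) (ind_or_le _ _)
    rintro ⟨h2, h3⟩
    by_cases h4 : cls v = j
    · exact Or.inl ⟨h4, h3⟩
    · exact Or.inr ⟨h4, h2⟩
  have h2 : ∀ j, j < p → ∀ R : Fin n → Prop, ∑ v, ind (cls v = j ∧ R v) ≤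
      ∑ v, ind (cls' v = π j ∧ R v) + θ * n := by
    intro j hj R
    refine le_trans ?_ (add_le_add (le_refl _) (hag j hj).1)
    rw [← sum_add_distrib]
    refine sum_le_sum fun v _ => ?_
    refine le_trans (ind_mono ?_) (ind_or_le _ _)
    rintro ⟨h2, h3⟩
    by_cases h4 : cls' v = π j
    · exact Or.inl ⟨h4, h3⟩
    · exact Or.inr ⟨h2, h4⟩
  refine ⟨i, hi, ?_⟩
  intro j hj hji a ha
  have hji' : p = 1 ∨ π j ≠ i' := by
    rcases hji with h | h
    · exact Or.inl h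
    · right
      rw [← hii']
      exact fun h' => h (hinj j i hj hi h')
  obtain ⟨H1, H2⟩ := H (π j) (hπ j hj) hji' a ha
  constructor
  · have := h1 j hj (fun v => G.Adj y v ∧ ψ s(y, v) = a)
    linarith
  · intro x hx c hc
    have h3 := h2 j hj (fun v => v ≠ y ∧ G.Adj x v ∧ ψ s(x, v) = c)
    have h4 := H2 x hx c (by linarith)
    have h5 := h1 j hj (fun v => G.Adj x v ∧ ψ s(x, v) = c ∧ G.Adj y v ∧ ψ s(y, v) = a)
    linarith

end Pool.Agent.TH830.J811
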