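import Mathlib
set_option autoImplicit false
open SimpleGraph

namespace Pool.Agent.TH830.J1013

/-- `t` is not the sum along an edge -/
def Missing {V : Type} (T : SimpleGraph V) {n : ℕ} (g : V → ZMod n) (t : ZMod n) : Prop :=
  ∀ u v, T.Adj u v → g u + g v ≠ t

/-- the complete bipartite graph `K_{n,n}` on two copies of `ZMod n` decomposes into copies of `T'` -/
def DecomposesKnn {W : Type} (T' : SimpleGraph W) (n : ℕ) : Prop :=
  ∃ φ : Fin n → W → ZMod n ⊕ ZMod n, (∀ i, Function.Injective (φ i)) ∧
    (∀ i u v, T'.Adj u v → (completeBipartiteGraph (ZMod n) (ZMod n)).Adj (φ i u) (φ i v)) ∧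
    ∀ e ∈ (completeBipartiteGraph (ZMod n) (ZMod n)).edgeSet,
      ∃! p : Fin n × Sym2 W, p.2 ∈ T'.edgeSet ∧ Sym2.map (φ p.1) p.2 = e

/-- `T` with new leaves, one for each element of `M`, attached at `w` -/
def att {V M : Type} (T : SimpleGraph V) (w : M → V) : SimpleGraph (V ⊕ M) where
  Adj a b := match a, b with
    | Sum.inl x, Sum.inl y => T.Adj x y
    | Sum.inl x, Sum.inr p => w p = x
    | Sum.inr p, Sum.inl x => w p = x
    | Sum.inr _, Sum.inr _ => False
  symm := ⟨fun a b h => by
    match a, b, h with
    | Sum.inl x, Sum.inl y, h => exact h.symm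
    | Sum.inl x, Sum.inr p, h => exact h
    | Sum.inr p, Sum.inl x, h => exact h
    | Sum.inr _, Sum.inr _, h => exact h⟩
  loopless := ⟨fun a h => by
    match a, h with
    | Sum.inl x, h => exact T.loopless.irrefl x h
    | Sum.inr _, h => exact h⟩

section att

variable {V M : Type} (T : SimpleGraph V) (w : M → V)

theorem att_contains : T.IsContained (att T w) :=
  ⟨SimpleGraph.Hom.toCopy ⟨Sum.inl, fun {a b} h => h⟩ Sum.inl_injective⟩

theorem att_edge (a b : V ⊕ M) (h : (att T w).Adj a b) :
    (∃ x y, T.Adj x y ∧ a = Sum.inl x ∧ b = Sum.inl y) ∨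
    (∃ p, s(a, b) = s(Sum.inr p, Sum.inl (w p))) := by
  match a, b, h with
  | Sum.inl x, Sum.inl y, h => exact Or.inl ⟨x, y, h, rfl, rfl⟩
  | Sum.inl x, Sum.inr p, h =>
    right
    refine ⟨p, ?_⟩
    have h' : w p = x := h
    rw [h']
    exact Sym2.eq_swap
  | Sum.inr p, Sum.inl x, h =>
    right
    refine ⟨p, ?_⟩
    have h' : w p = x := h
    rw [h']
  | Sum.inr _, Sum.inr _, h => exact absurd h (by simp [att])

theorem att_edges [Finite V] [Finite M] :
    Nat.card (att T w).edgeSet = Nat.card T.edgeSet + Nat.card M := by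
  have h1 : (att T w).edgeSet = (Sym2.map Sum.inl '' T.edgeSet) ∪
      ((fun p : M => s((Sum.inr p : V ⊕ M), Sum.inl (w p))) '' Set.univ) := by
    ext e
    constructor
    · intro he
      induction e using Sym2.ind with
      | _ a b =>
        rcases att_edge T w a b he with ⟨x, y, h, rfl, rfl⟩ | ⟨p, h⟩
        · exact Or.inl ⟨s(x, y), h, rfl⟩
        · exact Or.inr ⟨p, trivial, h.symm⟩
    · rintro (⟨e, he, rfl⟩ | ⟨p, _, rfl⟩)
      · induction e using Sym2.ind with
        | _ a b => exact he
      · exact (rfl : w p = w p)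
  have h2 : Disjoint (Sym2.map Sum.inl '' T.edgeSet)
      ((fun p : M => s((Sum.inr p : V ⊕ M), Sum.inl (w p))) '' Set.univ) := by
    rw [Set.disjoint_left]
    rintro e ⟨e', he', rfl⟩ ⟨p, _, h⟩
    have hy : (Sum.inr p : V ⊕ M) ∈ Sym2.map Sum.inl e' := by
      rw [← h]
      exact Sym2.mem_mk_left _ _
    rw [Sym2.mem_map] at hy
    obtain ⟨a, _, ha⟩ := hy
    exact Sum.inl_ne_inr ha
  have hf : Finite (Sym2 (V ⊕ M)) := by
    classical
    have := Fintype.ofFinite V
    have := Fintype.ofFinite M
    infer_instance
  have hinj : Function.Injective (fun p : M => s((Sum.inr p : V ⊕ M), Sum.inl (w p))) := by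
    intro p q h
    simp only [Sym2.eq_iff] at h
    rcases h with ⟨h, _⟩ | ⟨h, _⟩
    · exact Sum.inr_injective h
    · exact absurd h Sum.inr_ne_inl
  rw [Nat.card_coe_set_eq, h1, Set.ncard_union_eq h2 (Set.toFinite _) (Set.toFinite _),
    Set.ncard_image_of_injective _ (Sym2.map.injective Sum.inl_injective),
    Set.ncard_image_of_injective _ hinj, Set.ncard_univ, Nat.card_coe_set_eq]

theorem att_tree [Finite V] [Finite M] (hT : T.IsTree) : (att T w).IsTree := by
  have hfin : Finite (V ⊕ M) := inferInstance
  rw [SimpleGraph.isTree_iff_connected_and_card]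
  have h1 : Nat.card T.edgeSet + 1 = Nat.card V := (SimpleGraph.isTree_iff_connected_and_card.mp hT).2
  constructor
  · have hinl : ∀ x y : V, (att T w).Reachable (Sum.inl x) (Sum.inl y) := by
      intro x y
      have h := hT.connected x y
      exact h.map (⟨Sum.inl, fun {a b} h => h⟩ : T →g att T w)
    have hr : ∀ a : V ⊕ M, ∃ x, (att T w).Reachable a (Sum.inl x) := by
      intro a
      match a with
      | Sum.inl x => exact ⟨x, SimpleGraph.Reachable.refl _⟩
      | Sum.inr p =>
        refine ⟨w p, SimpleGraph.Adj.reachable ?_⟩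
        exact (rfl : w p = w p)
    rw [SimpleGraph.connected_iff]
    constructor
    · intro a b
      obtain ⟨x, hx⟩ := hr a
      obtain ⟨y, hy⟩ := hr b
      exact (hx.trans (hinl x y)).trans hy.symm
    · obtain ⟨x⟩ := hT.connected.nonempty
      exact ⟨Sum.inl x⟩
  · rw [att_edges, Nat.card_sum, ← h1]
    ring

end att

theorem decomposes_of_assignment {V : Type} [Fintype V] {T : SimpleGraph V} (hT : T.IsTree)
    (c : V → Bool) (hc : ∀ u v, T.Adj u v → c u ≠ c v) (n : ℕ) (hn : 1 ≤ n)
    (g : V → ZMod n) (hinj : ∀ u v, c u = c v → g u = g v → u = v)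
    (hsum : ∀ u v u' v', T.Adj u v → T.Adj u' v' → g u + g v = g u' + g v' → s(u, v) = s(u', v'))
    (w : ZMod n → V) (l : ZMod n → ZMod n)
    (hw : ∀ t, Missing T g t → g (w t) + l t = t)
    (hnew : ∀ t, Missing T g t → ∀ v, c v ≠ c (w t) → g v ≠ l t)
    (hdist : ∀ t t', Missing T g t → Missing T g t' → c (w t) = c (w t') → l t = l t' → t = t') :
    ∃ (W : Type) (_ : Fintype W) (T' : SimpleGraph W), T'.IsTree ∧ T'.edgeSet.ncard = n ∧
      T.IsContained T' ∧ DecomposesKnn T' n := by
  classical
  have hne : NeZero n := ⟨by omega⟩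
  let M : Type := {t : ZMod n // Missing T g t}
  let wM : M → V := fun t => w t.1
  let T' := att T wM
  refine ⟨V ⊕ M, inferInstance, T', att_tree T wM hT, ?_, att_contains T wM, ?_⟩
  · -- number of edges
    have h1 := att_edges T wM
    rw [← Nat.card_coe_set_eq, h1]
    have h2 : Nat.card T.edgeSet = Nat.card {t : ZMod n // ¬ Missing T g t} := by
      let σ : Sym2 V → ZMod n := Sym2.lift ⟨fun u v => g u + g v, fun u v => add_comm _ _⟩
      have hσ : ∀ u v, σ s(u, v) = g u + g v := fun u v => rfl
      refine Nat.card_congr (Equiv.ofBijective (fun e : T.edgeSet =>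
        (⟨σ e.1, ?_⟩ : {t : ZMod n // ¬ Missing T g t})) ⟨?_, ?_⟩)
      · obtain ⟨e, he⟩ := e
        induction e using Sym2.ind with
        | _ u v =>
          intro h
          exact h u v he rfl
      · rintro ⟨e, he⟩ ⟨e', he'⟩ h
        have h' : σ e = σ e' := congrArg Subtype.val h
        apply Subtype.ext
        induction e using Sym2.ind with
        | _ u v =>
          induction e' using Sym2.ind with
          | _ u' v' => exact hsum u v u' v' he he' h'
      · rintro ⟨t, ht⟩
        unfold Missing at ht
        push Not at ht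
        obtain ⟨u, v, huv, h⟩ := ht
        exact ⟨⟨s(u, v), huv⟩, Subtype.ext h⟩
    rw [h2, Nat.card_eq_fintype_card, Nat.card_eq_fintype_card, Fintype.card_subtype_compl,
      ZMod.card]
    have h3 : Fintype.card {t : ZMod n // Missing T g t} ≤ n := by
      have := Fintype.card_subtype_le (fun t : ZMod n => Missing T g t)
      rwa [ZMod.card] at this
    change n - Fintype.card {t : ZMod n // Missing T g t} +
      Fintype.card {t : ZMod n // Missing T g t} = n
    omega
  · -- the decomposition
    let G : V ⊕ M → ZMod n := Sum.elim g (fun t => l t.1)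
    let C : V ⊕ M → Bool := Sum.elim c (fun t => !(c (w t.1)))
    have hC : ∀ a b, T'.Adj a b → C a ≠ C b := by
      intro a b h
      match a, b, h with
      | Sum.inl x, Sum.inl y, h => exact hc x y h
      | Sum.inl x, Sum.inr p, h =>
        have h' : w p.1 = x := h
        change c x ≠ !(c (w p.1))
        rw [h']
        cases c x <;> simp
      | Sum.inr p, Sum.inl x, h =>
        have h' : w p.1 = x := h
        change (!(c (w p.1))) ≠ c x
        rw [h']
        cases c x <;> simp
      | Sum.inr _, Sum.inr _, h => exact absurd h (by simp [T', att])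
    have hGinj : ∀ a b, C a = C b → G a = G b → a = b := by
      intro a b h1 h2
      match a, b, h1, h2 with
      | Sum.inl x, Sum.inl y, h1, h2 => rw [hinj x y h1 h2]
      | Sum.inl x, Sum.inr p, h1, h2 =>
        exfalso
        have h1' : c x = !(c (w p.1)) := h1
        have h2' : g x = l p.1 := h2
        refine hnew p.1 p.2 x ?_ h2'
        rw [h1']
        cases c (w p.1) <;> simp
      | Sum.inr p, Sum.inl x, h1, h2 =>
        exfalso
        have h1' : (!(c (w p.1))) = c x := h1
        have h2' : l p.1 = g x := h2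
        refine hnew p.1 p.2 x ?_ h2'.symm
        rw [← h1']
        cases c (w p.1) <;> simp
      | Sum.inr p, Sum.inr q, h1, h2 =>
        have h1' : (!(c (w p.1))) = !(c (w q.1)) := h1
        have h2' : l p.1 = l q.1 := h2
        have h3 : c (w p.1) = c (w q.1) := by
          cases hp : c (w p.1) <;> cases hq : c (w q.1) <;> simp_all
        rw [Subtype.ext (hdist p.1 q.1 p.2 q.2 h3 h2')]
    -- existence of an edge with given sum
    have hex : ∀ t : ZMod n, ∃ a b, T'.Adj a b ∧ G a + G b = t := by
      intro t
      by_cases ht : Missing T g t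
      · exact ⟨Sum.inl (w t), Sum.inr ⟨t, ht⟩, rfl, hw t ht⟩
      · unfold Missing at ht
        push Not at ht
        obtain ⟨u, v, huv, h⟩ := ht
        exact ⟨Sum.inl u, Sum.inl v, huv, h⟩
    have hsumT : ∀ a b, T'.Adj a b → (∃ x y, T.Adj x y ∧ a = Sum.inl x ∧ b = Sum.inl y) ∨
        (∃ p : M, s(a, b) = s(Sum.inr p, Sum.inl (w p.1)) ∧ G a + G b = p.1) := by
      intro a b h
      rcases att_edge T wM a b h with h | ⟨p, h⟩
      · exact Or.inl h
      · right
        refine ⟨p, h, ?_⟩
        have h3 := hw p.1 p.2
        rw [Sym2.eq_iff] at h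
        rcases h with ⟨rfl, rfl⟩ | ⟨rfl, rfl⟩
        · change l p.1 + g (w p.1) = p.1
          rw [add_comm]
          exact h3
        · exact h3
    have huniq : ∀ a b a' b', T'.Adj a b → T'.Adj a' b' → G a + G b = G a' + G b' →
        s(a, b) = s(a', b') := by
      intro a b a' b' h h' he
      rcases hsumT a b h with ⟨x, y, hxy, rfl, rfl⟩ | ⟨p, hp, hps⟩
      · rcases hsumT a' b' h' with ⟨x', y', hxy', rfl, rfl⟩ | ⟨p', hp', hps'⟩
        · have := hsum x y x' y' hxy hxy' he
          have h4 := congrArg (Sym2.map (Sum.inl : V → V ⊕ M)) this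
          exact h4
        · exfalso
          rw [hps'] at he
          exact p'.2 x y hxy he
      · rcases hsumT a' b' h' with ⟨x', y', hxy', rfl, rfl⟩ | ⟨p', hp', hps'⟩
        · exfalso
          rw [hps] at he
          exact p.2 x' y' hxy' he.symm
        · rw [hps, hps'] at he
          have : p = p' := Subtype.ext he
          rw [hp, hp', this]
    -- oriented edges
    have horient : ∀ a b, T'.Adj a b → ∃ a' b', s(a, b) = s(a', b') ∧ T'.Adj a' b' ∧
        C a' = true ∧ C b' = false := by
      intro a b h
      have h1 := hC a b h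
      cases ha : C a
      · cases hb : C b
        · rw [ha, hb] at h1
          exact absurd rfl h1
        · exact ⟨b, a, Sym2.eq_swap, h.symm, hb, ha⟩
      · cases hb : C b
        · exact ⟨a, b, rfl, h, ha, hb⟩
        · rw [ha, hb] at h1
          exact absurd rfl h1
    let φ : Fin n → V ⊕ M → ZMod n ⊕ ZMod n := fun i x =>
      if C x = true then Sum.inl (G x + (i.val : ZMod n)) else Sum.inr (G x - (i.val : ZMod n))
    have hφt : ∀ i x, C x = true → φ i x = Sum.inl (G x + (i.val : ZMod n)) := by
      intro i x h
      simp only [φ, if_pos h]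
    have hφf : ∀ i x, C x = false → φ i x = Sum.inr (G x - (i.val : ZMod n)) := by
      intro i x h
      have : ¬ C x = true := by rw [h]; simp
      simp only [φ, if_neg this]
    have hi_inj : ∀ i j : Fin n, (i.val : ZMod n) = (j.val : ZMod n) → i = j := by
      intro i j h
      have h2 := congrArg ZMod.val h
      rw [ZMod.val_cast_of_lt i.isLt, ZMod.val_cast_of_lt j.isLt] at h2
      exact Fin.ext h2
    refine ⟨φ, ?_, ?_, ?_⟩
    · intro i a b h
      cases ha : C a <;> cases hb : C b
      · rw [hφf i a ha, hφf i b hb] at h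
        have := Sum.inr_injective h
        exact hGinj a b (by rw [ha, hb]) (sub_left_injective this)
      · rw [hφf i a ha, hφt i b hb] at h
        exact absurd h Sum.inr_ne_inl
      · rw [hφt i a ha, hφf i b hb] at h
        exact absurd h Sum.inl_ne_inr
      · rw [hφt i a ha, hφt i b hb] at h
        have := Sum.inl_injective h
        exact hGinj a b (by rw [ha, hb]) (add_left_injective _ this)
    · intro i u v huv
      have h1 := hC u v huv
      cases ha : C u <;> cases hb : C v
      · rw [ha, hb] at h1
        exact absurd rfl h1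
      · rw [hφf i u ha, hφt i v hb]
        simp [completeBipartiteGraph]
      · rw [hφt i u ha, hφf i v hb]
        simp [completeBipartiteGraph]
      · rw [ha, hb] at h1
        exact absurd rfl h1
    · intro e he
      obtain ⟨x, y, hxy⟩ : ∃ x y : ZMod n, e = s(Sum.inl x, Sum.inr y) := by
        induction e using Sym2.ind with
        | _ a b =>
          have he' : (completeBipartiteGraph (ZMod n) (ZMod n)).Adj a b := he
          match a, b, he' with
          | Sum.inl x, Sum.inl y, h => simp [completeBipartiteGraph] at h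
          | Sum.inl x, Sum.inr y, h => exact ⟨x, y, rfl⟩
          | Sum.inr y, Sum.inl x, h => exact ⟨x, y, Sym2.eq_swap⟩
          | Sum.inr x, Sum.inr y, h => simp [completeBipartiteGraph] at h
      obtain ⟨a0, b0, hab0, hs0⟩ := hex (x + y)
      obtain ⟨a, b, hab1, hab, ha, hb⟩ := horient a0 b0 hab0
      have hs : G a + G b = x + y := by
        rw [Sym2.eq_iff] at hab1
        rcases hab1 with ⟨rfl, rfl⟩ | ⟨rfl, rfl⟩
        · exact hs0
        · rw [add_comm]
          exact hs0
      have hi0 : (x - G a).val < n := ZMod.val_lt _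
      refine ⟨(⟨(x - G a).val, hi0⟩, s(a, b)), ⟨hab, ?_⟩, ?_⟩
      · simp only
        rw [Sym2.map_mk, hφt _ a ha, hφf _ b hb, hxy]
        simp only [ZMod.natCast_zmod_val]
        have e1 : G a + (x - G a) = x := by ring
        have e2 : G b - (x - G a) = y := by
          have : G b = x + y - G a := by rw [← hs]; ring
          rw [this]
          ring
        rw [e1, e2]
      · rintro ⟨i, e'⟩ ⟨he', hmap⟩
        simp only at he' hmap
        induction e' using Sym2.ind with
        | _ a2 b2 =>
          obtain ⟨a', b', hab2, hab', ha', hb'⟩ := horient a2 b2 he'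
          rw [hab2, Sym2.map_mk, hφt _ a' ha', hφf _ b' hb', hxy, Sym2.eq_iff] at hmap
          rcases hmap with ⟨h1, h2⟩ | ⟨h1, _⟩
          · have h1' := Sum.inl_injective h1
            have h2' := Sum.inr_injective h2
            have hs' : G a' + G b' = G a + G b := by
              rw [hs, ← h1', ← h2']
              ring
            have h3 := huniq a' b' a b hab' hab hs'
            have h4 : a' = a := by
              rw [Sym2.eq_iff] at h3
              rcases h3 with ⟨h3, _⟩ | ⟨h3, _⟩
              · exact h3
              · rw [h3, hb] at ha'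
                exact absurd ha' (by simp)
            rw [Prod.mk.injEq]
            constructor
            · apply hi_inj
              simp only [ZMod.natCast_zmod_val]
              rw [← h1', h4]
              ring
            · rw [hab2, h3]
          · exact absurd h1 Sum.inl_ne_inr

end Pool.Agent.TH830.J1013
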