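import Pool.Agent.TH600.YT.Basic

set_option autoImplicit false

open MeasureTheory Real Set
open scoped ContDiff

namespace Pool.Agent.TH830.YT746

open Pool.Agent.TH600.YT

/-- the closed infinite cylinder -/
def CC : Set (ℝ × ℝ × ℝ) := {p | p.1 ^ 2 + p.2.1 ^ 2 ≤ 1}

/-- the shift vector -/
noncomputable def sv (j : ℕ) : ℝ × ℝ × ℝ := (0, 0, 2 * π * j)

theorem sv_mem {p : ℝ × ℝ × ℝ} (hp : p ∈ CC) (j : ℕ) : p + sv j ∈ CC := by
  simp only [CC, sv, mem_ofPred_eq, Prod.fst_add, Prod.snd_add, add_zero] at hp ⊢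
  exact hp

theorem cCyl_sub_CC (L : ℝ) : cCyl L ⊆ CC := fun _ hp => hp.1

/-- integrability of the sections -/
theorem cyl_G_int {L : ℝ} (hL : 0 ≤ L) {F : ℝ × ℝ × ℝ → ℝ} (hF : ContinuousOn F (cCyl L)) :
    IntervalIntegrable (fun z => ∫ q in Dsc, F (q.1, q.2, z)) volume 0 L := by
  have hmp : MeasurePreserving (MeasurableEquiv.prodAssoc : (ℝ × ℝ) × ℝ ≃ᵐ ℝ × ℝ × ℝ)
      (volume : Measure ((ℝ × ℝ) × ℝ)) (volume : Measure (ℝ × ℝ × ℝ)) :=
    volume_preserving_prodAssoc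
  have hpre : (MeasurableEquiv.prodAssoc : (ℝ × ℝ) × ℝ ≃ᵐ ℝ × ℝ × ℝ) ⁻¹' (Cyl L) =
      Dsc ×ˢ Ioo 0 L := by
    ext ⟨⟨x, y⟩, z⟩
    simp [Cyl, Dsc, MeasurableEquiv.prodAssoc]
  have hint : IntegrableOn (fun r : (ℝ × ℝ) × ℝ => F (r.1.1, r.1.2, r.2)) (Dsc ×ˢ Ioo 0 L)
      ((volume : Measure (ℝ × ℝ)).prod (volume : Measure ℝ)) := by
    have := (hmp.integrableOn_comp_preimage
      (MeasurableEquiv.prodAssoc : (ℝ × ℝ) × ℝ ≃ᵐ ℝ × ℝ × ℝ).measurableEmbedding).2 (intOn hF)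
    rw [hpre] at this
    exact this
  rw [IntegrableOn, ← Measure.prod_restrict] at hint
  have h2 := hint.integral_prod_right
  rw [intervalIntegrable_iff_integrableOn_Ioo_of_le hL]
  exact h2

/-- splitting an integral over the long cylinder -/
theorem split {F : ℝ × ℝ × ℝ → ℝ} (hF : ContinuousOn F CC) (k : ℕ) :
    ∫ p in Cyl (2 * π * k), F p = ∑ j ∈ Finset.range k, ∫ p in Cyl (2 * π), F (p + sv j) := by
  have hπ := pi_pos
  have h1 := cyl_fubini (L := 2 * π * k) (by positivity) (hF.mono (cCyl_sub_CC _))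
  have h2 : ∀ j : ℕ, ∫ p in Cyl (2 * π), F (p + sv j) =
      ∫ z in (2 * π * j)..(2 * π * (j + 1 : ℕ)), ∫ q in Dsc, F (q.1, q.2, z) := by
    intro j
    have h3 : ContinuousOn (fun p => F (p + sv j)) (cCyl (2 * π)) := by
      apply hF.comp (by fun_prop)
      intro p hp
      exact sv_mem (cCyl_sub_CC _ hp) j
    rw [cyl_fubini (by positivity) h3]
    have h4 : ∀ z : ℝ, ∫ q in Dsc, F ((q.1, q.2, z) + sv j) =
        (fun z => ∫ q in Dsc, F (q.1, q.2, z)) (z + 2 * π * j) := by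
      intro z
      simp only [sv, Prod.mk_add_mk, add_zero]
    simp only [h4]
    rw [intervalIntegral.integral_comp_add_right (fun z => ∫ q in Dsc, F (q.1, q.2, z))]
    congr 1
    · ring
    · push_cast
      ring
  rw [h1, Finset.sum_congr rfl (fun j _ => h2 j)]
  rw [intervalIntegral.sum_integral_adjacent_intervals]
  · simp
  · intro j hj
    have h5 := cyl_G_int (L := 2 * π * k) (by positivity) (hF.mono (cCyl_sub_CC _))
    apply h5.mono_set
    have h6 : ((j + 1 : ℕ) : ℝ) ≤ k := by exact_mod_cast hj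
    rw [uIcc_of_le, uIcc_of_le]
    · apply Icc_subset_Icc
      · positivity
      · apply mul_le_mul_of_nonneg_left h6 (by positivity)
    · positivity
    · apply mul_le_mul_of_nonneg_left _ (by positivity)
      push_cast
      linarith

variable {w : ℝ × ℝ × ℝ → ℝ} {k : ℕ}

theorem w_cd (hw : Adm (2 * π * k) w) {p : ℝ × ℝ × ℝ} (hp : p ∈ CC) : ContDiffAt ℝ ∞ w p :=
  hw.contDiffAt hp

theorem w_cd' (hw : Adm (2 * π * k) w) {p : ℝ × ℝ × ℝ} (hp : p ∈ CC) (j : ℕ) :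
    ContDiffAt ℝ ∞ (fun p => w (p + sv j)) p := by
  have h := w_cd hw (sv_mem hp j)
  exact h.comp p (contDiffAt_id.add contDiffAt_const)

/-- the sum of squares -/
noncomputable def SS (w : ℝ × ℝ × ℝ → ℝ) (k : ℕ) (p : ℝ × ℝ × ℝ) : ℝ :=
  ∑ j ∈ Finset.range k, w (p + sv j) ^ 2

theorem SS_pos (hw : Adm (2 * π * k) w) (hk : 0 < k) {p : ℝ × ℝ × ℝ} (hp : p ∈ CC) :
    0 < SS w k p := by
  unfold SS
  apply Finset.sum_pos
  · intro j _
    have h : (0:ℝ) < w (p + sv j) := hw.pos _ _ _ (sv_mem hp j)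
    positivity
  · exact ⟨0, Finset.mem_range.mpr hk⟩

/-- the wrapped function -/
noncomputable def vv (w : ℝ × ℝ × ℝ → ℝ) (k : ℕ) (p : ℝ × ℝ × ℝ) : ℝ := √(SS w k p)

theorem vv_sq (p : ℝ × ℝ × ℝ) : vv w k p ^ 2 = SS w k p := by
  unfold vv
  apply Real.sq_sqrt
  unfold SS
  positivity

theorem vv_adm (hk : 0 < k) (hw : Adm (2 * π * k) w) : Adm (2 * π) (vv w k) := by
  refine ⟨?_, ?_, ?_⟩
  · intro x y z h
    have hp : ((x, y, z) : ℝ × ℝ × ℝ) ∈ CC := h
    unfold vv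
    apply ContDiffAt.sqrt
    · unfold SS
      apply ContDiffAt.sum
      intro j _
      exact (w_cd' hw hp j).pow 2
    · exact (SS_pos hw hk hp).ne'
  · intro x y z
    unfold vv SS
    congr 1
    have h1 : ∀ j : ℕ, w ((x, y, z + 2 * π) + sv j) = w ((x, y, z) + sv (j + 1)) := by
      intro j
      simp only [sv, Prod.mk_add_mk, add_zero]
      congr 3
      push_cast
      ring
    have h2 : w ((x, y, z) + sv k) = w ((x, y, z) + sv 0) := by
      simp only [sv, Prod.mk_add_mk, add_zero]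
      rw [hw.periodic]
      simp
    rw [Finset.sum_congr rfl (fun j _ => by rw [h1 j])]
    have h3 := Finset.sum_range_succ (fun j => w ((x, y, z) + sv j) ^ 2) k
    have h4 := Finset.sum_range_succ' (fun j => w ((x, y, z) + sv j) ^ 2) k
    rw [h2] at h3
    linarith
  · intro x y z h
    exact Real.sqrt_pos.mpr (SS_pos hw hk (p := (x, y, z)) h)

/-- Cauchy-Schwarz for the derivative -/
theorem vv_deriv (hk : 0 < k) (hw : Adm (2 * π * k) w) {p : ℝ × ℝ × ℝ} (hp : p ∈ CC)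
    (e : ℝ × ℝ × ℝ) : (fderiv ℝ (vv w k) p e) ^ 2 ≤
      ∑ j ∈ Finset.range k, (fderiv ℝ w (p + sv j) e) ^ 2 := by
  have hS := SS_pos hw hk hp
  have h1 : ∀ j, HasFDerivAt (fun p => w (p + sv j)) (fderiv ℝ w (p + sv j)) p := by
    intro j
    have h := ((w_cd hw (sv_mem hp j)).differentiableAt (by simp)).hasFDerivAt
    have h2 : HasFDerivAt (fun p : ℝ × ℝ × ℝ => p + sv j) (ContinuousLinearMap.id ℝ _) p :=
      (hasFDerivAt_id p).add_const _
    have h3 := h.comp p h2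
    rw [ContinuousLinearMap.comp_id] at h3
    exact h3
  have h2 : HasFDerivAt (SS w k) (∑ j ∈ Finset.range k,
      ((2 : ℕ) * w (p + sv j) ^ (2 - 1)) • fderiv ℝ w (p + sv j)) p := by
    unfold SS
    apply HasFDerivAt.fun_sum
    intro j _
    have := (h1 j).pow 2
    simpa using this
  have h3 : HasFDerivAt (vv w k) _ p := h2.sqrt hS.ne'
  rw [h3.fderiv]
  have hv : 0 < √(SS w k p) := Real.sqrt_pos.mpr hS
  have h4 : ((1 / (2 * √(SS w k p))) • ∑ j ∈ Finset.range k,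
      (((2 : ℕ) : ℝ) * w (p + sv j) ^ (2 - 1)) • fderiv ℝ w (p + sv j)) e =
      (∑ j ∈ Finset.range k, w (p + sv j) * fderiv ℝ w (p + sv j) e) / √(SS w k p) := by
    rw [_root_.smul_apply, _root_.sum_apply, smul_eq_mul,
      div_eq_inv_mul (∑ j ∈ Finset.range k, w (p + sv j) * fderiv ℝ w (p + sv j) e),
      Finset.mul_sum, Finset.mul_sum]
    refine Finset.sum_congr rfl fun j _ => ?_
    rw [_root_.smul_apply, smul_eq_mul]
    field_simp
    push_cast
    ring
  rw [h4, div_pow, div_le_iff₀ (by positivity), Real.sq_sqrt hS.le]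
  have h5 := Finset.sum_mul_sq_le_sq_mul_sq (Finset.range k) (fun j => w (p + sv j))
    (fun j => fderiv ℝ w (p + sv j) e)
  calc (∑ j ∈ Finset.range k, w (p + sv j) * fderiv ℝ w (p + sv j) e) ^ 2 ≤ _ := h5
    _ = _ := by
      rw [mul_comm]
      rfl

theorem six (hk : 0 < k) (hw : Adm (2 * π * k) w) {p : ℝ × ℝ × ℝ} (hp : p ∈ CC) :
    ∑ j ∈ Finset.range k, w (p + sv j) ^ 6 ≤ vv w k p ^ 6 := by
  have h1 : vv w k p ^ 6 = SS w k p ^ 3 := by
    rw [← vv_sq]
    ring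
  rw [h1]
  have hS := SS_pos hw hk hp
  have h2 : ∀ j ∈ Finset.range k, w (p + sv j) ^ 6 ≤ w (p + sv j) ^ 2 * SS w k p ^ 2 := by
    intro j hj
    have h3 : w (p + sv j) ^ 2 ≤ SS w k p := by
      unfold SS
      exact Finset.single_le_sum (f := fun j => w (p + sv j) ^ 2) (fun i _ => by positivity) hj
    have h4 : w (p + sv j) ^ 6 = w (p + sv j) ^ 2 * (w (p + sv j) ^ 2) ^ 2 := by ring
    rw [h4]
    gcongr
  refine (Finset.sum_le_sum h2).trans ?_
  rw [← Finset.sum_mul]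
  apply le_of_eq
  change SS w k p * SS w k p ^ 2 = _
  ring

theorem cont_D (hw : Adm (2 * π * k) w) (e : ℝ × ℝ × ℝ) :
    ContinuousOn (fun p => fderiv ℝ w p e) CC :=
  fun _ hp => (hw.continuousAt_fderiv hp _).continuousWithinAt

theorem cont_w (hw : Adm (2 * π * k) w) : ContinuousOn w CC :=
  fun _ hp => (hw.continuousAt hp).continuousWithinAt

theorem cont_Ay : ContinuousOn Ay CC := by
  unfold Ay
  apply ContinuousOn.div continuousOn_const
  · have := continuous_sq; fun_prop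
  · intro p hp; have := one_sub_pos (p := p) hp; positivity

theorem Ay_sv (p : ℝ × ℝ × ℝ) (j : ℕ) : Ay (p + sv j) = Ay p := by
  simp [Ay, Pool.Agent.TH600.YT.sq, sv]

/-- the energy density -/
noncomputable def En (w : ℝ × ℝ × ℝ → ℝ) (p : ℝ × ℝ × ℝ) : ℝ :=
  8 * ((D1 w p) ^ 2 + (D2 w p) ^ 2) + Ay p * (8 * 1 * (D3 w p) ^ 2 - 2 * (w p) ^ 2)

theorem cont_En (hw : Adm (2 * π * k) w) : ContinuousOn (En w) CC := by
  have h1 := cont_D hw (1, 0, 0)
  have h2 := cont_D hw (0, 1, 0)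
  have h3 := cont_D hw (0, 0, 1)
  have h4 := cont_w hw
  have h5 := cont_Ay
  unfold En D1 D2 D3
  fun_prop

theorem En_le (hk : 0 < k) (hw : Adm (2 * π * k) w) {p : ℝ × ℝ × ℝ} (hp : p ∈ CC) :
    En (vv w k) p ≤ ∑ j ∈ Finset.range k, En w (p + sv j) := by
  have h1 := vv_deriv hk hw hp (1, 0, 0)
  have h2 := vv_deriv hk hw hp (0, 1, 0)
  have h3 := vv_deriv hk hw hp (0, 0, 1)
  have h4 : vv w k p ^ 2 = ∑ j ∈ Finset.range k, w (p + sv j) ^ 2 := vv_sq p
  have h5 := Ay_pos (p := p) hp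
  unfold En D1 D2 D3
  simp only [Ay_sv, Finset.sum_add_distrib, ← Finset.mul_sum, Finset.sum_sub_distrib]
  rw [h4]
  have h6 := mul_le_mul_of_nonneg_left h3 h5.le
  nlinarith

theorem shift_cont {F : ℝ × ℝ × ℝ → ℝ} (hF : ContinuousOn F CC) (j : ℕ) :
    ContinuousOn (fun p => F (p + sv j)) CC := by
  apply hF.comp (by fun_prop)
  intro p hp
  exact sv_mem hp j

theorem intOn' {F : ℝ × ℝ × ℝ → ℝ} (hF : ContinuousOn F CC) (L : ℝ) : IntegrableOn F (Cyl L) :=
  intOn (hF.mono (cCyl_sub_CC L))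

/-- the boundary section -/
noncomputable def Bd (w : ℝ × ℝ × ℝ → ℝ) (z : ℝ) : ℝ :=
  ∫ φ in (0 : ℝ)..(2 * π), w (cos φ, sin φ, z) ^ 2

theorem circ_mem (φ z : ℝ) : ((cos φ, sin φ, z) : ℝ × ℝ × ℝ) ∈ CC := by
  change cos φ ^ 2 + sin φ ^ 2 ≤ 1
  rw [cos_sq_add_sin_sq]

theorem cont_circ (hw : Adm (2 * π * k) w) :
    Continuous (fun q : ℝ × ℝ => w (cos q.2, sin q.2, q.1) ^ 2) := by
  rw [continuous_iff_continuousAt]
  intro q
  have h1 : ContinuousAt w (cos q.2, sin q.2, q.1) := hw.continuousAt (circ_mem q.2 q.1)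
  have h2 : ContinuousAt (fun q : ℝ × ℝ => ((cos q.2, sin q.2, q.1) : ℝ × ℝ × ℝ)) q := by
    fun_prop
  have h3 := ContinuousAt.comp (f := fun q : ℝ × ℝ => ((cos q.2, sin q.2, q.1) : ℝ × ℝ × ℝ))
    (g := w) (x := q) h1 h2
  exact h3.pow 2

theorem cont_Bd (hw : Adm (2 * π * k) w) : Continuous (Bd w) :=
  intervalIntegral.continuous_parametric_intervalIntegral_of_continuous'
    (f := fun z φ => w (cos φ, sin φ, z) ^ 2) (cont_circ hw) 0 (2 * π)

theorem bdry_vv (hw : Adm (2 * π * k) w) :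
    bdry (2 * π) (vv w k) = bdry (2 * π * k) w := by
  have h1 : ∀ z : ℝ, ∫ φ in (0 : ℝ)..(2 * π), vv w k (cos φ, sin φ, z) ^ 2 =
      ∑ j ∈ Finset.range k, Bd w (z + 2 * π * j) := by
    intro z
    have h2 : ∀ φ : ℝ, vv w k (cos φ, sin φ, z) ^ 2 =
        ∑ j ∈ Finset.range k, w (cos φ, sin φ, z + 2 * π * j) ^ 2 := by
      intro φ
      rw [vv_sq]
      unfold SS
      refine Finset.sum_congr rfl fun j _ => ?_
      simp only [sv, Prod.mk_add_mk, add_zero]
    simp only [h2]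
    rw [intervalIntegral.integral_finsetSum]
    · rfl
    · intro j _
      apply Continuous.intervalIntegrable
      have h7 : Continuous (fun φ : ℝ => ((z + 2 * π * j, φ) : ℝ × ℝ)) := by fun_prop
      exact Continuous.comp (g := fun q : ℝ × ℝ => w (cos q.2, sin q.2, q.1) ^ 2)
        (f := fun φ : ℝ => ((z + 2 * π * j, φ) : ℝ × ℝ)) (cont_circ hw) h7
  unfold bdry
  simp only [h1]
  rw [intervalIntegral.integral_finsetSum]
  · have h3 : ∀ j : ℕ, ∫ z in (0:ℝ)..(2 * π), Bd w (z + 2 * π * j) =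
        ∫ z in (2 * π * j)..(2 * π * (j + 1 : ℕ)), Bd w z := by
      intro j
      rw [intervalIntegral.integral_comp_add_right (Bd w)]
      congr 1
      · ring
      · push_cast
        ring
    rw [Finset.sum_congr rfl (fun j _ => h3 j)]
    rw [intervalIntegral.sum_integral_adjacent_intervals]
    · simp only [Nat.cast_zero, mul_zero]
      rfl
    · intro j _
      exact (cont_Bd hw).intervalIntegrable _ _
  · intro j _
    apply Continuous.intervalIntegrable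
    have := cont_Bd hw
    fun_prop

theorem wrap (q : ℝ) (hq : 0 ≤ q)
    (h : ∀ v : ℝ × ℝ × ℝ → ℝ, Adm (2 * π) v →
      q * (∫ p in Cyl (2 * π), Ay p * v p ^ 6) ^ (1 / 3 : ℝ) ≤ Ey 1 (2 * π) v)
    (k : ℕ) (hk : 0 < k) (w : ℝ × ℝ × ℝ → ℝ) (hw : Adm (2 * π * k) w) :
    q * (∫ p in Cyl (2 * π * k), Ay p * w p ^ 6) ^ (1 / 3 : ℝ) ≤ Ey 1 (2 * π * k) w := by
  have hv := vv_adm hk hw
  have hv' : Adm (2 * π * (1 : ℕ)) (vv w k) := by
    rw [Nat.cast_one, mul_one]
    exact hv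
  have h1 := h (vv w k) hv
  -- the volume
  have hF6 : ContinuousOn (fun p => Ay p * w p ^ 6) CC := by
    have h4 := cont_w hw
    have h5 := cont_Ay
    fun_prop
  have hV6 : ContinuousOn (fun p => Ay p * vv w k p ^ 6) CC := by
    have h4 := cont_w hv'
    have h5 := cont_Ay
    fun_prop
  have hvol : ∫ p in Cyl (2 * π * k), Ay p * w p ^ 6 ≤
      ∫ p in Cyl (2 * π), Ay p * vv w k p ^ 6 := by
    rw [split hF6 k, ← integral_finsetSum]
    · apply setIntegral_mono_on _ (intOn' hV6 _) (measurableSet_Cyl _)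
      · intro p hp
        have hp' : p ∈ CC := hp.1.le
        simp only [Ay_sv, ← Finset.mul_sum]
        exact mul_le_mul_of_nonneg_left (six hk hw hp') (Ay_pos (p := p) hp').le
      · apply integrable_finsetSum
        intro j _
        exact intOn' (shift_cont hF6 j) _
    · intro j _
      exact intOn' (shift_cont hF6 j) _
  have hpos : 0 ≤ ∫ p in Cyl (2 * π * k), Ay p * w p ^ 6 := by
    apply setIntegral_nonneg (measurableSet_Cyl _)
    intro p hp
    have hp' : p ∈ CC := hp.1.le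
    have h2 := (Ay_pos (p := p) hp').le
    have h3 : 0 < w p := hw.pos _ _ _ hp'
    positivity
  -- the energy
  have hE : (∫ p in Cyl (2 * π), En (vv w k) p) ≤ ∫ p in Cyl (2 * π * k), En w p := by
    have hcE := cont_En hw
    rw [split hcE k, ← integral_finsetSum]
    · apply setIntegral_mono_on (intOn' (cont_En hv') _) _ (measurableSet_Cyl _)
      · intro p hp
        have hp' : p ∈ CC := hp.1.le
        exact En_le hk hw hp'
      · apply integrable_finsetSum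
        intro j _
        exact intOn' (shift_cont hcE j) _
    · intro j _
      exact intOn' (shift_cont hcE j) _
  have hE2 : Ey 1 (2 * π) (vv w k) ≤ Ey 1 (2 * π * k) w := by
    have e1 : Ey 1 (2 * π) (vv w k) = (∫ p in Cyl (2 * π), En (vv w k) p) +
        2 * √2 * bdry (2 * π) (vv w k) := rfl
    have e2 : Ey 1 (2 * π * k) w = (∫ p in Cyl (2 * π * k), En w p) +
        2 * √2 * bdry (2 * π * k) w := rfl
    rw [e1, e2, bdry_vv hw]
    linarith
  refine le_trans ?_ (h1.trans hE2)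
  exact mul_le_mul_of_nonneg_left (Real.rpow_le_rpow hpos hvol (by norm_num)) hq

end Pool.Agent.TH830.YT746
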