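import Pool.Agent.TH981.SD.Stm

set_option autoImplicit false

open Pool.Agent.TH981.SD
open Finset Set Filter
open scoped BigOperators Topology Classical

namespace Pool.Agent.TH830.J2263

variable {j n : ℕ} {J : SimpleGraph (Fin j)} {G : SimpleGraph (Fin n)}

theorem mem_img (ψ : Fin j → Option (Fin n)) (x : Fin n) :
    x ∈ img ψ ↔ ∃ i, ψ i = some x := by
  simp [img]

theorem mem_dom (ψ : Fin j → Option (Fin n)) (i : Fin j) :
    i ∈ dom ψ ↔ ψ i ≠ none := by
  simp [dom]

theorem mem_offN (I : Finset (Fin n)) (h b : Fin n) :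
    b ∈ offN G I h ↔ G.Adj h b ∧ b ∉ I := by
  simp [offN]

theorem dg_pos (hn : 2 ≤ n) (hG : G.IsTree) (v : Fin n) : 1 ≤ dg G v := by
  have hex : ∃ w : Fin n, w ≠ v := by
    haveI : Nontrivial (Fin n) := Fin.nontrivial_iff_two_le.2 hn
    exact exists_ne v
  obtain ⟨w, hw⟩ := hex
  obtain ⟨p⟩ := hG.connected.preconnected v w
  cases p with
  | nil => exact absurd rfl hw
  | cons h q =>
    unfold dg
    rw [Nat.one_le_iff_ne_zero, Finset.card_ne_zero]
    exact ⟨_, by rw [Finset.mem_filter]; exact ⟨Finset.mem_univ _, h⟩⟩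

theorem dg_le (v : Fin n) : dg G v ≤ n - 1 := by
  unfold dg
  have h1 : Finset.univ.filter (fun w => G.Adj v w) ⊆ Finset.univ.erase v := by
    intro w hw
    rw [Finset.mem_filter] at hw
    rw [Finset.mem_erase]
    refine ⟨?_, Finset.mem_univ _⟩
    rintro rfl
    exact G.loopless.irrefl _ hw.2
  have h2 := Finset.card_le_card h1
  rw [Finset.card_erase_of_mem (Finset.mem_univ v), Finset.card_univ, Fintype.card_fin] at h2
  exact h2

/-- present neighbours -/
noncomputable def pres (J : SimpleGraph (Fin j)) (ψ : Fin j → Option (Fin n)) (i : Fin j) : ℕ :=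
  (Finset.univ.filter (fun l => J.Adj i l ∧ ψ l ≠ none)).card

theorem dg_eq (ψ : Fin j → Option (Fin n)) (i : Fin j) :
    dg J i = miss J ψ i + pres J ψ i := by
  unfold dg miss pres
  rw [← Finset.card_union_of_disjoint]
  · congr 1
    ext l
    simp only [Finset.mem_filter, Finset.mem_univ, true_and, Finset.mem_union]
    tauto
  · rw [Finset.disjoint_left]
    intro l hl hl'
    rw [Finset.mem_filter] at hl hl'
    exact hl'.2.2 hl.2.2

theorem dgG_eq (ψ : Fin j → Option (Fin n)) (hPE : PE J G ψ)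
    (hadj : ∀ i i' v v', ψ i = some v → ψ i' = some v' → (G.Adj v v' ↔ J.Adj i i'))
    (i : Fin j) (h : Fin n) (hi : ψ i = some h) :
    dg G h = (offN G (img ψ) h).card + pres J ψ i := by
  have h1 : pres J ψ i = (Finset.univ.filter (fun w => G.Adj h w ∧ w ∈ img ψ)).card := by
    unfold pres
    refine Finset.card_bij' (fun l _ => (ψ l).getD h) (fun w hw => if hh : ∃ l, ψ l = some w then
      hh.choose else i) ?_ ?_ ?_ ?_
    · intro l hl
      rw [Finset.mem_filter] at hl ⊢
      obtain ⟨w, hw⟩ := Option.ne_none_iff_exists'.1 hl.2.2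
      refine ⟨Finset.mem_univ _, ?_⟩
      rw [hw]
      show G.Adj h w ∧ w ∈ img ψ
      exact ⟨(hadj i l h w hi hw).2 hl.2.1, (mem_img ψ w).2 ⟨l, hw⟩⟩
    · intro w hw
      rw [Finset.mem_filter] at hw ⊢
      have hh := (mem_img ψ w).1 hw.2.2
      refine ⟨Finset.mem_univ _, ?_⟩
      rw [dif_pos hh]
      refine ⟨(hadj i _ h w hi hh.choose_spec).1 hw.2.1, by rw [hh.choose_spec]; simp⟩
    · intro l hl
      rw [Finset.mem_filter] at hl
      obtain ⟨w, hw⟩ := Option.ne_none_iff_exists'.1 hl.2.2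
      have e : (ψ l).getD h = w := by rw [hw]; rfl
      simp only [e]
      have hh : ∃ l, ψ l = some w := ⟨l, hw⟩
      rw [dif_pos hh]
      exact hPE.inj _ _ w hh.choose_spec hw
    · intro w hw
      rw [Finset.mem_filter] at hw
      have hh := (mem_img ψ w).1 hw.2.2
      simp only [dif_pos hh]
      rw [hh.choose_spec]; rfl
  rw [h1]
  unfold dg offN
  rw [← Finset.card_union_of_disjoint]
  · congr 1
    ext l
    simp only [Finset.mem_filter, Finset.mem_univ, true_and, Finset.mem_union]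
    tauto
  · rw [Finset.disjoint_left]
    intro l hl hl'
    rw [Finset.mem_filter] at hl hl'
    exact hl.2.2 hl'.2.2

theorem sum_pres (hJ : J.IsTree) (ψ : Fin j → Option (Fin n)) (hPE : PE J G ψ) :
    ∑ i ∈ dom ψ, (pres J ψ i : ℤ) = 2 * ((dom ψ).card : ℤ) - 2 := by
  set D : Set (Fin j) := {i | ψ i ≠ none} with hD
  have hT : (J.induce D).IsTree := by
    have hac : (J.induce D).IsAcyclic := hJ.isAcyclic.induce D
    exact ⟨hPE.conn, hac⟩
  have hc := hT.card_edgeFinset
  have hs := (J.induce D).sum_degrees_eq_twice_card_edges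
  have hcard : Fintype.card ↥D = (dom ψ).card := by
    rw [Fintype.card_subtype]
    congr 1
  have hdeg : ∀ x : ↥D, (J.induce D).degree x = pres J ψ x.1 := by
    intro x
    rw [← SimpleGraph.card_neighborFinset_eq_degree]
    unfold pres
    rw [← Finset.card_map (Function.Embedding.subtype _)]
    congr 1
    ext l
    simp only [Finset.mem_map, SimpleGraph.mem_neighborFinset, Finset.mem_filter,
      Finset.mem_univ, true_and]
    constructor
    · rintro ⟨y, hy, rfl⟩
      exact ⟨hy, y.2⟩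
    · rintro ⟨h1, h2⟩
      exact ⟨⟨l, h2⟩, h1, rfl⟩
  have hsum : ∑ i ∈ dom ψ, (pres J ψ i : ℤ) = ((∑ x : ↥D, (J.induce D).degree x : ℕ) : ℤ) := by
    rw [Finset.sum_congr rfl (fun (x : ↥D) _ => hdeg x)]
    push_cast
    exact Finset.sum_subtype (dom ψ) (fun x => by rw [mem_dom]; rfl) (fun x => (pres J ψ x : ℤ))
  rw [hsum, hs]
  rw [hcard] at hc
  push_cast
  have : ((J.induce D).edgeFinset.card : ℤ) + 1 = (dom ψ).card := by exact_mod_cast hc
  linarith

theorem sum_match {M : Type*} [AddCommMonoid M] (ψ : Fin j → Option (Fin n))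
    (hinj : ∀ i i' v, ψ i = some v → ψ i' = some v → i = i') (F : Fin n → M) :
    ∑ i, (match ψ i with
      | none => 0
      | some h => F h) = ∑ h ∈ img ψ, F h := by
  have h1 : ∑ i, (match ψ i with
      | none => 0
      | some h => F h) = ∑ i ∈ dom ψ, (match ψ i with
      | none => 0
      | some h => F h) := by
    symm
    refine Finset.sum_subset (Finset.subset_univ _) ?_
    intro i _ hi
    rw [mem_dom, not_not] at hi
    rw [hi]
  rw [h1]
  refine Finset.sum_bij' (fun i hi => (ψ i).get (by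
      rw [mem_dom] at hi; exact Option.isSome_iff_ne_none.2 hi))
    (fun h hh => ((mem_img ψ h).1 hh).choose) ?_ ?_ ?_ ?_ ?_
  · intro i hi
    rw [mem_img]
    exact ⟨i, by simp⟩
  · intro h hh
    rw [mem_dom, ((mem_img ψ h).1 hh).choose_spec]; simp
  · intro i hi
    have hi' := (mem_dom ψ i).1 hi
    obtain ⟨w, hw⟩ := Option.ne_none_iff_exists'.1 hi'
    have hm : w ∈ img ψ := (mem_img ψ w).2 ⟨i, hw⟩
    have e : (ψ i).get (Option.isSome_iff_ne_none.2 hi') = w := by simp [hw]
    have key : ∀ (w' : Fin n) (hw' : w' ∈ img ψ), w' = w →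
        ((mem_img ψ w').1 hw').choose = i := by
      rintro w' hw' rfl
      exact hinj _ _ w' ((mem_img ψ w').1 hw').choose_spec hw
    have hm2 : (ψ i).get (Option.isSome_iff_ne_none.2 hi') ∈ img ψ := by rw [e]; exact hm
    exact key _ hm2 e
  · intro h hh
    have := ((mem_img ψ h).1 hh).choose_spec
    simp [this]
  · intro i hi
    have hi' := (mem_dom ψ i).1 hi
    obtain ⟨w, hw⟩ := Option.ne_none_iff_exists'.1 hi'
    simp [hw]

theorem card_img (ψ : Fin j → Option (Fin n))
    (hinj : ∀ i i' v, ψ i = some v → ψ i' = some v → i = i') :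
    (img ψ).card = (dom ψ).card := by
  have h := sum_match ψ hinj (fun _ => (1 : ℕ))
  rw [Finset.sum_const, smul_eq_mul, mul_one] at h
  rw [← h, Finset.card_eq_sum_ones, ← Finset.sum_subset (Finset.subset_univ (dom ψ))]
  · refine Finset.sum_congr rfl fun i hi => ?_
    obtain ⟨w, hw⟩ := Option.ne_none_iff_exists'.1 ((mem_dom ψ i).1 hi)
    rw [hw]
  · intro i _ hi
    rw [mem_dom, not_not] at hi
    rw [hi]

theorem cell_sum (h1 : S_CELL) (hG : G.IsTree) (I : Finset (Fin n))
    (hI : (G.induce (I : Set (Fin n))).Connected) :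
    ∑ h ∈ I, ∑ b ∈ offN G I h, (br G h b).card + I.card = n := by
  obtain ⟨hc1, hc2⟩ := h1 n G I hG hI
  set P : Finset (Fin n × Fin n) := Finset.univ.filter (fun p => p.1 ∈ I ∧ p.2 ∈ offN G I p.1)
    with hP
  have e1 : ∑ h ∈ I, ∑ b ∈ offN G I h, (br G h b).card = ∑ p ∈ P, (br G p.1 p.2).card := by
    rw [Finset.sum_sigma']
    refine Finset.sum_bij' (fun x _ => (x.1, x.2)) (fun p _ => ⟨p.1, p.2⟩) ?_ ?_ ?_ ?_ ?_
    · rintro ⟨h, b⟩ hx
      rw [Finset.mem_sigma] at hx
      rw [hP, Finset.mem_filter]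
      exact ⟨Finset.mem_univ _, hx.1, hx.2⟩
    · rintro ⟨h, b⟩ hx
      rw [hP, Finset.mem_filter] at hx
      rw [Finset.mem_sigma]
      exact ⟨hx.2.1, hx.2.2⟩
    · intro x _; rfl
    · intro p _; rfl
    · intro x _; rfl
  have e2 : ∑ p ∈ P, (br G p.1 p.2).card = (Finset.univ \ I).card := by
    have e3 : (Finset.univ \ I).card = ∑ v ∈ Finset.univ \ I, (P.filter
        (fun p => v ∈ br G p.1 p.2)).card := by
      rw [Finset.card_eq_sum_ones]
      refine Finset.sum_congr rfl fun v hv => ?_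
      rw [Finset.mem_sdiff] at hv
      obtain ⟨p, hp, hpu⟩ := hc1 v hv.2
      symm
      rw [Finset.card_eq_one]
      refine ⟨p, ?_⟩
      ext q
      rw [Finset.mem_filter, Finset.mem_singleton, hP, Finset.mem_filter]
      constructor
      · rintro ⟨⟨-, h1, h2⟩, h3⟩
        exact hpu q ⟨h1, h2, h3⟩
      · rintro rfl
        exact ⟨⟨Finset.mem_univ _, hp.1, hp.2.1⟩, hp.2.2⟩
    have e4 := Finset.sum_card_bipartiteAbove_eq_sum_card_bipartiteBelow
      (r := fun (v : Fin n) (p : Fin n × Fin n) => v ∈ br G p.1 p.2)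
      (s := Finset.univ \ I) (t := P)
    rw [e3]
    refine Eq.trans ?_ e4.symm
    refine Finset.sum_congr rfl fun p hp => ?_
    rw [hP, Finset.mem_filter] at hp
    congr 1
    ext v
    rw [Finset.mem_bipartiteBelow, Finset.mem_sdiff]
    constructor
    · intro hv
      exact ⟨⟨Finset.mem_univ _, fun hvI => hc2 v hvI p.1 hp.2.1 p.2 hp.2.2 hv⟩, hv⟩
    · rintro ⟨-, hv⟩; exact hv
  rw [e1, e2, ← Finset.card_union_of_disjoint Finset.sdiff_disjoint]
  rw [Finset.sdiff_union_of_subset (Finset.subset_univ I), Finset.card_univ, Fintype.card_fin]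

theorem br_leaf (hG : G.IsTree) (h b : Fin n) (hb : G.Adj h b) (hdg : dg G b = 1) :
    br G h b = {b} := by
  ext v
  unfold br
  rw [Finset.mem_filter, Finset.mem_singleton]
  constructor
  · rintro ⟨-, hv⟩
    by_contra hne
    obtain ⟨p, hp⟩ := hG.connected.exists_walk_length_eq_dist b v
    cases p with
    | nil => exact hne rfl
    | @cons _ b' _ hadj q =>
      have hb' : b' = h := by
        unfold dg at hdg
        obtain ⟨x, hx⟩ := Finset.card_eq_one.1 hdg
        have m1 : b' ∈ Finset.univ.filter (fun w => G.Adj b w) := by simp [hadj]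
        have m2 : h ∈ Finset.univ.filter (fun w => G.Adj b w) := by simp [hb.symm]
        rw [hx, Finset.mem_singleton] at m1 m2
        rw [m1, m2]
      subst hb'
      have h1 := SimpleGraph.dist_le q
      rw [SimpleGraph.Walk.length_cons] at hp
      rw [SimpleGraph.dist_comm (u := v) (v := b), SimpleGraph.dist_comm (u := v) (v := b')] at hv
      omega
  · rintro rfl
    refine ⟨Finset.mem_univ _, ?_⟩
    rw [SimpleGraph.dist_self]
    exact hG.connected.pos_dist_of_ne (by rintro rfl; exact G.loopless.irrefl _ hb)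

theorem cnt (h1 : S_CELL) (h2 : S_IMG) : S_CNT := by
  intro j n J G hj hn hJ hG
  have part1 : ∀ ψ ∈ PEs J G, (∀ i h, ψ i = some h → dg G h + miss J ψ i =
      (offN G (img ψ) h).card + dg J i) ∧
    (∑ i ∈ dom ψ, (dg J i - miss J ψ i : ℤ) = 2 * ((dom ψ).card : ℤ) - 2) ∧
    (dom ψ).Nonempty ∧ (dom ψ).card ≤ n ∧
    (∑ i, (match ψ i with
      | none => 0
      | some h => ∑ b ∈ offN G (img ψ) h, (br G h b).card) + (dom ψ).card = n) := by
    intro ψ hψ
    have hPE : PE J G ψ := by simpa [PEs] using hψ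
    obtain ⟨hconn, hadj, -⟩ := h2 j n J G ψ hJ hG hPE
    refine ⟨?_, ?_, ?_, ?_, ?_⟩
    · intro i h hi
      rw [dgG_eq ψ hPE hadj i h hi, dg_eq ψ i]
      ring
    · rw [← sum_pres hJ ψ hPE]
      refine Finset.sum_congr rfl fun i _ => ?_
      rw [dg_eq ψ i]; push_cast; ring
    · obtain ⟨x⟩ := hPE.conn.nonempty
      exact ⟨x.1, (mem_dom ψ _).2 x.2⟩
    · rw [← card_img ψ hPE.inj]
      exact (Finset.card_le_univ _).trans (by simp)
    · rw [sum_match ψ hPE.inj (fun h => ∑ b ∈ offN G (img ψ) h, (br G h b).card),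
        ← card_img ψ hPE.inj]
      exact cell_sum h1 hG (img ψ) hconn
  refine ⟨part1, ?_, fun v => ⟨dg_pos hn hG v, dg_le v⟩⟩
  intro ψ hF
  obtain ⟨hT, hleaf⟩ := hF
  have hT' : PE J G ψ ∧ ∀ i, ψ i ≠ none := by simpa [TEs] using hT
  obtain ⟨hPE, htot⟩ := hT'
  have hψ : ψ ∈ PEs J G := by simpa [PEs] using hPE
  obtain ⟨p1, p2, p3, p4, p5⟩ := part1 ψ hψ
  have hbr : ∀ i h b, ψ i = some h → b ∈ offN G (img ψ) h → br G h b = {b} ∧ dg G b = 1 := by
    intro i h b hi hb
    rw [mem_offN] at hb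
    exact ⟨br_leaf hG h b hb.1 (hleaf b hb.2), hleaf b hb.2⟩
  have hdom : dom ψ = Finset.univ := by
    ext i; rw [mem_dom]; simp [htot i]
  have hmiss : ∀ i, miss J ψ i = 0 := by
    intro i
    unfold miss
    rw [Finset.card_eq_zero]
    ext l
    simp [htot l]
  have hdv : ∀ i h, ψ i = some h → dv G ψ i = dg G h := by
    intro i h hi; unfold dv; rw [hi]
  have hdeq : ∀ i, dv G ψ i = (match ψ i with
      | none => 0
      | some h => ∑ b ∈ offN G (img ψ) h, (br G h b).card) + dg J i := by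
    intro i
    obtain ⟨h, hi⟩ := Option.ne_none_iff_exists'.1 (htot i)
    rw [hdv i h hi]
    have := p1 i h hi
    rw [hmiss i, add_zero] at this
    rw [this]
    congr 1
    simp only [hi]
    rw [Finset.card_eq_sum_ones]
    refine Finset.sum_congr rfl fun b hb => ?_
    rw [(hbr i h b hi hb).1, Finset.card_singleton]
  refine ⟨⟨?_, ?_⟩, ?_, hbr⟩
  · intro i
    obtain ⟨h, hi⟩ := Option.ne_none_iff_exists'.1 (htot i)
    refine ⟨?_, ?_, ?_⟩
    · rw [hdeq i]; exact Nat.le_add_left _ _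
    · rw [hdv i h hi]; exact dg_pos hn hG h
    · rw [hdv i h hi]; exact (dg_le h).trans (Nat.sub_le _ _)
  · rw [Finset.sum_congr rfl (fun i _ => hdeq i), Finset.sum_add_distrib]
    rw [hdom, Finset.card_univ, Fintype.card_fin] at p2 p5
    have e : ∑ i, (dg J i : ℤ) = 2 * (j : ℤ) - 2 := by
      rw [← p2]
      refine Finset.sum_congr rfl fun i _ => ?_
      rw [hmiss i]; push_cast; ring
    have e' : (∑ i, dg J i) + 2 = 2 * j := by
      have : ((∑ i, dg J i : ℕ) : ℤ) + 2 = 2 * (j : ℤ) := by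
        push_cast; rw [e]; ring
      exact_mod_cast this
    omega
  · unfold eTot
    refine Finset.sum_eq_zero fun i _ => ?_
    obtain ⟨h, hi⟩ := Option.ne_none_iff_exists'.1 (htot i)
    simp only [hi]
    refine Finset.sum_eq_zero fun b hb => ?_
    rw [(hbr i h b hi hb).1, Finset.card_singleton, Nat.sub_self]

end Pool.Agent.TH830.J2263
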