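import Pool.Agent.TH981.SD.Stm

set_option autoImplicit false

open Pool.Agent.TH981.SD
open Finset Set Filter
open scoped BigOperators Topology Classical

namespace Pool.Agent.TH830.J2265

/-! ### generic bounds for `hval` -/

theorem hval_nonneg {n : ℕ} (O : Finset (Fin n)) (a b : Fin n → ℝ) (g : ℕ → ℝ) (r : ℕ)
    (ha : ∀ x, 0 ≤ a x) (hb : ∀ x, 0 ≤ b x) (hg : ∀ r, 0 ≤ g r) : 0 ≤ hval O a b g r := by
  unfold hval
  exact Finset.sum_nonneg fun S _ => mul_nonneg (mul_nonneg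
    (Finset.prod_nonneg fun x _ => hb x) (Finset.prod_nonneg fun x _ => ha x)) (hg _)

theorem hval_le {n : ℕ} (O : Finset (Fin n)) (a b : Fin n → ℝ) (g : ℕ → ℝ) (r : ℕ) (M : ℝ)
    (ha : ∀ x, 0 ≤ a x) (hb : ∀ x, 0 ≤ b x) (hg : ∀ r, g r ≤ M) :
    hval O a b g r ≤ (∏ x ∈ O, (a x + b x)) * M := by
  unfold hval
  have e : ∏ x ∈ O, (a x + b x) = ∑ S ∈ O.powerset, (∏ x ∈ S, b x) * (∏ x ∈ O \ S, a x) := by
    rw [← Finset.prod_add]
    exact Finset.prod_congr rfl fun x _ => add_comm _ _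
  rw [e, Finset.sum_mul]
  exact Finset.sum_le_sum fun S _ => mul_le_mul_of_nonneg_left (hg _) (mul_nonneg
    (Finset.prod_nonneg fun x _ => hb x) (Finset.prod_nonneg fun x _ => ha x))

/-- bound with an extra small factor `δ` -/
theorem hval_small {n : ℕ} (O : Finset (Fin n)) (a b : Fin n → ℝ) (g : ℕ → ℝ) (M E δ W : ℝ)
    (ha : ∀ x ∈ O, 0 ≤ a x) (ha1 : ∀ x ∈ O, a x ≤ 1) (hb : ∀ x ∈ O, 0 ≤ b x)
    (hbE : ∀ x ∈ O, b x ≤ E) (hbδ : ∀ x ∈ O, b x ≤ W * δ) (hE : 1 ≤ E) (hδ : 0 ≤ δ) (hW : 0 ≤ W)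
    (hM : 0 ≤ M) (hg0' : ∀ r, 0 ≤ g r)
    (hg : ∀ r, g r ≤ M) (hg0 : g 0 ≤ M * (W * δ)) :
    hval O a b g 0 ≤ 2 ^ O.card * (E ^ O.card * (M * (W * δ))) := by
  unfold hval
  have hterm : ∀ S ∈ O.powerset, (∏ x ∈ S, b x) * (∏ x ∈ O \ S, a x) * g (0 + S.card) ≤
      E ^ O.card * (M * (W * δ)) := by
    intro S hS
    rw [Finset.mem_powerset] at hS
    have hA0 : 0 ≤ ∏ x ∈ O \ S, a x :=
      Finset.prod_nonneg fun x hx => ha x (Finset.mem_sdiff.1 hx).1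
    have hA1 : ∏ x ∈ O \ S, a x ≤ 1 :=
      Finset.prod_le_one (fun x hx => ha x (Finset.mem_sdiff.1 hx).1)
        (fun x hx => ha1 x (Finset.mem_sdiff.1 hx).1)
    have hWδ : 0 ≤ W * δ := mul_nonneg hW hδ
    rcases S.eq_empty_or_nonempty with rfl | ⟨x0, hx0⟩
    · rw [Finset.prod_empty, one_mul, Finset.card_empty]
      have h1 : (∏ x ∈ O \ ∅, a x) * g (0 + 0) ≤ 1 * (M * (W * δ)) :=
        mul_le_mul hA1 hg0 (hg0' _) zero_le_one
      refine h1.trans ?_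
      exact mul_le_mul_of_nonneg_right (one_le_pow₀ hE) (mul_nonneg hM hWδ)
    · have hB : ∏ x ∈ S, b x ≤ (W * δ) * E ^ O.card := by
        rw [← Finset.mul_prod_erase S b hx0]
        have h2 : ∏ x ∈ S.erase x0, b x ≤ E ^ O.card := by
          have h3 : ∏ x ∈ S.erase x0, b x ≤ ∏ _x ∈ S.erase x0, E :=
            Finset.prod_le_prod (fun x hx => hb x (hS (Finset.mem_of_mem_erase hx)))
              (fun x hx => hbE x (hS (Finset.mem_of_mem_erase hx)))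
          rw [Finset.prod_const] at h3
          refine h3.trans (pow_le_pow_right₀ hE ?_)
          exact (Finset.card_le_card (Finset.erase_subset _ _)).trans (Finset.card_le_card hS)
        exact mul_le_mul (hbδ x0 (hS hx0)) h2
          (Finset.prod_nonneg fun x hx => hb x (hS (Finset.mem_of_mem_erase hx))) hWδ
      have hB0 : 0 ≤ ∏ x ∈ S, b x := Finset.prod_nonneg fun x hx => hb x (hS hx)
      have hE0 : 0 ≤ (W * δ) * E ^ O.card := mul_nonneg hWδ (by positivity)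
      calc (∏ x ∈ S, b x) * (∏ x ∈ O \ S, a x) * g (0 + S.card)
          ≤ ((W * δ) * E ^ O.card) * 1 * M := by
            refine mul_le_mul ?_ (hg _) (hg0' _) (by linarith)
            exact mul_le_mul hB hA1 hA0 hE0
        _ = E ^ O.card * (M * (W * δ)) := by ring
  refine (Finset.sum_le_sum hterm).trans (le_of_eq ?_)
  rw [Finset.sum_const, Finset.card_powerset, nsmul_eq_mul]
  push_cast
  ring

/-! ### combinatorics -/

theorem sum_dg {n : ℕ} {G : SimpleGraph (Fin n)} (hG : G.IsTree) :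
    (∑ v, dg G v) + 2 = 2 * n := by
  have hc := hG.card_edgeFinset
  have hs := G.sum_degrees_eq_twice_card_edges
  have hd : ∀ v, dg G v = G.degree v := by
    intro v
    rw [← SimpleGraph.card_neighborFinset_eq_degree]
    unfold dg
    congr 1
    ext w; simp
  rw [Finset.sum_congr rfl (fun v _ => hd v), hs]
  rw [Fintype.card_fin] at hc
  omega

theorem lam_le (α : ℝ) (h0 : 0 < α) (h1 : α < 1) (d : ℕ) (hd : 1 ≤ d) : lam α d ≤ d := by
  unfold lam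
  have h : (1:ℝ) ≤ d := by exact_mod_cast hd
  calc (d:ℝ) ^ α ≤ (d:ℝ) ^ (1:ℝ) := Real.rpow_le_rpow_of_exponent_le h h1.le
    _ = d := Real.rpow_one _

theorem lam_nonneg (α : ℝ) (d : ℕ) : 0 ≤ lam α d := Real.rpow_nonneg (Nat.cast_nonneg _) _

theorem card_degs {n : ℕ} (G : SimpleGraph (Fin n)) (C : Finset (Fin n)) :
    Multiset.card (degs G C) = C.card := by
  simp [degs]

theorem sum_lam_degs {n : ℕ} {G : SimpleGraph (Fin n)} (hG : G.IsTree) (α : ℝ) (h0 : 0 < α)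
    (h1 : α < 1) (hdg : ∀ v, 1 ≤ dg G v) (C : Finset (Fin n)) :
    ((degs G C).map (lam α)).sum ≤ 2 * n := by
  have e : ((degs G C).map (lam α)).sum = ∑ v ∈ C, lam α (dg G v) := by
    unfold degs
    rw [Multiset.map_map]; rfl
  rw [e]
  calc ∑ v ∈ C, lam α (dg G v) ≤ ∑ v, lam α (dg G v) :=
        Finset.sum_le_sum_of_subset_of_nonneg (Finset.subset_univ C)
          (fun v _ _ => lam_nonneg α _)
    _ ≤ ∑ v, (dg G v : ℝ) := Finset.sum_le_sum fun v _ => lam_le α h0 h1 _ (hdg v)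
    _ = ((∑ v, dg G v : ℕ) : ℝ) := by push_cast; rfl
    _ ≤ 2 * n := by
        have := sum_dg hG
        have h2 : ∑ v, dg G v ≤ 2 * n := by omega
        exact_mod_cast h2

theorem mem_degs {n : ℕ} (G : SimpleGraph (Fin n)) (hdg : ∀ v, 1 ≤ dg G v) (C : Finset (Fin n)) :
    ∀ d ∈ degs G C, 1 ≤ d := by
  intro d hd
  unfold degs at hd
  rw [Multiset.mem_map] at hd
  obtain ⟨v, -, rfl⟩ := hd
  exact hdg v

theorem br_card_pos {n : ℕ} {G : SimpleGraph (Fin n)} (hG : G.IsTree) (h b : Fin n)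
    (hb : G.Adj h b) : 1 ≤ (br G h b).card := by
  rw [Nat.one_le_iff_ne_zero, Finset.card_ne_zero]
  refine ⟨b, ?_⟩
  unfold br
  rw [Finset.mem_filter]
  refine ⟨Finset.mem_univ _, ?_⟩
  rw [SimpleGraph.dist_self]
  exact hG.connected.pos_dist_of_ne (by rintro rfl; exact G.loopless.irrefl _ hb)

theorem mem_offN {n : ℕ} (G : SimpleGraph (Fin n)) (I : Finset (Fin n)) (h b : Fin n) :
    b ∈ offN G I h ↔ G.Adj h b ∧ b ∉ I := by
  simp [offN]

/-! ### the system -/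

section sys
variable {j : ℕ} (s : Sys j)

/-- data used at a time `t` -/
structure Dat (t : ℝ) : Prop where
  F : Facts s
  ht : 0 ≤ t
  ND : (s.N : ℝ) ≤ s.D
  V1 : ∀ i k, 1 ≤ k → k ≤ s.N → s.V i (k + 1) t ≤ s.D * s.V i k t
  K2 : ∀ i, 2 ≤ s.Kv i
  KK : ∀ i, s.Kv i ≤ s.K
  apos : ∀ C : Multiset ℕ, 0 < aW s.Y t C
  bnn : ∀ C : Multiset ℕ, 0 ≤ bW s.α s.Y t C
  bl : ∀ C : Multiset ℕ, bW s.α s.Y t C ≤ aW s.Y t C * (C.map (lam s.α)).sum
  al : ∀ C : Multiset ℕ, (∀ d ∈ C, 1 ≤ d) → aW s.Y t C ≤ s.Y 1 t ^ (Multiset.card C)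
  bs : ∀ C : Multiset ℕ, (∀ d ∈ C, 1 ≤ d) →
    bW s.α s.Y t C ≤ (1 + bet s.α) * (C.map (lam s.α)).sum * (1 - s.Y 1 t)

variable {s} {t : ℝ} (D : Dat s t)
include D

theorem Dat.y0 : 0 < s.Y 1 t := D.F.hY.pos 1 t D.ht

theorem Dat.y1 : s.Y 1 t ≤ 1 := (D.F.hY.le 1 t D.ht).trans D.F.z1.le

theorem Dat.Dpos : 0 < s.D := by
  have h : (3:ℝ) ≤ s.N := by exact_mod_cast D.F.par.N3
  linarith [D.ND]

theorem Dat.D1 : 1 ≤ s.D := by
  have h : (3:ℝ) ≤ s.N := by exact_mod_cast D.F.par.N3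
  linarith [D.ND]

theorem Dat.Vpos (i : Fin j) (d : ℕ) : 0 < s.V i d t := (D.F.hV i).pos d t D.ht

theorem Dat.Am0 : 0 ≤ s.Am t := by
  unfold Sys.Am
  refine le_min ?_ zero_le_one
  have h1 : 0 ≤ 1 - s.Y 1 t := by linarith [D.y1]
  exact mul_nonneg (mul_nonneg (by positivity) D.Dpos.le) h1

theorem Dat.Am1 : s.Am t ≤ 1 := min_le_right _ _

theorem Dat.Amd : s.Am t ≤ (2:ℝ) ^ (j + 6) * s.D * (1 - s.Y 1 t) := min_le_left _ _

theorem Dat.eta1 (d : ℕ) : 1 ≤ s.eta d := by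
  unfold Sys.eta
  have : 0 ≤ (d:ℝ) / s.D := div_nonneg (Nat.cast_nonneg _) D.Dpos.le
  linarith

theorem Dat.eta2 (d : ℕ) (hd : d ≤ s.N) : s.eta d ≤ 2 := by
  unfold Sys.eta
  have h1 : (d:ℝ) ≤ s.D := le_trans (by exact_mod_cast hd) D.ND
  have : (d:ℝ) / s.D ≤ 1 := (div_le_one D.Dpos).2 h1
  linarith

theorem Dat.Gle0 (i : Fin j) (m d r : ℕ) (hm : m ≤ j) (hd1 : 1 ≤ d) (hd : d ≤ s.N) :
    s.Gf i m d r t ≤ (2:ℝ) ^ (j + 4) * s.Am t ^ (4 - r) * s.V i d t := by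
  have key : s.Gf i m d r t ≤ s.eta d ^ (m + (4 - r)) * s.Am t ^ (4 - r) * s.V i d t := by
    unfold Sys.Gf
    split_ifs with h
    · have := D.F.marks i d r t hd1 D.ht
      rw [h, zero_add]
      exact this
    · exact le_refl _
  refine key.trans ?_
  have h1 : s.eta d ^ (m + (4 - r)) ≤ (2:ℝ) ^ (j + 4) :=
    calc s.eta d ^ (m + (4 - r)) ≤ s.eta d ^ (j + 4) :=
          pow_le_pow_right₀ (D.eta1 d) (by omega)
      _ ≤ 2 ^ (j + 4) := pow_le_pow_left₀ (by linarith [D.eta1 d]) (D.eta2 d hd) _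
  exact mul_le_mul_of_nonneg_right (mul_le_mul_of_nonneg_right h1 (pow_nonneg D.Am0 _))
    (D.Vpos i d).le

theorem Dat.Gle (i : Fin j) (m d r : ℕ) (hm : m ≤ j) (hd1 : 1 ≤ d) (hd : d ≤ s.N) :
    s.Gf i m d r t ≤ (2:ℝ) ^ (j + 4) * s.V i d t := by
  refine (D.Gle0 i m d r hm hd1 hd).trans ?_
  have h1 : s.Am t ^ (4 - r) ≤ 1 := pow_le_one₀ D.Am0 D.Am1
  have h2 : (2:ℝ) ^ (j + 4) * s.Am t ^ (4 - r) ≤ (2:ℝ) ^ (j + 4) * 1 :=
    mul_le_mul_of_nonneg_left h1 (by positivity)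
  rw [mul_one] at h2
  exact mul_le_mul_of_nonneg_right h2 (D.Vpos i d).le

theorem Dat.G0le (i : Fin j) (m d : ℕ) (hm : m ≤ j) (hd1 : 1 ≤ d) (hd : d ≤ s.N) :
    s.Gf i m d 0 t ≤ (2:ℝ) ^ (j + 4) * s.V i d t * ((2:ℝ) ^ (j + 6) * s.D * (1 - s.Y 1 t)) := by
  refine (D.Gle0 i m d 0 hm hd1 hd).trans ?_
  have h1 : s.Am t ^ (4 - 0) ≤ (2:ℝ) ^ (j + 6) * s.D * (1 - s.Y 1 t) := by
    refine le_trans ?_ D.Amd
    calc s.Am t ^ (4 - 0) = s.Am t * s.Am t ^ 3 := by ring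
      _ ≤ s.Am t * 1 := mul_le_mul_of_nonneg_left (pow_le_one₀ D.Am0 D.Am1) D.Am0
      _ = s.Am t := mul_one _
  have h2 : 0 ≤ (2:ℝ) ^ (j + 4) * s.V i d t := mul_nonneg (by positivity) (D.Vpos i d).le
  calc (2:ℝ) ^ (j + 4) * s.Am t ^ (4 - 0) * s.V i d t
      = (2:ℝ) ^ (j + 4) * s.V i d t * s.Am t ^ (4 - 0) := by ring
    _ ≤ _ := mul_le_mul_of_nonneg_left h1 h2

theorem Dat.Gnn (i : Fin j) (m d r : ℕ) : 0 ≤ s.Gf i m d r t := by
  unfold Sys.Gf
  split_ifs with h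
  · exact (D.F.hu i).nonneg d r t D.ht
  · exact mul_nonneg (mul_nonneg (pow_nonneg (by linarith [D.eta1 d]) _) (pow_nonneg D.Am0 _))
      (D.Vpos i d).le

theorem Dat.Vle (i : Fin j) : ∀ k : ℕ, k + 1 ≤ s.N → s.V i (k + 1) t ≤ s.D ^ k * s.V i 1 t := by
  intro k
  induction k with
  | zero => intro _; simp
  | succ k ih =>
    intro hk
    have h1 := D.V1 i (k + 1) (by omega) (by omega)
    have h2 := ih (by omega)
    calc s.V i (k + 1 + 1) t ≤ s.D * s.V i (k + 1) t := h1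
      _ ≤ s.D * (s.D ^ k * s.V i 1 t) := mul_le_mul_of_nonneg_left h2 D.Dpos.le
      _ = s.D ^ (k + 1) * s.V i 1 t := by ring

theorem Dat.Vle' (i : Fin j) (d : ℕ) (h1 : 1 ≤ d) (hd : d ≤ s.N) :
    s.V i d t ≤ s.D ^ (s.N - 1) * s.V i 1 t := by
  obtain ⟨k, rfl⟩ : ∃ k, d = k + 1 := ⟨d - 1, by omega⟩
  refine (D.Vle i k hd).trans ?_
  exact mul_le_mul_of_nonneg_right (pow_le_pow_right₀ D.D1 (by omega)) (D.Vpos i 1).le

/-! branch bounds -/

variable {G : SimpleGraph (Fin s.N)} (hG : G.IsTree) (hdg : ∀ v, 1 ≤ dg G v)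
include hG hdg

theorem Dat.Bal (C : Finset (Fin s.N)) : aW s.Y t (degs G C) ≤ s.Y 1 t ^ C.card := by
  have := D.al (degs G C) (mem_degs G hdg C)
  rwa [card_degs] at this

theorem Dat.Bal1 (C : Finset (Fin s.N)) : aW s.Y t (degs G C) ≤ 1 :=
  (D.Bal hG hdg C).trans (pow_le_one₀ D.y0.le D.y1)

theorem Dat.Bsum (C : Finset (Fin s.N)) : ((degs G C).map (lam s.α)).sum ≤ 2 * s.N :=
  sum_lam_degs hG s.α D.F.par.a0 D.F.par.a1' hdg C

theorem Dat.Bbl (i : Fin j) (C : Finset (Fin s.N)) :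
    s.Kv i * bW s.α s.Y t (degs G C) ≤ aW s.Y t (degs G C) * (2 * s.N * s.Kv i) := by
  have h1 : bW s.α s.Y t (degs G C) ≤ aW s.Y t (degs G C) * (2 * s.N) :=
    (D.bl _).trans (mul_le_mul_of_nonneg_left (D.Bsum hG hdg C) (D.apos _).le)
  calc s.Kv i * bW s.α s.Y t (degs G C) ≤ s.Kv i * (aW s.Y t (degs G C) * (2 * s.N)) :=
        mul_le_mul_of_nonneg_left h1 (by linarith [D.K2 i])
    _ = _ := by ring

theorem Dat.Bsumab (i : Fin j) (C : Finset (Fin s.N)) :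
    aW s.Y t (degs G C) + s.Kv i * bW s.α s.Y t (degs G C) ≤
      s.Y 1 t ^ C.card * (3 * s.N * s.Kv i) := by
  have h1 := D.Bbl hG hdg i C
  have h2 := D.Bal hG hdg C
  have hN : (3:ℝ) ≤ s.N := by exact_mod_cast D.F.par.N3
  have hK := D.K2 i
  have h3 : (1:ℝ) ≤ s.N * s.Kv i := by nlinarith
  have ha := (D.apos (degs G C)).le
  calc aW s.Y t (degs G C) + s.Kv i * bW s.α s.Y t (degs G C)
      ≤ aW s.Y t (degs G C) * (1 + 2 * s.N * s.Kv i) := by linarith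
    _ ≤ aW s.Y t (degs G C) * (3 * s.N * s.Kv i) :=
        mul_le_mul_of_nonneg_left (by linarith) ha
    _ ≤ s.Y 1 t ^ C.card * (3 * s.N * s.Kv i) :=
        mul_le_mul_of_nonneg_right h2 (by positivity)

theorem Dat.hubA (J : SimpleGraph (Fin j)) (ψ : Fin j → Option (Fin s.N)) (i : Fin j)
    (h : Fin s.N) (hcc : s.Kv i * s.Y 1 t / 2 ≤ cc s.Y (s.Kv i) t) (hdN : dg G h ≤ s.N)
    (hmj : miss J ψ i ≤ j) :
    hubf J G (aW s.Y t) (bW s.α s.Y t) s.Kv (fun i m d r => s.Gf i m d r t) ψ i h ≤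
      (2:ℝ) ^ (j + 4) * (6 * (s.N:ℝ)) ^ (offN G (img ψ) h).card *
      ((cc s.Y (s.Kv i) t) ^ (offN G (img ψ) h).card * s.V i (dg G h) t *
        (s.Y 1 t) ^ (∑ b ∈ offN G (img ψ) h, ((br G h b).card - 1))) := by
  unfold hubf
  have hKnn : 0 ≤ s.Kv i := by linarith [D.K2 i]
  have h1 := hval_le (offN G (img ψ) h) (fun x => aW s.Y t (degs G (br G h x)))
    (fun x => s.Kv i * bW s.α s.Y t (degs G (br G h x)))
    (fun r => s.Gf i (miss J ψ i) (dg G h) r t) 0 ((2:ℝ) ^ (j + 4) * s.V i (dg G h) t)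
    (fun x => (D.apos _).le) (fun x => mul_nonneg hKnn (D.bnn _))
    (fun r => D.Gle i _ _ r hmj (hdg h) hdN)
  refine h1.trans ?_
  have hM : 0 ≤ (2:ℝ) ^ (j + 4) * s.V i (dg G h) t := mul_nonneg (by positivity) (D.Vpos i _).le
  have h2 : ∏ x ∈ offN G (img ψ) h, (aW s.Y t (degs G (br G h x)) +
      s.Kv i * bW s.α s.Y t (degs G (br G h x))) ≤
      ∏ x ∈ offN G (img ψ) h, (6 * (s.N:ℝ) * (cc s.Y (s.Kv i) t *
        s.Y 1 t ^ ((br G h x).card - 1))) := by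
    refine Finset.prod_le_prod (fun x _ => add_nonneg (D.apos _).le (mul_nonneg hKnn (D.bnn _)))
      (fun x hx => ?_)
    have h3 := D.Bsumab hG hdg i (br G h x)
    refine h3.trans ?_
    rw [mem_offN] at hx
    have h4 := br_card_pos hG h x hx.1
    have h5 : s.Y 1 t ^ (br G h x).card = s.Y 1 t ^ ((br G h x).card - 1) * s.Y 1 t := by
      rw [← pow_succ]; congr 1; omega
    rw [h5]
    have h6 : 0 ≤ s.Y 1 t ^ ((br G h x).card - 1) := pow_nonneg D.y0.le _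
    have h7 : s.Y 1 t * (3 * s.N * s.Kv i) ≤ 6 * s.N * cc s.Y (s.Kv i) t := by
      have hN : (0:ℝ) ≤ s.N := Nat.cast_nonneg _
      nlinarith
    calc s.Y 1 t ^ ((br G h x).card - 1) * s.Y 1 t * (3 * s.N * s.Kv i)
        = s.Y 1 t ^ ((br G h x).card - 1) * (s.Y 1 t * (3 * s.N * s.Kv i)) := by ring
      _ ≤ s.Y 1 t ^ ((br G h x).card - 1) * (6 * s.N * cc s.Y (s.Kv i) t) :=
          mul_le_mul_of_nonneg_left h7 h6
      _ = _ := by ring
  refine (mul_le_mul_of_nonneg_right h2 hM).trans (le_of_eq ?_)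
  simp only [Finset.prod_mul_distrib, Finset.prod_const, Finset.prod_pow_eq_pow_sum]
  ring

theorem Dat.Bab (i : Fin j) (hKD : 3 * s.N * s.K ≤ s.D) (C : Finset (Fin s.N)) :
    aW s.Y t (degs G C) + s.Kv i * bW s.α s.Y t (degs G C) ≤ s.D := by
  have h1 := D.Bsumab hG hdg i C
  have h2 : s.Y 1 t ^ C.card ≤ 1 := pow_le_one₀ D.y0.le D.y1
  have hN : (0:ℝ) ≤ s.N := Nat.cast_nonneg _
  have h3 : 3 * s.N * s.Kv i ≤ 3 * s.N * s.K :=
    mul_le_mul_of_nonneg_left (D.KK i) (by positivity)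
  have h4 : 0 ≤ 3 * s.N * s.Kv i := mul_nonneg (by positivity) (by linarith [D.K2 i])
  calc _ ≤ s.Y 1 t ^ C.card * (3 * s.N * s.Kv i) := h1
    _ ≤ 1 * (3 * s.N * s.Kv i) := mul_le_mul_of_nonneg_right h2 h4
    _ ≤ s.D := by linarith

theorem Dat.hubB (J : SimpleGraph (Fin j)) (ψ : Fin j → Option (Fin s.N)) (i : Fin j)
    (h : Fin s.N) (hKD : 3 * s.N * s.K ≤ s.D) (h2D : (2:ℝ) ^ (j + 4) ≤ s.D)
    (hdN : dg G h ≤ s.N) (hmj : miss J ψ i ≤ j) :
    hubf J G (aW s.Y t) (bW s.α s.Y t) s.Kv (fun i m d r => s.Gf i m d r t) ψ i h ≤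
      s.D ^ (2 * s.N) * s.V i 1 t := by
  unfold hubf
  have hKnn : 0 ≤ s.Kv i := by linarith [D.K2 i]
  have h1 := hval_le (offN G (img ψ) h) (fun x => aW s.Y t (degs G (br G h x)))
    (fun x => s.Kv i * bW s.α s.Y t (degs G (br G h x)))
    (fun r => s.Gf i (miss J ψ i) (dg G h) r t) 0 ((2:ℝ) ^ (j + 4) * s.V i (dg G h) t)
    (fun x => (D.apos _).le) (fun x => mul_nonneg hKnn (D.bnn _))
    (fun r => D.Gle i _ _ r hmj (hdg h) hdN)
  refine h1.trans ?_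
  have hM : 0 ≤ (2:ℝ) ^ (j + 4) * s.V i (dg G h) t := mul_nonneg (by positivity) (D.Vpos i _).le
  have hO : (offN G (img ψ) h).card ≤ s.N := (Finset.card_le_univ _).trans (by simp)
  have h2 : ∏ x ∈ offN G (img ψ) h, (aW s.Y t (degs G (br G h x)) +
      s.Kv i * bW s.α s.Y t (degs G (br G h x))) ≤ s.D ^ s.N := by
    calc _ ≤ ∏ _x ∈ offN G (img ψ) h, s.D :=
          Finset.prod_le_prod (fun x _ => add_nonneg (D.apos _).le (mul_nonneg hKnn (D.bnn _)))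
            (fun x _ => D.Bab hG hdg i hKD _)
      _ = s.D ^ (offN G (img ψ) h).card := by rw [Finset.prod_const]
      _ ≤ _ := pow_le_pow_right₀ D.D1 hO
  have h3 : (2:ℝ) ^ (j + 4) * s.V i (dg G h) t ≤ s.D ^ s.N * s.V i 1 t := by
    have h4 := D.Vle' i (dg G h) (hdg h) hdN
    calc _ ≤ s.D * (s.D ^ (s.N - 1) * s.V i 1 t) :=
          mul_le_mul h2D h4 (D.Vpos i _).le D.Dpos.le
      _ = s.D ^ (s.N - 1 + 1) * s.V i 1 t := by ring
      _ = s.D ^ s.N * s.V i 1 t := by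
          rw [Nat.sub_add_cancel]
          have := D.F.par.N3; omega
  calc _ ≤ s.D ^ s.N * (s.D ^ s.N * s.V i 1 t) :=
        mul_le_mul h2 h3 hM (pow_nonneg D.Dpos.le _)
    _ = _ := by ring

theorem Dat.hubC (J : SimpleGraph (Fin j)) (ψ : Fin j → Option (Fin s.N)) (i : Fin j)
    (h : Fin s.N) (hKD : 3 * s.N * s.K ≤ s.D) (h2D : (2:ℝ) ^ (j + 4) ≤ s.D)
    (h2D' : (2:ℝ) ^ (j + 6) ≤ s.D) (hbD : s.K * ((1 + bet s.α) * (2 * s.N)) ≤ s.D ^ 2)
    (hb0 : 0 ≤ bet s.α)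
    (hdN : dg G h ≤ s.N) (hmj : miss J ψ i ≤ j) :
    hubf J G (aW s.Y t) (bW s.α s.Y t) s.Kv (fun i m d r => s.Gf i m d r t) ψ i h ≤
      s.D ^ (3 * s.N + 2) * (1 - s.Y 1 t) * s.V i 1 t := by
  unfold hubf
  have hKnn : 0 ≤ s.Kv i := by linarith [D.K2 i]
  have hy : 0 ≤ 1 - s.Y 1 t := by linarith [D.y1]
  have hM : 0 ≤ (2:ℝ) ^ (j + 4) * s.V i (dg G h) t := mul_nonneg (by positivity) (D.Vpos i _).le
  have hsum0 : ∀ C : Finset (Fin s.N), 0 ≤ ((degs G C).map (lam s.α)).sum := by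
    intro C
    refine Multiset.sum_nonneg ?_
    intro x hx
    rw [Multiset.mem_map] at hx
    obtain ⟨d, -, rfl⟩ := hx
    exact lam_nonneg _ _
  have h1 := hval_small (offN G (img ψ) h) (fun x => aW s.Y t (degs G (br G h x)))
    (fun x => s.Kv i * bW s.α s.Y t (degs G (br G h x)))
    (fun r => s.Gf i (miss J ψ i) (dg G h) r t) ((2:ℝ) ^ (j + 4) * s.V i (dg G h) t)
    s.D (1 - s.Y 1 t) (s.D ^ 2)
    (fun x _ => (D.apos _).le) (fun x _ => D.Bal1 hG hdg _) (fun x _ => mul_nonneg hKnn (D.bnn _))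
    (fun x _ => by
      have h3 := D.Bab hG hdg i hKD (br G h x)
      have h4 := (D.apos (degs G (br G h x))).le
      linarith)
    (fun x _ => by
      have h3 := D.bs (degs G (br G h x)) (mem_degs G hdg _)
      have h4 := D.Bsum hG hdg (br G h x)
      calc s.Kv i * bW s.α s.Y t (degs G (br G h x))
          ≤ s.Kv i * ((1 + bet s.α) * ((degs G (br G h x)).map (lam s.α)).sum * (1 - s.Y 1 t)) :=
            mul_le_mul_of_nonneg_left h3 hKnn
        _ ≤ s.K * ((1 + bet s.α) * (2 * s.N) * (1 - s.Y 1 t)) := by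
            refine mul_le_mul (D.KK i) ?_ ?_ (by linarith [D.K2 i, D.KK i])
            · refine mul_le_mul_of_nonneg_right ?_ hy
              exact mul_le_mul_of_nonneg_left h4 (by linarith)
            · exact mul_nonneg (mul_nonneg (by linarith) (hsum0 _)) hy
        _ = s.K * ((1 + bet s.α) * (2 * s.N)) * (1 - s.Y 1 t) := by ring
        _ ≤ s.D ^ 2 * (1 - s.Y 1 t) := mul_le_mul_of_nonneg_right hbD hy)
    D.D1 hy (by positivity) hM (fun r => D.Gnn i _ _ r)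
    (fun r => D.Gle i _ _ r hmj (hdg h) hdN)
    (by
      refine (D.G0le i _ _ hmj (hdg h) hdN).trans ?_
      refine mul_le_mul_of_nonneg_left ?_ hM
      refine mul_le_mul_of_nonneg_right ?_ hy
      calc (2:ℝ) ^ (j + 6) * s.D ≤ s.D * s.D := mul_le_mul_of_nonneg_right h2D' D.Dpos.le
        _ = s.D ^ 2 := by ring)
  refine h1.trans ?_
  have hO : (offN G (img ψ) h).card ≤ s.N := (Finset.card_le_univ _).trans (by simp)
  have h2 : (2:ℝ) ^ (offN G (img ψ) h).card ≤ s.D ^ s.N := by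
    have h5 : (2:ℝ) ≤ s.D := by
      refine le_trans ?_ h2D
      calc (2:ℝ) = 2 ^ 1 := by norm_num
        _ ≤ 2 ^ (j + 4) := pow_le_pow_right₀ (by norm_num) (by omega)
    calc (2:ℝ) ^ (offN G (img ψ) h).card ≤ s.D ^ (offN G (img ψ) h).card :=
          pow_le_pow_left₀ (by norm_num) h5 _
      _ ≤ s.D ^ s.N := pow_le_pow_right₀ D.D1 hO
  have h3 : s.D ^ (offN G (img ψ) h).card ≤ s.D ^ s.N := pow_le_pow_right₀ D.D1 hO
  have h4 : (2:ℝ) ^ (j + 4) * s.V i (dg G h) t ≤ s.D ^ s.N * s.V i 1 t := by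
    have h4 := D.Vle' i (dg G h) (hdg h) hdN
    calc _ ≤ s.D * (s.D ^ (s.N - 1) * s.V i 1 t) :=
          mul_le_mul h2D h4 (D.Vpos i _).le D.Dpos.le
      _ = s.D ^ (s.N - 1 + 1) * s.V i 1 t := by ring
      _ = s.D ^ s.N * s.V i 1 t := by
          rw [Nat.sub_add_cancel]
          have := D.F.par.N3; omega
  have hδ : 0 ≤ s.D ^ 2 * (1 - s.Y 1 t) := mul_nonneg (by positivity) hy
  have hDN : 0 ≤ s.D ^ s.N := pow_nonneg D.Dpos.le _
  calc _ ≤ s.D ^ s.N * (s.D ^ s.N * (s.D ^ s.N * s.V i 1 t * (s.D ^ 2 * (1 - s.Y 1 t)))) := by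
        refine mul_le_mul h2 ?_ ?_ hDN
        · refine mul_le_mul h3 (mul_le_mul_of_nonneg_right h4 hδ) (mul_nonneg hM hδ) hDN
        · exact mul_nonneg (pow_nonneg D.Dpos.le _) (mul_nonneg hM hδ)
    _ = _ := by ring

end sys

theorem mem_img {j n : ℕ} (ψ : Fin j → Option (Fin n)) (x : Fin n) :
    x ∈ img ψ ↔ ∃ i, ψ i = some x := by
  simp [img]

theorem miss_le {j n : ℕ} (J : SimpleGraph (Fin j)) (ψ : Fin j → Option (Fin n)) (i : Fin j) :
    miss J ψ i ≤ j := by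
  unfold miss
  exact (Finset.card_filter_le _ _).trans (by simp)

/-- number of off-neighbours as a function of `i` -/
noncomputable def oc {j n : ℕ} (G : SimpleGraph (Fin n)) (ψ : Fin j → Option (Fin n))
    (i : Fin j) : ℕ :=
  match ψ i with
    | none => 0
    | some h => (offN G (img ψ) h).card

theorem oc_sum {j n : ℕ} {G : SimpleGraph (Fin n)} (hG : G.IsTree)
    (ψ : Fin j → Option (Fin n))
    (h : ∑ i, (match ψ i with
      | none => 0
      | some h => ∑ b ∈ offN G (img ψ) h, (br G h b).card) + (dom ψ).card = n) :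
    ∑ i, oc G ψ i ≤ n := by
  have h1 : ∑ i, oc G ψ i ≤ ∑ i, (match ψ i with
      | none => 0
      | some h => ∑ b ∈ offN G (img ψ) h, (br G h b).card) := by
    refine Finset.sum_le_sum fun i _ => ?_
    unfold oc
    rcases ψ i with _ | h
    · exact le_refl _
    · simp only
      rw [Finset.card_eq_sum_ones]
      refine Finset.sum_le_sum fun b hb => ?_
      rw [mem_offN] at hb
      exact br_card_pos hG h b hb.1
  omega

theorem wtx (h1 : S_CB) (h2 : S_VV) (h3 : S_ZB) (h4 : S_CNT) (h5 : S_AB) (h6 : S_VEX)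
    (h7 : S_TM) (h8 : S_YF) : S_WTX := by
  intro α e0 ep e1 N j hP he1
  obtain ⟨K1, hK1⟩ := h1 α e0 ep e1 N j hP he1
  obtain ⟨K2, hK2⟩ := h2 α e0 ep e1 N j hP he1
  obtain ⟨K3, hK3⟩ := h3 α e0 ep e1 N j hP he1
  refine ⟨max (max (max K1 K2) K3) (max (max ((3 * (N:ℝ)) ^ (1 / α)) ((2:ℝ) ^ (j + 6)))
    ((1 + bet α) * (2 * N))), ?_⟩
  intro s hsα hse0 hsep hsN hse1 hsK hF J G hJ hG ψ hψ
  have hKa : K1 ≤ s.K := le_trans (le_trans (le_max_left _ _) (le_max_left _ _))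
    (le_trans (le_max_left _ _) hsK)
  have hKb : K2 ≤ s.K := le_trans (le_trans (le_max_right _ _) (le_max_left _ _))
    (le_trans (le_max_left _ _) hsK)
  have hKc : K3 ≤ s.K := le_trans (le_max_right _ _) (le_trans (le_max_left _ _) hsK)
  have hKd : (3 * (N:ℝ)) ^ (1 / α) ≤ s.K := le_trans (le_trans (le_max_left _ _)
    (le_max_left _ _)) (le_trans (le_max_right _ _) hsK)
  have hKe : (2:ℝ) ^ (j + 6) ≤ s.K := le_trans (le_trans (le_max_right _ _)
    (le_max_left _ _)) (le_trans (le_max_right _ _) hsK)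
  have hKf : (1 + bet α) * (2 * N) ≤ s.K := le_trans (le_max_right _ _)
    (le_trans (le_max_right _ _) hsK)
  obtain ⟨b1, b2, b3, b4, b5⟩ := hK1 s hsα hse0 hsep hsN hse1 hKa hF
  obtain ⟨-, -, -, -, -, -, c7⟩ := hK2 s hsα hse0 hsep hsN hse1 hKb hF
  obtain ⟨z1, z2⟩ := hK3 s hsα hse0 hsep hsN hse1 hKc hF
  subst hsN
  subst hsα
  obtain ⟨n1, -, n3⟩ := h4 j s.N J G hF.par.j1 (by have := hF.par.N3; omega) hJ hG
  obtain ⟨-, -, m3, m4, m5⟩ := n1 ψ hψ
  have hdg : ∀ v, 1 ≤ dg G v := fun v => (n3 v).1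
  have hdgN : ∀ v, dg G v ≤ s.N := fun v => (n3 v).2.trans (Nat.sub_le _ _)
  have hα0 := hF.par.a0
  have hα1 := hF.par.a1'
  have hz0 : 0 < s.z := by linarith [hF.z2]
  obtain ⟨ab, -⟩ := h5 s.α s.z s.Y hα0 hα1 hz0 hF.z1 hF.hY
  have hdat : ∀ t, 0 ≤ t → Dat s t := by
    intro t ht
    exact ⟨hF, ht, b1, fun i k hk1 hk2 => c7 i k t hk1 hk2 ht, fun i => (b2 i).1,
      fun i => (b2 i).2, fun C => (ab C t ht).2.2.1, fun C => (ab C t ht).2.2.2.1,
      fun C => (ab C t ht).2.2.2.2.1, fun C => (ab C t ht).2.2.2.2.2.1,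
      fun C => (ab C t ht).2.2.2.2.2.2.1⟩
  have hwt : ∀ t, wt J G (aW s.Y t) (bW s.α s.Y t) s.Kv (fun i => s.Z i t)
      (fun i m d r => s.Gf i m d r t) ψ = ∏ i, fac J G (aW s.Y t) (bW s.α s.Y t) s.Kv
      (fun i => s.Z i t) (fun i m d r => s.Gf i m d r t) ψ i := fun t => rfl
  have hfac0 : ∀ t, 0 ≤ t → ∀ i, 0 ≤ fac J G (aW s.Y t) (bW s.α s.Y t) s.Kv
      (fun i => s.Z i t) (fun i m d r => s.Gf i m d r t) ψ i := by
    intro t ht i
    have D := hdat t ht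
    unfold fac
    rcases ψ i with _ | h
    · exact hF.Znn i t ht
    · exact hval_nonneg _ _ _ _ _ (fun x => (D.apos _).le)
        (fun x => mul_nonneg (by linarith [D.K2 i]) (D.bnn _)) (fun r => D.Gnn i _ _ r)
  constructor
  · intro t ht
    have ht0 : 0 ≤ t := hF.tMpos.le.trans ht
    have D := hdat t ht0
    -- the factors of `Xp`
    set X : Fin j → ℝ := fun i => (match ψ i with
      | none => s.Z i t
      | some h => (cc s.Y (s.Kv i) t) ^ (offN G (img ψ) h).card * s.V i (dg G h) t *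
        (s.Y 1 t) ^ (∑ b ∈ offN G (img ψ) h, ((br G h b).card - 1))) with hX
    have hXp : s.Xp G ψ t = ∏ i, X i := by
      unfold Sys.Xp
      refine Finset.prod_congr rfl fun i _ => ?_
      simp only [hX]
      rcases ψ i with _ | h <;> rfl
    have hN1 : (1:ℝ) ≤ 6 * (s.N:ℝ) := by
      have : (3:ℝ) ≤ s.N := by exact_mod_cast hF.par.N3
      linarith
    have hX0 : ∀ i, 0 ≤ X i := by
      intro i
      simp only [hX]
      rcases ψ i with _ | h
      · exact hF.Znn i t ht0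
      · exact mul_nonneg (mul_nonneg (pow_nonneg (b5 i t ht0).2.2.2.le _) (D.Vpos i _).le)
          (pow_nonneg D.y0.le _)
    have hle : ∀ i, fac J G (aW s.Y t) (bW s.α s.Y t) s.Kv
      (fun i => s.Z i t) (fun i m d r => s.Gf i m d r t) ψ i ≤
        (2:ℝ) ^ (j + 4) * (6 * (s.N:ℝ)) ^ (oc G ψ i) * X i := by
      intro i
      unfold fac oc
      simp only [hX]
      rcases hi : ψ i with _ | h
      · simp only [pow_zero, mul_one]
        have h2 : (1:ℝ) ≤ (2:ℝ) ^ (j + 4) := one_le_pow₀ (by norm_num)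
        have h3 := hF.Znn i t ht0
        nlinarith
      · exact D.hubA hG hdg J ψ i h (b3 i t ht).2.2 (hdgN h) (miss_le J ψ i)
    rw [hwt, hXp]
    refine (Finset.prod_le_prod (fun i _ => hfac0 t ht0 i) (fun i _ => hle i)).trans ?_
    rw [Finset.prod_mul_distrib, Finset.prod_mul_distrib, Finset.prod_const,
      Finset.prod_pow_eq_pow_sum, Finset.card_univ, Fintype.card_fin, ← pow_mul]
    have hoc := oc_sum hG ψ m5
    refine mul_le_mul_of_nonneg_right ?_ (Finset.prod_nonneg fun i _ => hX0 i)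
    exact mul_le_mul_of_nonneg_left (pow_le_pow_right₀ hN1 hoc) (by positivity)
  · intro t ht0 htM
    have D := hdat t ht0
    have hN3 : (3:ℝ) ≤ s.N := by exact_mod_cast hF.par.N3
    have hKpos : 0 < s.K := by linarith [hF.par.K1]
    have hK1' : 1 ≤ s.K := by linarith [hF.par.K1]
    have hDK : s.K ≤ s.D := by
      unfold Sys.D DK
      have hexp : (1:ℝ) ≤ 1 / (1 - s.α) := by
        rw [le_div_iff₀ (by linarith)]; linarith
      calc s.K = s.K ^ (1:ℝ) := (Real.rpow_one _).symm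
        _ ≤ s.K ^ (1 / (1 - s.α)) := Real.rpow_le_rpow_of_exponent_le hK1' hexp
    have hDα : 3 * (s.N:ℝ) ≤ s.D ^ s.α := by
      have h0 : 0 ≤ 3 * (s.N:ℝ) := by positivity
      calc 3 * (s.N:ℝ) = ((3 * (s.N:ℝ)) ^ (1 / s.α)) ^ s.α := by
            rw [← Real.rpow_mul h0, one_div_mul_cancel hα0.ne', Real.rpow_one]
        _ ≤ s.K ^ s.α := Real.rpow_le_rpow (Real.rpow_nonneg h0 _) hKd hα0.le
        _ ≤ s.D ^ s.α := Real.rpow_le_rpow hKpos.le hDK hα0.le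
    have hKD : 3 * s.N * s.K ≤ s.D := by
      calc 3 * s.N * s.K ≤ s.D ^ s.α * s.K := mul_le_mul_of_nonneg_right hDα hKpos.le
        _ = s.K * s.D ^ s.α := mul_comm _ _
        _ = s.D := b4
    have h2D' : (2:ℝ) ^ (j + 6) ≤ s.D := hKe.trans hDK
    have h2D : (2:ℝ) ^ (j + 4) ≤ s.D :=
      (pow_le_pow_right₀ (by norm_num) (by omega)).trans h2D'
    have hb0 : 0 ≤ bet s.α := by
      unfold bet
      have h1 : (1:ℝ) ≤ (2:ℝ) ^ s.α := Real.one_le_rpow (by norm_num) hα0.le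
      have h2 : (2:ℝ) ^ s.α ≤ 2 := by
        calc (2:ℝ) ^ s.α ≤ (2:ℝ) ^ (1:ℝ) :=
              Real.rpow_le_rpow_of_exponent_le (by norm_num) hα1.le
          _ = 2 := Real.rpow_one _
      exact div_nonneg (by linarith) (by linarith)
    have hbD : s.K * ((1 + bet s.α) * (2 * s.N)) ≤ s.D ^ 2 := by
      calc s.K * ((1 + bet s.α) * (2 * s.N)) ≤ s.D * s.D := by
            refine mul_le_mul hDK (hKf.trans hDK) ?_ D.Dpos.le
            exact mul_nonneg (by linarith) (by positivity)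
        _ = s.D ^ 2 := by ring
    have hy : 0 ≤ 1 - s.Y 1 t := by linarith [D.y1]
    have hlp : 0 ≤ s.ep := hF.par.eppos.le
    have hL : 0 ≤ s.L := by
      unfold Sys.L LK
      exact div_nonneg (Real.log_nonneg hK1') (by linarith)
    have htp : t ≤ s.tp := by
      unfold Sys.tp
      have : 0 ≤ (1 + s.ep) * s.L := mul_nonneg (by linarith) hL
      linarith
    have hleB : ∀ i, fac J G (aW s.Y t) (bW s.α s.Y t) s.Kv
      (fun i => s.Z i t) (fun i m d r => s.Gf i m d r t) ψ i ≤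
        s.D ^ (2 * s.N) * s.V i 1 t := by
      intro i
      unfold fac
      rcases hi : ψ i with _ | h
      · simp only
        have h9 := z1 i t ht0 htp
        refine h9.trans ?_
        refine mul_le_mul_of_nonneg_right ?_ (D.Vpos i 1).le
        have he0 : s.α + 3 * s.e0 ≤ 1 := by
          have h10 := hF.par.e0le
          have h11 : (1 - s.α) / (1000 * (s.N : ℝ) ^ 2) ≤ (1 - s.α) / 3 := by
            apply div_le_div_of_nonneg_left (by linarith) (by norm_num)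
            nlinarith
          linarith
        calc s.D ^ (s.α + 3 * s.e0) ≤ s.D ^ (1:ℝ) := Real.rpow_le_rpow_of_exponent_le D.D1 he0
          _ = s.D ^ 1 := by rw [Real.rpow_one, pow_one]
          _ ≤ s.D ^ (2 * s.N) := pow_le_pow_right₀ D.D1 (by have := hF.par.N3; omega)
      · exact D.hubB hG hdg J ψ i h hKD h2D (hdgN h) (miss_le J ψ i)
    obtain ⟨i0, hi0⟩ := m3
    have hi0' : ψ i0 ≠ none := by simpa [dom] using hi0
    obtain ⟨h0, hh0⟩ := Option.ne_none_iff_exists'.1 hi0'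
    have hle0 : fac J G (aW s.Y t) (bW s.α s.Y t) s.Kv
      (fun i => s.Z i t) (fun i m d r => s.Gf i m d r t) ψ i0 ≤
        s.D ^ (3 * s.N + 2) * (1 - s.Y 1 t) * s.V i0 1 t := by
      unfold fac
      rw [hh0]
      exact D.hubC hG hdg J ψ i0 h0 hKD h2D h2D' hbD hb0 (hdgN h0) (miss_le J ψ i0)
    rw [hwt, ← Finset.mul_prod_erase Finset.univ _ (Finset.mem_univ i0),
      ← Finset.mul_prod_erase Finset.univ (fun i => s.V i 1 t) (Finset.mem_univ i0)]
    have hrest : ∏ i ∈ Finset.univ.erase i0, fac J G (aW s.Y t) (bW s.α s.Y t) s.Kv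
      (fun i => s.Z i t) (fun i m d r => s.Gf i m d r t) ψ i ≤
        s.D ^ (2 * s.N * (s.N - 1)) * ∏ i ∈ Finset.univ.erase i0, s.V i 1 t := by
      refine (Finset.prod_le_prod (fun i _ => hfac0 t ht0 i) (fun i _ => hleB i)).trans ?_
      rw [Finset.prod_mul_distrib, Finset.prod_const, ← pow_mul]
      refine mul_le_mul_of_nonneg_right ?_ (Finset.prod_nonneg fun i _ => (D.Vpos i 1).le)
      refine pow_le_pow_right₀ D.D1 ?_
      rw [Finset.card_erase_of_mem (Finset.mem_univ _), Finset.card_univ, Fintype.card_fin]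
      have := hF.par.jN
      exact Nat.mul_le_mul_left _ (by omega)
    have hrest0 : 0 ≤ ∏ i ∈ Finset.univ.erase i0, fac J G (aW s.Y t) (bW s.α s.Y t) s.Kv
      (fun i => s.Z i t) (fun i m d r => s.Gf i m d r t) ψ i :=
      Finset.prod_nonneg fun i _ => hfac0 t ht0 i
    have hV0 : 0 ≤ ∏ i ∈ Finset.univ.erase i0, s.V i 1 t :=
      Finset.prod_nonneg fun i _ => (D.Vpos i 1).le
    have hVi0 := (D.Vpos i0 1).le
    have hDn : ∀ k : ℕ, 0 ≤ s.D ^ k := fun k => pow_nonneg D.Dpos.le k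
    calc _ ≤ (s.D ^ (3 * s.N + 2) * (1 - s.Y 1 t) * s.V i0 1 t) *
          (s.D ^ (2 * s.N * (s.N - 1)) * ∏ i ∈ Finset.univ.erase i0, s.V i 1 t) :=
          mul_le_mul hle0 hrest hrest0 (mul_nonneg (mul_nonneg (hDn _) hy) hVi0)
      _ = s.D ^ (3 * s.N + 2 + 2 * s.N * (s.N - 1)) * ((1 - s.Y 1 t) *
          (s.V i0 1 t * ∏ i ∈ Finset.univ.erase i0, s.V i 1 t)) := by
          rw [pow_add]; ring
      _ ≤ s.D ^ (6 * s.N ^ 2) * ((1 - s.Y 1 t) *
          (s.V i0 1 t * ∏ i ∈ Finset.univ.erase i0, s.V i 1 t)) := by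
          refine mul_le_mul_of_nonneg_right ?_ (mul_nonneg hy (mul_nonneg hVi0 hV0))
          refine pow_le_pow_right₀ D.D1 ?_
          have hN := hF.par.N3
          obtain ⟨m, hm⟩ : ∃ m, s.N = m + 3 := ⟨s.N - 3, by omega⟩
          rw [hm]
          have : m + 3 - 1 = m + 2 := by omega
          rw [this]
          ring_nf
          nlinarith [Nat.zero_le m, Nat.zero_le (m^2)]
      _ = _ := by ring

end Pool.Agent.TH830.J2265
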