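import Pool.Agent.TH981.SD.Stm

set_option autoImplicit false

open Pool.Agent.TH981.SD
open Finset Set Filter
open scoped BigOperators Topology Classical

namespace Pool.Agent.TH830.J2289

section conn
variable {V : Type*} (H : SimpleGraph V)

/-- adding a vertex adjacent to a connected set -/
theorem conn_insert (D : Set V) (l i : V) (hD : (H.induce D).Connected) (hi : i ∈ D)
    (hil : H.Adj i l) : (H.induce (insert l D)).Connected := by
  have hsub : D ⊆ insert l D := Set.subset_insert l D
  let e : H.induce D →g H.induce (insert l D) :=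
    ⟨fun x => ⟨x.1, hsub x.2⟩, fun {a b} h => h⟩
  have key : ∀ x : ↥(insert l D), (H.induce (insert l D)).Reachable ⟨i, hsub hi⟩ x := by
    rintro ⟨x, hx⟩
    rcases hx with rfl | hx
    · exact SimpleGraph.Adj.reachable (by exact hil)
    · exact (hD.preconnected ⟨i, hi⟩ ⟨x, hx⟩).map e
  haveI : Nonempty ↥(insert l D) := ⟨⟨l, Set.mem_insert l D⟩⟩
  exact ⟨fun x y => (key x).symm.trans (key y)⟩

/-- removing a vertex with only one neighbour in a connected set -/
theorem conn_remove [Fintype V] (D : Set V) (l i : V) (hD : (H.induce D).Connected) (hl : l ∈ D)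
    (hi : i ∈ D) (hil : H.Adj i l) (hu : ∀ k ∈ D, H.Adj k l → k = i) :
    (H.induce {x | x ∈ D ∧ x ≠ l}).Connected := by
  have hne : i ≠ l := by rintro rfl; exact H.loopless.irrefl _ hil
  have hdeg : (H.induce D).degree ⟨l, hl⟩ = 1 := by
    rw [SimpleGraph.degree_eq_one_iff_existsUnique_adj]
    refine ⟨⟨i, hi⟩, hil.symm, ?_⟩
    rintro ⟨k, hk⟩ hk'
    exact Subtype.ext (hu k hk (SimpleGraph.Adj.symm hk'))
  have h := SimpleGraph.Connected.induce_compl_singleton_of_degree_eq_one hD hdeg
  refine SimpleGraph.Connected.map (G := (H.induce D).induce {⟨l, hl⟩}ᶜ)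
    ⟨fun x => ⟨x.1.1, x.1.2, fun hx => x.2 (by
      rw [Set.mem_singleton_iff]; exact Subtype.ext hx)⟩, fun {a b} h => h⟩ ?_ h
  rintro ⟨x, hx1, hx2⟩
  exact ⟨⟨⟨x, hx1⟩, fun hx => hx2 (by
    rw [Set.mem_singleton_iff] at hx; exact congrArg Subtype.val hx)⟩, rfl⟩

/-- in a connected set with another vertex, `l` has a neighbour -/
theorem exists_nbr (D : Set V) (l k : V) (hD : (H.induce D).Connected) (hl : l ∈ D) (hk : k ∈ D)
    (hkl : k ≠ l) : ∃ i ∈ D, H.Adj i l := by
  obtain ⟨w⟩ := hD.preconnected ⟨l, hl⟩ ⟨k, hk⟩
  cases w with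
  | nil => exact absurd rfl hkl
  | cons h p => exact ⟨_, Subtype.property _, SimpleGraph.Adj.symm h⟩

end conn

variable {j n : ℕ}

noncomputable def lower (o : Option (Fin (n + 1))) : Option (Fin n) :=
  o.bind (fun x => if h : x = Fin.last n then none else some (x.castPred h))

theorem lower_none : lower (n := n) none = none := rfl

theorem lower_last : lower (n := n) (some (Fin.last n)) = none := by
  simp [lower]

theorem map_lower (o : Option (Fin (n + 1))) (h : o ≠ some (Fin.last n)) :
    (lower o).map Fin.castSucc = o := by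
  rcases o with _ | x
  · rfl
  · have hx : x ≠ Fin.last n := fun hx => h (by rw [hx])
    simp [lower, hx]

theorem map_cast_ne_last (o : Option (Fin n)) : o.map Fin.castSucc ≠ some (Fin.last n) := by
  rcases o with _ | x
  · simp
  · intro h
    exact absurd (Option.some.inj h) (Fin.castSucc_lt_last x).ne

theorem map_cast_eq_some (o : Option (Fin n)) (y : Fin (n + 1)) :
    o.map Fin.castSucc = some y ↔ ∃ x, o = some x ∧ x.castSucc = y := by
  rw [Option.map_eq_some_iff]

theorem map_cast_ne_none (o : Option (Fin n)) : o.map Fin.castSucc ≠ none ↔ o ≠ none := by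
  rcases o with _ | x <;> simp

theorem liftψ_inj : Function.Injective (liftψ : (Fin j → Option (Fin n)) → _) := by
  intro ψ ψ' h
  funext i
  have := congrFun h i
  exact Option.map_injective (Fin.castSucc_injective n) this

theorem ext_self (ψ : Fin j → Option (Fin n)) (l : Fin j) :
    extψ ψ l l = some (Fin.last n) := by
  simp [extψ]

theorem ext_ne (ψ : Fin j → Option (Fin n)) (l k : Fin j) (h : k ≠ l) :
    extψ ψ l k = (ψ k).map Fin.castSucc := by
  simp [extψ, Function.update_of_ne h, liftψ]

theorem ext_last (ψ : Fin j → Option (Fin n)) (l k : Fin j) :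
    extψ ψ l k = some (Fin.last n) ↔ k = l := by
  constructor
  · intro h
    by_contra hk
    rw [ext_ne ψ l k hk] at h
    exact map_cast_ne_last _ h
  · rintro rfl; exact ext_self ψ k

theorem ext_ψ_inj (ψ ψ' : Fin j → Option (Fin n)) (l l' : Fin j) (hl : ψ l = none)
    (hl' : ψ' l' = none) (h : extψ ψ l = extψ ψ' l') : ψ = ψ' ∧ l = l' := by
  have hll : l = l' := by
    rw [← ext_last ψ' l' l, ← h]; exact ext_self ψ l
  subst hll
  refine ⟨?_, rfl⟩
  funext i
  by_cases hi : i = l
  · subst hi; rw [hl, hl']
  · have := congrFun h i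
    rw [ext_ne ψ l i hi, ext_ne ψ' l i hi] at this
    exact Option.map_injective (Fin.castSucc_injective n) this

variable {J : SimpleGraph (Fin j)} {G : SimpleGraph (Fin n)} {v : Fin n}

theorem PE_lift (hadj : ∀ x y : Fin n, (attach G v).Adj x.castSucc y.castSucc ↔ G.Adj x y)
    (ψ : Fin j → Option (Fin n)) : PE J (attach G v) (liftψ ψ) ↔ PE J G ψ := by
  have hset : {i | liftψ ψ i ≠ none} = {i | ψ i ≠ none} := by
    ext i; exact map_cast_ne_none (ψ i)
  constructor
  · intro h
    refine ⟨?_, ?_, ?_⟩
    · intro i i' x h1 h2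
      refine h.inj i i' x.castSucc ?_ ?_
      · show (ψ i).map _ = _; rw [h1]; rfl
      · show (ψ i').map _ = _; rw [h2]; rfl
    · intro i i' x x' ha h1 h2
      rw [← hadj]
      refine h.hom i i' _ _ ha ?_ ?_
      · show (ψ i).map _ = _; rw [h1]; rfl
      · show (ψ i').map _ = _; rw [h2]; rfl
    · have := h.conn
      rwa [hset] at this
  · intro h
    refine ⟨?_, ?_, ?_⟩
    · intro i i' x h1 h2
      obtain ⟨y, hy, rfl⟩ := (map_cast_eq_some _ _).1 h1
      obtain ⟨y', hy', hyy⟩ := (map_cast_eq_some _ _).1 h2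
      have := Fin.castSucc_injective n hyy
      subst this
      exact h.inj i i' _ hy hy'
    · intro i i' x x' ha h1 h2
      obtain ⟨y, hy, rfl⟩ := (map_cast_eq_some _ _).1 h1
      obtain ⟨y', hy', rfl⟩ := (map_cast_eq_some _ _).1 h2
      rw [hadj]
      exact h.hom i i' _ _ ha hy hy'
    · have := h.conn
      rwa [hset]

theorem PE_ext (hadj : ∀ x y : Fin n, (attach G v).Adj x.castSucc y.castSucc ↔ G.Adj x y)
    (hadjl : ∀ x : Fin n, (attach G v).Adj (Fin.last n) x.castSucc ↔ x = v)
    (ψ : Fin j → Option (Fin n)) (h : PE J G ψ) (l i : Fin j) (hl : ψ l = none)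
    (hil : J.Adj i l) (hi : ψ i = some v)
    (hu : ∀ k, J.Adj k l → ψ k ≠ none → k = i) :
    PE J (attach G v) (extψ ψ l) := by
  refine ⟨?_, ?_, ?_⟩
  · intro k k' x h1 h2
    by_cases hk : k = l
    · subst hk
      rw [ext_self] at h1
      rw [← Option.some.inj h1] at h2
      exact ((ext_last ψ k k').1 h2).symm
    · by_cases hk' : k' = l
      · subst hk'
        rw [ext_self] at h2
        rw [← Option.some.inj h2] at h1
        exact (ext_last ψ k' k).1 h1
      · rw [ext_ne ψ l k hk] at h1
        rw [ext_ne ψ l k' hk'] at h2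
        obtain ⟨y, hy, rfl⟩ := (map_cast_eq_some _ _).1 h1
        obtain ⟨y', hy', hyy⟩ := (map_cast_eq_some _ _).1 h2
        have := Fin.castSucc_injective n hyy
        subst this
        exact h.inj k k' _ hy hy'
  · have main : ∀ k x, J.Adj l k → extψ ψ l k = some x → (attach G v).Adj (Fin.last n) x := by
      intro k x hlk hx
      have hkl : k ≠ l := by rintro rfl; exact J.loopless.irrefl _ hlk
      rw [ext_ne ψ l k hkl] at hx
      obtain ⟨y, hy, rfl⟩ := (map_cast_eq_some _ _).1 hx
      have hki : k = i := hu k hlk.symm (by rw [hy]; simp)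
      subst hki
      rw [hi] at hy
      rw [hadjl]
      exact (Option.some.inj hy).symm
    intro k k' x x' ha h1 h2
    by_cases hk : k = l
    · subst hk
      rw [ext_self] at h1
      rw [← Option.some.inj h1]
      exact main k' x' ha h2
    · by_cases hk' : k' = l
      · subst hk'
        rw [ext_self] at h2
        rw [← Option.some.inj h2]
        exact (main k x ha.symm h1).symm
      · rw [ext_ne ψ l k hk] at h1
        rw [ext_ne ψ l k' hk'] at h2
        obtain ⟨y, hy, rfl⟩ := (map_cast_eq_some _ _).1 h1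
        obtain ⟨y', hy', rfl⟩ := (map_cast_eq_some _ _).1 h2
        rw [hadj]
        exact h.hom k k' _ _ ha hy hy'
  · have hset : {k | extψ ψ l k ≠ none} = insert l {k | ψ k ≠ none} := by
      ext k
      by_cases hk : k = l
      · subst hk; simp [ext_self]
      · simp only [Set.mem_setOf_eq, Set.mem_insert_iff, hk, false_or]
        rw [ext_ne ψ l k hk]
        exact map_cast_ne_none _
    rw [hset]
    exact conn_insert J _ l i h.conn (by simp [hi]) hil

theorem PE_sing (w : Fin j) : PE J (attach G v) (sing n w) := by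
  refine ⟨?_, ?_, ?_⟩
  · intro i i' x h1 h2
    unfold sing at h1 h2
    split_ifs at h1 h2 with h3 h4
    rw [h3, h4]
  · intro i i' x x' ha h1 h2
    unfold sing at h1 h2
    split_ifs at h1 h2 with h3 h4
    subst h3; subst h4
    exact absurd ha (J.loopless.irrefl _)
  · have hset : {i | sing (j := j) n w i ≠ none} = {w} := by
      ext i; simp [sing]
    rw [hset]
    haveI : Nonempty ↥({w} : Set (Fin j)) := ⟨⟨w, rfl⟩⟩
    refine ⟨?_⟩
    rintro ⟨x, hx⟩ ⟨y, hy⟩
    rw [Set.mem_singleton_iff] at hx hy
    subst hx; subst hy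
    exact SimpleGraph.Reachable.refl _

/-- restriction of an embedding using the last vertex and another vertex -/
theorem PE_restrict (hadj : ∀ x y : Fin n, (attach G v).Adj x.castSucc y.castSucc ↔ G.Adj x y)
    (hadjl : ∀ x : Fin n, (attach G v).Adj (Fin.last n) x.castSucc ↔ x = v)
    (χ : Fin j → Option (Fin (n + 1))) (h : PE J (attach G v) χ) (l k : Fin j)
    (hl : χ l = some (Fin.last n)) (hk : χ k ≠ none) (hkl : k ≠ l) :
    PE J G (fun i => lower (χ i)) ∧ extψ (fun i => lower (χ i)) l = χ ∧
    ∃ i, J.Adj i l ∧ lower (χ i) = some v := by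
  have hnl : ∀ i, i ≠ l → χ i ≠ some (Fin.last n) := fun i hi hi' => hi (h.inj i l _ hi' hl)
  have hlow : ∀ i, i ≠ l → (lower (χ i)).map Fin.castSucc = χ i := fun i hi =>
    map_lower _ (hnl i hi)
  have hlowl : lower (χ l) = none := by rw [hl]; exact lower_last
  have hsome : ∀ i x, lower (χ i) = some x → χ i = some x.castSucc := by
    intro i x hx
    have hil : i ≠ l := by rintro rfl; rw [hlowl] at hx; exact absurd hx (by simp)
    rw [← hlow i hil, hx]; rfl
  obtain ⟨i, hiD, hil⟩ := exists_nbr J _ l k h.conn (by simp [hl]) hk hkl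
  have hnbr : ∀ i, χ i ≠ none → J.Adj i l → lower (χ i) = some v := by
    intro i hi hil
    have hne : i ≠ l := by rintro rfl; exact J.loopless.irrefl _ hil
    rcases hx : lower (χ i) with _ | x
    · exfalso
      apply hi
      rw [← hlow i hne, hx]; rfl
    · have h1 := hsome i x hx
      have h2 := h.hom l i _ _ hil.symm hl h1
      rw [hadjl] at h2
      rw [h2]
  refine ⟨⟨?_, ?_, ?_⟩, ?_, i, hil, hnbr i hiD hil⟩
  · intro a b x h1 h2
    exact h.inj a b _ (hsome a x h1) (hsome b x h2)
  · intro a b x y ha h1 h2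
    rw [← hadj]
    exact h.hom a b _ _ ha (hsome a x h1) (hsome b y h2)
  · have hset : {a | lower (χ a) ≠ none} = {a | a ∈ {a | χ a ≠ none} ∧ a ≠ l} := by
      ext a
      simp only [Set.mem_setOf_eq]
      constructor
      · intro ha
        have hal : a ≠ l := by rintro rfl; exact ha hlowl
        refine ⟨?_, hal⟩
        intro h0
        apply ha
        rw [h0]; rfl
      · rintro ⟨ha, hal⟩ h0
        apply ha
        rw [← hlow a hal, h0]; rfl
    rw [hset]
    refine conn_remove J _ l i h.conn (by simp [hl]) hiD hil ?_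
    intro b hb hbl
    exact h.inj b i _ (hsome b v (hnbr b hb hbl)) (hsome i v (hnbr i hiD hil))
  · funext a
    by_cases ha : a = l
    · subst ha; rw [ext_self, hl]
    · rw [ext_ne _ l a ha]; exact hlow a ha

theorem ext_ (h1 : S_ATT) (h2 : S_IMG) : S_EXT := by
  intro j n J G v F hJ hG
  obtain ⟨hAT, hadj, hadjl, hdist, hdistl, hdg, hdgl⟩ := h1 n G v hG
  have hlift : ∀ ψ : Fin j → Option (Fin n), PE J (attach G v) (liftψ ψ) ↔ PE J G ψ :=
    fun ψ => PE_lift hadj ψ
  refine ⟨?_, ?_⟩
  · set T : Finset ((Fin j → Option (Fin n)) × Fin j) :=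
      ((PEs J G) ×ˢ Finset.univ).filter
        (fun p => p.1 p.2 = none ∧ ∃ i, J.Adj i p.2 ∧ p.1 i = some v) with hT
    have hdecomp : PEs J (attach G v) =
        ((PEs J G).image liftψ ∪ T.image (fun p => extψ p.1 p.2)) ∪
          (Finset.univ : Finset (Fin j)).image (sing n) := by
      ext χ
      simp only [Finset.mem_union, Finset.mem_image, Finset.mem_univ, true_and]
      constructor
      · intro hχ
        have hPE : PE J (attach G v) χ := by simpa [PEs] using hχ
        by_cases hA : ∃ l, χ l = some (Fin.last n)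
        · obtain ⟨l, hl⟩ := hA
          by_cases hB : ∃ k, χ k ≠ none ∧ k ≠ l
          · obtain ⟨k, hk, hkl⟩ := hB
            obtain ⟨e1, e2, i, e3, e4⟩ := PE_restrict hadj hadjl χ hPE l k hl hk hkl
            left; right
            refine ⟨(fun i => lower (χ i), l), ?_, e2⟩
            rw [hT, Finset.mem_filter, Finset.mem_product]
            refine ⟨⟨by simpa [PEs] using e1, Finset.mem_univ _⟩, ?_, i, e3, e4⟩
            show lower (χ l) = none
            rw [hl]; exact lower_last
          · right
            refine ⟨l, ?_⟩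
            funext k
            unfold sing
            split_ifs with hk
            · subst hk; exact hl.symm
            · by_contra hne
              exact hB ⟨k, fun h0 => hne h0.symm, hk⟩
        · left; left
          have hA' : ∀ l, χ l ≠ some (Fin.last n) := fun l hl => hA ⟨l, hl⟩
          have e : liftψ (fun i => lower (χ i)) = χ := by
            funext i; exact map_lower _ (hA' i)
          refine ⟨fun i => lower (χ i), ?_, e⟩
          have : PE J G (fun i => lower (χ i)) := by
            rw [← hlift, e]; exact hPE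
          simpa [PEs] using this
      · rintro ((⟨ψ, hψ, rfl⟩ | ⟨⟨ψ, l⟩, hp, rfl⟩) | ⟨w, rfl⟩)
        · have hPE : PE J G ψ := by simpa [PEs] using hψ
          have := (hlift ψ).2 hPE
          simpa [PEs] using this
        · rw [hT, Finset.mem_filter, Finset.mem_product] at hp
          obtain ⟨⟨hψ, -⟩, hl, i, hil, hi⟩ := hp
          have hPE : PE J G ψ := by simpa [PEs] using hψ
          simp only at hl hil hi
          obtain ⟨-, -, huniq⟩ := h2 j n J G ψ hJ hG hPE
          have := PE_ext hadj hadjl ψ hPE l i hl hil hi (fun k hk hk' =>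
            huniq l hl k i hk hil hk' (by rw [hi]; simp))
          simpa [PEs] using this
        · have : PE J (attach G v) (sing n w) := PE_sing w
          simpa [PEs] using this
    have hTl : ∀ p ∈ T, p.1 p.2 = none ∧ ∃ i, J.Adj i p.2 ∧ p.1 i = some v := by
      intro p hp
      rw [hT, Finset.mem_filter] at hp
      exact hp.2
    have hd1 : Disjoint ((PEs J G).image liftψ ∪ T.image (fun p => extψ p.1 p.2))
        ((Finset.univ : Finset (Fin j)).image (sing n)) := by
      rw [Finset.disjoint_left]
      intro χ hχ hχ'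
      simp only [Finset.mem_union, Finset.mem_image, Finset.mem_univ, true_and] at hχ hχ'
      obtain ⟨w, rfl⟩ := hχ'
      rcases hχ with ⟨ψ, hψ, he⟩ | ⟨⟨ψ, l⟩, hp, he⟩
      · have := congrFun he w
        simp only [sing, if_true] at this
        exact map_cast_ne_last _ this
      · obtain ⟨hl, i, hil, hi⟩ := hTl _ hp
        simp only at hl hil hi he
        have hne : i ≠ l := by rintro rfl; exact J.loopless.irrefl _ hil
        have e1 := congrFun he l
        rw [ext_self] at e1
        have hlw : l = w := by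
          by_contra hlw
          rw [sing, if_neg hlw] at e1
          exact absurd e1 (by simp)
        have e2 := congrFun he i
        rw [ext_ne ψ l i hne, hi, sing, if_neg (by rw [← hlw]; exact hne)] at e2
        exact absurd e2 (by simp)
    have hd2 : Disjoint ((PEs J G).image liftψ) (T.image (fun p => extψ p.1 p.2)) := by
      rw [Finset.disjoint_left]
      intro χ hχ hχ'
      simp only [Finset.mem_image] at hχ hχ'
      obtain ⟨ψ, hψ, rfl⟩ := hχ
      obtain ⟨⟨ψ', l⟩, hp, he⟩ := hχ'
      have := congrFun he l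
      simp only at this
      rw [ext_self] at this
      exact map_cast_ne_last _ this.symm
    rw [hdecomp, Finset.sum_union hd1, Finset.sum_union hd2]
    congr 1
    · congr 1
      · exact Finset.sum_image (fun a _ b _ h => liftψ_inj h)
      · rw [Finset.sum_image]
        · rw [hT, Finset.sum_filter, Finset.sum_product]
        · rintro ⟨ψ, l⟩ hp ⟨ψ', l'⟩ hp' he
          have e1 := (hTl _ hp).1
          have e2 := (hTl _ hp').1
          obtain ⟨e3, e4⟩ := ext_ψ_inj ψ ψ' l l' e1 e2 he
          rw [e3, e4]
    · refine Finset.sum_image ?_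
      intro w _ w' _ he
      have := congrFun he w
      simp only [sing, if_true] at this
      by_contra hne
      rw [if_neg hne] at this
      exact absurd this (by simp)
  · intro ψ hψ
    have hPE : PE J G ψ ∧ ∀ i, ψ i ≠ none := by simpa [TEs] using hψ
    have : PE J (attach G v) (liftψ ψ) ∧ ∀ i, liftψ ψ i ≠ none :=
      ⟨(hlift ψ).2 hPE.1, fun i => (map_cast_ne_none _).2 (hPE.2 i)⟩
    simpa [TEs] using this

end Pool.Agent.TH830.J2289
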