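import Pool.Agent.TH981.SD.Stm

set_option autoImplicit false

open Pool.Agent.TH981.SD
open Finset Set Filter
open scoped BigOperators Topology Classical

namespace Pool.Agent.TH830.J2290

theorem hval_empty {n : ℕ} (a b : Fin n → ℝ) (g : ℕ → ℝ) (r : ℕ) :
    hval (∅ : Finset (Fin n)) a b g r = g r := by
  simp [hval]

theorem hval_congr {n : ℕ} (O : Finset (Fin n)) (a a' b b' : Fin n → ℝ) (g g' : ℕ → ℝ) (r : ℕ)
    (ha : ∀ x ∈ O, a x = a' x) (hb : ∀ x ∈ O, b x = b' x) (hg : ∀ r, g r = g' r) :
    hval O a b g r = hval O a' b' g' r := by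
  unfold hval
  refine Finset.sum_congr rfl fun S hS => ?_
  rw [Finset.mem_powerset] at hS
  rw [Finset.prod_congr rfl (fun x hx => hb x (hS hx)),
    Finset.prod_congr rfl (fun x hx => ha x (Finset.mem_sdiff.mp hx).1), hg]

theorem hval_map (h5 : S_HV) {n m : ℕ} (e : Fin n ↪ Fin m) (O : Finset (Fin n))
    (a b : Fin m → ℝ) (g : ℕ → ℝ) : ∀ r : ℕ,
    hval (O.map e) a b g r = hval O (fun x => a (e x)) (fun x => b (e x)) g r := by
  induction O using Finset.induction_on with
  | empty => intro r; simp [hval]
  | insert x O hx ih =>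
    intro r
    rw [Finset.map_insert, h5, h5, ih, ih]
    · exact hx
    · simpa using hx

section
variable {j n : ℕ} {J : SimpleGraph (Fin j)} {G : SimpleGraph (Fin n)}

theorem mem_img {j n : ℕ} (ψ : Fin j → Option (Fin n)) (x : Fin n) :
    x ∈ img ψ ↔ ∃ i, ψ i = some x := by
  simp [img]

theorem mem_offN (I : Finset (Fin n)) (h b : Fin n) :
    b ∈ offN G I h ↔ G.Adj h b ∧ b ∉ I := by
  simp [offN]

theorem ext_self (ψ : Fin j → Option (Fin n)) (l : Fin j) :
    extψ ψ l l = some (Fin.last n) := by
  simp [extψ]

theorem ext_ne (ψ : Fin j → Option (Fin n)) (l k : Fin j) (h : k ≠ l) :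
    extψ ψ l k = (ψ k).map Fin.castSucc := by
  simp [extψ, Function.update_of_ne h, liftψ]

theorem img_ext_cast (ψ : Fin j → Option (Fin n)) (l : Fin j) (hl : ψ l = none) (x : Fin n) :
    x.castSucc ∈ img (extψ ψ l) ↔ x ∈ img ψ := by
  rw [mem_img, mem_img]
  constructor
  · rintro ⟨i, hi⟩
    by_cases hil : i = l
    · subst hil
      rw [ext_self] at hi
      exact absurd (Option.some.inj hi).symm (Fin.castSucc_lt_last x).ne
    · rw [ext_ne ψ l i hil] at hi
      rw [Option.map_eq_some_iff] at hi
      obtain ⟨y, hy, hyx⟩ := hi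
      exact ⟨i, by rw [hy, Fin.castSucc_injective n hyx]⟩
  · rintro ⟨i, hi⟩
    have hil : i ≠ l := by
      intro h; rw [h, hl] at hi; exact absurd hi (by simp)
    exact ⟨i, by rw [ext_ne ψ l i hil, hi]; rfl⟩

theorem ext_none (ψ : Fin j → Option (Fin n)) (l k : Fin j) :
    extψ ψ l k = none ↔ ψ k = none ∧ k ≠ l := by
  by_cases hk : k = l
  · subst hk; simp [ext_self]
  · rw [ext_ne ψ l k hk]; simp [hk]

theorem miss_ext_adj (ψ : Fin j → Option (Fin n)) (l k : Fin j) (hl : ψ l = none)
    (hkl : J.Adj k l) : miss J (extψ ψ l) k = miss J ψ k - 1 := by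
  unfold miss
  have h1 : Finset.univ.filter (fun l' => J.Adj k l' ∧ extψ ψ l l' = none) =
      (Finset.univ.filter (fun l' => J.Adj k l' ∧ ψ l' = none)).erase l := by
    ext x
    simp only [Finset.mem_filter, Finset.mem_univ, true_and, Finset.mem_erase, ext_none]
    tauto
  rw [h1, Finset.card_erase_of_mem]
  simp [hkl, hl]

theorem miss_ext_nadj (ψ : Fin j → Option (Fin n)) (l k : Fin j)
    (hkl : ¬ J.Adj k l) : miss J (extψ ψ l) k = miss J ψ k := by
  unfold miss
  congr 1
  ext x
  simp only [Finset.mem_filter, Finset.mem_univ, true_and, ext_none]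
  constructor
  · rintro ⟨h1, h2, h3⟩; exact ⟨h1, h2⟩
  · rintro ⟨h1, h2⟩
    refine ⟨h1, h2, ?_⟩
    rintro rfl
    exact hkl h1

theorem miss_ext_self (ψ : Fin j → Option (Fin n)) (l i : Fin j) (hl : ψ l = none)
    (hil : J.Adj i l) (hi : ψ i ≠ none) (huniq : ∀ k, J.Adj k l → ψ k ≠ none → k = i) :
    miss J (extψ ψ l) l = dg J l - 1 := by
  unfold miss dg
  have h1 : Finset.univ.filter (fun l' => J.Adj l l' ∧ extψ ψ l l' = none) =
      (Finset.univ.filter (fun l' => J.Adj l l')).erase i := by
    ext x
    simp only [Finset.mem_filter, Finset.mem_univ, true_and, Finset.mem_erase, ext_none]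
    constructor
    · rintro ⟨h1, h2, h3⟩
      refine ⟨?_, h1⟩
      rintro rfl
      exact hi h2
    · rintro ⟨h1, h2⟩
      refine ⟨h2, ?_, ?_⟩
      · by_contra hx
        exact h1 (huniq x h2.symm hx)
      · rintro rfl
        exact J.loopless.irrefl _ h2
  rw [h1, Finset.card_erase_of_mem]
  simp [hil.symm]

end

theorem extv (h1 : S_ATT) (h2 : S_BR) (h3 : S_CELL) (h4 : S_IMG) (h5 : S_HV) : S_EXTV := by
  intro j n J G v a b Kv Z Gf hJ hG
  obtain ⟨hAT, hadj, hadjl, hdist, hdistl, hdg, hdgl⟩ := h1 n G v hG
  obtain ⟨hbr1, hbr2, hbr3, hbr4⟩ := h2 n G v hG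
  have hlastnadj : ¬ (attach G v).Adj (Fin.last n) (Fin.last n) :=
    (attach G v).loopless.irrefl _
  constructor
  · intro ψ hψ i l hl hil hi
    have hPE : PE J G ψ := by simpa [PEs] using hψ
    obtain ⟨hconn, hadjiff, huniq⟩ := h4 j n J G ψ hJ hG hPE
    obtain ⟨-, hcell⟩ := h3 n G (img ψ) hG hconn
    have hvimg : v ∈ img ψ := (mem_img ψ v).2 ⟨i, hi⟩
    have hine : ψ i ≠ none := by rw [hi]; simp
    have hu : ∀ k, J.Adj k l → ψ k ≠ none → k = i := fun k hk hk' =>
      huniq l hl k i hk hil hk' hine
    have hli : l ≠ i := by rintro rfl; exact J.loopless.irrefl _ hil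
    set χ := extψ ψ l with hχ
    have hlastmem : Fin.last n ∈ img χ := (mem_img χ _).2 ⟨l, ext_self ψ l⟩
    -- general hub
    have hoff : ∀ h : Fin n, offN (attach G v) (img χ) h.castSucc =
        (offN G (img ψ) h).map Fin.castSuccEmb := by
      intro h
      ext x
      rw [mem_offN, Finset.mem_map]
      constructor
      · rintro ⟨hx1, hx2⟩
        induction x using Fin.lastCases with
        | last => exact absurd hlastmem hx2
        | cast x =>
          refine ⟨x, ?_, rfl⟩
          rw [mem_offN]
          exact ⟨(hadj h x).1 hx1, fun hx => hx2 ((img_ext_cast ψ l hl x).2 hx)⟩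
      · rintro ⟨y, hy, rfl⟩
        rw [mem_offN] at hy
        exact ⟨(hadj h y).2 hy.1, fun hx => hy.2 ((img_ext_cast ψ l hl y).1 hx)⟩
    have hhub : ∀ (k : Fin j) (h : Fin n), ψ k = some h →
        hubf J (attach G v) a b Kv Gf χ k h.castSucc =
          hval (offN G (img ψ) h) (fun x => a (degs G (br G h x)))
            (fun x => Kv k * b (degs G (br G h x)))
            (fun r => Gf k (miss J χ k) (dg (attach G v) h.castSucc) r) 0 := by
      intro k h hk
      unfold hubf
      rw [hoff h, hval_map h5]
      have hhimg : h ∈ img ψ := (mem_img ψ h).2 ⟨k, hk⟩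
      have hbr : ∀ x ∈ offN G (img ψ) h,
          degs (attach G v) (br (attach G v) h.castSucc (Fin.castSuccEmb x)) =
            degs G (br G h x) := by
        intro x hx
        exact hbr2 h x ((mem_offN _ _ _).1 hx).1 (hcell v hvimg h hhimg x hx)
      apply hval_congr
      · intro x hx; simp only [hbr x hx]
      · intro x hx; simp only [hbr x hx]
      · intro r; rfl
    -- the product
    have hsplit : ∀ F : Fin j → ℝ, ∏ k, F k =
        F l * F i * ∏ k ∈ (Finset.univ.erase i).erase l, F k := by
      intro F
      have e1 : ∏ k, F k = F i * ∏ k ∈ Finset.univ.erase i, F k :=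
        (Finset.mul_prod_erase Finset.univ F (Finset.mem_univ i)).symm
      have e2 : ∏ k ∈ Finset.univ.erase i, F k =
          F l * ∏ k ∈ (Finset.univ.erase i).erase l, F k :=
        (Finset.mul_prod_erase _ F (Finset.mem_erase.2 ⟨hli, Finset.mem_univ l⟩)).symm
      rw [e1, e2]; ring
    have hwt : wt J (attach G v) a b Kv Z Gf χ = ∏ i, fac J (attach G v) a b Kv Z Gf χ i := rfl
    rw [hwt, hsplit]
    have hfl : fac J (attach G v) a b Kv Z Gf χ l = Gf l (dg J l - 1) 1 0 := by
      unfold fac
      rw [hχ, ext_self]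
      show hubf J (attach G v) a b Kv Gf (extψ ψ l) l (Fin.last n) = _
      unfold hubf
      have hoffl : offN (attach G v) (img (extψ ψ l)) (Fin.last n) = ∅ := by
        ext x
        rw [mem_offN]
        simp only [Finset.notMem_empty, iff_false, not_and, not_not]
        intro hx
        induction x using Fin.lastCases with
        | last => exact absurd hx hlastnadj
        | cast x =>
          have := (hadjl x).1 hx
          subst this
          exact (img_ext_cast ψ l hl x).2 hvimg
      rw [hoffl, hval_empty, miss_ext_self ψ l i hl hil hine hu, hdgl]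
    have hfi : fac J (attach G v) a b Kv Z Gf χ i =
        hval (offN G (img ψ) v) (fun x => a (degs G (br G v x)))
        (fun x => Kv i * b (degs G (br G v x)))
        (fun r => Gf i (miss J ψ i - 1) (dg G v + 1) r) 0 := by
      have e : χ i = some v.castSucc := by
        rw [hχ, ext_ne ψ l i (Ne.symm hli), hi]; rfl
      unfold fac
      rw [e]
      show hubf J (attach G v) a b Kv Gf χ i v.castSucc = _
      rw [hhub i v hi, hχ, miss_ext_adj ψ l i hl hil, hdg, if_pos rfl]
    rw [hfl, hfi]
    congr 1
    refine Finset.prod_congr rfl fun k hk => ?_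
    have hkl : k ≠ l := (Finset.mem_erase.1 hk).1
    have hki : k ≠ i := (Finset.mem_erase.1 (Finset.mem_erase.1 hk).2).1
    unfold fac
    rcases hk' : ψ k with _ | h
    · have e : χ k = none := by
        rw [hχ, ext_none]; exact ⟨hk', hkl⟩
      rw [e]
    · have e : χ k = some h.castSucc := by
        rw [hχ, ext_ne ψ l k hkl, hk']; rfl
      rw [e]
      show hubf J (attach G v) a b Kv Gf χ k h.castSucc = hubf J G a b Kv Gf ψ k h
      have hkne : ψ k ≠ none := by rw [hk']; simp
      have hnadj : ¬ J.Adj k l := fun hh => hki (hu k hh hkne)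
      have hhv : h ≠ v := by
        rintro rfl
        exact hki (hPE.inj k i h hk' hi)
      rw [hhub k h hk', hχ, miss_ext_nadj ψ l k hnadj, hdg, if_neg hhv]
      rfl
  · intro w
    unfold wt
    rw [← Finset.mul_prod_erase Finset.univ _ (Finset.mem_univ w)]
    congr 1
    · have e : sing (j := j) n w w = some (Fin.last n) := by simp [sing]
      rw [e]
      show hubf J (attach G v) a b Kv Gf (sing n w) w (Fin.last n) = _
      unfold hubf
      have himg : ∀ x, x ∈ img (sing (j := j) n w) ↔ x = Fin.last n := by
        intro x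
        rw [mem_img]
        constructor
        · rintro ⟨i, hi⟩
          unfold sing at hi
          split_ifs at hi with hiw
          exact (Option.some.inj hi).symm
        · rintro rfl
          exact ⟨w, e⟩
      have hoffl : offN (attach G v) (img (sing (j := j) n w)) (Fin.last n) =
          insert v.castSucc ∅ := by
        ext x
        rw [mem_offN, himg]
        simp only [insert_empty_eq, Finset.mem_singleton]
        constructor
        · rintro ⟨hx, hx2⟩
          induction x using Fin.lastCases with
          | last => exact absurd rfl hx2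
          | cast x => rw [(hadjl x).1 hx]
        · rintro rfl
          exact ⟨(hadjl v).2 rfl, (Fin.castSucc_lt_last v).ne⟩
      rw [hoffl, h5 _ _ _ _ _ _ _ (by simp), hval_empty, hval_empty, hbr4, hdgl]
      have hmiss : miss J (sing (j := j) n w) w = dg J w := by
        unfold miss dg
        congr 1
        ext x
        simp only [Finset.mem_filter, Finset.mem_univ, true_and]
        constructor
        · rintro ⟨h, -⟩; exact h
        · intro h
          refine ⟨h, ?_⟩
          unfold sing
          rw [if_neg]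
          rintro rfl
          exact J.loopless.irrefl _ h
      rw [hmiss]
    · refine Finset.prod_congr rfl fun k hk => ?_
      have hkw : k ≠ w := (Finset.mem_erase.1 hk).1
      have e : sing (j := j) n w k = none := by simp [sing, hkw]
      rw [e]

end Pool.Agent.TH830.J2290
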