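import Pool.Agent.TH981.SD.Stm

set_option autoImplicit false

open Pool.Agent.TH981.SD
open Finset Set Filter
open scoped BigOperators Topology Classical

namespace Pool.Agent.TH830.J2291

theorem hval_nonneg {n : ℕ} (O : Finset (Fin n)) (a b : Fin n → ℝ) (g : ℕ → ℝ) (r : ℕ)
    (ha : ∀ x, 0 ≤ a x) (hb : ∀ x, 0 ≤ b x) (hg : ∀ r, 0 ≤ g r) : 0 ≤ hval O a b g r := by
  unfold hval
  exact Finset.sum_nonneg fun S _ => mul_nonneg (mul_nonneg
    (Finset.prod_nonneg fun x _ => hb x) (Finset.prod_nonneg fun x _ => ha x)) (hg _)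

theorem hval_mono {n : ℕ} (O : Finset (Fin n)) (a b : Fin n → ℝ) (g g' : ℕ → ℝ) (r : ℕ)
    (ha : ∀ x, 0 ≤ a x) (hb : ∀ x, 0 ≤ b x) (hg : ∀ r, g r ≤ g' r) :
    hval O a b g r ≤ hval O a b g' r := by
  unfold hval
  exact Finset.sum_le_sum fun S _ => mul_le_mul_of_nonneg_left (hg _) (mul_nonneg
    (Finset.prod_nonneg fun x _ => hb x) (Finset.prod_nonneg fun x _ => ha x))

theorem hval_smul {n : ℕ} (O : Finset (Fin n)) (a b : Fin n → ℝ) (g : ℕ → ℝ) (c : ℝ) (r : ℕ) :
    hval O a b (fun r => c * g r) r = c * hval O a b g r := by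
  unfold hval
  rw [Finset.mul_sum]
  exact Finset.sum_congr rfl fun S _ => by ring

theorem step (h1 : S_EXTV) (h2 : S_IMG) (h3 : S_AB) (h4 : S_TW) (h5 : S_YF) : S_STEP := by
  intro j n α z J Kv Km g Y Gf Gf' Z Z' Eh Eh' mu kap x4 x3 a1 G hS hG hn ψ hψ t ht hta
  have hPE : PE J G ψ := by simpa [PEs] using hψ
  obtain ⟨-, -, huniq⟩ := h2 j n J G ψ hS.hJ hG hPE
  obtain ⟨hAB, -⟩ := h3 α z Y hS.α0 hS.α1 hS.z0 hS.z1 hS.hY
  obtain ⟨hdg1, -, -, -⟩ := h4 α n G hS.α0 hS.α1 hn hG
  set a : Multiset ℕ → ℝ := aW Y t with ha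
  set b : Multiset ℕ → ℝ := bW α Y t with hb
  have ha0 : ∀ C, 0 ≤ a C := fun C => (hAB C t ht).2.2.1.le
  have hb0 : ∀ C, 0 ≤ b C := fun C => (hAB C t ht).2.2.2.1
  have ha1 : a {1} = Y 1 t := (hAB {1} t ht).2.2.2.2.2.2.2.1
  have hb1 : b {1} = m1 Y t := (hAB {1} t ht).2.2.2.2.2.2.2.2
  set Zt : Fin j → ℝ := fun i => Z i t with hZt
  set Gt : Fin j → ℕ → ℕ → ℕ → ℝ := fun i m d r => Gf i m d r t with hGt
  have hGt0 : ∀ i m d r, 0 ≤ Gt i m d r := fun i m d r => hS.Gnn i m d r t ht
  have hmu : 0 ≤ mu t := hS.mnn t ht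
  have hkap : 0 ≤ kap t := hS.knn t ht
  have hKb : ∀ i C, 0 ≤ Kv i * b C := fun i C => mul_nonneg (hS.Knn i) (hb0 C)
  -- factors
  set f : Fin j → ℝ := fun i => fac J G a b Kv Zt Gt ψ i with hf
  have hf0 : ∀ i, 0 ≤ f i := by
    intro i
    show 0 ≤ fac J G a b Kv Zt Gt ψ i
    unfold fac
    rcases ψ i with _ | h
    · exact hS.Znn i t ht
    · exact hval_nonneg _ _ _ _ _ (fun x => ha0 _) (fun x => hKb i _) (fun r => hGt0 _ _ _ _)
  have hfnone : ∀ i, ψ i = none → f i = Zt i := by
    intro i hi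
    show fac J G a b Kv Zt Gt ψ i = _
    unfold fac
    rw [hi]
  have hfsome : ∀ i h, ψ i = some h → f i = hubf J G a b Kv Gt ψ i h := by
    intro i h hi
    show fac J G a b Kv Zt Gt ψ i = _
    unfold fac
    rw [hi]
  set P : ℝ := ∏ i, f i with hP
  set Q : Fin j → ℝ := fun i => ∏ i' ∈ Finset.univ.erase i, f i' with hQ
  have hPQ : ∀ i, f i * Q i = P := fun i =>
    Finset.mul_prod_erase Finset.univ f (Finset.mem_univ i)
  have hP0 : 0 ≤ P := Finset.prod_nonneg fun i _ => hf0 i
  have hQ0 : ∀ i, 0 ≤ Q i := fun i => Finset.prod_nonneg fun i' _ => hf0 i'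
  have hmissj : ∀ i, miss J ψ i ≤ j := by
    intro i
    unfold miss
    exact (Finset.card_filter_le _ _).trans (by simp)
  have hdgj : ∀ i, dg J i ≤ j := by
    intro i
    unfold dg
    exact (Finset.card_filter_le _ _).trans (by simp)
  set A : Finset (Fin j) := Finset.univ.filter (fun i => ψ i ≠ none ∧ miss J ψ i ≠ 0) with hA
  set B : Finset (Fin j) := Finset.univ.filter
    (fun l => ψ l = none ∧ ∃ i, J.Adj i l ∧ ψ i ≠ none) with hB
  have hcard : A.card ≤ B.card := by
    have hex : ∀ i ∈ A, ∃ l, J.Adj i l ∧ ψ l = none := by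
      intro i hi
      rw [hA, Finset.mem_filter] at hi
      have : (Finset.univ.filter (fun l => J.Adj i l ∧ ψ l = none)).Nonempty := by
        rw [← Finset.card_pos]
        exact Nat.pos_of_ne_zero hi.2.2
      obtain ⟨l, hl⟩ := this
      rw [Finset.mem_filter] at hl
      exact ⟨l, hl.2⟩
    choose! φ hφ1 hφ2 using hex
    refine Finset.card_le_card_of_injOn φ ?_ ?_
    · intro i hi
      have hi' : i ∈ A := hi
      have hi2 := hi'
      rw [hA, Finset.mem_filter] at hi2
      show φ i ∈ B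
      rw [hB, Finset.mem_filter]
      exact ⟨Finset.mem_univ _, hφ2 i hi', i, hφ1 i hi', hi2.2.1⟩
    · intro i hi i' hi' he
      have hi2 : i ∈ A := hi
      have hi2' : i' ∈ A := hi'
      have hi3 := hi2
      have hi3' := hi2'
      rw [hA, Finset.mem_filter] at hi3 hi3'
      refine huniq (φ i) (hφ2 i hi2) i i' (hφ1 i hi2) ?_ hi3.2.1 hi3'.2.1
      rw [he]; exact hφ1 i' hi2'
  -- the right-hand side
  have hR : ∀ i, (if ψ i = none then mu t * P + kap t * x4 i t * Q i else 0) -
      (if i ∈ A then mu t * P else 0) ≤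
      dfac α J G a b Kv (fun i => Z' i t) Gt (fun i m d r => Gf' i m d r t) ψ i * Q i := by
    intro i
    rcases hi : ψ i with _ | h
    · have hiA : i ∉ A := by
        rw [hA, Finset.mem_filter]
        rintro ⟨-, h1, -⟩
        exact h1 hi
      rw [if_pos rfl, if_neg hiA, sub_zero]
      have hd : dfac α J G a b Kv (fun i => Z' i t) Gt (fun i m d r => Gf' i m d r t) ψ i =
          Z' i t := by
        unfold dfac; rw [hi]
      rw [hd, ← hPQ i, hfnone i hi]
      have := mul_le_mul_of_nonneg_right (hS.Zineq i t ht) (hQ0 i)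
      calc mu t * (Zt i * Q i) + kap t * x4 i t * Q i =
          (mu t * Z i t + kap t * x4 i t) * Q i := by
            simp only [hZt]; ring
        _ ≤ _ := this
    · rw [if_neg (by simp), zero_sub]
      have hd : dfac α J G a b Kv (fun i => Z' i t) Gt (fun i m d r => Gf' i m d r t) ψ i =
          hubf J G a b Kv (fun i m d r => Gf' i m d r t - lam α d *
            (a {1} * Gt i m (d + 1) r + Kv i * b {1} * Gt i m (d + 1) (r + 1) - Gt i m d r))
            ψ i h := by
        unfold dfac; rw [hi]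
      have hd1 : 1 ≤ dg G h := hdg1 h
      have hge : -(if miss J ψ i = 0 then 0 else mu t) * f i ≤
          dfac α J G a b Kv (fun i => Z' i t) Gt (fun i m d r => Gf' i m d r t) ψ i := by
        rw [hd, hfsome i h hi]
        unfold hubf
        rw [← hval_smul]
        refine hval_mono _ _ _ _ _ _ (fun x => ha0 _) (fun x => hKb i _) (fun r => ?_)
        have hG := hS.Gineq i (miss J ψ i) (dg G h) r t (hmissj i) hd1 ht hta
        rw [ha1, hb1]
        by_cases hm : miss J ψ i = 0
        · rw [if_pos hm] at hG ⊢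
          simp only [hGt]
          linarith
        · rw [if_neg hm] at hG ⊢
          simp only [hGt]
          linarith
      have hge2 := mul_le_mul_of_nonneg_right hge (hQ0 i)
      refine le_trans (le_of_eq ?_) hge2
      by_cases hm : miss J ψ i = 0
      · have hiA : i ∉ A := by
          rw [hA, Finset.mem_filter]
          rintro ⟨-, -, h1⟩
          exact h1 hm
        rw [if_neg hiA, if_pos hm]; ring
      · have hiA : i ∈ A := by
          rw [hA, Finset.mem_filter]
          exact ⟨Finset.mem_univ _, by rw [hi]; simp, hm⟩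
        rw [if_pos hiA, if_neg hm, ← hPQ i]; ring
  have hRsum : ∑ l ∈ B, kap t * x4 l t * Q l ≤
      ∑ i, dfac α J G a b Kv (fun i => Z' i t) Gt (fun i m d r => Gf' i m d r t) ψ i * Q i := by
    refine le_trans ?_ (Finset.sum_le_sum fun i _ => hR i)
    rw [Finset.sum_sub_distrib]
    have e1 : ∑ i, (if i ∈ A then mu t * P else 0) = A.card * (mu t * P) := by
      rw [← Finset.sum_filter]
      rw [Finset.sum_const, nsmul_eq_mul]
      congr 2
      congr 1
      ext i; simp
    have hx40 : ∀ i, 0 ≤ x4 i t := fun i =>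
      (hS.Gnn i 0 1 0 t ht).trans (hS.Gx4 i 0 t (Nat.zero_le _) ht)
    have e2 : ∑ l ∈ B, (mu t * P + kap t * x4 l t * Q l) ≤
        ∑ i, (if ψ i = none then mu t * P + kap t * x4 i t * Q i else 0) := by
      rw [← Finset.sum_filter]
      refine Finset.sum_le_sum_of_subset_of_nonneg ?_ ?_
      · intro l hl
        rw [hB, Finset.mem_filter] at hl
        rw [Finset.mem_filter]
        exact ⟨Finset.mem_univ _, hl.2.1⟩
      · intro i _ _
        exact add_nonneg (mul_nonneg hmu hP0) (mul_nonneg (mul_nonneg hkap (hx40 i)) (hQ0 i))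
    rw [Finset.sum_add_distrib, Finset.sum_const, nsmul_eq_mul] at e2
    rw [e1]
    have e3 : (A.card : ℝ) * (mu t * P) ≤ B.card * (mu t * P) :=
      mul_le_mul_of_nonneg_right (by exact_mod_cast hcard) (mul_nonneg hmu hP0)
    linarith
  refine le_trans ?_ hRsum
  -- the left-hand side
  have hswap : ∑ v, lam α (dg G v) * (∑ l, (if ψ l = none ∧ ∃ i, J.Adj i l ∧ ψ i = some v then
      wt J (attach G v) a b Kv Zt Gt (extψ ψ l) else 0)) =
      ∑ l, ∑ v, lam α (dg G v) * (if ψ l = none ∧ ∃ i, J.Adj i l ∧ ψ i = some v then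
      wt J (attach G v) a b Kv Zt Gt (extψ ψ l) else 0) := by
    rw [Finset.sum_comm]
    exact Finset.sum_congr rfl fun v _ => by rw [Finset.mul_sum]
  rw [hswap]
  have hL : ∀ l, ∑ v, lam α (dg G v) * (if ψ l = none ∧ ∃ i, J.Adj i l ∧ ψ i = some v then
      wt J (attach G v) a b Kv Zt Gt (extψ ψ l) else 0) ≤
      if l ∈ B then kap t * x4 l t * Q l else 0 := by
    intro l
    by_cases hl : l ∈ B
    · rw [if_pos hl]
      rw [hB, Finset.mem_filter] at hl
      obtain ⟨-, hl0, i, hil, hi⟩ := hl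
      obtain ⟨h, hih⟩ := Option.ne_none_iff_exists'.1 hi
      have hli : l ≠ i := by rintro rfl; exact J.loopless.irrefl _ hil
      rw [Finset.sum_eq_single h]
      · rw [if_pos ⟨hl0, i, hil, hih⟩]
        obtain ⟨hE, -⟩ := h1 j n J G h a b Kv Zt Gt hS.hJ hG
        rw [hE ψ hψ i l hl0 hil hih]
        have hQl : Q l = f i * ∏ i' ∈ (Finset.univ.erase i).erase l, f i' := by
          show ∏ i' ∈ Finset.univ.erase l, f i' = _
          rw [Finset.erase_right_comm]
          exact (Finset.mul_prod_erase _ f (Finset.mem_erase.2 ⟨Ne.symm hli, Finset.mem_univ i⟩)).symm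
        have hmiss1 : miss J ψ i - 1 + 1 = miss J ψ i := by
          apply Nat.sub_add_cancel
          unfold miss
          rw [Nat.one_le_iff_ne_zero, Finset.card_ne_zero]
          exact ⟨l, by rw [Finset.mem_filter]; exact ⟨Finset.mem_univ _, hil, hl0⟩⟩
        have hbirth : lam α (dg G h) * hval (offN G (img ψ) h) (fun x => a (degs G (br G h x)))
            (fun x => Kv i * b (degs G (br G h x)))
            (fun r => Gt i (miss J ψ i - 1) (dg G h + 1) r) 0 ≤ kap t * f i := by
          rw [hfsome i h hih, ← hval_smul]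
          unfold hubf
          rw [← hval_smul]
          refine hval_mono _ _ _ _ _ _ (fun x => ha0 _) (fun x => hKb i _) (fun r => ?_)
          have := hS.Gbirth i (miss J ψ i - 1) (dg G h) r t (by rw [hmiss1]; exact hmissj i)
            (hdg1 h) ht
          rw [hmiss1] at this
          exact this
        have hx4 : Gt l (dg J l - 1) 1 0 ≤ x4 l t :=
          hS.Gx4 l (dg J l - 1) t ((Nat.sub_le _ _).trans (hdgj l)) ht
        have hprod : 0 ≤ ∏ i' ∈ (Finset.univ.erase i).erase l, f i' :=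
          Finset.prod_nonneg fun i' _ => hf0 i'
        rw [hQl]
        set R : ℝ := ∏ i' ∈ (Finset.univ.erase i).erase l, f i' with hRdef
        set Hv : ℝ := hval (offN G (img ψ) h) (fun x => a (degs G (br G h x)))
            (fun x => Kv i * b (degs G (br G h x)))
            (fun r => Gt i (miss J ψ i - 1) (dg G h + 1) r) 0 with hHv
        have hlam0 : 0 ≤ lam α (dg G h) := Real.rpow_nonneg (Nat.cast_nonneg _) _
        have hHv0 : 0 ≤ Hv := hval_nonneg _ _ _ _ _ (fun x => ha0 _) (fun x => hKb i _)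
          (fun r => hGt0 _ _ _ _)
        calc lam α (dg G h) * (Gt l (dg J l - 1) 1 0 * Hv * R)
            = Gt l (dg J l - 1) 1 0 * (lam α (dg G h) * Hv) * R := by ring
          _ ≤ x4 l t * (kap t * f i) * R := by
              refine mul_le_mul_of_nonneg_right ?_ hprod
              exact mul_le_mul hx4 hbirth (mul_nonneg hlam0 hHv0)
                ((hGt0 _ _ _ _).trans hx4)
          _ = kap t * x4 l t * (f i * R) := by ring
      · intro v _ hv
        rw [if_neg, mul_zero]
        rintro ⟨-, i', hi'l, hi'⟩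
        have := huniq l hl0 i' i hi'l hil (by rw [hi']; simp) hi
        subst this
        rw [hih] at hi'
        exact hv (Option.some.inj hi').symm
      · intro hh; exact absurd (Finset.mem_univ _) hh
    · rw [if_neg hl]
      refine le_of_eq (Finset.sum_eq_zero fun v _ => ?_)
      rw [if_neg, mul_zero]
      rintro ⟨hl0, i, hil, hi⟩
      apply hl
      rw [hB, Finset.mem_filter]
      exact ⟨Finset.mem_univ _, hl0, i, hil, by rw [hi]; simp⟩
  refine le_trans (Finset.sum_le_sum fun l _ => hL l) (le_of_eq ?_)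
  rw [← Finset.sum_filter]
  congr 1
  ext i; simp

end Pool.Agent.TH830.J2291
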