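import Pool.Agent.TH600.YT.Basic

set_option autoImplicit false

open MeasureTheory Real Set
open scoped ContDiff

namespace Pool.Agent.TH830.YT745

open Pool.Agent.TH600.YT

/-- radial integrals over the disc -/
theorem disc_radial (f : ℝ → ℝ) :
    ∫ q in Dsc, f (q.1 ^ 2 + q.2 ^ 2) = (∫ r in (0:ℝ)..1, r * f (r ^ 2)) * (2 * π) := by
  have h1 : ∫ q in Dsc, f (q.1 ^ 2 + q.2 ^ 2) =
      ∫ q, Dsc.indicator (fun q => f (q.1 ^ 2 + q.2 ^ 2)) q :=
    (integral_indicator measurableSet_Dsc).symm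
  have hm : MeasurableSet (Iio (1:ℝ) ×ˢ (univ : Set ℝ)) := measurableSet_Iio.prod MeasurableSet.univ
  rw [h1, ← integral_comp_polarCoord_symm]
  have h2 : ∫ p in polarCoord.target, p.1 • Dsc.indicator (fun q => f (q.1 ^ 2 + q.2 ^ 2))
      (polarCoord.symm p) = ∫ p in polarCoord.target, (Iio (1:ℝ) ×ˢ (univ : Set ℝ)).indicator
        (fun p => (p.1 * f (p.1 ^ 2)) * 1) p := by
    apply setIntegral_congr_fun
    · exact measurableSet_Ioi.prod measurableSet_Ioo
    · rintro ⟨r, θ⟩ hp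
      have hr : 0 < r := hp.1
      have hs : (r * cos θ) ^ 2 + (r * sin θ) ^ 2 = r ^ 2 := by
        have := sin_sq_add_cos_sq θ
        nlinarith
      simp only [polarCoord_symm_apply, smul_eq_mul]
      by_cases h : r < 1
      · rw [indicator_of_mem, indicator_of_mem]
        · simp only
          rw [hs, mul_one]
        · exact ⟨h, mem_univ _⟩
        · change (r * cos θ) ^ 2 + (r * sin θ) ^ 2 < 1
          rw [hs]
          nlinarith
      · rw [indicator_of_notMem, indicator_of_notMem, mul_zero]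
        · exact fun h' => h h'.1
        · change ¬ ((r * cos θ) ^ 2 + (r * sin θ) ^ 2 < 1)
          rw [hs]
          nlinarith
  rw [h2, setIntegral_indicator hm]
  have h3 : polarCoord.target ∩ (Iio (1:ℝ) ×ˢ (univ : Set ℝ)) = Ioo 0 1 ×ˢ Ioo (-π) π := by
    ext ⟨r, θ⟩
    simp only [polarCoord_target, mem_inter_iff, mem_prod, mem_Ioi, mem_Ioo, mem_Iio, mem_univ,
      and_true]
    tauto
  rw [h3, Measure.volume_eq_prod,
    setIntegral_prod_mul (fun r : ℝ => r * f (r ^ 2)) (fun _ : ℝ => (1 : ℝ))]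
  rw [intervalIntegral.integral_of_le (by norm_num), integral_Ioc_eq_integral_Ioo]
  congr 1
  rw [setIntegral_const, measureReal_def, Real.volume_Ioo]
  have hπ := pi_pos
  rw [ENNReal.toReal_ofReal (by linarith)]
  simp
  ring

theorem disc_one : ∫ _q in Dsc, (1 : ℝ) = π := by
  have h := disc_radial (fun _ => 1)
  rw [h]
  have : ∫ r in (0:ℝ)..1, r * (1:ℝ) = 1 / 2 := by
    simp
  rw [this]
  ring

theorem disc_sq : ∫ q in Dsc, (q.1 ^ 2 + q.2 ^ 2 : ℝ) = π / 2 := by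
  have h := disc_radial (fun t => t)
  rw [h]
  have : ∫ r in (0:ℝ)..1, r * r ^ 2 = 1 / 4 := by
    have : (fun r : ℝ => r * r ^ 2) = fun r : ℝ => r ^ 3 := by
      funext r
      ring
    rw [this, integral_pow]
    norm_num
  rw [this]
  ring

theorem disc_four (t : ℝ) : ∫ q in Dsc, 4 * t * (1 - t * (q.1 ^ 2 + q.2 ^ 2 : ℝ)) ^ 4 =
    4 / 5 * (1 - (1 - t) ^ 5) * π := by
  have h := disc_radial (fun s => 4 * t * (1 - t * s) ^ 4)
  rw [h]
  have : ∫ r in (0:ℝ)..1, r * (4 * t * (1 - t * r ^ 2) ^ 4) = 2 / 5 * (1 - (1 - t) ^ 5) := by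
    have hd : ∀ r ∈ uIcc (0:ℝ) 1, HasDerivAt (fun r : ℝ => - (2 / 5) * (1 - t * r ^ 2) ^ 5)
        (r * (4 * t * (1 - t * r ^ 2) ^ 4)) r := by
      intro r _
      have h1 : HasDerivAt (fun r : ℝ => 1 - t * r ^ 2) (-(t * (2 * r))) r := by
        have := ((hasDerivAt_pow 2 r).const_mul t).const_sub 1
        simpa using this
      have h2 := (h1.pow 5).const_mul (-(2 / 5) : ℝ)
      refine h2.congr_deriv ?_
      push_cast
      ring
    rw [intervalIntegral.integral_eq_sub_of_hasDerivAt hd]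
    · simp
      ring
    · apply Continuous.intervalIntegrable
      fun_prop
  rw [this]
  ring

/-- the factor depending on the third variable -/
noncomputable def g (b : ℝ) : ℝ := 9 + 6 * cos b + 2 * cos b ^ 2

/-- its derivative -/
noncomputable def g' (b : ℝ) : ℝ := -(6 * sin b) - 4 * cos b * sin b

theorem hg (b : ℝ) : HasDerivAt g (g' b) b := by
  have h1 := (hasDerivAt_cos b)
  have h2 := ((h1.const_mul 6).const_add 9).add ((h1.pow 2).const_mul 2)
  refine h2.congr_deriv ?_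
  unfold g'
  simp
  ring

theorem g_pos (b : ℝ) : 0 < g b := by
  unfold g
  nlinarith [sq_nonneg (2 * cos b + 3)]

theorem g_cont : Continuous g := by
  unfold g
  fun_prop

theorem g'_cont : Continuous g' := by
  unfold g'
  fun_prop

/-- the test function -/
noncomputable def v (p : ℝ × ℝ × ℝ) : ℝ := g p.2.2 * (1 - tau * (p.1 ^ 2 + p.2.1 ^ 2))

theorem v_smooth : ContDiff ℝ ∞ v := by
  unfold v g
  fun_prop

theorem v_adm : Adm (2 * π) v := by
  refine ⟨fun x y z _ => v_smooth.contDiffAt, ?_, ?_⟩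
  · intro x y z
    simp only [v, g, cos_add_two_pi]
  · intro x y z h
    have h1 := one_sub_pos (p := (x, y, z)) h
    exact mul_pos (g_pos z) h1

theorem v_diff (p : ℝ × ℝ × ℝ) : DifferentiableAt ℝ v p :=
  v_smooth.contDiffAt.differentiableAt (by simp)

theorem D1_v (p : ℝ × ℝ × ℝ) : D1 v p = g p.2.2 * (-(tau * (2 * p.1))) := by
  unfold D1
  have h1 : HasDerivAt (fun t : ℝ => ((t, p.2.1, p.2.2) : ℝ × ℝ × ℝ)) (1, 0, 0) p.1 :=
    (hasDerivAt_id p.1).prodMk ((hasDerivAt_const _ _).prodMk (hasDerivAt_const _ _))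
  have h2 := (v_diff p).hasFDerivAt.comp_hasDerivAt p.1 h1
  have h3 : HasDerivAt (fun t : ℝ => v (t, p.2.1, p.2.2)) (g p.2.2 * (-(tau * (2 * p.1)))) p.1 := by
    unfold v
    have := ((((hasDerivAt_pow 2 p.1).add_const (p.2.1 ^ 2)).const_mul tau).const_sub 1).const_mul
      (g p.2.2)
    refine this.congr_deriv ?_
    simp
  exact h2.unique h3

theorem D2_v (p : ℝ × ℝ × ℝ) : D2 v p = g p.2.2 * (-(tau * (2 * p.2.1))) := by
  unfold D2
  have h1 : HasDerivAt (fun t : ℝ => ((p.1, t, p.2.2) : ℝ × ℝ × ℝ)) (0, 1, 0) p.2.1 :=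
    (hasDerivAt_const _ _).prodMk ((hasDerivAt_id p.2.1).prodMk (hasDerivAt_const _ _))
  have h2 := (v_diff p).hasFDerivAt.comp_hasDerivAt p.2.1 h1
  have h3 : HasDerivAt (fun t : ℝ => v (p.1, t, p.2.2)) (g p.2.2 * (-(tau * (2 * p.2.1)))) p.2.1 := by
    unfold v
    have := ((((hasDerivAt_pow 2 p.2.1).const_add (p.1 ^ 2)).const_mul tau).const_sub 1).const_mul
      (g p.2.2)
    refine this.congr_deriv ?_
    simp
  exact h2.unique h3

theorem D3_v (p : ℝ × ℝ × ℝ) : D3 v p = g' p.2.2 * (1 - tau * (p.1 ^ 2 + p.2.1 ^ 2)) := by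
  unfold D3
  have h1 : HasDerivAt (fun t : ℝ => ((p.1, p.2.1, t) : ℝ × ℝ × ℝ)) (0, 0, 1) p.2.2 :=
    (hasDerivAt_const _ _).prodMk ((hasDerivAt_const _ _).prodMk (hasDerivAt_id p.2.2))
  have h2 := (v_diff p).hasFDerivAt.comp_hasDerivAt p.2.2 h1
  have h3 : HasDerivAt (fun t : ℝ => v (p.1, p.2.1, t))
      (g' p.2.2 * (1 - tau * (p.1 ^ 2 + p.2.1 ^ 2))) p.2.2 := by
    unfold v
    exact (hg p.2.2).mul_const (1 - tau * (p.1 ^ 2 + p.2.1 ^ 2))
  exact h2.unique h3

theorem cosI (n : ℕ) : ∫ x in (0:ℝ)..(2 * π), cos x ^ (n + 2) =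
    (n + 1) / (n + 2) * ∫ x in (0:ℝ)..(2 * π), cos x ^ n := by
  rw [integral_cos_pow]
  simp

theorem cosI0 : ∫ x in (0:ℝ)..(2 * π), cos x ^ 0 = 2 * π := by
  simp

theorem cosI1 : ∫ x in (0:ℝ)..(2 * π), cos x ^ 1 = 0 := by
  simp

theorem cosI2 : ∫ x in (0:ℝ)..(2 * π), cos x ^ 2 = π := by
  have := cosI 0
  rw [cosI0] at this
  rw [this]
  norm_num
  ring

theorem cosI3 : ∫ x in (0:ℝ)..(2 * π), cos x ^ 3 = 0 := by
  have := cosI 1
  rw [cosI1] at this
  rw [this]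
  norm_num

theorem cosI4 : ∫ x in (0:ℝ)..(2 * π), cos x ^ 4 = 3 / 4 * π := by
  have := cosI 2
  rw [cosI2] at this
  rw [this]
  norm_num

theorem cosI5 : ∫ x in (0:ℝ)..(2 * π), cos x ^ 5 = 0 := by
  have := cosI 3
  rw [cosI3] at this
  rw [this]
  norm_num

theorem cosI6 : ∫ x in (0:ℝ)..(2 * π), cos x ^ 6 = 5 / 8 * π := by
  have := cosI 4
  rw [cosI4] at this
  rw [this]
  norm_num
  ring

theorem cosI7 : ∫ x in (0:ℝ)..(2 * π), cos x ^ 7 = 0 := by
  have := cosI 5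
  rw [cosI5] at this
  rw [this]
  norm_num

theorem cosI8 : ∫ x in (0:ℝ)..(2 * π), cos x ^ 8 = 35 / 64 * π := by
  have := cosI 6
  rw [cosI6] at this
  rw [this]
  norm_num
  ring

theorem cosI9 : ∫ x in (0:ℝ)..(2 * π), cos x ^ 9 = 0 := by
  have := cosI 7
  rw [cosI7] at this
  rw [this]
  norm_num

theorem cosI10 : ∫ x in (0:ℝ)..(2 * π), cos x ^ 10 = 63 / 128 * π := by
  have := cosI 8
  rw [cosI8] at this
  rw [this]
  norm_num
  ring

theorem cosI11 : ∫ x in (0:ℝ)..(2 * π), cos x ^ 11 = 0 := by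
  have := cosI 9
  rw [cosI9] at this
  rw [this]
  norm_num

theorem cosI12 : ∫ x in (0:ℝ)..(2 * π), cos x ^ 12 = 231 / 512 * π := by
  have := cosI 10
  rw [cosI10] at this
  rw [this]
  norm_num
  ring

theorem trig (c : ℕ → ℝ) : ∫ x in (0:ℝ)..(2 * π), ∑ n ∈ Finset.range 13, c n * cos x ^ n =
    (2 * c 0 + c 2 + 3 / 4 * c 4 + 5 / 8 * c 6 + 35 / 64 * c 8 + 63 / 128 * c 10 +
      231 / 512 * c 12) * π := by
  rw [intervalIntegral.integral_finsetSum]
  · simp only [intervalIntegral.integral_const_mul, Finset.sum_range_succ, Finset.sum_range_zero,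
      cosI0, cosI1, cosI2, cosI3, cosI4, cosI5, cosI6, cosI7, cosI8, cosI9, cosI10, cosI11, cosI12]
    ring
  · intro n _
    apply Continuous.intervalIntegrable
    fun_prop

/-- coefficients -/
def cf (l : List ℝ) (n : ℕ) : ℝ := l.getD n 0

theorem int_g2 : ∫ x in (0:ℝ)..(2 * π), g x ^ 2 = 237 * π := by
  have h := trig (cf [81, 108, 72, 24, 4])
  have e : (fun x : ℝ => g x ^ 2) = fun x => ∑ n ∈ Finset.range 13,
      cf [81, 108, 72, 24, 4] n * cos x ^ n := by
    funext x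
    simp only [Finset.sum_range_succ, Finset.sum_range_zero, cf, g]
    simp
    ring
  rw [e, h]
  simp [cf]
  norm_num

theorem int_g'2 : ∫ x in (0:ℝ)..(2 * π), g' x ^ 2 = 40 * π := by
  have h := trig (cf [36, 48, -20, -48, -16])
  have e : (fun x : ℝ => g' x ^ 2) = fun x => ∑ n ∈ Finset.range 13,
      cf [36, 48, -20, -48, -16] n * cos x ^ n := by
    funext x
    have hs : sin x ^ 2 = 1 - cos x ^ 2 := by
      have := sin_sq_add_cos_sq x
      linarith
    have h2 : g' x ^ 2 = sin x ^ 2 * (6 + 4 * cos x) ^ 2 := by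
      unfold g'
      ring
    simp only [Finset.sum_range_succ, Finset.sum_range_zero, cf]
    rw [h2, hs]
    simp
    ring
  rw [e, h]
  simp [cf]
  norm_num

theorem int_g6 : ∫ x in (0:ℝ)..(2 * π), g x ^ 6 = 83931945 / 8 * π := by
  have h := trig (cf [531441, 2125764, 4251528, 5511240, 5117580, 3569184, 1912896, 793152,
    252720, 60480, 10368, 1152, 64])
  have e : (fun x : ℝ => g x ^ 6) = fun x => ∑ n ∈ Finset.range 13,
      cf [531441, 2125764, 4251528, 5511240, 5117580, 3569184, 1912896, 793152,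
    252720, 60480, 10368, 1152, 64] n * cos x ^ n := by
    funext x
    simp only [Finset.sum_range_succ, Finset.sum_range_zero, cf, g]
    simp
    ring
  rw [e, h]
  simp [cf]
  norm_num

theorem inner (A B : ℝ) : ∫ q in Dsc, (A * (q.1 ^ 2 + q.2 ^ 2 : ℝ) + B * 1) =
    A * (π / 2) + B * π := by
  rw [integral_add, integral_const_mul, integral_const_mul, disc_sq, disc_one]
  · apply intOn_disc
    fun_prop
  · apply intOn_disc
    fun_prop

theorem int_E : (∫ p in Cyl (2 * π), (8 * ((D1 v p) ^ 2 + (D2 v p) ^ 2) +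
    Ay p * (8 * 1 * (D3 v p) ^ 2 - 2 * (v p) ^ 2))) =
    (16 * tau ^ 2 - 8 * tau) * π * (237 * π) + 32 * tau * π * (40 * π) := by
  have h1 : (∫ p in Cyl (2 * π), (8 * ((D1 v p) ^ 2 + (D2 v p) ^ 2) +
    Ay p * (8 * 1 * (D3 v p) ^ 2 - 2 * (v p) ^ 2))) =
    ∫ p in Cyl (2 * π), ((32 * tau ^ 2 * g p.2.2 ^ 2) * (p.1 ^ 2 + p.2.1 ^ 2) +
      (32 * tau * g' p.2.2 ^ 2 - 8 * tau * g p.2.2 ^ 2) * 1) := by
    apply setIntegral_congr_fun (measurableSet_Cyl _)
    intro p hp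
    have h2 := one_sub_pos (p := p) hp.1.le
    have h3 : Pool.Agent.TH600.YT.sq p = p.1 ^ 2 + p.2.1 ^ 2 := rfl
    simp only [D1_v, D2_v, D3_v, v, Ay]
    rw [← h3]
    field_simp
    rw [h3]
    ring
  have h4 : ContinuousOn (fun p : ℝ × ℝ × ℝ => ((32 * tau ^ 2 * g p.2.2 ^ 2) * (p.1 ^ 2 + p.2.1 ^ 2) +
      (32 * tau * g' p.2.2 ^ 2 - 8 * tau * g p.2.2 ^ 2) * 1)) (cCyl (2 * π)) := by
    have := g_cont
    have := g'_cont
    fun_prop
  have hπ := pi_pos
  rw [h1, cyl_fubini (by positivity) h4]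
  simp only [inner]
  have h5 : (fun z : ℝ => 32 * tau ^ 2 * g z ^ 2 * (π / 2) +
      (32 * tau * g' z ^ 2 - 8 * tau * g z ^ 2) * π) = fun z =>
      (16 * tau ^ 2 - 8 * tau) * π * g z ^ 2 + 32 * tau * π * g' z ^ 2 := by
    funext z
    ring
  rw [h5, intervalIntegral.integral_add, intervalIntegral.integral_const_mul,
    intervalIntegral.integral_const_mul, int_g2, int_g'2]
  · apply Continuous.intervalIntegrable
    have := g_cont
    fun_prop
  · apply Continuous.intervalIntegrable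
    have := g'_cont
    fun_prop

theorem int_bdry : bdry (2 * π) v = 2 * π * (1 - tau) ^ 2 * (237 * π) := by
  unfold bdry
  have h1 : ∀ z : ℝ, ∫ φ in (0 : ℝ)..(2 * π), v (cos φ, sin φ, z) ^ 2 =
      2 * π * (1 - tau) ^ 2 * g z ^ 2 := by
    intro z
    have h2 : (fun φ : ℝ => v (cos φ, sin φ, z) ^ 2) = fun _ => (g z * (1 - tau)) ^ 2 := by
      funext φ
      simp only [v]
      rw [cos_sq_add_sin_sq, mul_one]
    rw [h2, intervalIntegral.integral_const, smul_eq_mul]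
    ring
  simp only [h1]
  rw [intervalIntegral.integral_const_mul, int_g2]

theorem int_V : ∫ p in Cyl (2 * π), Ay p * v p ^ 6 =
    4 / 5 * (1 - (1 - tau) ^ 5) * π * (83931945 / 8 * π) := by
  have h1 : ∫ p in Cyl (2 * π), Ay p * v p ^ 6 =
      ∫ p in Cyl (2 * π), g p.2.2 ^ 6 * (4 * tau * (1 - tau * (p.1 ^ 2 + p.2.1 ^ 2)) ^ 4) := by
    apply setIntegral_congr_fun (measurableSet_Cyl _)
    intro p hp
    have h2 := one_sub_pos (p := p) hp.1.le
    have h3 : Pool.Agent.TH600.YT.sq p = p.1 ^ 2 + p.2.1 ^ 2 := rfl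
    simp only [v, Ay]
    rw [← h3]
    field_simp
  have h4 : ContinuousOn (fun p : ℝ × ℝ × ℝ =>
      g p.2.2 ^ 6 * (4 * tau * (1 - tau * (p.1 ^ 2 + p.2.1 ^ 2)) ^ 4)) (cCyl (2 * π)) := by
    have := g_cont
    fun_prop
  have hπ := pi_pos
  have h5 : ∀ z : ℝ, ∫ q in Dsc, g z ^ 6 * (4 * tau * (1 - tau * (q.1 ^ 2 + q.2 ^ 2 : ℝ)) ^ 4) =
      g z ^ 6 * (4 / 5 * (1 - (1 - tau) ^ 5) * π) := by
    intro z
    rw [integral_const_mul, disc_four]
  rw [h1, cyl_fubini (by positivity) h4]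
  simp only [h5]
  rw [intervalIntegral.integral_mul_const, int_g6]
  ring

theorem clifford_upper : ∃ v : ℝ × ℝ × ℝ → ℝ, Adm (2 * π) v ∧
    Ey 1 (2 * π) v < 24.8 * (∫ p in Cyl (2 * π), Ay p * v p ^ 6) ^ (1 / 3 : ℝ) := by
  refine ⟨v, v_adm, ?_⟩
  have hπ := pi_pos
  have hs2 : √2 ^ 2 = 2 := Real.sq_sqrt (by norm_num)
  have hs1 : (1.41421356 : ℝ) < √2 := by
    rw [Real.lt_sqrt (by norm_num)]; norm_num
  have hs3 : √2 < (1.41421357 : ℝ) := by
    rw [Real.sqrt_lt' (by norm_num)]; norm_num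
  have hE : Ey 1 (2 * π) v = π ^ 2 * (47448 - 32896 * √2) := by
    unfold Ey
    rw [int_E, int_bdry]
    unfold tau
    have e3 : √2 ^ 3 = 2 * √2 := by rw [pow_succ, hs2]
    ring_nf
    rw [e3, hs2]
    ring
  have hN : ∫ p in Cyl (2 * π), Ay p * v p ^ 6 =
      π ^ 2 * (83931945 / 10 * (1313 - 928 * √2)) := by
    rw [int_V]
    unfold tau
    have e1 : (1 - (3 - 2 * √2)) ^ 5 = 928 * √2 - 1312 := by
      have : (1 - (3 - 2 * √2)) ^ 5 = 32 * (√2 - 1) * ((√2 - 1) ^ 2) ^ 2 := by ring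
      rw [this]
      have e2 : (√2 - 1) ^ 2 = 3 - 2 * √2 := by linear_combination hs2
      rw [e2]
      linear_combination (32 * (4 * √2 - 16)) * hs2
    rw [e1]
    ring
  rw [hE, hN]
  set e := 47448 - 32896 * √2 with he
  set n := 83931945 / 10 * (1313 - 928 * √2) with hn
  have he1 : e < 926.1 := by rw [he]; linarith
  have he0 : 0 < e := by rw [he]; linarith
  have hn1 : 5118000 < n := by rw [hn]; nlinarith
  have hP : π ^ 2 < 9.8697 := by
    have := pi_lt_d4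
    nlinarith
  have hP0 : 0 < π ^ 2 := by positivity
  set P := π ^ 2
  have key : (P * e / 24.8) ^ 3 < P * n := by
    have h1 : P ^ 2 < 97.412 := by nlinarith
    have h2 : e ^ 3 < 794300000 := by
      calc e ^ 3 < 926.1 ^ 3 := by gcongr
        _ < _ := by norm_num
    have h3 : P ^ 2 * e ^ 3 < 24.8 ^ 3 * n := by
      calc P ^ 2 * e ^ 3 ≤ 97.412 * 794300000 := by
            apply mul_le_mul h1.le h2.le (by positivity) (by norm_num)
        _ < 24.8 ^ 3 * 5118000 := by norm_num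
        _ < _ := by nlinarith
    have h4 : (P * e / 24.8) ^ 3 = P * (P ^ 2 * e ^ 3) / 24.8 ^ 3 := by ring
    rw [h4, div_lt_iff₀ (by norm_num)]
    nlinarith
  have hx : 0 ≤ P * e / 24.8 := by positivity
  have h5 : P * e / 24.8 < (P * n) ^ (1 / 3 : ℝ) := by
    have h6 : ((P * e / 24.8) ^ 3) ^ (1 / 3 : ℝ) = P * e / 24.8 := by
      rw [← Real.rpow_natCast, ← Real.rpow_mul hx]
      norm_num
    rw [← h6]
    exact Real.rpow_lt_rpow (by positivity) key (by norm_num)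
  rw [div_lt_iff₀ (by norm_num)] at h5
  linarith

end Pool.Agent.TH830.YT745
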