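import Pool.Agent.TH830.UBase

/-!
# Connectivity under relabelling and localisation
-/

namespace Pool.Agent.TH830.UST
open Finset Pool.Agent.TH968.UST
variable {V V' : Type*}

theorem conn_map_of {j : V → V'} {T : Set (Sym2 V)} {a b : V} (h : Conn ⊥ T a b) :
    Conn ⊥ (Sym2.map j '' T) (j a) (j b) := by
  induction h with
  | rel a b h =>
    rcases h with h | h
    · have : a = b := h
      rw [this]; exact crefl _ _ _
    · exact cedge ⟨s(a, b), h, rfl⟩
  | refl a => exact crefl _ _ _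
  | symm a b _ ih => exact csymm ih
  | trans a b c _ _ ih1 ih2 => exact ctrans ih1 ih2

theorem conn_map_aux {j : V → V'} {S : Set V} (hj : Set.InjOn j S) {T : Set (Sym2 V)}
    (hT : ∀ a b, s(a, b) ∈ T → a ∈ S ∧ b ∈ S) {u v : V'}
    (h : Conn ⊥ (Sym2.map j '' T) u v) :
    u = v ∨ ∃ a b, a ∈ S ∧ b ∈ S ∧ j a = u ∧ j b = v ∧ Conn ⊥ T a b := by
  induction h with
  | rel u v h =>
    rcases h with h | h
    · exact Or.inl h
    · obtain ⟨e, he, heq⟩ := h
      induction e using Sym2.ind with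
      | _ a b =>
        have hab := hT a b he
        rw [Sym2.map_mk] at heq
        rcases Sym2.eq_iff.1 heq with ⟨h1, h2⟩ | ⟨h1, h2⟩
        · exact Or.inr ⟨a, b, hab.1, hab.2, h1, h2, cedge he⟩
        · exact Or.inr ⟨b, a, hab.2, hab.1, h2, h1, csymm (cedge he)⟩
  | refl a => exact Or.inl rfl
  | symm a b _ ih =>
    rcases ih with h | ⟨a, b, ha, hb, h1, h2, h3⟩
    · exact Or.inl h.symm
    · exact Or.inr ⟨b, a, hb, ha, h2, h1, csymm h3⟩
  | trans a b c _ _ ih1 ih2 =>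
    rcases ih1 with h | ⟨a1, b1, ha1, hb1, h1, h2, h3⟩
    · rw [h]; exact ih2
    · rcases ih2 with k | ⟨a2, b2, ha2, hb2, k1, k2, k3⟩
      · rw [← k]; exact Or.inr ⟨a1, b1, ha1, hb1, h1, h2, h3⟩
      · have : b1 = a2 := hj hb1 ha2 (h2.trans k1.symm)
        subst this
        exact Or.inr ⟨a1, b2, ha1, hb2, h1, k2, ctrans h3 k3⟩

theorem conn_map_iff {j : V → V'} {S : Set V} (hj : Set.InjOn j S) {T : Set (Sym2 V)}
    (hT : ∀ a b, s(a, b) ∈ T → a ∈ S ∧ b ∈ S) {a b : V} (ha : a ∈ S) (hb : b ∈ S) :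
    Conn ⊥ (Sym2.map j '' T) (j a) (j b) ↔ Conn ⊥ T a b := by
  constructor
  · intro h
    rcases conn_map_aux hj hT h with h | ⟨a1, b1, ha1, hb1, h1, h2, h3⟩
    · rw [hj ha hb h]; exact crefl _ _ _
    · rw [← hj ha1 ha h1, ← hj hb1 hb h2]; exact h3
  · exact conn_map_of

end Pool.Agent.TH830.UST
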