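import Pool.Agent.TH968.UST.Defs2
import Pool.Agent.TH830.UBase2

/-!
# Spanning forests of disjoint unions, restriction, relabelling (job 86)
-/

namespace Pool.Agent.TH830.J86
open Finset Pool.Agent.TH968.UST Pool.Agent.TH830.UST
variable {V : Type*} [DecidableEq V]

set_option linter.unusedSectionVars false

/-- localisation of a connection to a closed set -/
theorem conn_local {T : Set (Sym2 V)} {S : Set V} (hS : ∀ a b, s(a, b) ∈ T → a ∈ S → b ∈ S)
    {a b : V} (h : Conn ⊥ T a b) : (a ∈ S ↔ b ∈ S) ∧ (a ∈ S → Conn ⊥ (T ∩ within S) a b) := by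
  induction h with
  | rel a b h =>
    rcases h with h | h
    · have : a = b := h
      subst this
      exact ⟨Iff.rfl, fun _ => crefl _ _ _⟩
    · have h' : s(b, a) ∈ T := by rwa [Sym2.eq_swap]
      refine ⟨⟨fun k => hS a b h k, fun k => hS b a h' k⟩, fun k => cedge ⟨h, ?_⟩⟩
      intro v hv
      rcases Sym2.mem_iff.1 hv with rfl | rfl
      · exact k
      · exact hS a v h k
  | refl a => exact ⟨Iff.rfl, fun _ => crefl _ _ _⟩
  | symm a b _ ih => exact ⟨ih.1.symm, fun k => csymm (ih.2 (ih.1.2 k))⟩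
  | trans a b c _ _ ih1 ih2 =>
    exact ⟨ih1.1.trans ih2.1, fun k => ctrans (ih1.2 k) (ih2.2 (ih1.1.1 k))⟩

theorem mem_within {S : Set V} {a b : V} : s(a, b) ∈ within S ↔ a ∈ S ∧ b ∈ S := by
  constructor
  · intro h
    exact ⟨h a (Sym2.mem_mk_left _ _), h b (Sym2.mem_mk_right _ _)⟩
  · rintro ⟨h1, h2⟩ v hv
    rcases Sym2.mem_iff.1 hv with rfl | rfl
    · exact h1
    · exact h2

/-- Restriction of a spanning forest to a closed set of vertices. -/
theorem IsSpan_restrict (A T : Set (Sym2 V)) (S : Set V) (hS : ∀ a b, s(a, b) ∈ A → a ∈ S → b ∈ S)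
    (h : IsSpan ⊥ A T) : IsSpan ⊥ (A ∩ within S) (T ∩ within S) := by
  obtain ⟨h1, h2, h3⟩ := h
  refine ⟨Set.inter_subset_inter_left _ h1, ?_, ?_⟩
  · rintro a b ⟨hab, hw⟩
    exact (conn_local (fun a b h => hS a b (h1 h)) (h2 a b hab)).2 (mem_within.1 hw).1
  · rintro a b ⟨hab, hw⟩ hc
    refine h3 a b hab (cmono ?_ hc)
    rintro e ⟨⟨he, -⟩, hne⟩
    exact ⟨he, hne⟩

/-- Being a spanning forest can be checked on each component. -/
theorem IsSpan_of_comp (A T : Set (Sym2 V)) (hTA : T ⊆ A)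
    (h : ∀ a, IsSpan ⊥ (A ∩ within (comp A a)) (T ∩ within (comp A a))) : IsSpan ⊥ A T := by
  have hcl : ∀ a u v, s(u, v) ∈ A → u ∈ comp A a → v ∈ comp A a := by
    intro a u v huv hu
    exact ctrans hu (cedge huv)
  refine ⟨hTA, ?_, ?_⟩
  · intro a b hab
    have hw : s(a, b) ∈ within (comp A a) := mem_within.2 ⟨crefl _ _ _, cedge hab⟩
    exact cmono Set.inter_subset_left ((h a).2.1 a b ⟨hab, hw⟩)
  · intro a b hab hc
    have hw : s(a, b) ∈ within (comp A a) := mem_within.2 ⟨crefl _ _ _, cedge (hTA hab)⟩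
    have h1 := (conn_local (S := comp A a) (fun u v huv hu => hcl a u v (hTA huv.1) hu) hc).2
      (crefl _ _ _)
    refine (h a).2.2 a b ⟨hab, hw⟩ (cmono ?_ h1)
    rintro e ⟨⟨he, hne⟩, hew⟩
    exact ⟨⟨he, hew⟩, hne⟩

theorem mem_trees' {r : Setoid V} {E T : Finset (Sym2 V)} :
    T ∈ trees r E ↔ IsSpan r (E : Set (Sym2 V)) (T : Set (Sym2 V)) := by
  classical
  unfold trees
  rw [Finset.mem_filter, Finset.mem_powerset]
  constructor
  · exact fun h => h.2
  · exact fun h => ⟨Finset.coe_subset.1 h.1, h⟩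

/-- Spanning forests of a vertex-disjoint union. -/
theorem trees_union (E₁ E₂ : Finset (Sym2 V)) (S₁ S₂ : Set V) (hd : Disjoint S₁ S₂)
    (h1 : (E₁ : Set (Sym2 V)) ⊆ within S₁) (h2 : (E₂ : Set (Sym2 V)) ⊆ within S₂) :
    (∀ T, T ∈ trees ⊥ (E₁ ∪ E₂) ↔
      T ⊆ E₁ ∪ E₂ ∧ T ∩ E₁ ∈ trees ⊥ E₁ ∧ T ∩ E₂ ∈ trees ⊥ E₂) ∧
    (trees ⊥ (E₁ ∪ E₂)).card = (trees ⊥ E₁).card * (trees ⊥ E₂).card := by
  -- a symmetric helper
  have key : ∀ (E₁ E₂ : Finset (Sym2 V)) (S₁ S₂ : Set V), Disjoint S₁ S₂ →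
      (E₁ : Set (Sym2 V)) ⊆ within S₁ → (E₂ : Set (Sym2 V)) ⊆ within S₂ →
      (∀ a b, s(a, b) ∈ ((E₁ ∪ E₂ : Finset (Sym2 V)) : Set (Sym2 V)) → a ∈ S₁ → b ∈ S₁) ∧
      (∀ T : Finset (Sym2 V), T ⊆ E₁ ∪ E₂ → (T : Set (Sym2 V)) ∩ within S₁ =
        ((T ∩ E₁ : Finset (Sym2 V)) : Set (Sym2 V))) := by
    intro E₁ E₂ S₁ S₂ hd h1 h2
    constructor
    · intro a b hab ha
      rcases Finset.mem_union.1 (Finset.mem_coe.1 hab) with h | h
      · exact (mem_within.1 (h1 (Finset.mem_coe.2 h))).2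
      · exact absurd ((mem_within.1 (h2 (Finset.mem_coe.2 h))).1)
          (Set.disjoint_left.1 hd ha)
    · intro T hT
      ext e
      rw [Finset.coe_inter]
      constructor
      · rintro ⟨he, hw⟩
        refine ⟨he, ?_⟩
        rcases Finset.mem_union.1 (hT he) with h | h
        · exact h
        · exfalso
          induction e using Sym2.ind with
          | _ a b =>
            exact Set.disjoint_left.1 hd (mem_within.1 hw).1
              (mem_within.1 (h2 (Finset.mem_coe.2 h))).1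
      · rintro ⟨he, hw⟩
        exact ⟨he, h1 hw⟩
  obtain ⟨c1, i1⟩ := key E₁ E₂ S₁ S₂ hd h1 h2
  obtain ⟨c2, i2⟩ := key E₂ E₁ S₂ S₁ hd.symm h2 h1
  rw [Finset.union_comm E₂ E₁] at c2 i2
  have hiff : ∀ T, T ∈ trees ⊥ (E₁ ∪ E₂) ↔
      T ⊆ E₁ ∪ E₂ ∧ T ∩ E₁ ∈ trees ⊥ E₁ ∧ T ∩ E₂ ∈ trees ⊥ E₂ := by
    intro T
    constructor
    · intro hT
      have hsub := (mem_trees.1 hT).1
      have hsp := mem_trees'.1 hT
      refine ⟨hsub, ?_, ?_⟩
      · have := IsSpan_restrict _ _ S₁ c1 hsp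
        rw [i1 _ (Finset.Subset.refl _), i1 T hsub] at this
        rw [mem_trees']
        rwa [Finset.union_inter_cancel_left] at this
      · have := IsSpan_restrict _ _ S₂ c2 hsp
        rw [i2 _ (Finset.Subset.refl _), i2 T hsub] at this
        rw [mem_trees']
        rwa [Finset.union_inter_cancel_right] at this
    · rintro ⟨hsub, hT1, hT2⟩
      obtain ⟨a1, a2, a3⟩ := mem_trees'.1 hT1
      obtain ⟨b1, b2, b3⟩ := mem_trees'.1 hT2
      refine mem_trees'.2 ⟨Finset.coe_subset.2 hsub, ?_, ?_⟩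
      · intro a b hab
        rcases Finset.mem_union.1 (Finset.mem_coe.1 hab) with h | h
        · exact cmono (Finset.coe_subset.2 Finset.inter_subset_left) (a2 a b (Finset.mem_coe.2 h))
        · exact cmono (Finset.coe_subset.2 Finset.inter_subset_left) (b2 a b (Finset.mem_coe.2 h))
      · intro a b hab hc
        have hab' := Finset.mem_coe.1 hab
        rcases Finset.mem_union.1 (hsub hab') with h | h
        · have hw := mem_within.1 (h1 (Finset.mem_coe.2 h))
          have hc' := (conn_local (S := S₁)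
            (fun u v huv hu => c1 u v (Finset.mem_coe.2 (hsub huv.1)) hu) hc).2 hw.1
          refine a3 a b (Finset.mem_coe.2 (Finset.mem_inter.2 ⟨hab', h⟩)) (cmono ?_ hc')
          rintro e ⟨⟨he, hne⟩, hew⟩
          refine ⟨?_, hne⟩
          rw [← i1 T hsub]
          exact ⟨he, hew⟩
        · have hw := mem_within.1 (h2 (Finset.mem_coe.2 h))
          have hc' := (conn_local (S := S₂)
            (fun u v huv hu => c2 u v (Finset.mem_coe.2 (hsub huv.1)) hu) hc).2 hw.1
          refine b3 a b (Finset.mem_coe.2 (Finset.mem_inter.2 ⟨hab', h⟩)) (cmono ?_ hc')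
          rintro e ⟨⟨he, hne⟩, hew⟩
          refine ⟨?_, hne⟩
          rw [← i2 T hsub]
          exact ⟨he, hew⟩
  refine ⟨hiff, ?_⟩
  rw [← Finset.card_product]
  have hdis : ∀ e, e ∈ E₁ → e ∉ E₂ := by
    intro e he he'
    induction e using Sym2.ind with
    | _ a b =>
      exact Set.disjoint_left.1 hd (mem_within.1 (h1 (Finset.mem_coe.2 he))).1
        (mem_within.1 (h2 (Finset.mem_coe.2 he'))).1
  have hI : ∀ T₁ T₂ : Finset (Sym2 V), T₁ ⊆ E₁ → T₂ ⊆ E₂ →
      (T₁ ∪ T₂) ∩ E₁ = T₁ ∧ (T₁ ∪ T₂) ∩ E₂ = T₂ := by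
    intro T₁ T₂ k1 k2
    constructor
    · ext e
      simp only [Finset.mem_inter, Finset.mem_union]
      constructor
      · rintro ⟨h | h, h'⟩
        · exact h
        · exact absurd (k2 h) (hdis e h')
      · intro h; exact ⟨Or.inl h, k1 h⟩
    · ext e
      simp only [Finset.mem_inter, Finset.mem_union]
      constructor
      · rintro ⟨h | h, h'⟩
        · exact absurd h' (hdis e (k1 h))
        · exact h
      · intro h; exact ⟨Or.inr h, k2 h⟩
  refine Finset.card_bij' (fun T _ => (T ∩ E₁, T ∩ E₂)) (fun p _ => p.1 ∪ p.2) ?_ ?_ ?_ ?_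
  · intro T hT
    obtain ⟨-, k1, k2⟩ := (hiff T).1 hT
    exact Finset.mem_product.2 ⟨k1, k2⟩
  · rintro ⟨T₁, T₂⟩ hp
    obtain ⟨k1, k2⟩ := Finset.mem_product.1 hp
    have s1 := (mem_trees.1 k1).1
    have s2 := (mem_trees.1 k2).1
    obtain ⟨e1, e2⟩ := hI T₁ T₂ s1 s2
    refine (hiff _).2 ⟨Finset.union_subset_union s1 s2, ?_, ?_⟩
    · show (T₁ ∪ T₂) ∩ E₁ ∈ _
      rw [e1]; exact k1
    · show (T₁ ∪ T₂) ∩ E₂ ∈ _
      rw [e2]; exact k2
  · intro T hT
    obtain ⟨k0, -, -⟩ := (hiff T).1 hT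
    show T ∩ E₁ ∪ T ∩ E₂ = T
    rw [← Finset.inter_union_distrib_left, Finset.inter_eq_left.2 k0]
  · rintro ⟨T₁, T₂⟩ hp
    obtain ⟨k1, k2⟩ := Finset.mem_product.1 hp
    obtain ⟨e1, e2⟩ := hI T₁ T₂ (mem_trees.1 k1).1 (mem_trees.1 k2).1
    show ((T₁ ∪ T₂) ∩ E₁, (T₁ ∪ T₂) ∩ E₂) = (T₁, T₂)
    rw [e1, e2]

/-- Relabelling by a map that is injective on the vertices. -/
theorem map_injOn {V' : Type*} (j : V → V') (S : Set V) (hj : Set.InjOn j S) :
    Set.InjOn (Sym2.map j) (within S) := by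
  intro e he e' he' h
  induction e using Sym2.ind with
  | _ a b =>
    induction e' using Sym2.ind with
    | _ c d =>
      obtain ⟨ha, hb⟩ := mem_within.1 he
      obtain ⟨hc, hd⟩ := mem_within.1 he'
      rw [Sym2.map_mk, Sym2.map_mk] at h
      rcases Sym2.eq_iff.1 h with ⟨h1, h2⟩ | ⟨h1, h2⟩
      · rw [hj ha hc h1, hj hb hd h2]
      · rw [hj ha hd h1, hj hb hc h2, Sym2.eq_swap]

theorem trees_image {V' : Type*} [DecidableEq V'] (j : V → V') (S : Set V) (hj : Set.InjOn j S)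
    (E : Finset (Sym2 V)) (hE : (E : Set (Sym2 V)) ⊆ within S) :
    trees ⊥ (E.image (Sym2.map j)) = (trees ⊥ E).image (fun T => T.image (Sym2.map j)) := by
  classical
  have hinj := map_injOn j S hj
  have hS : ∀ T : Finset (Sym2 V), T ⊆ E → ∀ a b, s(a, b) ∈ (T : Set (Sym2 V)) → a ∈ S ∧ b ∈ S :=
    fun T hT a b hab => mem_within.1 (hE (Finset.mem_coe.2 (hT (Finset.mem_coe.1 hab))))
  -- comparison for subsets of `E`
  have hcmp : ∀ T : Finset (Sym2 V), T ⊆ E →
      (T.image (Sym2.map j) ∈ trees ⊥ (E.image (Sym2.map j)) ↔ T ∈ trees ⊥ E) := by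
    intro T hT
    rw [mem_trees', mem_trees']
    have himg : ∀ e ∈ T, Sym2.map j '' ((T : Set (Sym2 V)) \ {e}) =
        ((T.image (Sym2.map j) : Finset (Sym2 V')) : Set (Sym2 V')) \ {Sym2.map j e} := by
      intro e he
      rw [Finset.coe_image]
      ext f
      constructor
      · rintro ⟨g, ⟨hg, hge⟩, rfl⟩
        refine ⟨⟨g, hg, rfl⟩, fun k => hge ?_⟩
        exact hinj (hE (Finset.mem_coe.2 (hT hg))) (hE (Finset.mem_coe.2 (hT he))) k
      · rintro ⟨⟨g, hg, rfl⟩, hge⟩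
        exact ⟨g, ⟨hg, fun k => hge (by rw [k]; rfl)⟩, rfl⟩
    constructor
    · rintro ⟨-, g2, g3⟩
      refine ⟨Finset.coe_subset.2 hT, ?_, ?_⟩
      · intro a b hab
        have hab' := mem_within.1 (hE hab)
        have h := g2 (j a) (j b) (by
          rw [Finset.coe_image]; exact ⟨s(a, b), hab, rfl⟩)
        rw [Finset.coe_image] at h
        exact (conn_map_iff hj (hS T hT) hab'.1 hab'.2).1 h
      · intro a b hab hc
        refine g3 (j a) (j b) (by
          rw [Finset.coe_image]; exact ⟨s(a, b), hab, rfl⟩) ?_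
        rw [show s(j a, j b) = Sym2.map j s(a, b) from rfl, ← himg _ (Finset.mem_coe.1 hab)]
        exact conn_map_of hc
    · rintro ⟨-, g2, g3⟩
      refine ⟨Finset.coe_subset.2 (Finset.image_subset_image hT), ?_, ?_⟩
      · intro u v huv
        rw [Finset.coe_image] at huv
        obtain ⟨e, he, heq⟩ := huv
        induction e using Sym2.ind with
        | _ a b =>
          have h := conn_map_of (j := j) (g2 a b he)
          rw [Finset.coe_image]
          rw [Sym2.map_mk] at heq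
          rcases Sym2.eq_iff.1 heq with ⟨rfl, rfl⟩ | ⟨rfl, rfl⟩
          · exact h
          · exact csymm h
      · intro u v huv hc
        rw [Finset.coe_image] at huv
        obtain ⟨e, he, heq⟩ := huv
        have he' := Finset.mem_coe.1 he
        induction e using Sym2.ind with
        | _ a b =>
          have hab' := hS T hT a b he
          rw [← heq, ← himg _ he'] at hc
          rw [Sym2.map_mk] at heq
          have hc' : Conn ⊥ (Sym2.map j '' ((T : Set (Sym2 V)) \ {s(a, b)})) (j a) (j b) := by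
            rcases Sym2.eq_iff.1 heq with ⟨rfl, rfl⟩ | ⟨rfl, rfl⟩
            · exact hc
            · exact csymm hc
          refine g3 a b he ((conn_map_iff hj ?_ hab'.1 hab'.2).1 hc')
          intro c d hcd
          exact hS T hT c d hcd.1
  ext T'
  rw [Finset.mem_image]
  constructor
  · intro hT'
    have hsub := (mem_trees.1 hT').1
    have hT'eq : (E.filter (fun e => Sym2.map j e ∈ T')).image (Sym2.map j) = T' := by
      ext f
      rw [Finset.mem_image]
      constructor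
      · rintro ⟨e, he, rfl⟩
        exact (Finset.mem_filter.1 he).2
      · intro hf
        obtain ⟨e, he, rfl⟩ := Finset.mem_image.1 (hsub hf)
        exact ⟨e, Finset.mem_filter.2 ⟨he, hf⟩, rfl⟩
    refine ⟨E.filter (fun e => Sym2.map j e ∈ T'), ?_, hT'eq⟩
    rw [← hcmp _ (Finset.filter_subset _ _), hT'eq]
    exact hT'
  · rintro ⟨T, hT, rfl⟩
    exact (hcmp T (mem_trees.1 hT).1).2 hT

end Pool.Agent.TH830.J86
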