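import Pool.Agent.TH968.UST.Defs2
import Pool.Agent.TH830.UBase2

/-!
# Equivariance of the construction (job 90)
-/

namespace Pool.Agent.TH830.J90
open MeasureTheory Pool.Agent.TH968.UST Pool.Agent.TH830.UST
open scoped ENNReal unitInterval
variable {V : Type*}

theorem Conn_map (γ : Equiv.Perm V) (A : Set (Sym2 V)) (a b : V) :
    Conn ⊥ (Sym2.map γ '' A) (γ a) (γ b) ↔ Conn ⊥ A a b :=
  conn_map_iff (S := Set.univ) γ.injective.injOn (fun _ _ _ => ⟨trivial, trivial⟩) trivial trivial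

theorem comp_map (γ : Equiv.Perm V) (A : Set (Sym2 V)) (a : V) :
    comp (Sym2.map γ '' A) (γ a) = γ '' comp A a := by
  ext x
  obtain ⟨x, rfl⟩ := γ.surjective x
  rw [Function.Injective.mem_set_image γ.injective]
  exact Conn_map γ A a x

theorem avg_map (γ : Equiv.Perm V) (G : SimpleGraph V) (f : V → ℝ≥0∞) (v : V) :
    avg (G.map γ.toEmbedding) f (γ v) = avg G (fun w => f (γ w)) v := by
  classical
  have hadj : ∀ w, (G.map γ.toEmbedding).Adj (γ v) (γ w) ↔ G.Adj v w := by
    intro w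
    exact SimpleGraph.map_adj_apply (G := G) (f := γ.toEmbedding)
  unfold avg
  congr 1
  · rw [← Equiv.tsum_eq γ]
    refine tsum_congr fun w => ?_
    by_cases h : G.Adj v w
    · rw [if_pos ((hadj w).2 h), if_pos h]
    · rw [if_neg (fun k => h ((hadj w).1 k)), if_neg h]
  · rw [← Equiv.tsum_eq γ]
    refine tsum_congr fun w => ?_
    by_cases h : G.Adj v w
    · rw [if_pos ((hadj w).2 h), if_pos h]
    · rw [if_neg (fun k => h ((hadj w).1 k)), if_neg h]

theorem nu_map (γ : Equiv.Perm V) (G : SimpleGraph V) (R : Set V) (n : ℕ) (v r : V) :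
    nu (G.map γ.toEmbedding) (γ '' R) n (γ v) (γ r) = nu G R n v r := by
  classical
  have hR : ∀ w, γ w ∈ γ '' R ↔ w ∈ R := fun w => Function.Injective.mem_set_image γ.injective
  induction n generalizing v with
  | zero =>
    unfold nu
    refine if_congr ?_ rfl rfl
    rw [hR, γ.injective.eq_iff]
  | succ n ih =>
    unfold nu
    refine if_congr (hR v) (if_congr γ.injective.eq_iff rfl rfl) ?_
    rw [avg_map]
    congr 1
    funext w
    exact ih w

theorem Kept_map (γ : Equiv.Perm V) (G : SimpleGraph V) (R : Set V) (N K : ℕ)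
    (θ : ℕ → V → I) (a b : V) :
    Kept (G.map γ.toEmbedding) (γ '' R) N K (fun k v => θ k (γ.symm v)) (γ a) (γ b) ↔
      Kept G R N K θ a b := by
  unfold Kept
  refine and_congr ?_ ?_
  · refine exists_congr fun k => and_congr Iff.rfl ?_
    rw [γ.surjective.exists]
    refine exists_congr fun r => ?_
    simp only [nu_map, Equiv.symm_apply_apply]
  · refine forall_congr' fun k => imp_congr Iff.rfl ?_
    rw [γ.surjective.forall]
    refine forall_congr' fun r => ?_
    simp only [nu_map, Equiv.symm_apply_apply]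

theorem Aseq_map (γ : Equiv.Perm V) (G : SimpleGraph V) (ε : ℕ → ℝ) (N K : ℕ → ℕ)
    (α : ℕ → V → I) (θ : ℕ → ℕ → V → I) (n : ℕ) :
    Aseq (G.map γ.toEmbedding) ε N K (fun m v => α m (γ.symm v))
      (fun m k v => θ m k (γ.symm v)) n = Sym2.map γ '' Aseq G ε N K α θ n := by
  cases n with
  | zero => simp [Aseq]
  | succ n =>
    have hset : ∀ m, {v | (α m (γ.symm v) : ℝ) < ε m} = γ '' {v | (α m v : ℝ) < ε m} := by
      intro m
      ext v
      obtain ⟨v, rfl⟩ := γ.surjective v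
      rw [Function.Injective.mem_set_image γ.injective]
      simp
    have key : ∀ a b, ((G.map γ.toEmbedding).Adj (γ a) (γ b) ∧
        (Finite V ∨ ∀ m ≥ n, Kept (G.map γ.toEmbedding) {v | (α m (γ.symm v) : ℝ) < ε m} (N m)
          (K m) (fun k v => θ m k (γ.symm v)) (γ a) (γ b))) ↔
        (G.Adj a b ∧ (Finite V ∨ ∀ m ≥ n, Kept G {v | (α m v : ℝ) < ε m} (N m) (K m) (θ m) a b)) := by
      intro a b
      refine and_congr (SimpleGraph.map_adj_apply (G := G) (f := γ.toEmbedding)) ?_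
      refine or_congr Iff.rfl (forall_congr' fun m => imp_congr Iff.rfl ?_)
      rw [hset]
      exact Kept_map γ G _ _ _ (θ m) a b
    ext e
    constructor
    · rintro ⟨a, b, rfl, h⟩
      obtain ⟨a, rfl⟩ := γ.surjective a
      obtain ⟨b, rfl⟩ := γ.surjective b
      exact ⟨s(a, b), ⟨a, b, rfl, (key a b).1 h⟩, rfl⟩
    · rintro ⟨e, ⟨a, b, rfl, h⟩, rfl⟩
      exact ⟨γ a, γ b, rfl, (key a b).2 h⟩

theorem mem_map_iff (γ : Equiv.Perm V) (X : Set (Sym2 V)) (a b : V) :
    s(γ a, γ b) ∈ Sym2.map γ '' X ↔ s(a, b) ∈ X := by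
  rw [← Sym2.map_mk, Function.Injective.mem_set_image (Sym2.map.injective γ.injective)]

theorem rk_map (γ : Equiv.Perm V) (s : V → I) (C : Set V) (x : V) :
    rk (fun v => s (γ.symm v)) (γ '' C) (γ x) = rk s C x := by
  unfold rk
  rw [← Set.ncard_image_of_injective {y | y ∈ C ∧ s y < s x} γ.injective]
  congr 1
  ext y
  obtain ⟨y, rfl⟩ := γ.surjective y
  rw [Function.Injective.mem_set_image γ.injective]
  show (γ y ∈ γ '' C ∧ s (γ.symm (γ y)) < s (γ.symm (γ x))) ↔ (y ∈ C ∧ s y < s x)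
  rw [Function.Injective.mem_set_image γ.injective, Equiv.symm_apply_apply,
    Equiv.symm_apply_apply]

theorem img_map (γ : Equiv.Perm V) (s : V → I) (C : Set V) (X : Set (Sym2 V)) :
    img (fun v => s (γ.symm v)) (γ '' C) (Sym2.map γ '' X) = img s C X := by
  unfold img
  congr 1
  ext e
  show (∃ x y, _) ↔ (∃ x y, _)
  rw [γ.surjective.exists]
  refine exists_congr fun x => ?_
  rw [γ.surjective.exists]
  refine exists_congr fun y => ?_
  rw [Function.Injective.mem_set_image γ.injective, Function.Injective.mem_set_image γ.injective,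
    mem_map_iff, rk_map, rk_map]

theorem step_map (γ : Equiv.Perm V)
    (Kc : Finset (Sym2 ℕ) → Finset (Sym2 ℕ) → Finset (Sym2 ℕ) → I → Finset (Sym2 ℕ))
    (s : V → I) (A A' T : Set (Sym2 V)) (w : V → I) :
    step Kc (fun v => s (γ.symm v)) (Sym2.map γ '' A) (Sym2.map γ '' A') (Sym2.map γ '' T)
      (fun v => w (γ.symm v)) = Sym2.map γ '' step Kc s A A' T w := by
  have key : ∀ a b, (s(γ a, γ b) ∈ Sym2.map γ '' A' ∧
      ∃ x ∈ comp (Sym2.map γ '' A') (γ a),
        rk (fun v => s (γ.symm v)) (comp (Sym2.map γ '' A') (γ a)) x = 0 ∧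
        s(rk (fun v => s (γ.symm v)) (comp (Sym2.map γ '' A') (γ a)) (γ a),
          rk (fun v => s (γ.symm v)) (comp (Sym2.map γ '' A') (γ a)) (γ b)) ∈
          Kc (img (fun v => s (γ.symm v)) (comp (Sym2.map γ '' A') (γ a)) (Sym2.map γ '' A))
            (img (fun v => s (γ.symm v)) (comp (Sym2.map γ '' A') (γ a)) (Sym2.map γ '' A'))
            (img (fun v => s (γ.symm v)) (comp (Sym2.map γ '' A') (γ a)) (Sym2.map γ '' T))
            (w (γ.symm x))) ↔
      (s(a, b) ∈ A' ∧ ∃ x ∈ comp A' a, rk s (comp A' a) x = 0 ∧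
        s(rk s (comp A' a) a, rk s (comp A' a) b) ∈
          Kc (img s (comp A' a) A) (img s (comp A' a) A') (img s (comp A' a) T) (w x)) := by
    intro a b
    rw [comp_map, mem_map_iff]
    refine and_congr Iff.rfl ?_
    rw [γ.surjective.exists]
    refine exists_congr fun x => ?_
    rw [Function.Injective.mem_set_image γ.injective, rk_map, rk_map, rk_map, img_map, img_map,
      img_map, Equiv.symm_apply_apply]
  ext e
  constructor
  · rintro ⟨a, b, rfl, h⟩
    obtain ⟨a, rfl⟩ := γ.surjective a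
    obtain ⟨b, rfl⟩ := γ.surjective b
    exact ⟨s(a, b), ⟨a, b, rfl, (key a b).1 h⟩, rfl⟩
  · rintro ⟨e, ⟨a, b, rfl, h⟩, rfl⟩
    exact ⟨γ a, γ b, rfl, (key a b).2 h⟩

theorem Tseq_map (γ : Equiv.Perm V)
    (Kc : Finset (Sym2 ℕ) → Finset (Sym2 ℕ) → Finset (Sym2 ℕ) → I → Finset (Sym2 ℕ))
    (s : V → I) (A : ℕ → Set (Sym2 V)) (W : ℕ → V → I) (n : ℕ) :
    Tseq Kc (fun v => s (γ.symm v)) (fun n => Sym2.map γ '' A n) (fun n v => W n (γ.symm v)) n =
      Sym2.map γ '' Tseq Kc s A W n := by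
  induction n with
  | zero => simp [Tseq]
  | succ n ih =>
    show step Kc (fun v => s (γ.symm v)) (Sym2.map γ '' A n) (Sym2.map γ '' A (n + 1))
      (Tseq Kc (fun v => s (γ.symm v)) (fun n => Sym2.map γ '' A n)
        (fun n v => W n (γ.symm v)) n) (fun v => W n (γ.symm v)) = _
    rw [ih, step_map]
    rfl

end Pool.Agent.TH830.J90
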