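import Pool.Agent.TH968.UST.Defs

/-!
# Basic lemmas on connectivity and spanning trees with identified vertices
-/

namespace Pool.Agent.TH830.UST
open Finset Pool.Agent.TH968.UST
variable {V : Type*}

theorem crefl (r : Setoid V) (T : Set (Sym2 V)) (a : V) : Conn r T a a := Relation.EqvGen.refl _

theorem csymm {r : Setoid V} {T : Set (Sym2 V)} {a b : V} (h : Conn r T a b) : Conn r T b a :=
  Relation.EqvGen.symm _ _ h

theorem ctrans {r : Setoid V} {T : Set (Sym2 V)} {a b c : V} (h : Conn r T a b)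
    (h' : Conn r T b c) : Conn r T a c :=
  Relation.EqvGen.trans _ _ _ h h'

theorem crel {r : Setoid V} {T : Set (Sym2 V)} {a b : V} (h : r a b) : Conn r T a b :=
  Relation.EqvGen.rel _ _ (Or.inl h)

theorem cedge {r : Setoid V} {T : Set (Sym2 V)} {a b : V} (h : s(a, b) ∈ T) :
    Conn r T a b :=
  Relation.EqvGen.rel _ _ (Or.inr h)

/-- general comparison -/
theorem clift {r r' : Setoid V} {T T' : Set (Sym2 V)} (hr : ∀ a b, r a b → Conn r' T' a b)
    (hT : ∀ a b, s(a, b) ∈ T → Conn r' T' a b) {a b : V} (h : Conn r T a b) : Conn r' T' a b := by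
  induction h with
  | rel a b h => exact h.elim (hr a b) (hT a b)
  | refl a => exact crefl _ _ _
  | symm a b _ ih => exact csymm ih
  | trans a b c _ _ ih1 ih2 => exact ctrans ih1 ih2

theorem cmono {r : Setoid V} {T T' : Set (Sym2 V)} (hT : T ⊆ T') {a b : V}
    (h : Conn r T a b) : Conn r T' a b :=
  clift (fun _ _ h => crel h) (fun _ _ h => cedge (hT h)) h

theorem cempty {r : Setoid V} {a b : V} (h : Conn r ∅ a b) : r a b := by
  induction h with
  | rel a b h => exact h.elim id (fun h => absurd h (Set.notMem_empty _))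
  | refl a => exact r.refl a
  | symm a b _ ih => exact r.symm ih
  | trans a b c _ _ ih1 ih2 => exact r.trans ih1 ih2

/-- adding one edge -/
theorem cinsert {r : Setoid V} {T : Set (Sym2 V)} {x y a b : V}
    (h : Conn r (insert s(x, y) T) a b) :
    Conn r T a b ∨ (Conn r T a x ∧ Conn r T y b) ∨ (Conn r T a y ∧ Conn r T x b) := by
  induction h with
  | rel a b h =>
    rcases h with h | h
    · exact Or.inl (crel h)
    · rcases Set.mem_insert_iff.1 h with h | h
      · rcases Sym2.eq_iff.1 h with ⟨rfl, rfl⟩ | ⟨rfl, rfl⟩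
        · exact Or.inr (Or.inl ⟨crefl _ _ _, crefl _ _ _⟩)
        · exact Or.inr (Or.inr ⟨crefl _ _ _, crefl _ _ _⟩)
      · exact Or.inl (cedge h)
  | refl a => exact Or.inl (crefl _ _ _)
  | symm a b _ ih =>
    rcases ih with h | ⟨h1, h2⟩ | ⟨h1, h2⟩
    · exact Or.inl (csymm h)
    · exact Or.inr (Or.inr ⟨csymm h2, csymm h1⟩)
    · exact Or.inr (Or.inl ⟨csymm h2, csymm h1⟩)
  | trans a b c _ _ ih1 ih2 =>
    rcases ih1 with h | ⟨h1, h2⟩ | ⟨h1, h2⟩ <;> rcases ih2 with k | ⟨k1, k2⟩ | ⟨k1, k2⟩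
    · exact Or.inl (ctrans h k)
    · exact Or.inr (Or.inl ⟨ctrans h k1, k2⟩)
    · exact Or.inr (Or.inr ⟨ctrans h k1, k2⟩)
    · exact Or.inr (Or.inl ⟨h1, ctrans h2 k⟩)
    · exact Or.inr (Or.inl ⟨h1, k2⟩)
    · exact Or.inl (ctrans h1 k2)
    · exact Or.inr (Or.inr ⟨h1, ctrans h2 k⟩)
    · exact Or.inl (ctrans h1 k2)
    · exact Or.inr (Or.inr ⟨h1, k2⟩)

/-- removing one edge -/
theorem cdiff {r : Setoid V} {T : Set (Sym2 V)} {x y a b : V} (h : Conn r T a b) :
    Conn r (T \ {s(x, y)}) a b ∨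
      (Conn r (T \ {s(x, y)}) a x ∧ Conn r (T \ {s(x, y)}) y b) ∨
      (Conn r (T \ {s(x, y)}) a y ∧ Conn r (T \ {s(x, y)}) x b) := by
  apply cinsert
  refine cmono (fun e he => ?_) h
  by_cases h : e = s(x, y)
  · exact Or.inl h
  · exact Or.inr ⟨he, h⟩

/-- An independent set: every edge is a bridge. -/
def Indep (r : Setoid V) (T : Set (Sym2 V)) : Prop :=
  ∀ a b, s(a, b) ∈ T → ¬ Conn r (T \ {s(a, b)}) a b

theorem Indep.mono {r : Setoid V} {S T : Set (Sym2 V)} (hT : Indep r T) (h : S ⊆ T) :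
    Indep r S := by
  intro a b hab hc
  refine hT a b (h hab) (cmono ?_ hc)
  intro e he
  exact ⟨h he.1, he.2⟩

/-- adding an edge between different classes keeps independence -/
theorem Indep.insert {r : Setoid V} {S : Set (Sym2 V)} (hS : Indep r S) {a b : V}
    (hab : ¬ Conn r S a b) : Indep r (Insert.insert s(a, b) S) := by
  have hf : s(a, b) ∉ S := fun h => hab (cedge h)
  intro c d hcd hc
  by_cases he : s(c, d) = s(a, b)
  · have : (Insert.insert s(a, b) S : Set (Sym2 V)) \ {s(c, d)} = S := by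
      rw [he]
      ext e
      simp only [Set.mem_sdiff, Set.mem_insert_iff, Set.mem_singleton_iff]
      constructor
      · rintro ⟨h1 | h1, h2⟩
        · exact absurd h1 h2
        · exact h1
      · intro h
        exact ⟨Or.inr h, fun h' => hf (h' ▸ h)⟩
    rw [this] at hc
    rcases Sym2.eq_iff.1 he with ⟨rfl, rfl⟩ | ⟨rfl, rfl⟩
    · exact hab hc
    · exact hab (csymm hc)
  · have hcS : s(c, d) ∈ S := (Set.mem_insert_iff.1 hcd).resolve_left he
    have hc' : Conn r (Insert.insert s(a, b) (S \ {s(c, d)})) c d := by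
      refine cmono ?_ hc
      rintro e ⟨he1, he2⟩
      rcases he1 with h | h
      · exact Or.inl h
      · exact Or.inr ⟨h, he2⟩
    have hm : ∀ {u v}, Conn r (S \ {s(c, d)}) u v → Conn r S u v :=
      fun h => cmono (fun _ he => he.1) h
    have hg : Conn r S c d := cedge hcS
    rcases cinsert hc' with h | ⟨h1, h2⟩ | ⟨h1, h2⟩
    · exact hS c d hcS h
    · exact hab (ctrans (csymm (hm h1)) (ctrans hg (csymm (hm h2))))
    · exact hab (ctrans (hm h2) (ctrans (csymm hg) (hm h1)))

theorem mem_trees {r : Setoid V} {E T : Finset (Sym2 V)} :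
    T ∈ trees r E ↔ T ⊆ E ∧ (∀ a b, s(a, b) ∈ E → Conn r (T : Set (Sym2 V)) a b) ∧
      Indep r (T : Set (Sym2 V)) := by
  classical
  unfold trees
  rw [Finset.mem_filter, Finset.mem_powerset]
  constructor
  · rintro ⟨h1, h2, h3, h4⟩
    exact ⟨h1, fun a b hab => h3 a b (by simpa using hab), h4⟩
  · rintro ⟨h1, h2, h3⟩
    exact ⟨h1, by simpa using h1, fun a b hab => h2 a b (by simpa using hab), h3⟩

/-- every independent subset extends to a tree -/
theorem exists_tree_ge [DecidableEq V] (r : Setoid V) (E S : Finset (Sym2 V)) (hS : S ⊆ E)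
    (hi : Indep r (S : Set (Sym2 V))) : ∃ T ∈ trees r E, S ⊆ T := by
  classical
  let F := E.powerset.filter (fun T => S ⊆ T ∧ Indep r (T : Set (Sym2 V)))
  have hF : F.Nonempty := ⟨S, by simp [F, hS, hi]⟩
  obtain ⟨T, hT, hmax⟩ := Finset.exists_max_image F Finset.card hF
  have hT' : T ⊆ E ∧ S ⊆ T ∧ Indep r (T : Set (Sym2 V)) := by simpa [F] using hT
  refine ⟨T, mem_trees.2 ⟨hT'.1, ?_, hT'.2.2⟩, hT'.2.1⟩
  intro a b hab
  by_contra hc
  have hn : s(a, b) ∉ T := fun h => hc (cedge (by simpa using h))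
  have h1 : Insert.insert s(a, b) T ∈ F := by
    simp only [F, Finset.mem_filter, Finset.mem_powerset, Finset.coe_insert]
    refine ⟨Finset.insert_subset hab hT'.1, hT'.2.1.trans (Finset.subset_insert _ _),
      hT'.2.2.insert hc⟩
  have h2 := hmax _ h1
  rw [Finset.card_insert_of_notMem hn] at h2
  omega

theorem indep_empty (r : Setoid V) : Indep r (∅ : Set (Sym2 V)) :=
  fun _ _ h => absurd h (Set.notMem_empty _)

theorem trees_nonempty [DecidableEq V] (r : Setoid V) (E : Finset (Sym2 V)) :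
    (trees r E).Nonempty := by
  obtain ⟨T, hT, -⟩ := exists_tree_ge r E ∅ (Finset.empty_subset _) (by simpa using indep_empty r)
  exact ⟨T, hT⟩

theorem bridge [DecidableEq V] {r : Setoid V} {E T : Finset (Sym2 V)} (hT : T ∈ trees r E)
    {x y : V} (he : s(x, y) ∈ T) :
    ¬ Conn r ((T.erase s(x, y) : Finset (Sym2 V)) : Set (Sym2 V)) x y := by
  rw [Finset.coe_erase]
  exact (mem_trees.1 hT).2.2 x y (by simpa using he)

/-- the exchange lemma: `T - e + f` is a tree if the endpoints of `f` are not connected in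
`T - e` -/
theorem exchange [DecidableEq V] {r : Setoid V} {E T : Finset (Sym2 V)} (hT : T ∈ trees r E)
    {x y a b : V} (hf : s(a, b) ∈ E)
    (hn : ¬ Conn r ((T.erase s(x, y) : Finset (Sym2 V)) : Set (Sym2 V)) a b) :
    Insert.insert s(a, b) (T.erase s(x, y)) ∈ trees r E := by
  obtain ⟨h1, h2, h3⟩ := mem_trees.1 hT
  refine mem_trees.2 ⟨Finset.insert_subset hf ((Finset.erase_subset _ _).trans h1), ?_, ?_⟩
  · intro c d hcd
    refine clift (fun _ _ h => crel h) ?_ (h2 c d hcd)
    intro u v huv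
    have hxy : Conn r (((Insert.insert s(a, b) (T.erase s(x, y))) : Finset (Sym2 V)) :
        Set (Sym2 V)) x y := by
      have hm : ∀ {u v}, Conn r ((T.erase s(x, y) : Finset (Sym2 V)) : Set (Sym2 V)) u v →
          Conn r (((Insert.insert s(a, b) (T.erase s(x, y))) : Finset (Sym2 V)) :
            Set (Sym2 V)) u v :=
        fun h => cmono (Finset.coe_subset.2 (Finset.subset_insert _ _)) h
      have hab : Conn r (((Insert.insert s(a, b) (T.erase s(x, y))) : Finset (Sym2 V)) :
            Set (Sym2 V)) a b :=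
        cedge (Finset.mem_coe.2 (Finset.mem_insert_self _ _))
      have h := cdiff (x := x) (y := y) (h2 a b hf)
      rw [← Finset.coe_erase] at h
      rcases h with h | ⟨k1, k2⟩ | ⟨k1, k2⟩
      · exact absurd h hn
      · exact ctrans (csymm (hm k1)) (ctrans hab (csymm (hm k2)))
      · exact ctrans (hm k2) (ctrans (csymm hab) (hm k1))
    by_cases hh : s(u, v) = s(x, y)
    · rcases Sym2.eq_iff.1 hh with ⟨rfl, rfl⟩ | ⟨rfl, rfl⟩
      · exact hxy
      · exact csymm hxy
    · refine cedge ?_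
      rw [Finset.coe_insert]
      refine Or.inr ?_
      rw [Finset.coe_erase]
      exact ⟨huv, hh⟩
  · rw [Finset.coe_insert]
    refine Indep.insert ?_ hn
    exact h3.mono (Finset.coe_subset.2 (Finset.erase_subset _ _))

end Pool.Agent.TH830.UST
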